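import Pool.Agent.Lib.MP_280b4e_pr.Defs

/-!
Basic definitions: the cubic lattice, finite subgraphs of the half space, weights, classes of
finite graphs, sums of weights, comparison and transfer lemmas.
-/

namespace Pool.Agent.Lib.MP_280b4e_pr

open scoped ENNReal
open Classical

/-- Directions: axis and sign. -/
abbrev Dir := Fin 3 × Bool

/-- Unit step in direction `d`. -/
def st (d : Dir) : P := fun j => if j = d.1 then (if d.2 then 1 else -1) else 0

/-- Opposite direction. -/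
def opp (d : Dir) : Dir := (d.1, !d.2)

/-- Unit vector. -/
def e (i : Fin 3) : P := fun j => if j = i then 1 else 0

theorem st_true (i : Fin 3) : st (i, true) = e i := by
  funext j; simp [st, e]

theorem st_false (i : Fin 3) : st (i, false) = - e i := by
  funext j; simp only [st, e, Pi.neg_apply]; split_ifs <;> simp_all

theorem st_opp (d : Dir) : st (opp d) = - st d := by
  obtain ⟨i, b⟩ := d
  funext j; cases b <;> simp [st, opp] <;> split_ifs <;> simp

@[simp] theorem opp_opp (d : Dir) : opp (opp d) = d := by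
  obtain ⟨i, b⟩ := d; simp [opp]

theorem st_injective : Function.Injective st := by
  rintro ⟨i, b⟩ ⟨j, c⟩ h
  have h1 := congrFun h i
  simp only [st, if_true] at h1
  by_cases hij : i = j
  · subst hij
    cases b <;> cases c <;> simp_all
  · simp only [hij, if_false] at h1
    cases b <;> simp at h1

theorem adj_iff (x y : P) : Lat.Adj x y ↔
    (x 0 - y 0) ^ 2 + (x 1 - y 1) ^ 2 + (x 2 - y 2) ^ 2 = 1 := Iff.rfl

theorem sq_sum_one {a b c : ℤ} (h : a ^ 2 + b ^ 2 + c ^ 2 = 1) :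
    (a = 1 ∧ b = 0 ∧ c = 0) ∨ (a = -1 ∧ b = 0 ∧ c = 0) ∨
    (a = 0 ∧ b = 1 ∧ c = 0) ∨ (a = 0 ∧ b = -1 ∧ c = 0) ∨
    (a = 0 ∧ b = 0 ∧ c = 1) ∨ (a = 0 ∧ b = 0 ∧ c = -1) := by
  have ha1 : a ≤ 1 := by nlinarith [sq_nonneg b, sq_nonneg c]
  have ha2 : -1 ≤ a := by nlinarith [sq_nonneg b, sq_nonneg c]
  have hb1 : b ≤ 1 := by nlinarith [sq_nonneg a, sq_nonneg c]
  have hb2 : -1 ≤ b := by nlinarith [sq_nonneg a, sq_nonneg c]
  have hc1 : c ≤ 1 := by nlinarith [sq_nonneg b, sq_nonneg a]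
  have hc2 : -1 ≤ c := by nlinarith [sq_nonneg b, sq_nonneg a]
  interval_cases a <;> interval_cases b <;> interval_cases c <;> simp_all

/-- Coordinate form of adjacency, suited to `omega`. -/
theorem adj_coord (x y : P) : Lat.Adj x y ↔
    ((x 0 - y 0 = 1 ∧ x 1 = y 1 ∧ x 2 = y 2) ∨ (x 0 - y 0 = -1 ∧ x 1 = y 1 ∧ x 2 = y 2) ∨
    (x 0 = y 0 ∧ x 1 - y 1 = 1 ∧ x 2 = y 2) ∨ (x 0 = y 0 ∧ x 1 - y 1 = -1 ∧ x 2 = y 2) ∨
    (x 0 = y 0 ∧ x 1 = y 1 ∧ x 2 - y 2 = 1) ∨ (x 0 = y 0 ∧ x 1 = y 1 ∧ x 2 - y 2 = -1)) := by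
  rw [adj_iff]
  constructor
  · intro h
    rcases sq_sum_one h with h | h | h | h | h | h <;> omega
  · rintro (⟨h1, h2, h3⟩ | ⟨h1, h2, h3⟩ | ⟨h1, h2, h3⟩ | ⟨h1, h2, h3⟩ | ⟨h1, h2, h3⟩ | ⟨h1, h2, h3⟩)
    all_goals simp [h1, h2, h3]

theorem P_ext {x y : P} (h0 : x 0 = y 0) (h1 : x 1 = y 1) (h2 : x 2 = y 2) : x = y := by
  funext i; fin_cases i
  · exact h0
  · exact h1
  · exact h2

theorem adj_iff_st (x y : P) : Lat.Adj x y ↔ ∃ d, y = x + st d := by
  rw [adj_coord]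
  constructor
  · rintro (⟨h1, h2, h3⟩ | ⟨h1, h2, h3⟩ | ⟨h1, h2, h3⟩ | ⟨h1, h2, h3⟩ | ⟨h1, h2, h3⟩ | ⟨h1, h2, h3⟩)
    · exact ⟨(0, false), P_ext (by simp [st]; omega) (by simp [st]; omega) (by simp [st]; omega)⟩
    · exact ⟨(0, true), P_ext (by simp [st]; omega) (by simp [st]; omega) (by simp [st]; omega)⟩
    · exact ⟨(1, false), P_ext (by simp [st]; omega) (by simp [st]; omega) (by simp [st]; omega)⟩
    · exact ⟨(1, true), P_ext (by simp [st]; omega) (by simp [st]; omega) (by simp [st]; omega)⟩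
    · exact ⟨(2, false), P_ext (by simp [st]; omega) (by simp [st]; omega) (by simp [st]; omega)⟩
    · exact ⟨(2, true), P_ext (by simp [st]; omega) (by simp [st]; omega) (by simp [st]; omega)⟩
  · rintro ⟨⟨i, b⟩, rfl⟩
    fin_cases i <;> cases b <;> simp [st]

theorem adj_st (x : P) (d : Dir) : Lat.Adj x (x + st d) := (adj_iff_st _ _).2 ⟨d, rfl⟩

theorem adj_e (x : P) (i : Fin 3) : Lat.Adj x (x + e i) := by
  rw [← st_true]; exact adj_st x _

theorem adj_iff_e (x y : P) : Lat.Adj x y ↔ ∃ i, y = x + e i ∨ x = y + e i := by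
  rw [adj_iff_st]
  constructor
  · rintro ⟨⟨i, b⟩, rfl⟩
    refine ⟨i, ?_⟩
    cases b
    · right; rw [st_false]; simp
    · left; rw [st_true]
  · rintro ⟨i, h | h⟩
    · exact ⟨(i, true), by rw [st_true, h]⟩
    · exact ⟨(i, false), by rw [st_false, h]; simp⟩

/-- Finite subgraphs of the lattice inside the half space `0 ≤ x 0`. -/
structure FG where
  G : SimpleGraph P
  le : G ≤ Lat
  fin : G.support.Finite
  half : ∀ x ∈ G.support, 0 ≤ x 0

namespace FG

theorem ext' {A B : FG} (h : ∀ x y, A.G.Adj x y ↔ B.G.Adj x y) : A = B := by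
  have : A.G = B.G := by
    ext x y; exact h x y
  cases A; cases B; simp_all

/-- It is enough to compare positive edges. -/
theorem ext_e {A B : FG} (h : ∀ x i, A.G.Adj x (x + e i) ↔ B.G.Adj x (x + e i)) : A = B := by
  apply ext'
  intro x y
  constructor
  · intro hxy
    obtain ⟨i, rfl | rfl⟩ := (adj_iff_e _ _).1 (A.le hxy)
    · exact (h _ _).1 hxy
    · exact ((h _ _).1 hxy.symm).symm
  · intro hxy
    obtain ⟨i, rfl | rfl⟩ := (adj_iff_e _ _).1 (B.le hxy)
    · exact (h _ _).2 hxy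
    · exact ((h _ _).2 hxy.symm).symm

/-- The vertex set (no isolated vertices). -/
noncomputable def V (F : FG) : Finset P := F.fin.toFinset

theorem mem_V {F : FG} {x : P} : x ∈ F.V ↔ ∃ y, F.G.Adj x y := by
  simp [V, SimpleGraph.mem_support]

theorem mem_V_left {F : FG} {x y : P} (h : F.G.Adj x y) : x ∈ F.V := mem_V.2 ⟨y, h⟩

theorem mem_V_right {F : FG} {x y : P} (h : F.G.Adj x y) : y ∈ F.V := mem_V.2 ⟨x, h.symm⟩

theorem nonneg {F : FG} {x : P} (h : x ∈ F.V) : 0 ≤ x 0 :=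
  F.half x (by obtain ⟨y, hy⟩ := mem_V.1 h; exact ⟨y, hy⟩)

theorem mem_V_st {F : FG} {x : P} : x ∈ F.V ↔ ∃ d, F.G.Adj x (x + st d) := by
  rw [mem_V]
  constructor
  · rintro ⟨y, hy⟩
    obtain ⟨d, rfl⟩ := (adj_iff_st _ _).1 (F.le hy)
    exact ⟨d, hy⟩
  · rintro ⟨d, hd⟩; exact ⟨_, hd⟩

end FG

/-- Degree of `x` (number of directions `d` with an edge from `x` to `x + st d`). -/
noncomputable def deg (G : SimpleGraph P) (x : P) : ℕ :=
  (Finset.univ.filter fun d : Dir => G.Adj x (x + st d)).card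

theorem neighborSet_eq {G : SimpleGraph P} (h : G ≤ Lat) (x : P) :
    G.neighborSet x = (fun d => x + st d) '' {d : Dir | G.Adj x (x + st d)} := by
  ext y
  simp only [SimpleGraph.mem_neighborSet, Set.mem_image]
  constructor
  · intro hy
    obtain ⟨d, rfl⟩ := (adj_iff_st _ _).1 (h hy)
    exact ⟨d, hy, rfl⟩
  · rintro ⟨d, hd, rfl⟩; exact hd

theorem deg_eq_ncard {G : SimpleGraph P} (h : G ≤ Lat) (x : P) :
    deg G x = (G.neighborSet x).ncard := by
  rw [neighborSet_eq h, Set.ncard_image_of_injective]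
  · rw [deg, ← Set.ncard_coe_finset]
    congr 1
    ext d; simp
  · intro a b hab
    exact st_injective (add_left_cancel hab)

theorem deg_eq_zero {G : SimpleGraph P} (h : G ≤ Lat) {x : P} :
    deg G x = 0 ↔ ∀ y, ¬ G.Adj x y := by
  rw [deg, Finset.card_eq_zero, Finset.filter_eq_empty_iff]
  constructor
  · intro H y hy
    obtain ⟨d, rfl⟩ := (adj_iff_st _ _).1 (h hy)
    exact H (Finset.mem_univ d) hy
  · intro H d _; exact H _

/-- Number of contacts at `x`: lattice neighbours in `V` that are not joined to `x`. -/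
noncomputable def cn (F : FG) (x : P) : ℕ :=
  (Finset.univ.filter fun d : Dir => x + st d ∈ F.V ∧ ¬ F.G.Adj x (x + st d)).card

/-- Parameters: wall energy, contact energy, chemical potential. -/
structure Par where
  ζ : ℝ
  γ : ℝ
  θ : ℝ

/-- Local energy. -/
noncomputable def phi (p : Par) (F : FG) (x : P) : ℝ :=
  (if x 0 = 0 then p.ζ else 0) + p.γ / 2 * (cn F x : ℝ) - p.θ

/-- Bound for the local energy. -/
noncomputable def C0 (p : Par) : ℝ := |p.ζ| + 3 * |p.γ| + |p.θ|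

theorem C0_nonneg (p : Par) : 0 ≤ C0 p := by unfold C0; positivity

theorem cn_le (F : FG) (x : P) : cn F x ≤ 6 := by
  unfold cn
  refine (Finset.card_filter_le _ _).trans ?_
  simp

theorem abs_phi_le (p : Par) (F : FG) (x : P) : |phi p F x| ≤ C0 p := by
  have h1 : |(if x 0 = 0 then p.ζ else 0 : ℝ)| ≤ |p.ζ| := by split_ifs <;> simp
  have h2 : |p.γ / 2 * (cn F x : ℝ)| ≤ 3 * |p.γ| := by
    rw [abs_mul, abs_div, abs_two, Nat.abs_cast]
    have : (cn F x : ℝ) ≤ 6 := by exact_mod_cast cn_le F x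
    have h0 : 0 ≤ |p.γ| / 2 := by positivity
    nlinarith
  unfold phi C0
  calc _ ≤ |(if x 0 = 0 then p.ζ else 0 : ℝ) + p.γ / 2 * (cn F x : ℝ)| + |p.θ| := abs_sub _ _
    _ ≤ |(if x 0 = 0 then p.ζ else 0 : ℝ)| + |p.γ / 2 * (cn F x : ℝ)| + |p.θ| := by
        gcongr; exact abs_add_le _ _
    _ ≤ _ := by linarith

/-- Total energy. -/
noncomputable def W (p : Par) (F : FG) : ℝ := ∑ x ∈ F.V, phi p F x

/-- Weight of a finite graph. -/
noncomputable def wt (p : Par) (F : FG) : ℝ≥0∞ := ENNReal.ofReal (Real.exp (W p F))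

/-- Sum of weights over a set of finite graphs. -/
noncomputable def Om (p : Par) (A : Set FG) : ℝ≥0∞ := ∑' F : A, wt p F.1

/-- Local agreement gives equal local energies. -/
theorem phi_congr (p : Par) {F F' : FG} {x x' : P} (π : Equiv.Perm Dir)
    (h0 : x 0 = 0 ↔ x' 0 = 0)
    (hV : ∀ d, x + st d ∈ F.V ↔ x' + st (π d) ∈ F'.V)
    (hA : ∀ d, F.G.Adj x (x + st d) ↔ F'.G.Adj x' (x' + st (π d))) :
    phi p F x = phi p F' x' := by
  have hc : cn F x = cn F' x' := by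
    unfold cn
    refine Finset.card_bij (fun d _ => π d) ?_ ?_ ?_
    · intro d hd
      simp only [Finset.mem_filter, Finset.mem_univ, true_and] at hd ⊢
      exact ⟨(hV d).1 hd.1, fun h => hd.2 ((hA d).2 h)⟩
    · intro a _ b _ h; exact π.injective h
    · intro d hd
      simp only [Finset.mem_filter, Finset.mem_univ, true_and] at hd
      refine ⟨π.symm d, ?_, by simp⟩
      simp only [Finset.mem_filter, Finset.mem_univ, true_and]
      refine ⟨(hV _).2 (by simpa using hd.1), fun h => hd.2 ?_⟩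
      simpa using (hA _).1 h
  unfold phi
  rw [hc]
  simp only [h0]

theorem phi_congr' (p : Par) {F F' : FG} {x x' : P}
    (h0 : x 0 = 0 ↔ x' 0 = 0)
    (hV : ∀ d, x + st d ∈ F.V ↔ x' + st d ∈ F'.V)
    (hA : ∀ d, F.G.Adj x (x + st d) ↔ F'.G.Adj x' (x' + st d)) :
    phi p F x = phi p F' x' :=
  phi_congr p (Equiv.refl _) h0 hV hA

theorem abs_sum_phi_le (p : Par) (F : FG) (B : Finset P) :
    |∑ x ∈ B, phi p F x| ≤ C0 p * B.card := by
  calc |∑ x ∈ B, phi p F x| ≤ ∑ x ∈ B, |phi p F x| := Finset.abs_sum_le_sum_abs _ _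
    _ ≤ ∑ _x ∈ B, C0 p := Finset.sum_le_sum fun x _ => abs_phi_le p F x
    _ = _ := by rw [Finset.sum_const, nsmul_eq_mul, mul_comm]

/-- Comparison of energies: `f` is injective on the good vertices and keeps the local energy. -/
theorem W_compare (p : Par) (F F' : FG) (f : P → P) (B : Finset P) (m : ℕ)
    (hinj : Set.InjOn f (F.V \ B : Finset P))
    (hmem : ∀ x ∈ F.V \ B, f x ∈ F'.V)
    (hphi : ∀ x ∈ F.V \ B, phi p F x = phi p F' (f x))
    (hB : B.card ≤ m) (hnew : (F'.V \ (F.V \ B).image f).card ≤ m) :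
    |W p F - W p F'| ≤ 2 * C0 p * m := by
  have h1 : W p F = ∑ x ∈ F.V \ B, phi p F x + ∑ x ∈ F.V ∩ B, phi p F x := by
    unfold W
    rw [add_comm]
    exact (Finset.sum_inter_add_sum_sdiff F.V B _).symm
  have h2 : W p F' = ∑ x ∈ (F.V \ B).image f, phi p F' x
      + ∑ x ∈ F'.V \ (F.V \ B).image f, phi p F' x := by
    unfold W
    rw [add_comm, Finset.sum_sdiff]
    intro x hx
    obtain ⟨y, hy, rfl⟩ := Finset.mem_image.1 hx
    exact hmem y hy
  have h3 : ∑ x ∈ (F.V \ B).image f, phi p F' x = ∑ x ∈ F.V \ B, phi p F x := by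
    rw [Finset.sum_image]
    · exact Finset.sum_congr rfl fun x hx => (hphi x hx).symm
    · intro a ha b hb h; exact hinj ha hb h
  have h4 := abs_sum_phi_le p F (F.V ∩ B)
  have h5 := abs_sum_phi_le p F' (F'.V \ (F.V \ B).image f)
  have h6 : ((F.V ∩ B).card : ℝ) ≤ m := by
    exact_mod_cast (Finset.card_le_card Finset.inter_subset_right).trans hB
  have h7 : ((F'.V \ (F.V \ B).image f).card : ℝ) ≤ m := by exact_mod_cast hnew
  have hC := C0_nonneg p
  have h8 : |∑ x ∈ F.V ∩ B, phi p F x| ≤ C0 p * m := h4.trans (by gcongr)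
  have h9 : |∑ x ∈ F'.V \ (F.V \ B).image f, phi p F' x| ≤ C0 p * m := h5.trans (by gcongr)
  rw [h1, h2, h3]
  rw [abs_le] at h8 h9 ⊢
  constructor <;> linarith [h8.1, h8.2, h9.1, h9.2]

theorem wt_le_of_W_le (p : Par) {F F' : FG} {c : ℝ} (h : W p F ≤ c + W p F') :
    wt p F ≤ ENNReal.ofReal (Real.exp c) * wt p F' := by
  unfold wt
  rw [← ENNReal.ofReal_mul (Real.exp_pos _).le, ← Real.exp_add]
  exact ENNReal.ofReal_le_ofReal (Real.exp_le_exp.2 h)

theorem wt_pos (p : Par) (F : FG) : 0 < wt p F := by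
  unfold wt; exact ENNReal.ofReal_pos.2 (Real.exp_pos _)

theorem wt_ne_top (p : Par) (F : FG) : wt p F ≠ ⊤ := ENNReal.ofReal_ne_top

theorem Om_mono (p : Par) {A B : Set FG} (h : A ⊆ B) : Om p A ≤ Om p B := by
  unfold Om
  exact ENNReal.tsum_mono_subtype _ h

theorem Om_union_le (p : Par) (A B : Set FG) : Om p (A ∪ B) ≤ Om p A + Om p B := by
  unfold Om
  exact ENNReal.tsum_union_le _ _ _

theorem Om_biUnion_le {ι : Type*} (p : Par) (s : Finset ι) (A : ι → Set FG) :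
    Om p (⋃ i ∈ s, A i) ≤ ∑ i ∈ s, Om p (A i) := by
  unfold Om
  exact ENNReal.tsum_biUnion_le _ _ _

@[simp] theorem Om_empty (p : Par) : Om p ∅ = 0 := by
  unfold Om; simp

/-- Abstract transfer principle. `R a ℓ b` says: the object `a` with label `ℓ` is sent to `b`. -/
theorem tsum_transfer {α β ι : Type*} (A : Set α) (B : Set β) (L : Finset ι)
    (w : α → ℝ≥0∞) (w' : β → ℝ≥0∞) (C : ℝ≥0∞) (R : α → ι → β → Prop)
    (hex : ∀ a ∈ A, ∃ l ∈ L, ∃ b ∈ B, R a l b ∧ w a ≤ C * w' b)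
    (huniq : ∀ a ∈ A, ∀ a' ∈ A, ∀ l b, R a l b → R a' l b → a = a') :
    ∑' a : A, w a.1 ≤ C * (L.card * ∑' b : B, w' b.1) := by
  choose l hl b hb hR hw using hex
  let f : A → (L × B) := fun a => (⟨l a.1 a.2, hl _ a.2⟩, ⟨b a.1 a.2, hb _ a.2⟩)
  have hf : Function.Injective f := by
    intro a a' h
    have h1 : l a.1 a.2 = l a'.1 a'.2 := congrArg (fun z => (z.1 : ι)) h
    have h2 : b a.1 a.2 = b a'.1 a'.2 := congrArg (fun z => (z.2 : β)) h
    apply Subtype.ext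
    refine huniq _ a.2 _ a'.2 (l a.1 a.2) (b a.1 a.2) (hR _ a.2) ?_
    rw [h1, h2]; exact hR _ a'.2
  calc ∑' a : A, w a.1 ≤ ∑' a : A, C * w' ((f a).2.1) :=
        ENNReal.tsum_le_tsum fun a => hw _ a.2
    _ = C * ∑' a : A, w' ((f a).2.1) := ENNReal.tsum_mul_left
    _ ≤ C * ∑' z : L × B, w' z.2.1 := by
        gcongr
        exact ENNReal.tsum_comp_le_tsum_of_injective hf (fun z : L × B => w' z.2.1)
    _ = C * (L.card * ∑' b : B, w' b.1) := by
        congr 1
        rw [ENNReal.tsum_prod']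
        simp only
        rw [ENNReal.tsum_const, ENat.card_eq_coe_fintype_card]
        simp

/-- Transfer for weights of finite graphs. -/
theorem Om_transfer {ι : Type*} (p : Par) (A B : Set FG) (L : Finset ι) (c : ℝ)
    (R : FG → ι → FG → Prop)
    (hex : ∀ a ∈ A, ∃ l ∈ L, ∃ b ∈ B, R a l b ∧ W p a ≤ c + W p b)
    (huniq : ∀ a ∈ A, ∀ a' ∈ A, ∀ l b, R a l b → R a' l b → a = a') :
    Om p A ≤ ENNReal.ofReal (Real.exp c) * (L.card * Om p B) := by
  unfold Om
  refine tsum_transfer A B L (wt p) (wt p) _ R ?_ huniq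
  intro a ha
  obtain ⟨l, hl, b, hb, hR, hw⟩ := hex a ha
  exact ⟨l, hl, b, hb, hR, wt_le_of_W_le p hw⟩

/-- `G` has at most `c` components (apart from isolated points). -/
def Rooted (c : ℕ) (G : SimpleGraph P) : Prop :=
  ∃ ρ : Finset P, ρ.card ≤ c ∧ ∀ x ∈ G.support, ∃ r ∈ ρ, G.Reachable r x

theorem Rooted.mono {c c' : ℕ} {G : SimpleGraph P} (h : Rooted c G) (hc : c ≤ c') :
    Rooted c' G := by
  obtain ⟨ρ, h1, h2⟩ := h
  exact ⟨ρ, h1.trans hc, h2⟩

/-- The points with all coordinates at most `N` in absolute value. -/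
def InBox (N : ℕ) (x : P) : Prop := ∀ i, |x i| ≤ (N : ℤ)

/-- The class of finite graphs with at most `N` vertices inside the box of size `N`, at most `c`
components, degree one at the points of `O` and degree zero or two at all other points. -/
def Cls (c N : ℕ) (O : Finset P) : Set FG :=
  {F | F.V.card ≤ N ∧ (∀ x ∈ F.V, InBox N x) ∧ (∀ x ∈ O, deg F.G x = 1) ∧
    (∀ x, x ∉ O → deg F.G x = 0 ∨ deg F.G x = 2) ∧ Rooted c F.G}

theorem Cls_mono {c c' N N' : ℕ} {O : Finset P} (hc : c ≤ c') (hN : N ≤ N') :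
    Cls c N O ⊆ Cls c' N' O := by
  rintro F ⟨h1, h2, h3, h4, h5⟩
  refine ⟨h1.trans hN, fun x hx i => (h2 x hx i).trans (by exact_mod_cast hN), h3, h4, h5.mono hc⟩

/-- Subexponential growth of an `ℝ≥0∞`-valued sequence. -/
def SubExp (f : ℕ → ℝ≥0∞) : Prop :=
  ∀ ε : ℝ, 0 < ε → ∃ K : ℝ, 0 ≤ K ∧ ∀ N : ℕ, f N ≤ ENNReal.ofReal (K * Real.exp (ε * N))

end Pool.Agent.Lib.MP_280b4e_pr
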