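import Pool.Agent.Lib.MP_280b4e_pr.Basic

/-!
Translation between the definitions of the statement (subgraphs, edge sets) and finite graphs.
-/

namespace Pool.Agent.Lib.MP_280b4e_pr
open scoped ENNReal
open Classical

namespace Bridge

theorem handshake_ncard (H : SimpleGraph P) (hH : H ≤ Lat) (V : Finset P)
    (hV : ∀ x y, H.Adj x y → x ∈ V) : ∑ x ∈ V, deg H x = 2 * H.edgeSet.ncard := by
  set I : Finset (P × Dir) := (V ×ˢ Finset.univ).filter (fun i => H.Adj i.1 (i.1 + st i.2)) with hI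
  have hmem : ∀ x d, (x, d) ∈ I ↔ H.Adj x (x + st d) := by
    intro x d
    rw [hI, Finset.mem_filter, Finset.mem_product]
    exact ⟨fun h => h.2, fun h => ⟨⟨hV _ _ h, Finset.mem_univ _⟩, h⟩⟩
  have hcard : ∑ x ∈ V, deg H x = I.card := by
    rw [hI, Finset.card_filter, Finset.sum_product]
    refine Finset.sum_congr rfl (fun x _ => ?_)
    rw [deg, Finset.card_filter]
  set f : P × Dir → Sym2 P := fun i => s(i.1, i.1 + st i.2) with hf
  have himg : H.edgeSet = ↑(I.image f) := by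
    ext e
    induction e with
    | h x y =>
      simp only [SimpleGraph.mem_edgeSet, Finset.coe_image, Set.mem_image, Finset.mem_coe]
      constructor
      · intro h
        obtain ⟨d, rfl⟩ := (adj_iff_st _ _).1 (hH h)
        exact ⟨(x, d), (hmem _ _).2 h, rfl⟩
      · rintro ⟨⟨z, d⟩, hz, he⟩
        have h1 := (hmem _ _).1 hz
        rw [← SimpleGraph.mem_edgeSet, ← he]
        exact h1
  rw [hcard, himg, Set.ncard_coe_finset, Finset.card_eq_sum_card_image f I, mul_comm]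
  apply Finset.sum_const_nat
  intro b hb
  obtain ⟨⟨x, d⟩, hx, rfl⟩ := Finset.mem_image.1 hb
  have hx' := (hmem _ _).1 hx
  have hfib : I.filter (fun a => f a = f (x, d)) = {(x, d), (x + st d, opp d)} := by
    ext ⟨z, d'⟩
    rw [Finset.mem_filter, hmem, Finset.mem_insert, Finset.mem_singleton]
    simp only [hf, Sym2.eq_iff, Prod.mk.injEq]
    constructor
    · rintro ⟨_, ⟨rfl, h2⟩ | ⟨rfl, h2⟩⟩
      · left
        exact ⟨rfl, st_injective (add_left_cancel h2)⟩
      · right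
        refine ⟨rfl, st_injective ?_⟩
        rw [st_opp]
        have : st d + st d' = 0 := by
          have := congrArg (fun v => v - x) h2
          simpa [add_assoc, add_sub_assoc, add_sub_cancel_left] using this
        exact eq_neg_of_add_eq_zero_right this
    · rintro (⟨rfl, rfl⟩ | ⟨rfl, rfl⟩)
      · exact ⟨hx', Or.inl ⟨rfl, rfl⟩⟩
      · refine ⟨?_, Or.inr ⟨rfl, ?_⟩⟩
        · rw [st_opp]
          simpa using hx'.symm
        · rw [st_opp]
          simp
  rw [hfib, Finset.card_pair]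
  intro h
  rw [Prod.mk.injEq] at h
  exact hx'.ne h.1

/-- The graph of contacts. -/
def cg (F : FG) : SimpleGraph P where
  Adj x y := Lat.Adj x y ∧ x ∈ F.V ∧ y ∈ F.V ∧ ¬ F.G.Adj x y
  symm := ⟨fun _ _ h => ⟨h.1.symm, h.2.2.1, h.2.1, fun h' => h.2.2.2 h'.symm⟩⟩
  loopless := ⟨fun x h => Lat.loopless.irrefl x h.1⟩

theorem cg_edgeSet (F : FG) : (cg F).edgeSet =
    {e ∈ Lat.edgeSet | (∀ x ∈ e, x ∈ (F.V : Set P)) ∧ e ∉ F.G.edgeSet} := by
  ext e
  induction e with
  | h x y =>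
    simp only [SimpleGraph.mem_edgeSet, cg, Set.mem_ofPred_eq, Sym2.mem_iff, Finset.mem_coe,
      forall_eq_or_imp, forall_eq]
    tauto

theorem cn_eq (F : FG) {x : P} (hx : x ∈ F.V) : cn F x = deg (cg F) x := by
  unfold cn deg
  congr 1
  ext d
  rw [Finset.mem_filter, Finset.mem_filter]
  constructor
  · rintro ⟨h0, h1, h2⟩
    exact ⟨h0, adj_st x d, hx, h1, h2⟩
  · rintro ⟨h0, _, _, h1, h2⟩
    exact ⟨h0, h1, h2⟩

theorem sum_cn (F : FG) :
    ∑ x ∈ F.V, cn F x = 2 * contacts (F.V : Set P) F.G.edgeSet := by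
  rw [Finset.sum_congr rfl (fun x hx => cn_eq F hx)]
  rw [handshake_ncard (cg F) (fun x y h => h.1) F.V (fun x y h => h.2.1), cg_edgeSet]
  rfl

theorem visits_eq (F : FG) : visits (F.V : Set P) = (F.V.filter fun x => x 0 = 0).card := by
  unfold visits
  rw [← Set.ncard_coe_finset]
  congr 1
  ext x
  simp

end Bridge

/-- Closed connected graphs with `n` vertices touching the wall, in normal form. -/
def PolF (n : ℕ) : Set FG :=
  {F | F.V.card = n ∧ F.V.Nonempty ∧ (∀ x, deg F.G x = 0 ∨ deg F.G x = 2) ∧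
    (∀ x ∈ F.V, ∀ y ∈ F.V, F.G.Reachable x y) ∧ (∃ x ∈ F.V, x 0 = 0) ∧
    (∀ x ∈ F.V, 0 ≤ x 1) ∧ (∃ x ∈ F.V, x 1 = 0) ∧ (∀ x ∈ F.V, 0 ≤ x 2) ∧ (∃ x ∈ F.V, x 2 = 0)}

theorem W_eq (ζ γ θ : ℝ) (F : FG) :
    W ⟨ζ, γ, θ⟩ F = ζ * visits (F.V : Set P) + γ * contacts (F.V : Set P) F.G.edgeSet
      - θ * F.V.card := by
  have h1 : (2 : ℝ) * contacts (F.V : Set P) F.G.edgeSet = ∑ x ∈ F.V, (cn F x : ℝ) := by
    exact_mod_cast (Bridge.sum_cn F).symm
  unfold W phi
  simp only
  rw [Finset.sum_sub_distrib, Finset.sum_add_distrib, ← Finset.mul_sum, ← h1,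
    Finset.sum_const, nsmul_eq_mul, Bridge.visits_eq]
  have h2 : ∑ x ∈ F.V, (if x 0 = 0 then ζ else 0) = ζ * (F.V.filter fun x => x 0 = 0).card := by
    rw [← Finset.sum_filter, Finset.sum_const, nsmul_eq_mul, mul_comm]
  rw [h2]
  ring

theorem wt_theta (ζ γ θ : ℝ) (F : FG) :
    wt ⟨ζ, γ, θ⟩ F = ENNReal.ofReal (Real.exp (-θ * F.V.card)) * wt ⟨ζ, γ, 0⟩ F := by
  unfold wt
  rw [← ENNReal.ofReal_mul (Real.exp_pos _).le, ← Real.exp_add, W_eq, W_eq]
  congr 2
  ring

theorem Q_nonneg (n : ℕ) (ζ γ : ℝ) : 0 ≤ Q n ζ γ :=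
  tsum_nonneg fun _ => (Real.exp_pos _).le

theorem Z_nonneg (n : ℕ) (ζ γ : ℝ) : 0 ≤ Z n ζ γ :=
  tsum_nonneg fun _ => (Real.exp_pos _).le

namespace Bridge

theorem coord_step {x y : P} (h : Lat.Adj x y) (i : Fin 3) : |x i - y i| ≤ 1 := by
  obtain ⟨d, rfl⟩ := (adj_iff_st _ _).1 h
  have : x i - (x + st d) i = - st d i := by simp
  rw [this, abs_neg]
  unfold st
  split_ifs <;> simp

theorem coord_walk {G : SimpleGraph P} (hG : G ≤ Lat) {x y : P} (w : G.Walk x y) (i : Fin 3) :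
    |x i - y i| ≤ w.length := by
  induction w with
  | nil => simp
  | @cons a b c h w ih =>
    have h1 := coord_step (hG h) i
    rw [SimpleGraph.Walk.length_cons]
    push_cast
    have h2 : a i - c i = (a i - b i) + (b i - c i) := by ring
    rw [h2]
    exact (abs_add_le _ _).trans (by linarith)

theorem support_subset (F : FG) {x y : P} (hx : x ∈ F.V) (w : F.G.Walk x y) :
    ∀ z ∈ w.support, z ∈ F.V := by
  induction w with
  | nil =>
    intro z hz
    rw [SimpleGraph.Walk.support_nil, List.mem_singleton] at hz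
    rw [hz]
    exact hx
  | @cons a b c h w ih =>
    intro z hz
    rw [SimpleGraph.Walk.support_cons, List.mem_cons] at hz
    rcases hz with rfl | hz
    · exact hx
    · exact ih (FG.mem_V_right h) z hz

theorem coord_reach (F : FG) {x y : P} (hx : x ∈ F.V) (h : F.G.Reachable x y) (i : Fin 3) :
    |x i - y i| + 1 ≤ F.V.card := by
  obtain ⟨w, hw⟩ := h.exists_isPath
  have h1 := coord_walk F.le w i
  have h2 : w.support.toFinset ⊆ F.V := by
    intro z hz
    exact support_subset F hx w z (List.mem_toFinset.1 hz)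
  have h3 := Finset.card_le_card h2
  rw [List.toFinset_card_of_nodup hw.support_nodup, SimpleGraph.Walk.length_support] at h3
  have h4 : ((w.length + 1 : ℕ) : ℤ) ≤ (F.V.card : ℤ) := by exact_mod_cast h3
  push_cast at h4
  linarith

theorem finite_box (N : ℕ) : {F : FG | ∀ x ∈ F.V, InBox N x}.Finite := by
  have hB : {x : P | InBox N x}.Finite := by
    refine (Set.finite_Icc (fun _ => -(N : ℤ) : P) (fun _ => (N : ℤ))).subset ?_
    intro x hx
    exact ⟨fun i => (abs_le.1 (hx i)).1, fun i => (abs_le.1 (hx i)).2⟩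
  have h2 := (hB.prod hB).finite_subsets
  apply Set.Finite.of_finite_image (f := fun F : FG => {q : P × P | F.G.Adj q.1 q.2})
  · refine h2.subset ?_
    rintro _ ⟨F, hF, rfl⟩
    rintro ⟨x, y⟩ hxy
    exact ⟨hF x (FG.mem_V_left hxy), hF y (FG.mem_V_right hxy)⟩
  · intro A _ B _ h
    apply FG.ext'
    intro x y
    have := congrArg (fun S : Set (P × P) => (x, y) ∈ S) h
    exact iff_of_eq this

theorem PolF_box (n : ℕ) {F : FG} (hF : F ∈ PolF n) : ∀ x ∈ F.V, InBox n x := by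
  obtain ⟨h1, _, _, h4, ⟨a, ha, ha0⟩, _, ⟨b, hb, hb1⟩, _, ⟨c, hc, hc2⟩⟩ := hF
  intro x hx i
  rw [← h1]
  fin_cases i
  · have := coord_reach F hx (h4 x hx a ha) 0
    rw [ha0] at this
    simp only [sub_zero] at this
    show |x 0| ≤ _
    linarith
  · have := coord_reach F hx (h4 x hx b hb) 1
    rw [hb1] at this
    simp only [sub_zero] at this
    show |x 1| ≤ _
    linarith
  · have := coord_reach F hx (h4 x hx c hc) 2
    rw [hc2] at this
    simp only [sub_zero] at this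
    show |x 2| ≤ _
    linarith

theorem PolF_finite (n : ℕ) : (PolF n).Finite :=
  (finite_box n).subset fun _ hF => PolF_box n hF

theorem edge_card (F : FG) (hcl : ∀ x, deg F.G x = 0 ∨ deg F.G x = 2) :
    F.G.edgeSet.ncard = F.V.card := by
  have h := handshake_ncard F.G F.le F.V (fun _ _ h => FG.mem_V_left h)
  have h2 : ∑ x ∈ F.V, deg F.G x = ∑ x ∈ F.V, 2 := by
    refine Finset.sum_congr rfl (fun x hx => ?_)
    rcases hcl x with h0 | h0
    · obtain ⟨y, hy⟩ := FG.mem_V.1 hx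
      exact absurd hy ((deg_eq_zero F.le).1 h0 y)
    · exact h0
  rw [h2, Finset.sum_const, smul_eq_mul] at h
  omega

theorem mem_verts_iff {n : ℕ} {p : Lat.Subgraph} (hp : IsSAP n p) (x : P) :
    x ∈ p.verts ↔ ∃ y, p.Adj x y := by
  constructor
  · intro hx
    have h := hp.2.2.1 x hx
    have : (p.neighborSet x).Nonempty := by
      rw [← Set.ncard_pos (Set.finite_of_ncard_pos (by omega))]
      omega
    exact this
  · rintro ⟨y, hy⟩
    exact p.edge_vert hy

/-- The finite graph of a polygon. -/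
def ofSub (n : ℕ) (p : Lat.Subgraph) (hp : IsSAP n p) : FG where
  G := p.spanningCoe
  le := p.spanningCoe_le
  fin := hp.1.subset (by
    intro x hx
    obtain ⟨y, hy⟩ := hx
    exact p.edge_vert hy)
  half := fun x hx => hp.2.2.2.2.1 x (by
    obtain ⟨y, hy⟩ := hx
    exact p.edge_vert hy)

theorem ofSub_V (n : ℕ) (p : Lat.Subgraph) (hp : IsSAP n p) (x : P) :
    x ∈ (ofSub n p hp).V ↔ x ∈ p.verts := by
  rw [FG.mem_V, mem_verts_iff hp]
  rfl

theorem ofSub_V' (n : ℕ) (p : Lat.Subgraph) (hp : IsSAP n p) :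
    ((ofSub n p hp).V : Set P) = p.verts := by
  ext x
  exact ofSub_V n p hp x

theorem ofSub_deg (n : ℕ) (p : Lat.Subgraph) (hp : IsSAP n p) (x : P) :
    deg (ofSub n p hp).G x = 0 ∨ deg (ofSub n p hp).G x = 2 := by
  by_cases hx : x ∈ p.verts
  · right
    rw [deg_eq_ncard (ofSub n p hp).le]
    exact hp.2.2.1 x hx
  · left
    rw [deg_eq_zero (ofSub n p hp).le]
    intro y hy
    exact hx (p.edge_vert hy)

theorem ofSub_mem (n : ℕ) (p : Lat.Subgraph) (hp : IsSAP n p) (hN : IsNormal p) :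
    ofSub n p hp ∈ PolF n := by
  obtain ⟨hN1, hN2, hN3, hN4⟩ := hN
  have hconn := hp.2.1
  have hV := ofSub_V n p hp
  refine ⟨?_, ?_, ofSub_deg n p hp, ?_, ?_, ?_, ?_, ?_, ?_⟩
  · rw [← edge_card _ (ofSub_deg n p hp)]
    have : (ofSub n p hp).G.edgeSet = p.edgeSet := SimpleGraph.Subgraph.edgeSet_spanningCoe p
    rw [this]
    exact hp.2.2.2.1
  · obtain ⟨x, hx⟩ := (SimpleGraph.Subgraph.connected_iff.1 hconn).2
    exact ⟨x, (hV x).2 hx⟩
  · intro x hx y hy
    have h1 : p.coe.Reachable ⟨x, (hV x).1 hx⟩ ⟨y, (hV y).1 hy⟩ :=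
      (SimpleGraph.Subgraph.connected_iff.1 hconn).1.coe _ _
    exact h1.map (SimpleGraph.Subgraph.coeEmbeddingSpanningCoe p).toHom
  · obtain ⟨x, hx, h0⟩ := hp.2.2.2.2.2
    exact ⟨x, (hV x).2 hx, h0⟩
  · exact fun x hx => hN1 x ((hV x).1 hx)
  · obtain ⟨x, hx, h0⟩ := hN2
    exact ⟨x, (hV x).2 hx, h0⟩
  · exact fun x hx => hN3 x ((hV x).1 hx)
  · obtain ⟨x, hx, h0⟩ := hN4
    exact ⟨x, (hV x).2 hx, h0⟩

/-- The polygon of a finite graph. -/
def toSub (F : FG) : Lat.Subgraph where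
  verts := F.V
  Adj := F.G.Adj
  adj_sub := fun h => F.le h
  edge_vert := fun h => FG.mem_V_left h
  symm := F.G.symm

theorem toSub_reach (F : FG) {x y : P} (hx : x ∈ F.V) (w : F.G.Walk x y) :
    ∀ hy : y ∈ F.V, (toSub F).coe.Reachable ⟨x, hx⟩ ⟨y, hy⟩ := by
  induction w with
  | nil => exact fun _ => SimpleGraph.Reachable.refl _
  | @cons a b c h w ih =>
    intro hy
    have hb : b ∈ F.V := FG.mem_V_right h
    have h1 : (toSub F).coe.Adj ⟨a, hx⟩ ⟨b, hb⟩ := h
    exact h1.reachable.trans (ih hb hy)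

theorem toSub_IsSAP {n : ℕ} {F : FG} (hF : F ∈ PolF n) : IsSAP n (toSub F) ∧
    IsNormal (toSub F) := by
  obtain ⟨h1, h2, h3, h4, h5, h6, h7, h8, h9⟩ := hF
  refine ⟨⟨F.V.finite_toSet, ?_, ?_, ?_, ?_, ?_⟩, h6, h7, h8, h9⟩
  · rw [SimpleGraph.Subgraph.connected_iff]
    refine ⟨⟨?_⟩, h2⟩
    rintro ⟨x, hx⟩ ⟨y, hy⟩
    obtain ⟨w⟩ := h4 x hx y hy
    exact toSub_reach F hx w hy
  · intro x hx
    have h0 : deg F.G x = 2 := by
      rcases h3 x with h0 | h0
      · obtain ⟨y, hy⟩ := FG.mem_V.1 hx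
        exact absurd hy ((deg_eq_zero F.le).1 h0 y)
      · exact h0
    rw [deg_eq_ncard F.le] at h0
    exact h0
  · have h0 : (toSub F).edgeSet = F.G.edgeSet := by
      rw [← SimpleGraph.Subgraph.edgeSet_spanningCoe]
      rfl
    rw [h0, edge_card F h3, h1]
  · exact fun x hx => F.nonneg hx
  · exact h5

/-- Polygons in normal form are the members of `PolF`. -/
def polEquiv (n : ℕ) : {p : Lat.Subgraph // IsSAP n p ∧ IsNormal p} ≃ PolF n where
  toFun p := ⟨ofSub n p.1 p.2.1, ofSub_mem n p.1 p.2.1 p.2.2⟩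
  invFun F := ⟨toSub F.1, toSub_IsSAP F.2⟩
  left_inv p := by
    apply Subtype.ext
    apply SimpleGraph.Subgraph.ext
    · exact ofSub_V' n p.1 p.2.1
    · rfl
  right_inv F := by
    apply Subtype.ext
    rfl

theorem wt_ofSub (n : ℕ) (ζ γ : ℝ) (p : Lat.Subgraph) (hp : IsSAP n p) :
    wt ⟨ζ, γ, 0⟩ (ofSub n p hp) = ENNReal.ofReal (weight ζ γ p.verts p.edgeSet) := by
  unfold wt weight
  have : (ofSub n p hp).G.edgeSet = p.edgeSet := SimpleGraph.Subgraph.edgeSet_spanningCoe p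
  rw [W_eq, ofSub_V', this]
  simp

end Bridge

theorem Q_eq (n : ℕ) (_hn : 1 ≤ n) (ζ γ : ℝ) :
    ENNReal.ofReal (Q n ζ γ) = Om ⟨ζ, γ, 0⟩ (PolF n) := by
  have hfin : Finite (PolF n) := (Bridge.PolF_finite n).to_subtype
  have hfin' : Finite {p : Lat.Subgraph // IsSAP n p ∧ IsNormal p} :=
    Finite.of_equiv _ (Bridge.polEquiv n).symm
  have hpos : ∀ p : {p : Lat.Subgraph // IsSAP n p ∧ IsNormal p},
      0 ≤ weight ζ γ p.1.verts p.1.edgeSet := fun _ => (Real.exp_pos _).le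
  unfold Q Om
  rw [ENNReal.ofReal_tsum_of_nonneg hpos (Summable.of_finite)]
  rw [← Equiv.tsum_eq (Bridge.polEquiv n)]
  refine tsum_congr fun p => ?_
  exact (Bridge.wt_ofSub n ζ γ p.1 p.2.1).symm

namespace Bridge

theorem sum_deg_filter (F : FG) (q : P → Prop) [DecidablePred q] :
    ∑ x ∈ F.V.filter q, deg F.G x =
      ((F.V ×ˢ (Finset.univ : Finset Dir)).filter
        (fun i => q i.1 ∧ F.G.Adj i.1 (i.1 + st i.2))).card := by
  rw [Finset.card_filter, Finset.sum_product, Finset.sum_filter]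
  refine Finset.sum_congr rfl (fun x _ => ?_)
  by_cases hx : q x
  · simp only [hx, true_and, if_true]
    rw [deg, Finset.card_filter]
  · simp [hx]

/-- The sum of the coordinates is even. -/
def EvenPt (x : P) : Prop := Even (x 0 + x 1 + x 2)

theorem evenPt_adj {x y : P} (h : Lat.Adj x y) : EvenPt x ↔ ¬ EvenPt y := by
  unfold EvenPt
  rw [Int.even_iff, Int.even_iff]
  rcases (adj_coord x y).1 h with h | h | h | h | h | h <;> omega

theorem even_card (F : FG) (hcl : ∀ x, deg F.G x = 0 ∨ deg F.G x = 2) : Even F.V.card := by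
  have hdeg : ∀ x ∈ F.V, deg F.G x = 2 := by
    intro x hx
    rcases hcl x with h0 | h0
    · obtain ⟨y, hy⟩ := FG.mem_V.1 hx
      exact absurd hy ((deg_eq_zero F.le).1 h0 y)
    · exact h0
  have h1 : ∑ x ∈ F.V.filter EvenPt, deg F.G x = ∑ x ∈ F.V.filter (fun x => ¬ EvenPt x),
      deg F.G x := by
    rw [sum_deg_filter, sum_deg_filter]
    refine Finset.card_bij (fun i _ => (i.1 + st i.2, opp i.2)) ?_ ?_ ?_
    · rintro ⟨x, d⟩ h
      rw [Finset.mem_filter, Finset.mem_product] at h ⊢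
      obtain ⟨⟨_, _⟩, h3, h4⟩ := h
      simp only at h3 h4 ⊢
      refine ⟨⟨FG.mem_V_right h4, Finset.mem_univ _⟩, (evenPt_adj (F.le h4)).1 h3, ?_⟩
      rw [st_opp]
      simpa using h4.symm
    · rintro ⟨x, d⟩ _ ⟨x', d'⟩ _ h
      simp only [Prod.mk.injEq] at h
      have hd : d = d' := by
        have := congrArg opp h.2
        simpa using this
      subst hd
      have := add_right_cancel h.1
      rw [this]
    · rintro ⟨y, d⟩ h
      rw [Finset.mem_filter, Finset.mem_product] at h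
      obtain ⟨⟨_, _⟩, h3, h4⟩ := h
      simp only at h3 h4
      refine ⟨(y + st d, opp d), ?_, ?_⟩
      · rw [Finset.mem_filter, Finset.mem_product]
        refine ⟨⟨FG.mem_V_right h4, Finset.mem_univ _⟩, ?_, ?_⟩
        · by_contra hc
          exact h3 ((evenPt_adj (F.le h4)).2 hc)
        · simp only
          rw [st_opp]
          simpa using h4.symm
      · simp [st_opp]
  have h2 : ∑ x ∈ F.V.filter EvenPt, deg F.G x = ∑ x ∈ F.V.filter EvenPt, 2 :=
    Finset.sum_congr rfl fun x hx => hdeg x (Finset.mem_filter.1 hx).1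
  have h3 : ∑ x ∈ F.V.filter (fun x => ¬ EvenPt x), deg F.G x =
      ∑ x ∈ F.V.filter (fun x => ¬ EvenPt x), 2 :=
    Finset.sum_congr rfl fun x hx => hdeg x (Finset.mem_filter.1 hx).1
  rw [h2, h3, Finset.sum_const, Finset.sum_const, smul_eq_mul, smul_eq_mul] at h1
  have h4 := Finset.card_filter_add_card_filter_not (s := F.V) EvenPt
  exact ⟨(F.V.filter EvenPt).card, by omega⟩

end Bridge

theorem PolF_odd (n : ℕ) (hn : Odd n) : PolF n = ∅ := by
  ext F
  simp only [Set.mem_empty_iff_false, iff_false]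
  intro hF
  have h := Bridge.even_card F hF.2.2.1
  rw [hF.1] at h
  exact (Nat.not_even_iff_odd.2 hn) h

end Pool.Agent.Lib.MP_280b4e_pr
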