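import Pool.Agent.Lib.MP_280b4e_pr.Graph

/-!
Piece B: Hamiltonian path of a box, pairing of legs along a list.
-/

namespace Pool.Agent.Lib.MP_280b4e_pr
open scoped ENNReal
open Classical

namespace Snake

theorem e_self (j : Fin 3) : e j j = 1 := by simp [e]

theorem e_ne {i j : Fin 3} (h : i ≠ j) : e j i = 0 := by simp [e, h]

theorem adj_sub_e (x : P) (j : Fin 3) : Lat.Adj x (x - e j) := by
  have h := adj_e (x - e j) j
  rw [sub_add_cancel] at h
  exact h.symm

/-- Stacking reflected copies of a path in direction `- e j`. -/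
theorem stack (j : Fin 3) (n : ℕ) : ∀ (ls : List P) (h : ℤ), ls ≠ [] → ls.Nodup →
    ls.IsChain Lat.Adj → (∀ x ∈ ls, x j = h) →
    ∃ L : List P, L ≠ [] ∧ L.head? = ls.head? ∧ L.Nodup ∧ L.IsChain Lat.Adj ∧
      ∀ x, x ∈ L ↔ ∃ y ∈ ls, ∃ k : ℕ, k ≤ n ∧ x = y - (k : ℤ) • e j := by
  induction n with
  | zero =>
    intro ls h hne hnd hch hh
    refine ⟨ls, hne, rfl, hnd, hch, fun x => ?_⟩
    constructor
    · intro hx
      exact ⟨x, hx, 0, le_rfl, by simp⟩
    · rintro ⟨y, hy, k, hk, rfl⟩
      have : k = 0 := by omega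
      subst this
      simpa using hy
  | succ n ih =>
    intro ls h hne hnd hch hh
    obtain ⟨L, h1, h2, h3, h4, h5⟩ := ih ls.reverse h (by simpa using hne)
      (List.nodup_reverse.2 hnd)
      (by
        rw [List.isChain_reverse]
        exact hch.imp fun a b hab => hab.symm)
      (fun x hx => hh x (List.mem_reverse.1 hx))
    refine ⟨ls ++ L.map (fun x => x - e j), ?_, ?_, ?_, ?_, ?_⟩
    · intro h6
      exact hne (List.append_eq_nil_iff.1 h6).1
    · rw [List.head?_append_of_ne_nil _ hne]
    · rw [List.nodup_append]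
      refine ⟨hnd, h3.map (fun x y hxy => sub_left_injective hxy), ?_⟩
      intro x hx y hy hxy
      subst hxy
      rw [List.mem_map] at hy
      obtain ⟨z, hz, rfl⟩ := hy
      obtain ⟨w, hw, k, hk, rfl⟩ := (h5 z).1 hz
      have h6 := hh _ hx
      have h7 := hh w (List.mem_reverse.1 hw)
      simp only [Pi.sub_apply, Pi.smul_apply, e_self, smul_eq_mul, mul_one] at h6
      omega
    · rw [List.isChain_append]
      refine ⟨hch, ?_, ?_⟩
      · rw [List.isChain_map]
        refine h4.imp fun a b hab => ?_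
        obtain ⟨d, rfl⟩ := (adj_iff_st _ _).1 hab
        exact (adj_iff_st _ _).2 ⟨d, by abel⟩
      · intro x hx y hy
        rw [List.head?_map, h2, List.head?_reverse, Option.mem_def] at hy
        rw [Option.mem_def] at hx
        rw [hx, Option.map_some, Option.some.injEq] at hy
        rw [← hy]
        exact adj_sub_e x j
    · intro x
      rw [List.mem_append, List.mem_map]
      constructor
      · rintro (hx | ⟨y, hy, rfl⟩)
        · exact ⟨x, hx, 0, Nat.zero_le _, by simp⟩
        · obtain ⟨z, hz, k, hk, rfl⟩ := (h5 y).1 hy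
          refine ⟨z, List.mem_reverse.1 hz, k + 1, by omega, ?_⟩
          push_cast
          rw [add_smul, one_smul]
          abel
      · rintro ⟨y, hy, k, hk, rfl⟩
        rcases k with _ | k
        · left
          simpa using hy
        · right
          refine ⟨y - (k : ℤ) • e j, (h5 _).2 ⟨y, List.mem_reverse.2 hy, k, by omega, rfl⟩, ?_⟩
          push_cast
          rw [add_smul, one_smul]
          abel

end Snake

/-- Hamiltonian path of a box starting at the upper corner. -/
theorem exists_snake (l u : P) (h : ∀ i, l i ≤ u i) :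
    ∃ L : List P, (u :: L).Nodup ∧ (u :: L).IsChain Lat.Adj ∧
      (∀ x, x ∈ u :: L ↔ ∀ i, l i ≤ x i ∧ x i ≤ u i) := by
  have e01 : e 0 1 = 0 := Snake.e_ne (by decide)
  have e02 : e 0 2 = 0 := Snake.e_ne (by decide)
  have e10 : e 1 0 = 0 := Snake.e_ne (by decide)
  have e12 : e 1 2 = 0 := Snake.e_ne (by decide)
  have e20 : e 2 0 = 0 := Snake.e_ne (by decide)
  have e21 : e 2 1 = 0 := Snake.e_ne (by decide)
  have e00 : e 0 0 = 1 := Snake.e_self 0
  have e11 : e 1 1 = 1 := Snake.e_self 1
  have e22 : e 2 2 = 1 := Snake.e_self 2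
  obtain ⟨L0, n0, d0, u0, c0, m0⟩ := Snake.stack 0 (u 0 - l 0).toNat [u] (u 0) (by simp)
    (List.nodup_singleton _) (List.isChain_singleton _) (by simp)
  obtain ⟨L1, n1, d1, u1, c1, m1⟩ := Snake.stack 1 (u 1 - l 1).toNat L0 (u 1) n0 u0 c0 (by
    intro x hx
    obtain ⟨y, hy, k, _, rfl⟩ := (m0 x).1 hx
    rw [List.mem_singleton.1 hy]
    simp [e01])
  obtain ⟨L2, n2, d2, u2, c2, m2⟩ := Snake.stack 2 (u 2 - l 2).toNat L1 (u 2) n1 u1 c1 (by
    intro x hx
    obtain ⟨y, hy, k, _, rfl⟩ := (m1 x).1 hx
    obtain ⟨z, hz, k', _, rfl⟩ := (m0 y).1 hy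
    rw [List.mem_singleton.1 hz]
    simp [e02, e12])
  rw [d1, d0] at d2
  obtain ⟨L, hL⟩ : ∃ L, L2 = u :: L := by
    rcases L2 with _ | ⟨v, L⟩
    · exact absurd rfl n2
    · rw [List.head?_cons, List.head?_cons, Option.some.injEq] at d2
      exact ⟨L, by rw [d2]⟩
  subst hL
  refine ⟨L, u2, c2, fun x => ?_⟩
  rw [m2]
  constructor
  · rintro ⟨y, hy, k2, hk2, rfl⟩
    obtain ⟨z, hz, k1, hk1, rfl⟩ := (m1 y).1 hy
    obtain ⟨w, hw, k0, hk0, rfl⟩ := (m0 z).1 hz
    rw [List.mem_singleton.1 hw]
    have h0 := h 0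
    have h1 := h 1
    have h2 := h 2
    intro i
    fin_cases i
    · simp [e00, e10, e20]
      omega
    · simp [e01, e11, e21]
      omega
    · simp [e02, e12, e22]
      omega
  · intro hx
    have x0 := hx 0
    have x1 := hx 1
    have x2 := hx 2
    refine ⟨x + ((u 2 - x 2).toNat : ℤ) • e 2, ?_, (u 2 - x 2).toNat, by omega, by abel⟩
    rw [m1]
    refine ⟨x + ((u 2 - x 2).toNat : ℤ) • e 2 + ((u 1 - x 1).toNat : ℤ) • e 1, ?_,
      (u 1 - x 1).toNat, by omega, by abel⟩
    rw [m0]
    refine ⟨u, List.mem_singleton.2 rfl, (u 0 - x 0).toNat, by omega, ?_⟩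
    apply P_ext
    · simp [e00, e10, e20]
      omega
    · simp [e01, e11, e21]
      omega
    · simp [e02, e12, e22]
      omega

namespace Snake

theorem deg_sup_edge {E : SimpleGraph P} {a b : P} (hab : Lat.Adj a b) (hE : ¬ E.Adj a b) (x : P) :
    deg (E ⊔ SimpleGraph.edge a b) x =
      deg E x + ((if x = a then 1 else 0) + (if x = b then 1 else 0)) := by
  rw [GraphA.deg_eq_cnt, GraphA.deg_eq_cnt, SimpleGraph.edgeSet_sup,
    SimpleGraph.edgeSet_edge_of_ne hab.ne, GraphA.cnt_union, GraphA.cnt_single hab]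
  rw [Set.disjoint_singleton_right]
  exact hE

theorem pairing_aux (leg : P → Prop) : ∀ (l : List P) (a : P), (a :: l).Nodup →
    (a :: l).IsChain Lat.Adj →
    ∃ E : SimpleGraph P, E ≤ Lat ∧ (∀ x y, E.Adj x y → x ∈ a :: l) ∧
      (∀ x ∈ l, leg x → deg E x = 1) ∧ (∀ x ∈ l, ¬ leg x → deg E x = 0 ∨ deg E x = 2) ∧
      deg E a = (l.countP (fun x => decide (leg x))) % 2 ∧
      (∀ t h, l = t ++ h → (∀ x ∈ t, ¬ leg x) → ∀ x ∈ t, x ∈ E.support → E.Reachable a x) := by
  intro l
  induction l with
  | nil =>
    intro a _ _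
    refine ⟨⊥, bot_le, fun x y h => absurd h (by simp), by simp, by simp, ?_, ?_⟩
    · rw [(deg_eq_zero bot_le).2 (fun y => by simp)]
      simp
    · intro t h ht _ x hx
      have : t = [] := (List.append_eq_nil_iff.1 ht.symm).1
      rw [this] at hx
      simp at hx
  | cons b l ih =>
    intro a hnd hch
    rw [List.nodup_cons] at hnd
    rw [List.isChain_cons_cons] at hch
    obtain ⟨E, h1, h2, h3, h4, h5, h6⟩ := ih b hnd.2 hch.2
    have hbl : b ∉ l := (List.nodup_cons.1 hnd.2).1
    have hEa : ∀ y, ¬ E.Adj a y := fun y hy => hnd.1 (h2 a y hy)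
    have hab : a ≠ b := fun h => hnd.1 (h ▸ List.mem_cons_self)
    have hdega : deg E a = 0 := (deg_eq_zero h1).2 hEa
    set m := l.countP (fun x => decide (leg x)) with hm
    by_cases hpar : ((b :: l).countP (fun x => decide (leg x))) % 2 = 1
    · have hdeg := deg_sup_edge hch.1 (hEa b)
      refine ⟨E ⊔ SimpleGraph.edge a b, ?_, ?_, ?_, ?_, ?_, ?_⟩
      · intro x y hxy
        rcases hxy with hxy | hxy
        · exact h1 hxy
        · rw [SimpleGraph.edge_adj] at hxy
          rcases hxy.1 with ⟨rfl, rfl⟩ | ⟨rfl, rfl⟩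
          · exact hch.1
          · exact hch.1.symm
      · intro x y hxy
        rcases hxy with hxy | hxy
        · exact List.mem_cons_of_mem _ (h2 x y hxy)
        · rw [SimpleGraph.edge_adj] at hxy
          rcases hxy.1 with ⟨rfl, rfl⟩ | ⟨rfl, rfl⟩ <;> simp
      · intro x hx hleg
        have hxa : x ≠ a := fun h => hnd.1 (h ▸ hx)
        rw [hdeg, if_neg hxa]
        rcases List.mem_cons.1 hx with rfl | hx
        · rw [if_pos rfl, h5]
          rw [List.countP_cons_of_pos (by simpa using hleg), ← hm] at hpar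
          omega
        · rw [if_neg (show ¬ x = b from fun h => hbl (h ▸ hx)), h3 x hx hleg]
      · intro x hx hleg
        have hxa : x ≠ a := fun h => hnd.1 (h ▸ hx)
        rw [hdeg, if_neg hxa]
        rcases List.mem_cons.1 hx with rfl | hx
        · rw [if_pos rfl, h5]
          rw [List.countP_cons_of_neg (by simpa using hleg), ← hm] at hpar
          omega
        · rw [if_neg (show ¬ x = b from fun h => hbl (h ▸ hx))]
          have := h4 x hx hleg
          omega
      · rw [hdeg, if_pos rfl, if_neg hab, hdega, hpar]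
      · intro t h ht htl x hx _
        have hE : (E ⊔ SimpleGraph.edge a b).Adj a b := by
          right
          rw [SimpleGraph.edge_adj]
          exact ⟨Or.inl ⟨rfl, rfl⟩, hab⟩
        rcases t with _ | ⟨c, t⟩
        · simp at hx
        · rw [List.cons_append, List.cons.injEq] at ht
          obtain ⟨rfl, ht⟩ := ht
          rcases List.mem_cons.1 hx with rfl | hx
          · exact hE.reachable
          · have hxl : x ∈ l := by
              rw [ht]
              exact List.mem_append_left _ hx
            have hxa : x ≠ a := fun h => hnd.1 (h ▸ List.mem_cons_of_mem _ hxl)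
            have hxb : x ≠ b := fun h => hbl (h ▸ hxl)
            have hxE : x ∈ E.support := by
              obtain ⟨y, hy⟩ := ‹x ∈ (E ⊔ SimpleGraph.edge a b).support›
              rcases hy with hy | hy
              · exact ⟨y, hy⟩
              · rw [SimpleGraph.edge_adj] at hy
                rcases hy.1 with ⟨h7, _⟩ | ⟨h7, _⟩
                · exact absurd h7 hxa
                · exact absurd h7 hxb
            have h8 := h6 t h ht (fun z hz => htl z (List.mem_cons_of_mem _ hz)) x hx hxE
            exact hE.reachable.trans (h8.mono le_sup_left)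
    · refine ⟨E, h1, fun x y hxy => List.mem_cons_of_mem _ (h2 x y hxy), ?_, ?_, ?_, ?_⟩
      · intro x hx hleg
        rcases List.mem_cons.1 hx with rfl | hx
        · rw [h5]
          rw [List.countP_cons_of_pos (by simpa using hleg), ← hm] at hpar
          omega
        · exact h3 x hx hleg
      · intro x hx hleg
        rcases List.mem_cons.1 hx with rfl | hx
        · rw [h5]
          rw [List.countP_cons_of_neg (by simpa using hleg), ← hm] at hpar
          omega
        · exact h4 x hx hleg
      · rw [hdega]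
        omega
      · intro t h ht htl x hx hxE
        exfalso
        rcases t with _ | ⟨c, t⟩
        · simp at hx
        · rw [List.cons_append, List.cons.injEq] at ht
          obtain ⟨rfl, ht⟩ := ht
          have hb : deg E b = 0 := by
            have hleg : ¬ leg b := htl b List.mem_cons_self
            rw [List.countP_cons_of_neg (by simpa using hleg), ← hm] at hpar
            omega
          have hb' := (deg_eq_zero h1).1 hb
          rcases List.mem_cons.1 hx with rfl | hx
          · obtain ⟨y, hy⟩ := hxE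
            exact hb' y hy
          · have hxl : x ∈ l := by
              rw [ht]
              exact List.mem_append_left _ hx
            have hxb : x ≠ b := fun h => hbl (h ▸ hxl)
            obtain ⟨p⟩ := h6 t h ht (fun z hz => htl z (List.mem_cons_of_mem _ hz)) x hx hxE
            cases p with
            | nil => exact hxb rfl
            | cons hadj p => exact hb' _ hadj

end Snake

/-- Pairing of consecutive legs along a list. -/
theorem exists_pairing (a : P) (t h : List P) (hn : (a :: (t ++ h)).Nodup)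
    (hc : (a :: (t ++ h)).IsChain Lat.Adj) (leg : P → Prop)
    (ha : ¬ leg a) (ht : ∀ x ∈ t, ¬ leg x) :
    ∃ E : SimpleGraph P, E ≤ Lat ∧
      (∀ x y, E.Adj x y → x ∈ a :: (t ++ h)) ∧
      (∀ x ∈ t ++ h, leg x → deg E x = 1) ∧
      (∀ x ∈ t ++ h, ¬ leg x → deg E x = 0 ∨ deg E x = 2) ∧
      (deg E a = 0 ∨ deg E a = 1) ∧
      (∀ x ∈ t, x ∈ E.support → E.Reachable a x) := by
  obtain ⟨E, h1, h2, h3, h4, h5, h6⟩ := Snake.pairing_aux leg (t ++ h) a hn hc
  refine ⟨E, h1, h2, h3, h4, ?_, h6 t h rfl ht⟩
  rw [h5]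
  omega

end Pool.Agent.Lib.MP_280b4e_pr
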