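import Pool.Agent.Lib.MP_280b4e_pr.LowBox
import Pool.Agent.Lib.MP_280b4e_pr.Snake

/-!
Box clearing: after the expansion around a box, everything in the box is deleted and the edges
leaving the box are joined in pairs along a Hamiltonian path of the box; a possible last one is
led to a corner and along a straight free line.
-/

namespace Pool.Agent.Lib.MP_280b4e_pr

open Classical

theorem deg_sup {G E : SimpleGraph P} {x : P} (h : ∀ y, G.Adj x y → ¬ E.Adj x y) :
    deg (G ⊔ E) x = deg G x + deg E x := by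
  unfold deg
  rw [← Finset.card_union_of_disjoint]
  · congr 1
    ext d
    simp only [Finset.mem_filter, Finset.mem_univ, true_and, Finset.mem_union,
      SimpleGraph.sup_adj]
  · rw [Finset.disjoint_left]
    intro d hd hd'
    simp only [Finset.mem_filter, Finset.mem_univ, true_and] at hd hd'
    exact h _ hd hd'

theorem deg_congr {G G' : SimpleGraph P} {x : P} (h : ∀ y, G.Adj x y ↔ G'.Adj x y) :
    deg G x = deg G' x := by
  unfold deg
  congr 1
  ext d
  simp only [Finset.mem_filter, Finset.mem_univ, true_and]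
  exact h _

namespace Bx

variable (B : Bx)

/-- Upper corner of the cleared region. -/
def hi : P := fun i => B.r i + B.off i + 1

/-- Lower corner of the cleared region. -/
def lo : P := fun i => if i = 0 ∧ B.l 0 = 0 then 0 else B.l i + B.off i - 1

/-- The cleared region. -/
noncomputable def reg : Finset P := Finset.Icc B.lo B.hi

theorem mem_reg {x : P} : x ∈ B.reg ↔ ∀ i, B.lo i ≤ x i ∧ x i ≤ B.hi i := by
  unfold reg
  rw [Finset.mem_Icc, Pi.le_def, Pi.le_def]
  exact ⟨fun h i => ⟨h.1 i, h.2 i⟩, fun h => ⟨fun i => (h i).1, fun i => (h i).2⟩⟩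

/-- Membership in the box. -/
def mem (u : P) : Prop := ∀ i, B.l i ≤ u i ∧ u i ≤ B.r i

theorem lo_nonneg : 0 ≤ B.lo 0 := by
  have h := B.hw
  simp only [lo, off, if_true, true_and]
  split_ifs <;> omega

theorem lo_lt_hi (i : Fin 3) : B.lo i < B.hi i := by
  have h := B.hlr i
  have hw := B.hw
  simp only [lo, hi, off]
  by_cases hi0 : i = 0
  · subst hi0
    simp only [if_true, true_and]; split_ifs <;> omega
  · simp only [hi0, if_false, false_and]; omega

theorem cor_hi {x : P} {i : Fin 3} (h : x i = B.hi i) : B.cor i x := by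
  right; rw [h]; simp only [hi]; omega

theorem cor_hi' {x : P} {i : Fin 3} (h : x i = B.hi i + 1) : B.cor i x := by
  right; rw [h]; simp only [hi]; omega

theorem cor_lo {x : P} {i : Fin 3} (h : x i = B.lo i) (hn : ¬ (i = 0 ∧ B.l 0 = 0)) :
    B.cor i x := by
  left; rw [h]; simp only [lo, if_neg hn]; omega

theorem off_wall (h : B.l 0 = 0) : B.off 0 = 0 := by
  have := B.hw; simp only [off, if_true]; omega

/-- Images of old points lie in the region iff the point is in the box. -/
theorem ex_mem_reg {u : P} (h0 : 0 ≤ u 0) : B.ex u ∈ B.reg ↔ B.mem u := by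
  rw [mem_reg]
  refine forall_congr' fun i => ?_
  have hl := B.hlr i
  by_cases hi0 : i = 0 ∧ B.l 0 = 0
  · obtain ⟨rfl, h1⟩ := hi0
    have h2 := B.off_wall h1
    simp only [lo, hi, ex, ex1, h1, h2, and_self, if_true]
    split_ifs <;> omega
  · simp only [lo, hi, ex, ex1, if_neg hi0]
    split_ifs <;> omega

/-- Edges leaving the region. -/
theorem exit_edge (F : FG) {x y : P} (hx : x ∈ B.reg) (hy : y ∉ B.reg)
    (h : (B.ExG F.G).Adj x y) : ∃ i s, y = x + st (i, s) ∧ B.cor i x ∧
      (x i = if s then B.hi i else B.lo i) ∧ (s = false → ¬ (i = 0 ∧ B.l 0 = 0)) := by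
  obtain ⟨⟨i, s⟩, rfl⟩ := (adj_iff_st _ _).1 h.1
  refine ⟨i, s, rfl, ?_⟩
  rw [mem_reg] at hx hy
  push Not at hy
  obtain ⟨j, hj⟩ := hy
  have hji : j = i := by
    by_contra hne
    have e1 : (x + st (i, s)) j = x j := by simp [st, hne]
    rw [e1] at hj
    exact absurd (hx j).2 (not_le.2 (hj (hx j).1))
  subst hji
  have hxj := hx j
  cases s
  · have e1 : (x + st (j, false)) j = x j - 1 := by simp [st]; ring
    rw [e1] at hj
    have h2 : x j = B.lo j := by
      by_contra hne
      have := hj (by omega)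
      omega
    have h3 : ¬ (j = 0 ∧ B.l 0 = 0) := by
      rintro ⟨rfl, h4⟩
      have h5 : 0 ≤ (x + st ((0 : Fin 3), false)) 0 := (B.Ex F).half _ ⟨x, h.symm⟩
      rw [e1, h2] at h5
      simp [lo, h4] at h5
    exact ⟨B.cor_lo h2 h3, by simpa using h2, fun _ => h3⟩
  · have e1 : (x + st (j, true)) j = x j + 1 := by simp [st]
    rw [e1] at hj
    have h2 : x j = B.hi j := by
      have := hj (by omega)
      omega
    exact ⟨B.cor_hi h2, by simpa using h2, fun h => by simp at h⟩

/-- The expanded graph without the pairs inside the region. -/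
def G2 (F : FG) : SimpleGraph P where
  Adj x y := (B.ExG F.G).Adj x y ∧ ¬ (x ∈ B.reg ∧ y ∈ B.reg)
  symm := ⟨fun _ _ h => ⟨h.1.symm, fun hh => h.2 hh.symm⟩⟩
  loopless := ⟨fun _ h => (B.ExG F.G).loopless.irrefl _ h.1⟩

/-- Points of the region with an edge leaving it. -/
def leg (F : FG) (x : P) : Prop := x ∈ B.reg ∧ ∃ y, y ∉ B.reg ∧ (B.ExG F.G).Adj x y

theorem deg_G2_out (F : FG) {x : P} (hx : x ∉ B.reg) : deg (B.G2 F) x = deg (B.ExG F.G) x :=
  deg_congr fun _ => ⟨fun h => h.1, fun h => ⟨h, fun hh => hx hh.1⟩⟩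

theorem deg_G2_leg (F : FG) {x : P} (hx : B.leg F x) : deg (B.G2 F) x = 1 := by
  obtain ⟨hx, y, hy, hxy⟩ := hx
  obtain ⟨i, s, rfl, hc, hxi, hw⟩ := B.exit_edge F hx hy hxy
  unfold deg
  rw [Finset.card_eq_one]
  refine ⟨(i, s), ?_⟩
  ext ⟨k, b⟩
  simp only [Finset.mem_filter, Finset.mem_univ, true_and, Finset.mem_singleton]
  constructor
  · rintro ⟨h1, h2⟩
    have h3 : (x + st (k, b)) ∉ B.reg := fun h => h2 ⟨hx, h⟩
    have hk : k = i := ((B.ExG_adj_cor F.le hc _).1 h1).1
    subst hk
    by_contra hne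
    have hb : b = !s := by
      cases b <;> cases s <;> simp_all
    apply h3
    rw [mem_reg] at hx ⊢
    intro j
    by_cases hj : j = k
    · subst hj
      have h4 := B.lo_lt_hi j
      subst hb
      cases s
      · simp only [Bool.false_eq_true, if_false] at hxi
        simp only [st, Bool.not_false, if_true, Pi.add_apply]; omega
      · simp only [if_true] at hxi
        simp only [st, Bool.not_true, if_true, Pi.add_apply]
        simp only [Bool.false_eq_true, if_false]; omega
    · have : (x + st (k, b)) j = x j := by simp [st, hj]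
      rw [this]; exact hx j
  · intro h
    obtain ⟨rfl, rfl⟩ := Prod.mk.inj h
    exact ⟨hxy, fun h => hy h.2⟩

theorem deg_G2_nonleg (F : FG) {x : P} (hx : x ∈ B.reg) (hn : ¬ B.leg F x) :
    deg (B.G2 F) x = 0 := by
  unfold deg
  rw [Finset.card_eq_zero, Finset.filter_eq_empty_iff]
  rintro d - ⟨h1, h2⟩
  exact hn ⟨hx, _, fun h => h2 ⟨hx, h⟩, h1⟩

/-- The outer corner point. -/
def cnr : P := B.hi + e 0 + e 1 + e 2

/-- The tip of the line of length `k` in direction `j`. -/
def tip (j : Fin 3) (k : ℕ) : P := B.cnr + (k : ℤ) • e j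

/-- The line from the tip (excluded) to the corner of the region (excluded). -/
def tt (j : Fin 3) : ℕ → List P
  | 0 => [B.hi + e 0 + e 1, B.hi + e 0]
  | k + 1 => B.tip j k :: tt j k

theorem mem_tt {j : Fin 3} {k : ℕ} {x : P} : x ∈ B.tt j k ↔
    (∃ m, m < k ∧ x = B.tip j m) ∨ x = B.hi + e 0 + e 1 ∨ x = B.hi + e 0 := by
  induction k with
  | zero => simp [tt]
  | succ k ih =>
    rw [tt, List.mem_cons, ih]
    constructor
    · rintro (h | ⟨m, h1, h2⟩ | h | h)
      · exact Or.inl ⟨k, by omega, h⟩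
      · exact Or.inl ⟨m, by omega, h2⟩
      · exact Or.inr (Or.inl h)
      · exact Or.inr (Or.inr h)
    · rintro (⟨m, h1, h2⟩ | h | h)
      · rcases Nat.lt_succ_iff_lt_or_eq.1 h1 with h3 | h3
        · exact Or.inr (Or.inl ⟨m, h3, h2⟩)
        · left; rw [h2, h3]
      · exact Or.inr (Or.inr (Or.inl h))
      · exact Or.inr (Or.inr (Or.inr h))

theorem tip_coord (j : Fin 3) (k : ℕ) (i : Fin 3) :
    B.tip j k i = B.hi i + 1 + if i = j then (k : ℤ) else 0 := by
  simp only [tip, cnr, Pi.add_apply, Pi.smul_apply, smul_eq_mul, e]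
  fin_cases i <;> fin_cases j <;> simp

theorem tip_zero (j : Fin 3) : B.tip j 0 = B.cnr := by simp [tip]

theorem tt_length (j : Fin 3) (k : ℕ) : (B.tt j k).length = k + 2 := by
  induction k with
  | zero => rfl
  | succ k ih => simp [tt, ih]

/-- The points of the line and the tip. -/
def ltail (j : Fin 3) (k : ℕ) : List P := B.tip j k :: B.tt j k

theorem mem_ltail {j : Fin 3} {k : ℕ} {x : P} : x ∈ B.ltail j k ↔
    (∃ m, m ≤ k ∧ x = B.tip j m) ∨ x = B.hi + e 0 + e 1 ∨ x = B.hi + e 0 := by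
  rw [ltail, List.mem_cons, mem_tt]
  constructor
  · rintro (h | ⟨m, h1, h2⟩ | h | h)
    · exact Or.inl ⟨k, le_rfl, h⟩
    · exact Or.inl ⟨m, by omega, h2⟩
    · exact Or.inr (Or.inl h)
    · exact Or.inr (Or.inr h)
  · rintro (⟨m, h1, h2⟩ | h | h)
    · rcases Nat.lt_or_eq_of_le h1 with h3 | h3
      · exact Or.inr (Or.inl ⟨m, h3, h2⟩)
      · left; rw [h2, h3]
    · exact Or.inr (Or.inr (Or.inl h))
    · exact Or.inr (Or.inr (Or.inr h))

/-- Each point of the tail has two corridor coordinates and is outside of the region. -/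
theorem ltail_cor {j : Fin 3} {k : ℕ} {x : P} (h : x ∈ B.ltail j k) :
    (∃ i i', i ≠ i' ∧ B.cor i x ∧ B.cor i' x) ∧ x ∉ B.reg ∧ 0 ≤ x 0 := by
  have h00 := B.lo_nonneg
  have h01 := B.lo_lt_hi 0
  rw [mem_ltail] at h
  rcases h with ⟨m, -, rfl⟩ | rfl | rfl
  · have hc : ∀ i, B.tip j m i = B.hi i + 1 + if i = j then (m : ℤ) else 0 := B.tip_coord j m
    refine ⟨?_, ?_, ?_⟩
    · have : ∃ i i' : Fin 3, i ≠ i' ∧ i ≠ j ∧ i' ≠ j := by
        fin_cases j
        · exact ⟨1, 2, by decide, by decide, by decide⟩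
        · exact ⟨0, 2, by decide, by decide, by decide⟩
        · exact ⟨0, 1, by decide, by decide, by decide⟩
      obtain ⟨i, i', h1, h2, h3⟩ := this
      exact ⟨i, i', h1, B.cor_hi' (by rw [hc, if_neg h2, add_zero]),
        B.cor_hi' (by rw [hc, if_neg h3, add_zero])⟩
    · rw [mem_reg]; intro hh
      have := (hh 0).2
      rw [hc] at this; split_ifs at this <;> omega
    · rw [hc]; split_ifs <;> omega
  · refine ⟨⟨0, 1, by decide, B.cor_hi' (by simp [e]), B.cor_hi' (by simp [e])⟩, ?_, ?_⟩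
    · rw [mem_reg]; intro hh
      have := (hh 0).2
      simp [e] at this
    · simp [e]; omega
  · refine ⟨⟨0, 1, by decide, B.cor_hi' (by simp [e]), B.cor_hi (by simp [e])⟩, ?_, ?_⟩
    · rw [mem_reg]; intro hh
      have := (hh 0).2
      simp [e] at this
    · simp [e]; omega

theorem iso_of_two_cor {F : FG} {x : P} (h : ∃ i i', i ≠ i' ∧ B.cor i x ∧ B.cor i' x) (y : P) :
    ¬ (B.ExG F.G).Adj x y := by
  intro hxy
  obtain ⟨i, i', h1, h2, h3⟩ := h
  obtain ⟨d, rfl⟩ := (adj_iff_st _ _).1 hxy.1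
  exact ((B.ExG_adj_cor F.le h2 d).1 hxy).2.1 i' (Ne.symm h1) h3

theorem tail_chain (j : Fin 3) (k : ℕ) (L : List P) (h : (B.hi :: L).IsChain Lat.Adj) :
    (B.tip j k :: (B.tt j k ++ B.hi :: L)).IsChain Lat.Adj := by
  induction k with
  | zero =>
    simp only [tt, List.cons_append, List.nil_append, List.isChain_cons_cons]
    refine ⟨?_, ?_, ?_, h⟩
    · rw [tip_zero, cnr]; exact (adj_e _ _).symm
    · exact (adj_e _ _).symm
    · exact (adj_e _ _).symm
  | succ k ih =>
    simp only [tt, List.cons_append, List.isChain_cons_cons]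
    refine ⟨?_, ih⟩
    have : B.tip j (k + 1) = B.tip j k + e j := by
      simp only [tip]; push_cast; rw [add_smul, one_smul, add_assoc]
    rw [this]; exact (adj_e _ _).symm

theorem tail_nodup (j : Fin 3) (k : ℕ) (L : List P) (h : (B.hi :: L).Nodup)
    (hL : ∀ x ∈ B.hi :: L, x ∈ B.reg) :
    (B.tip j k :: (B.tt j k ++ B.hi :: L)).Nodup := by
  induction k with
  | zero =>
    simp only [tt, List.cons_append, List.nil_append, List.nodup_cons]
    have h1 : ∀ x, x ∈ B.ltail j 0 → x ∉ B.hi :: L := fun x hx hx' =>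
      (B.ltail_cor hx).2.1 (hL x hx')
    have h2 : B.hi + e 0 ∉ B.hi :: L := h1 _ (B.mem_ltail.2 (Or.inr (Or.inr rfl)))
    have h3 : B.hi + e 0 + e 1 ∉ B.hi :: L := h1 _ (B.mem_ltail.2 (Or.inr (Or.inl rfl)))
    have h4 : B.tip j 0 ∉ B.hi :: L := h1 _ (B.mem_ltail.2 (Or.inl ⟨0, le_rfl, rfl⟩))
    refine ⟨?_, ?_, h2, ?_⟩
    · rw [List.mem_cons, List.mem_cons, tip_zero]
      rintro (h5 | h5 | h5)
      · have := congrFun h5 2; simp [cnr, e] at this
      · have := congrFun h5 2; simp [cnr, e] at this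
      · rw [tip_zero] at h4; exact h4 h5
    · rw [List.mem_cons]
      rintro (h5 | h5)
      · have := congrFun h5 1; simp [e] at this
      · exact h3 h5
    · exact List.nodup_cons.1 h
  | succ k ih =>
    simp only [tt, List.cons_append]
    rw [List.nodup_cons]
    refine ⟨?_, ih⟩
    rw [List.mem_cons, List.mem_append]
    have hc : ∀ m i, B.tip j m i = B.hi i + 1 + if i = j then (m : ℤ) else 0 := B.tip_coord j
    rintro (h5 | h5 | h5)
    · have := congrFun h5 j; rw [hc, hc] at this; simp at this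
    · rw [mem_tt] at h5
      rcases h5 with ⟨m, h6, h7⟩ | h7 | h7
      · have := congrFun h7 j; rw [hc, hc] at this; simp at this; omega
      · have := congrFun h7 2; rw [hc] at this; simp [e] at this
        split_ifs at this <;> omega
      · have := congrFun h7 2; rw [hc] at this; simp [e] at this
        split_ifs at this <;> omega
    · exact (B.ltail_cor (B.mem_ltail.2 (Or.inl ⟨k + 1, le_rfl, rfl⟩))).2.1 (hL _ h5)

/-- The set where the cleared graph differs from the expanded graph. -/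
noncomputable def zone (j : Fin 3) (k : ℕ) : Finset P := B.reg ∪ (B.ltail j k).toFinset

theorem zone_card (j : Fin 3) (k : ℕ) : (B.zone j k).card ≤ B.reg.card + (k + 3) := by
  unfold zone
  refine (Finset.card_union_le _ _).trans ?_
  have h1 := List.toFinset_card_le (B.ltail j k)
  have h2 : (B.ltail j k).length = k + 3 := by simp [ltail, tt_length]
  omega

theorem hi_mem_reg : B.hi ∈ B.reg := by
  rw [mem_reg]; intro i; exact ⟨(B.lo_lt_hi i).le, le_rfl⟩

/-- Main construction of the cleared graph. -/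
theorem exists_clear (F : FG) (j : Fin 3) (k : ℕ) :
    ∃ F' : FG,
      (∀ x y, ¬ (x ∈ B.zone j k ∧ y ∈ B.zone j k) → ((B.Ex F).G.Adj x y ↔ F'.G.Adj x y)) ∧
      (deg F'.G (B.tip j k) = 0 ∨ deg F'.G (B.tip j k) = 1) ∧
      (∀ x ∈ B.zone j k, x ≠ B.tip j k → deg F'.G x = 0 ∨ deg F'.G x = 2) ∧
      (∀ x ∈ B.ltail j k, x ∈ F'.G.support → F'.G.Reachable (B.tip j k) x) := by
  obtain ⟨L, hL1, hL2, hL3⟩ := exists_snake B.lo B.hi fun i => (B.lo_lt_hi i).le
  have hreg : ∀ x, x ∈ B.hi :: L ↔ x ∈ B.reg := fun x => by rw [hL3, mem_reg]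
  have hnleg : ∀ x ∈ B.ltail j k, ¬ B.leg F x := fun x hx hl => (B.ltail_cor hx).2.1 hl.1
  obtain ⟨E, hE1, hE2, hE3, hE4, hE5, hE6⟩ := exists_pairing (B.tip j k) (B.tt j k) (B.hi :: L)
    (B.tail_nodup j k L hL1 fun x hx => (hreg x).1 hx) (B.tail_chain j k L hL2) (B.leg F)
    (hnleg _ (List.mem_cons_self)) (fun x hx => hnleg _ (List.mem_cons_of_mem _ hx))
  have hmem : ∀ x, x ∈ B.tip j k :: (B.tt j k ++ B.hi :: L) ↔ x ∈ B.zone j k := by
    intro x
    rw [zone, Finset.mem_union, List.mem_toFinset, ltail, List.mem_cons, List.mem_append, hreg,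
      List.mem_cons]
    tauto
  have hEz : ∀ x y, E.Adj x y → x ∈ B.zone j k ∧ y ∈ B.zone j k := fun x y h =>
    ⟨(hmem x).1 (hE2 x y h), (hmem y).1 (hE2 y x h.symm)⟩
  have hG2iso : ∀ x ∈ B.ltail j k, ∀ y, ¬ (B.G2 F).Adj x y := fun x hx y h =>
    B.iso_of_two_cor (B.ltail_cor hx).1 y h.1
  have hdisj : ∀ x y, (B.G2 F).Adj x y → ¬ E.Adj x y := by
    intro x y h h'
    obtain ⟨hx, hy⟩ := hEz x y h'
    rw [zone, Finset.mem_union, List.mem_toFinset] at hx hy
    rcases hx with hx | hx
    · rcases hy with hy | hy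
      · exact h.2 ⟨hx, hy⟩
      · exact hG2iso y hy x h.symm
    · exact hG2iso x hx y h
  have hzone0 : ∀ x ∈ B.zone j k, 0 ≤ x 0 := by
    intro x hx
    rw [zone, Finset.mem_union, List.mem_toFinset] at hx
    rcases hx with hx | hx
    · have h1 := ((B.mem_reg).1 hx 0).1
      have h2 := B.lo_nonneg
      omega
    · exact (B.ltail_cor hx).2.2
  let F' : FG :=
    { G := B.G2 F ⊔ E
      le := by
        intro x y h
        rcases h with h | h
        · exact h.1.1
        · exact hE1 h
      fin := by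
        refine ((B.Ex F).fin.union (B.zone j k).finite_toSet).subset ?_
        rintro x ⟨y, h | h⟩
        · exact Or.inl ⟨y, h.1⟩
        · exact Or.inr (hEz x y h).1
      half := by
        rintro x ⟨y, h | h⟩
        · exact (B.Ex F).half x ⟨y, h.1⟩
        · exact hzone0 x (hEz x y h).1 }
  have hdeg : ∀ x, deg F'.G x = deg (B.G2 F) x + deg E x := fun x => deg_sup (hdisj x)
  have hdtail : ∀ x ∈ B.ltail j k, deg (B.G2 F) x = 0 := by
    intro x hx
    unfold deg
    rw [Finset.card_eq_zero, Finset.filter_eq_empty_iff]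
    intro d _
    exact hG2iso x hx _
  have htl : B.tip j k ∈ B.ltail j k := List.mem_cons_self
  refine ⟨F', ?_, ?_, ?_, ?_⟩
  · intro x y hxy
    constructor
    · intro h
      refine Or.inl ⟨h, fun hh => hxy ?_⟩
      exact ⟨Finset.mem_union_left _ hh.1, Finset.mem_union_left _ hh.2⟩
    · rintro (h | h)
      · exact h.1
      · exact absurd (hEz x y h) hxy
  · rw [hdeg, hdtail _ htl, zero_add]; exact hE5
  · intro x hx hne
    rw [hdeg]
    rw [zone, Finset.mem_union, List.mem_toFinset] at hx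
    rcases hx with hx | hx
    · have hx' : x ∈ B.tt j k ++ B.hi :: L := List.mem_append_right _ ((hreg x).2 hx)
      by_cases hl : B.leg F x
      · right; rw [B.deg_G2_leg F hl, hE3 x hx' hl]
      · rw [B.deg_G2_nonleg F hx hl, zero_add]; exact hE4 x hx' hl
    · rw [hdtail x hx, zero_add]
      have hx' : x ∈ B.tt j k ++ B.hi :: L := by
        rw [ltail, List.mem_cons] at hx
        exact List.mem_append_left _ (hx.resolve_left hne)
      exact hE4 x hx' (hnleg x hx)
  · intro x hx hxs
    have hxE : x ∈ E.support := by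
      obtain ⟨y, h | h⟩ := hxs
      · exact absurd h (hG2iso x hx y)
      · exact ⟨y, h⟩
    rw [ltail, List.mem_cons] at hx
    rcases hx with rfl | hx
    · exact SimpleGraph.Reachable.refl _
    · exact (hE6 x hx hxE).mono le_sup_right

/-- Agreement outside of the zone. -/
def Agree (j : Fin 3) (k : ℕ) (F F' : FG) : Prop :=
  ∀ x y, ¬ (x ∈ B.zone j k ∧ y ∈ B.zone j k) → ((B.Ex F).G.Adj x y ↔ F'.G.Adj x y)

theorem ex_not_zone {j : Fin 3} {k : ℕ} {u : P} (h0 : 0 ≤ u 0) (hu : ¬ B.mem u) :
    B.ex u ∉ B.zone j k := by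
  rw [zone, Finset.mem_union, List.mem_toFinset]
  rintro (h | h)
  · exact hu ((B.ex_mem_reg h0).1 h)
  · obtain ⟨⟨i, _, _, h1, _⟩, _⟩ := B.ltail_cor h
    exact B.not_cor_ex i u h1

theorem clear_unique {j : Fin 3} {k : ℕ} {F₁ F₂ F' : FG} (h1 : B.Agree j k F₁ F')
    (h2 : B.Agree j k F₂ F')
    (hc : ∀ u v, B.mem u → B.mem v → (F₁.G.Adj u v ↔ F₂.G.Adj u v)) : F₁ = F₂ := by
  apply FG.ext_e
  intro u i
  by_cases h0 : 0 ≤ u 0
  swap
  · constructor
    · intro h; exact absurd (F₁.half _ ⟨_, h⟩) h0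
    · intro h; exact absurd (F₂.half _ ⟨_, h⟩) h0
  by_cases hu : B.mem u
  · by_cases hv : B.mem (u + e i)
    · exact hc _ _ hu hv
    · have hui : u i = B.r i := by
        simp only [mem] at hv hu
        push Not at hv
        obtain ⟨j', hj'⟩ := hv
        have hju := hu j'
        by_cases hj : j' = i
        · subst hj
          have e1 : (u + e j') j' = u j' + 1 := by simp [e]
          rw [e1] at hj'
          have := hj' (by omega)
          omega
        · have e1 : (u + e i) j' = u j' := by simp [e, hj]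
          rw [e1] at hj'
          have := hj' (by omega)
          omega
      have e2 : B.dn (B.ex u + e i) = u := by
        funext j'
        by_cases hj : j' = i
        · subst hj
          have e3 : (B.ex u + e j') j' = B.ex u j' + 1 := by simp [e]
          simp only [dn, e3]
          exact dn1_ex1_add (B.hlr j') (Or.inl hui) (by omega) (by omega)
        · have e3 : (B.ex u + e i) j' = B.ex u j' := by simp [e, hj]
          simp only [dn, e3]; exact dn1_ex1 (B.hlr j')
      have hcor : ∀ j', j' ≠ i → ¬ B.cor j' (B.ex u + e i) := by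
        intro j' hj
        have e3 : (B.ex u + e i) j' = B.ex u j' := by simp [e, hj]
        simp only [cor, e3]; exact not_cor1_ex1 (B.hlr j')
      have hcor' : ∀ j', j' ≠ i → ¬ B.cor j' (B.ex u + e i + e i) := by
        intro j' hj
        have e3 : (B.ex u + e i + e i) j' = B.ex u j' := by simp [e, hj]
        simp only [cor, e3]; exact not_cor1_ex1 (B.hlr j')
      have hnz : (B.ex u + e i + e i) ∉ B.zone j k := by
        rw [zone, Finset.mem_union, List.mem_toFinset]
        rintro (h | h)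
        · have h3 := ((B.mem_reg).1 h i).2
          have h4 : (B.ex u + e i + e i) i = B.ex u i + 2 := by simp [e]; ring
          rw [h4] at h3
          have hl := B.hlr i
          simp only [ex, ex1, hi, hui] at h3
          split_ifs at h3 <;> omega
        · obtain ⟨⟨a, b, hab, ha, hb⟩, _⟩ := B.ltail_cor h
          by_cases hai : a = i
          · subst hai; exact hcor' b (Ne.symm hab) hb
          · exact hcor' a hai ha
      have key : ∀ F : FG, B.Agree j k F F' →
          (F.G.Adj u (u + e i) ↔ F'.G.Adj (B.ex u + e i) (B.ex u + e i + e i)) := by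
        intro F hF
        have h3 := hF (B.ex u + e i) (B.ex u + e i + e i) (fun hh => hnz hh.2)
        have h4 := B.ExG_adj_e F.le (B.ex u + e i) i
        rw [e2] at h4
        rw [← h3]
        exact ⟨fun h => h4.2 ⟨hcor, h⟩, fun h => (h4.1 h).2⟩
      rw [key F₁ h1, key F₂ h2]
  · have hnz := B.ex_not_zone (j := j) (k := k) h0 hu
    have key : ∀ F : FG, B.Agree j k F F' →
        (F.G.Adj u (u + e i) ↔ F'.G.Adj (B.ex u) (B.ex u + e i)) := by
      intro F hF
      have h3 := hF (B.ex u) (B.ex u + e i) (fun hh => hnz hh.1)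
      have h4 := B.ExG_adj_ex F.le u (i, true)
      rw [st_true] at h4
      rw [← h3]
      exact h4.symm
    rw [key F₁ h1, key F₂ h2]

theorem abs_ex_le {N : ℕ} {u : P} (h : InBox N u) (i : Fin 3) :
    |B.ex u i| ≤ (N : ℤ) + 4 := by
  have h1 := h i
  have hw := B.hw
  have hl := B.hlr i
  rw [abs_le] at h1 ⊢
  by_cases hi0 : i = 0
  · subst hi0
    simp only [ex, ex1, off, if_true]; constructor <;> split_ifs <;> omega
  · simp only [ex, ex1, off, hi0, if_false]; constructor <;> split_ifs <;> omega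

theorem inBox_Ex {F : FG} {N : ℕ} (h : ∀ x ∈ F.V, InBox N x) :
    ∀ x ∈ (B.Ex F).V, InBox (N + 6) x := by
  intro x hx i
  have h1 := B.abs_ex_le (h _ (B.dn_mem_V hx)) i
  have h2 := B.ex_dn_le x i
  rw [abs_le] at h1 ⊢
  push_cast
  constructor <;> omega

theorem rooted_Ex {F : FG} {ρ : Finset P} (h : ∀ x ∈ F.G.support, ∃ r ∈ ρ, F.G.Reachable r x) :
    ∀ x ∈ (B.Ex F).G.support, ∃ r ∈ ρ.image B.ex, (B.Ex F).G.Reachable r x := by
  rintro x hx
  have hx' : B.dn x ∈ F.G.support := by
    obtain ⟨y, hy⟩ := hx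
    exact B.dn_mem_of_adj F.le hy
  obtain ⟨r, hr, hrx⟩ := h _ hx'
  exact ⟨B.ex r, Finset.mem_image_of_mem _ hr, (B.reach_ex F.le hrx).trans (B.reach_ex_dn F.le hx)⟩

theorem deg_Ex_of_not_image (F : FG) {x : P} (h : ∀ u, B.ex u ≠ x) :
    deg (B.ExG F.G) x = 0 ∨ deg (B.ExG F.G) x = 2 := by
  have hcor : ∃ i, B.cor i x := by
    by_contra hc
    push Not at hc
    exact h _ (B.ex_dn hc)
  obtain ⟨i, hi⟩ := hcor
  rw [B.deg_ExG_cor F.le hi]
  split_ifs
  · exact Or.inr rfl
  · exact Or.inl rfl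

/-- The odd points that stay outside of the box, moved by the expansion. -/
noncomputable def outO (O : Finset P) : Finset P := (O.filter fun u => ¬ B.mem u).image B.ex

/-- Class form of box clearing. -/
theorem clear_cls (p : Par) {c N : ℕ} {O : Finset P} {F : FG} (hF : F ∈ Cls c N O)
    (j : Fin 3) (k m z N' : ℕ) (hm : (B.blk F).card ≤ m) (hz : B.reg.card ≤ z)
    (hN : N + 6 * m + z + k + 6 ≤ N') (hbox : ∀ x ∈ B.zone j k, InBox N' x) :
    ∃ F' : FG, B.Agree j k F F' ∧
      (F' ∈ Cls (c + z + 1) N' (B.outO O) ∨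
        F' ∈ Cls (c + z + 1) N' (insert (B.tip j k) (B.outO O))) ∧
      |W p F - W p F'| ≤ 14 * C0 p * (m + z + k + 3) := by
  obtain ⟨F', hA, hd1, hd2, hr⟩ := B.exists_clear F j k
  obtain ⟨hc1, hc2, hc3, hc4, ρ, hρ1, hρ2⟩ := hF
  have hVsub : F'.V ⊆ (B.Ex F).V ∪ B.zone j k := by
    intro x hx
    by_cases hxz : x ∈ B.zone j k
    · exact Finset.mem_union_right _ hxz
    · obtain ⟨y, hy⟩ := FG.mem_V.1 hx
      exact Finset.mem_union_left _ (FG.mem_V.2 ⟨y, (hA x y fun hh => hxz hh.1).2 hy⟩)
  have hzc := B.zone_card j k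
  have hcard : F'.V.card ≤ N' := by
    have h1 := (Finset.card_le_card hVsub).trans (Finset.card_union_le _ _)
    have h2 := B.card_V_Ex F
    have h3 : 6 * (B.blk F).card ≤ 6 * m := by omega
    omega
  have hinbox : ∀ x ∈ F'.V, InBox N' x := by
    intro x hx
    rcases Finset.mem_union.1 (hVsub hx) with h | h
    · intro i
      refine (B.inBox_Ex hc2 x h i).trans ?_
      exact_mod_cast (by omega : N + 6 ≤ N')
    · exact hbox x h
  have hO0 : ∀ u ∈ O, 0 ≤ u 0 := by
    intro u hu
    have h1 := hc3 u hu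
    have h2 : u ∈ F.V := by
      by_contra hn
      have h3 : deg F.G u = 0 := (deg_eq_zero F.le).2 fun y hy => hn (FG.mem_V_left hy)
      omega
    exact FG.nonneg h2
  have hdout : ∀ x, x ∉ B.zone j k → deg F'.G x = deg (B.ExG F.G) x := by
    intro x hx
    exact deg_congr fun y => (hA x y fun hh => hx hh.1).symm
  have hO' : ∀ x ∈ B.outO O, deg F'.G x = 1 := by
    intro x hx
    obtain ⟨u, hu, rfl⟩ := Finset.mem_image.1 hx
    obtain ⟨hu1, hu2⟩ := Finset.mem_filter.1 hu
    rw [hdout _ (B.ex_not_zone (hO0 u hu1) hu2), B.deg_ExG_ex F.le]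
    exact hc3 u hu1
  have hnO' : ∀ x, x ∉ B.outO O → x ≠ B.tip j k → deg F'.G x = 0 ∨ deg F'.G x = 2 := by
    intro x hx hxt
    by_cases hxz : x ∈ B.zone j k
    · exact hd2 x hxz hxt
    · rw [hdout x hxz]
      by_cases him : ∃ u, B.ex u = x
      · obtain ⟨u, rfl⟩ := him
        rw [B.deg_ExG_ex F.le]
        refine hc4 u fun huO => hx ?_
        refine Finset.mem_image_of_mem _ (Finset.mem_filter.2 ⟨huO, fun hB => hxz ?_⟩)
        exact Finset.mem_union_left _ ((B.ex_mem_reg (hO0 u huO)).2 hB)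
      · push Not at him
        exact B.deg_Ex_of_not_image F him
  have hroot : Rooted (c + z + 1) F'.G := by
    have key := rooted_local (G := (B.Ex F).G) (G' := F'.G) (B.zone j k) (ρ.image B.ex)
      (insert (B.tip j k) B.reg) B.reg (fun x y h hh => (hA x y hh).1 h) (B.rooted_Ex hρ2) ?_ ?_
    · refine ⟨ρ.image B.ex ∪ B.reg ∪ insert (B.tip j k) B.reg, ?_, key⟩
      have h1 : ρ.image B.ex ∪ B.reg ∪ insert (B.tip j k) B.reg ⊆
          ρ.image B.ex ∪ insert (B.tip j k) B.reg := by
        intro x hx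
        simp only [Finset.mem_union, Finset.mem_insert] at hx ⊢
        tauto
      have h2 := (Finset.card_le_card h1).trans (Finset.card_union_le _ _)
      have h3 : (ρ.image B.ex).card ≤ ρ.card := Finset.card_image_le
      have h4 := Finset.card_insert_le (B.tip j k) B.reg
      omega
    · intro x hx
      by_cases hxs : x ∈ (B.Ex F).G.support
      · exact Or.inl hxs
      · right
        have hxz : x ∈ B.zone j k := by
          by_contra hn
          obtain ⟨y, hy⟩ := hx
          exact hxs ⟨y, (hA x y fun hh => hn hh.1).2 hy⟩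
        rw [zone, Finset.mem_union, List.mem_toFinset] at hxz
        rcases hxz with h | h
        · exact ⟨x, Finset.mem_insert_of_mem h, SimpleGraph.Reachable.refl _⟩
        · exact ⟨B.tip j k, Finset.mem_insert_self _ _, hr x h hx⟩
    · intro x hxz hxs
      rw [zone, Finset.mem_union, List.mem_toFinset] at hxz
      rcases hxz with h | h
      · exact h
      · obtain ⟨y, hy⟩ := hxs
        exact absurd hy (B.iso_of_two_cor (B.ltail_cor h).1 y)
  have htipO : B.tip j k ∉ B.outO O := by
    intro h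
    obtain ⟨u, -, hu⟩ := Finset.mem_image.1 h
    obtain ⟨⟨i, _, _, h1, _⟩, _⟩ := B.ltail_cor (j := j) (k := k) (x := B.tip j k)
      List.mem_cons_self
    rw [← hu] at h1
    exact B.not_cor_ex i u h1
  refine ⟨F', hA, ?_, ?_⟩
  · rcases hd1 with h0 | h1
    · left
      refine ⟨hcard, hinbox, hO', ?_, hroot⟩
      intro x hx
      by_cases hxt : x = B.tip j k
      · left; rw [hxt]; exact h0
      · exact hnO' x hx hxt
    · right
      refine ⟨hcard, hinbox, ?_, ?_, hroot⟩
      · intro x hx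
        rcases Finset.mem_insert.1 hx with rfl | hx
        · exact h1
        · exact hO' x hx
      · intro x hx
        rw [Finset.mem_insert] at hx
        push Not at hx
        exact hnO' x hx.2 hx.1
  · have h1 := B.W_Ex p F
    have h2 := W_local p (B.Ex F) F' (B.zone j k) hA
    have h3 : |W p F - W p F'| ≤ |W p F - W p (B.Ex F)| + |W p (B.Ex F) - W p F'| :=
      abs_sub_le _ _ _
    have h4 : ((B.blk F).card : ℝ) ≤ m := by exact_mod_cast hm
    have h5 : ((B.zone j k).card : ℝ) ≤ z + k + 3 := by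
      have : (B.zone j k).card ≤ z + k + 3 := by omega
      exact_mod_cast this
    have hC := C0_nonneg p
    have h6 : 14 * C0 p * ((B.blk F).card : ℝ) ≤ 14 * C0 p * m := by gcongr
    have h7 : 14 * C0 p * ((B.zone j k).card : ℝ) ≤ 14 * C0 p * (z + k + 3) := by gcongr
    linarith

end Bx

end Pool.Agent.Lib.MP_280b4e_pr
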