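import Pool.Agent.Lib.MP_280b4e_pr.Basic

/-!
Piece A: handshake lemma, removing an edge of a closed graph and adding paths.
-/

namespace Pool.Agent.Lib.MP_280b4e_pr
open scoped ENNReal
open Classical

namespace GraphA

/-- The number of directions `d` for which the edge from `x` to `x + st d` lies in `S`. -/
noncomputable def cnt (S : Set (Sym2 P)) (x : P) : ℕ :=
  (Finset.univ.filter fun d : Dir => s(x, x + st d) ∈ S).card

theorem deg_eq_cnt (G : SimpleGraph P) (x : P) : deg G x = cnt G.edgeSet x := by
  unfold deg cnt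
  rfl

theorem cnt_union {S T : Set (Sym2 P)} (h : Disjoint S T) (x : P) :
    cnt (S ∪ T) x = cnt S x + cnt T x := by
  unfold cnt
  rw [← Finset.card_union_of_disjoint]
  · congr 1
    ext d
    simp
  · rw [Finset.disjoint_filter]
    intro d _ h1 h2
    exact Set.disjoint_left.1 h h1 h2

theorem cnt_eq_card {S : Set (Sym2 P)} {x : P} (T : Finset Dir)
    (h : ∀ d, s(x, x + st d) ∈ S ↔ d ∈ T) : cnt S x = T.card := by
  unfold cnt
  congr 1
  ext d
  rw [Finset.mem_filter, h]
  simp

theorem cnt_single {u v : P} (h : Lat.Adj u v) (x : P) :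
    cnt {s(u, v)} x = (if x = u then 1 else 0) + (if x = v then 1 else 0) := by
  obtain ⟨d, rfl⟩ := (adj_iff_st _ _).1 h
  have hne : u ≠ u + st d := h.ne
  by_cases h1 : x = u
  · subst h1
    rw [if_pos rfl, if_neg hne]
    rw [cnt_eq_card {d}]
    · simp
    · intro d'
      rw [Set.mem_singleton_iff, Finset.mem_singleton]
      constructor
      · intro h2
        rcases Sym2.eq_iff.1 h2 with ⟨_, h3⟩ | ⟨h3, _⟩
        · exact st_injective (add_left_cancel h3)
        · exact absurd h3 hne
      · rintro rfl; rfl
  · by_cases h2 : x = u + st d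
    · rw [if_neg h1, if_pos h2]
      rw [cnt_eq_card {opp d}]
      · simp
      · intro d'
        rw [Set.mem_singleton_iff, Finset.mem_singleton]
        constructor
        · intro h3
          rcases Sym2.eq_iff.1 h3 with ⟨h4, _⟩ | ⟨_, h4⟩
          · exact absurd h4 h1
          · apply st_injective
            rw [st_opp]
            rw [h2] at h4
            have h5 : u + (st d + st d') = u + 0 := by rw [← add_assoc, h4, add_zero]
            have h6 := add_left_cancel h5
            exact (neg_eq_of_add_eq_zero_right h6).symm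
        · rintro rfl
          rw [h2, st_opp, add_neg_cancel_right]
          exact Sym2.eq_swap
    · rw [if_neg h1, if_neg h2]
      rw [cnt_eq_card ∅]
      · rfl
      · intro d'
        constructor
        · intro h3
          exfalso
          rcases Sym2.eq_iff.1 (Set.mem_singleton_iff.1 h3) with ⟨h4, _⟩ | ⟨h4, _⟩
          · exact h1 h4
          · exact h2 h4
        · intro h3
          exact absurd h3 (Finset.notMem_empty _)

theorem cnt_path {a b : P} (p : Lat.Walk a b) (hp : p.IsPath) (x : P) :
    cnt {z | z ∈ p.edges} x + (if x = a then 1 else 0) + (if x = b then 1 else 0) =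
      if x ∈ p.support then 2 else 0 := by
  induction p with
  | @nil u =>
    have : cnt {z | z ∈ (SimpleGraph.Walk.nil : Lat.Walk u u).edges} x = 0 := by
      rw [cnt_eq_card ∅]
      · rfl
      · intro d'
        simp
    rw [this]
    simp only [SimpleGraph.Walk.support_nil, List.mem_singleton]
    split_ifs <;> rfl
  | @cons u v w h p ih =>
    rw [SimpleGraph.Walk.cons_isPath_iff] at hp
    have ih' := ih hp.1
    have h1 : ({z | z ∈ (SimpleGraph.Walk.cons h p).edges} : Set (Sym2 P)) =
        {s(u, v)} ∪ {z | z ∈ p.edges} := by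
      ext z
      simp
    have h2 : Disjoint ({s(u, v)} : Set (Sym2 P)) {z | z ∈ p.edges} := by
      rw [Set.disjoint_singleton_left]
      intro h3
      exact hp.2 (p.fst_mem_support_of_mem_edges h3)
    rw [h1, cnt_union h2, cnt_single h]
    simp only [SimpleGraph.Walk.support_cons, List.mem_cons]
    by_cases h3 : x = u
    · subst h3
      rw [if_neg hp.2] at ih'
      rw [if_pos rfl, if_pos (Or.inl rfl)]
      have := h.ne
      omega
    · rw [if_neg h3]
      by_cases h4 : x ∈ p.support
      · rw [if_pos (Or.inr h4)]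
        rw [if_pos h4] at ih'
        omega
      · rw [if_neg (not_or.2 ⟨h3, h4⟩)]
        rw [if_neg h4] at ih'
        omega

end GraphA

/-- Handshake lemma. -/
theorem handshake (G : SimpleGraph P) (hG : G ≤ Lat) (K : Finset P)
    (hK : ∀ x ∈ K, ∀ y, G.Adj x y → y ∈ K) : Even (∑ x ∈ K, deg G x) := by
  have h0 : ∑ x ∈ K, deg G x = ((K ×ˢ (Finset.univ : Finset Dir)).filter
      fun z => G.Adj z.1 (z.1 + st z.2)).card := by
    rw [Finset.card_filter, Finset.sum_product]
    refine Finset.sum_congr rfl fun x _ => ?_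
    rw [deg, Finset.card_filter]
  rw [h0, ← ZMod.natCast_eq_zero_iff_even, Finset.card_eq_sum_ones, Nat.cast_sum]
  refine Finset.sum_involution (fun z _ => (z.1 + st z.2, opp z.2)) ?_ ?_ ?_ ?_
  · intro z _
    decide
  · intro z hz _ h
    have h1 := (Finset.mem_filter.1 hz).2
    have h2 : z.1 + st z.2 = z.1 := congrArg Prod.fst h
    rw [h2] at h1
    exact G.loopless.irrefl _ h1
  · intro z hz
    rw [Finset.mem_filter, Finset.mem_product] at hz ⊢
    refine ⟨⟨hK _ hz.1.1 _ hz.2, Finset.mem_univ _⟩, ?_⟩
    simp only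
    rw [st_opp, add_neg_cancel_right]
    exact hz.2.symm
  · intro z hz
    simp only [st_opp, add_neg_cancel_right, opp_opp]

theorem no_single_odd (G : SimpleGraph P) (hG : G ≤ Lat) (hf : G.support.Finite) (a : P)
    (h : ∀ x, x ≠ a → deg G x = 0 ∨ deg G x = 2) : deg G a ≠ 1 := by
  intro ha
  have h1 := handshake G hG (insert a hf.toFinset) (by
    intro x _ y hxy
    rw [Finset.mem_insert]
    right
    rw [Set.Finite.mem_toFinset]
    exact ⟨x, hxy.symm⟩)
  rw [← Finset.insert_erase (Finset.mem_insert_self a hf.toFinset),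
    Finset.sum_insert (Finset.notMem_erase _ _), ha, Nat.even_add] at h1
  have h2 : Even (∑ x ∈ (insert a hf.toFinset).erase a, deg G x) := by
    refine Finset.even_sum _ fun x hx => ?_
    rcases h x (Finset.ne_of_mem_erase hx) with h3 | h3 <;> rw [h3] <;> decide
  exact absurd (h1.2 h2) (by decide)

/-- Remove the edges `a a'`, `b b'` and add the edges of the two walks. -/
def rewire (G : SimpleGraph P) {a b a' b' : P} (p : Lat.Walk a b) (q : Lat.Walk a' b') :
    SimpleGraph P where
  Adj x y := (G.Adj x y ∧ s(x, y) ≠ s(a, a') ∧ s(x, y) ≠ s(b, b')) ∨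
    s(x, y) ∈ p.edges ∨ s(x, y) ∈ q.edges
  symm := ⟨fun x y h => by rwa [Sym2.eq_swap, G.adj_comm] at h⟩
  loopless := ⟨fun x h => by
    rcases h with h | h | h
    · exact G.loopless.irrefl x h.1
    · exact Lat.loopless.irrefl x (p.adj_of_mem_edges h)
    · exact Lat.loopless.irrefl x (q.adj_of_mem_edges h)⟩

/-- Replace an edge of a closed graph by a path. -/
def detour (G : SimpleGraph P) {a a' : P} (p : Lat.Walk a a') :
    SimpleGraph P where
  Adj x y := (G.Adj x y ∧ s(x, y) ≠ s(a, a')) ∨ s(x, y) ∈ p.edges
  symm := ⟨fun x y h => by rwa [Sym2.eq_swap, G.adj_comm] at h⟩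
  loopless := ⟨fun x h => by
    rcases h with h | h
    · exact G.loopless.irrefl x h.1
    · exact Lat.loopless.irrefl x (p.adj_of_mem_edges h)⟩

namespace GraphA

theorem mem_support_iff_deg {G : SimpleGraph P} (hG : G ≤ Lat) (x : P) :
    x ∈ G.support ↔ deg G x ≠ 0 := by
  rw [Ne, deg_eq_zero hG, SimpleGraph.mem_support]
  push Not
  rfl

/-- All vertices of a walk of lattice edges contained in `H` are reachable in `H`. -/
theorem reach_of_walk {H : SimpleGraph P} {a b : P} (p : Lat.Walk a b)
    (h : ∀ z ∈ p.edges, z ∈ H.edgeSet) : ∀ x ∈ p.support, H.Reachable a x := by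
  induction p with
  | nil =>
    intro x hx
    rw [SimpleGraph.Walk.support_nil, List.mem_singleton] at hx
    rw [hx]
  | @cons u v w hadj p ih =>
    intro x hx
    rw [SimpleGraph.Walk.support_cons, List.mem_cons] at hx
    rcases hx with rfl | hx
    · exact SimpleGraph.Reachable.refl _
    · have h1 : H.Adj u v := h s(u, v) (by simp)
      refine h1.reachable.trans (ih (fun z hz => h z (by simp [hz])) x hx)

/-- Reachability is monotone if every edge of `G` joins points reachable in `H`. -/
theorem reach_mono {G H : SimpleGraph P} (h : ∀ x y, G.Adj x y → H.Reachable x y) {x y : P}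
    (hxy : G.Reachable x y) : H.Reachable x y := by
  obtain ⟨p⟩ := hxy
  induction p with
  | nil => exact SimpleGraph.Reachable.refl _
  | cons hadj p ih => exact (h _ _ hadj).trans ih

/-- Transport of reachability from a root. -/
theorem reach_from {H R : SimpleGraph P} {a : P}
    (h : ∀ x y, H.Adj x y → H.Reachable a x → R.Reachable x y) {x : P}
    (hx : H.Reachable a x) : R.Reachable a x := by
  rw [SimpleGraph.reachable_iff_reflTransGen] at hx
  induction hx with
  | refl => exact SimpleGraph.Reachable.refl _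
  | tail h1 h2 ih =>
    exact ih.trans (h _ _ h2 ((SimpleGraph.reachable_iff_reflTransGen _ _).2 h1))

/-- In a finite closed graph, an edge may be removed without disconnecting its end points. -/
theorem reach_delete (G : SimpleGraph P) (hG : G ≤ Lat) (hfin : G.support.Finite)
    (hcl : ∀ x, deg G x = 0 ∨ deg G x = 2) {a a' : P} (h1 : G.Adj a a') :
    (G.deleteEdges {s(a, a')}).Reachable a a' := by
  set H := G.deleteEdges {s(a, a')} with hH
  have hHG : H ≤ G := G.deleteEdges_le _
  have hHL : H ≤ Lat := hHG.trans hG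
  have hdeg : ∀ x, deg H x + (if x = a then 1 else 0) + (if x = a' then 1 else 0) = deg G x := by
    intro x
    have h2 : G.edgeSet = H.edgeSet ∪ {s(a, a')} := by
      rw [hH, SimpleGraph.edgeSet_deleteEdges, Set.sdiff_union_self]
      rw [Set.union_eq_left.2]
      rw [Set.singleton_subset_iff]
      exact h1
    have h3 : Disjoint H.edgeSet {s(a, a')} := by
      rw [hH, SimpleGraph.edgeSet_deleteEdges]
      exact Set.disjoint_sdiff_left
    rw [deg_eq_cnt G, h2, cnt_union h3, cnt_single (hG h1), deg_eq_cnt H]
    ring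
  by_contra hcon
  have hKfin : ({x | H.Reachable a x} : Set P).Finite := by
    refine (hfin.insert a).subset ?_
    intro x hx
    by_cases hxa : x = a
    · exact Or.inl hxa
    · right
      obtain ⟨p⟩ := (show H.Reachable a x from hx).symm
      cases p with
      | nil => exact absurd rfl hxa
      | cons hadj p => exact ⟨_, hHG hadj⟩
  have h2 := handshake H hHL hKfin.toFinset (by
    intro x hx y hxy
    rw [Set.Finite.mem_toFinset] at hx ⊢
    exact (show H.Reachable a x from hx).trans hxy.reachable)
  have haK : a ∈ hKfin.toFinset := by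
    rw [Set.Finite.mem_toFinset]
    exact SimpleGraph.Reachable.refl _
  have haa : a ≠ a' := h1.ne
  have hda : deg H a = 1 := by
    have h3 := hdeg a
    rw [if_pos rfl, if_neg haa] at h3
    have h4 : deg G a ≠ 0 := by
      rw [Ne, deg_eq_zero hG]
      push Not
      exact ⟨a', h1⟩
    rcases hcl a with h5 | h5
    · exact absurd h5 h4
    · omega
  rw [← Finset.insert_erase haK, Finset.sum_insert (Finset.notMem_erase _ _), hda,
    Nat.even_add] at h2
  have h3 : Even (∑ x ∈ hKfin.toFinset.erase a, deg H x) := by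
    refine Finset.even_sum _ fun x hx => ?_
    rw [Finset.mem_erase, Set.Finite.mem_toFinset] at hx
    have h4 := hdeg x
    rw [if_neg hx.1, if_neg] at h4
    · rcases hcl x with h5 | h5
      · rw [show deg H x = 0 by omega]
        decide
      · rw [show deg H x = 2 by omega]
        decide
    · rintro rfl
      exact hcon hx.2
  exact absurd (h2.2 h3) (by decide)

end GraphA

open GraphA in
theorem rewire_spec (G : SimpleGraph P) (hG : G ≤ Lat) (hfin : G.support.Finite)
    (hcl : ∀ x, deg G x = 0 ∨ deg G x = 2) {a b a' b' : P}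
    (h1 : G.Adj a a') (h2 : G.Adj b b') (hab : ¬ G.Reachable a b)
    (p : Lat.Walk a b) (q : Lat.Walk a' b') (hp : p.IsPath) (hq : q.IsPath)
    (hd : ∀ x ∈ p.support, x ∉ q.support)
    (hpi : ∀ x ∈ p.support, x ≠ a → x ≠ b → x ∉ G.support)
    (hqi : ∀ x ∈ q.support, x ≠ a' → x ≠ b' → x ∉ G.support)
    (hpe : ∀ x ∈ p.support, ∀ y ∈ p.support, ¬ G.Adj x y)
    (hqe : ∀ x ∈ q.support, ∀ y ∈ q.support, ¬ G.Adj x y) :
    rewire G p q ≤ Lat ∧
    (∀ x, deg (rewire G p q) x = 0 ∨ deg (rewire G p q) x = 2) ∧
    (∀ x, x ∈ (rewire G p q).support ↔ x ∈ G.support ∨ x ∈ p.support ∨ x ∈ q.support) ∧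
    (∀ x y, G.Reachable x y → (rewire G p q).Reachable x y) ∧
    (rewire G p q).Reachable a b ∧
    (∀ x ∈ (rewire G p q).support, x ∈ G.support ∨ (rewire G p q).Reachable a x) := by
  set R := rewire G p q with hR
  have hRadj : ∀ x y, R.Adj x y ↔ (G.Adj x y ∧ s(x, y) ≠ s(a, a') ∧ s(x, y) ≠ s(b, b')) ∨
    s(x, y) ∈ p.edges ∨ s(x, y) ∈ q.edges := fun x y => Iff.rfl
  have hRL : R ≤ Lat := by
    intro x y h
    rcases (hRadj x y).1 h with h | h | h
    · exact hG h.1
    · exact p.adj_of_mem_edges h
    · exact q.adj_of_mem_edges h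
  have hne : a ≠ b := by
    rintro rfl
    exact hab (SimpleGraph.Reachable.refl _)
  have hab' : ¬ G.Reachable a' b' := fun h => hab (h1.reachable.trans (h.trans h2.symm.reachable))
  have hne' : a' ≠ b' := by
    rintro rfl
    exact hab' (SimpleGraph.Reachable.refl _)
  have hap : a ∈ p.support := p.start_mem_support
  have hbp : b ∈ p.support := p.end_mem_support
  have haq : a' ∈ q.support := q.start_mem_support
  have hbq : b' ∈ q.support := q.end_mem_support
  have hee : s(a, a') ≠ s(b, b') := by
    intro h
    rcases Sym2.eq_iff.1 h with ⟨h3, _⟩ | ⟨h3, _⟩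
    · exact hne h3
    · exact hd b' (by rw [← h3]; exact hap) hbq
  -- degree formula
  have hcount : ∀ x, deg R x + (if x = a then 1 else 0) + (if x = a' then 1 else 0) +
      (if x = b then 1 else 0) + (if x = b' then 1 else 0) =
      deg G x + cnt {z | z ∈ p.edges} x + cnt {z | z ∈ q.edges} x := by
    intro x
    have e1 : (R.edgeSet ∪ {s(a, a')}) ∪ {s(b, b')} =
        (G.edgeSet ∪ {z | z ∈ p.edges}) ∪ {z | z ∈ q.edges} := by
      ext z
      induction z using Sym2.ind with
      | _ u v =>
        simp only [Set.mem_union, SimpleGraph.mem_edgeSet, Set.mem_singleton_iff,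
          Set.mem_ofPred_eq, hRadj]
        constructor
        · rintro (((h | h | h) | h) | h)
          · exact Or.inl (Or.inl h.1)
          · exact Or.inl (Or.inr h)
          · exact Or.inr h
          · left; left
            rw [← SimpleGraph.mem_edgeSet, h]
            exact h1
          · left; left
            rw [← SimpleGraph.mem_edgeSet, h]
            exact h2
        · rintro ((h | h) | h)
          · by_cases h3 : s(u, v) = s(a, a')
            · exact Or.inl (Or.inr h3)
            · by_cases h4 : s(u, v) = s(b, b')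
              · exact Or.inr h4
              · exact Or.inl (Or.inl (Or.inl ⟨h, h3, h4⟩))
          · exact Or.inl (Or.inl (Or.inr (Or.inl h)))
          · exact Or.inl (Or.inl (Or.inr (Or.inr h)))
    have d1 : Disjoint (R.edgeSet ∪ {s(a, a')}) {s(b, b')} := by
      rw [Set.disjoint_singleton_right]
      rintro (h | h)
      · rw [SimpleGraph.mem_edgeSet, hRadj] at h
        rcases h with h | h | h
        · exact h.2.2 rfl
        · exact hd _ (p.snd_mem_support_of_mem_edges h) hbq
        · exact hd _ hbp (q.fst_mem_support_of_mem_edges h)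
      · exact hee h.symm
    have d2 : Disjoint R.edgeSet {s(a, a')} := by
      rw [Set.disjoint_singleton_right]
      intro h
      rw [SimpleGraph.mem_edgeSet, hRadj] at h
      rcases h with h | h | h
      · exact h.2.1 rfl
      · exact hd _ (p.snd_mem_support_of_mem_edges h) haq
      · exact hd _ hap (q.fst_mem_support_of_mem_edges h)
    have d3 : Disjoint (G.edgeSet ∪ {z | z ∈ p.edges}) {z | z ∈ q.edges} := by
      rw [Set.disjoint_left]
      intro z
      induction z using Sym2.ind with
      | _ u v =>
        rintro (h | h) h'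
        · exact hqe _ (q.fst_mem_support_of_mem_edges h') _ (q.snd_mem_support_of_mem_edges h') h
        · exact hd _ (p.fst_mem_support_of_mem_edges h) (q.fst_mem_support_of_mem_edges h')
    have d4 : Disjoint G.edgeSet {z | z ∈ p.edges} := by
      rw [Set.disjoint_left]
      intro z
      induction z using Sym2.ind with
      | _ u v =>
        intro h h'
        exact hpe _ (p.fst_mem_support_of_mem_edges h') _ (p.snd_mem_support_of_mem_edges h') h
    have e2 : cnt ((R.edgeSet ∪ {s(a, a')}) ∪ {s(b, b')}) x =
        cnt ((G.edgeSet ∪ {z | z ∈ p.edges}) ∪ {z | z ∈ q.edges}) x := by rw [e1]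
    rw [cnt_union d1, cnt_union d2, cnt_union d3, cnt_union d4, cnt_single (hG h1),
      cnt_single (hG h2), ← deg_eq_cnt, ← deg_eq_cnt] at e2
    omega
  have hform : ∀ x, deg R x + 2 * (if x = a then 1 else 0) + 2 * (if x = a' then 1 else 0) +
      2 * (if x = b then 1 else 0) + 2 * (if x = b' then 1 else 0) =
      deg G x + (if x ∈ p.support then 2 else 0) + (if x ∈ q.support then 2 else 0) := by
    intro x
    have h3 := cnt_path p hp x
    have h4 := cnt_path q hq x
    have h5 := hcount x
    omega
  have hG2 : ∀ x, x ∈ G.support → deg G x = 2 := by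
    intro x hx
    rcases hcl x with h | h
    · exact absurd h ((mem_support_iff_deg hG x).1 hx)
    · exact h
  have hG0 : ∀ x, x ∉ G.support → deg G x = 0 := by
    intro x hx
    by_contra h
    exact hx ((mem_support_iff_deg hG x).2 h)
  have haG : a ∈ G.support := ⟨a', h1⟩
  have haG' : a' ∈ G.support := ⟨a, h1.symm⟩
  have hbG : b ∈ G.support := ⟨b', h2⟩
  have hbG' : b' ∈ G.support := ⟨b, h2.symm⟩
  have hnaa : a ≠ a' := h1.ne
  have hnbb : b ≠ b' := h2.ne
  have hnab' : a ≠ b' := by
    rintro rfl
    exact hd _ hap hbq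
  have hnba' : b ≠ a' := by
    rintro rfl
    exact hd _ hbp haq
  have haq' : a ∉ q.support := hd _ hap
  have hbq' : b ∉ q.support := hd _ hbp
  have hap' : a' ∉ p.support := fun h => hd _ h haq
  have hbp' : b' ∉ p.support := fun h => hd _ h hbq
  have hdegR : ∀ x, deg R x = if x ∈ G.support ∨ x ∈ p.support ∨ x ∈ q.support then 2 else 0 := by
    intro x
    have h3 := hform x
    by_cases xa : x = a
    · subst xa
      rw [if_pos rfl, if_neg hnaa, if_neg hne, if_neg hnab', if_pos hap, if_neg haq',
        hG2 _ haG] at h3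
      rw [if_pos (Or.inl haG)]
      omega
    by_cases xa' : x = a'
    · subst xa'
      rw [if_neg hnaa.symm, if_pos rfl, if_neg hnba'.symm, if_neg hne', if_neg hap', if_pos haq,
        hG2 _ haG'] at h3
      rw [if_pos (Or.inl haG')]
      omega
    by_cases xb : x = b
    · subst xb
      rw [if_neg hne.symm, if_neg hnba', if_pos rfl, if_neg hnbb, if_pos hbp, if_neg hbq',
        hG2 _ hbG] at h3
      rw [if_pos (Or.inl hbG)]
      omega
    by_cases xb' : x = b'
    · subst xb'
      rw [if_neg hnab'.symm, if_neg hne'.symm, if_neg hnbb.symm, if_pos rfl, if_neg hbp',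
        if_pos hbq, hG2 _ hbG'] at h3
      rw [if_pos (Or.inl hbG')]
      omega
    rw [if_neg xa, if_neg xa', if_neg xb, if_neg xb'] at h3
    by_cases xp : x ∈ p.support
    · have h4 : x ∉ q.support := hd _ xp
      have h5 := hG0 x (hpi x xp xa xb)
      rw [if_pos xp, if_neg h4, h5] at h3
      rw [if_pos (Or.inr (Or.inl xp))]
      omega
    by_cases xq : x ∈ q.support
    · have h5 := hG0 x (hqi x xq xa' xb')
      rw [if_neg xp, if_pos xq, h5] at h3
      rw [if_pos (Or.inr (Or.inr xq))]
      omega
    rw [if_neg xp, if_neg xq] at h3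
    by_cases xG : x ∈ G.support
    · rw [if_pos (Or.inl xG)]
      have := hG2 _ xG
      omega
    · rw [if_neg (not_or.2 ⟨xG, not_or.2 ⟨xp, xq⟩⟩)]
      have := hG0 _ xG
      omega
  have hsupp : ∀ x, x ∈ R.support ↔ x ∈ G.support ∨ x ∈ p.support ∨ x ∈ q.support := by
    intro x
    rw [mem_support_iff_deg hRL, hdegR]
    split_ifs with h
    · exact ⟨fun _ => h, fun _ => by decide⟩
    · exact ⟨fun h' => absurd rfl h', fun h' => absurd h' h⟩
  have hreach_p : ∀ x ∈ p.support, R.Reachable a x :=
    reach_of_walk p fun z => by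
      induction z using Sym2.ind with
      | _ u v => exact fun hz => Or.inr (Or.inl hz)
  have hreach_q : ∀ x ∈ q.support, R.Reachable a' x :=
    reach_of_walk q fun z => by
      induction z using Sym2.ind with
      | _ u v => exact fun hz => Or.inr (Or.inr hz)
  have hra : R.Reachable a a' := by
    refine reach_from ?_ (reach_delete G hG hfin hcl h1)
    intro x y hxy hx
    rw [SimpleGraph.deleteEdges_adj] at hxy
    have hGx : G.Reachable a x := hx.mono (G.deleteEdges_le _)
    refine (show R.Adj x y from Or.inl ⟨hxy.1, hxy.2, ?_⟩).reachable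
    intro h4
    rcases Sym2.eq_iff.1 h4 with ⟨h5, _⟩ | ⟨h5, _⟩
    · exact hab (h5 ▸ hGx)
    · exact hab ((h5 ▸ hGx : G.Reachable a b').trans h2.symm.reachable)
  have hrb : R.Reachable b b' := by
    refine reach_from ?_ (reach_delete G hG hfin hcl h2)
    intro x y hxy hx
    rw [SimpleGraph.deleteEdges_adj] at hxy
    have hGx : G.Reachable b x := hx.mono (G.deleteEdges_le _)
    refine (show R.Adj x y from Or.inl ⟨hxy.1, ?_, hxy.2⟩).reachable
    intro h4
    rcases Sym2.eq_iff.1 h4 with ⟨h5, _⟩ | ⟨h5, _⟩
    · exact hab (h5 ▸ hGx).symm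
    · exact hab ((h5 ▸ hGx : G.Reachable b a').trans h1.symm.reachable).symm
  refine ⟨hRL, ?_, hsupp, ?_, hreach_p b hbp, ?_⟩
  · intro x
    rw [hdegR]
    split_ifs
    · exact Or.inr rfl
    · exact Or.inl rfl
  · intro x y hxy
    refine reach_mono ?_ hxy
    intro u v huv
    by_cases h3 : s(u, v) = s(a, a')
    · rcases Sym2.eq_iff.1 h3 with ⟨rfl, rfl⟩ | ⟨rfl, rfl⟩
      · exact hra
      · exact hra.symm
    by_cases h4 : s(u, v) = s(b, b')
    · rcases Sym2.eq_iff.1 h4 with ⟨rfl, rfl⟩ | ⟨rfl, rfl⟩
      · exact hrb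
      · exact hrb.symm
    exact (show R.Adj u v from Or.inl ⟨huv, h3, h4⟩).reachable
  · intro x hx
    rcases (hsupp x).1 hx with h | h | h
    · exact Or.inl h
    · exact Or.inr (hreach_p x h)
    · exact Or.inr (hra.trans (hreach_q x h))

open GraphA in
theorem detour_spec (G : SimpleGraph P) (hG : G ≤ Lat)
    (hcl : ∀ x, deg G x = 0 ∨ deg G x = 2) {a a' : P}
    (h1 : G.Adj a a')
    (p : Lat.Walk a a') (hp : p.IsPath)
    (hpi : ∀ x ∈ p.support, x ≠ a → x ≠ a' → x ∉ G.support)
    (hpe : ∀ x ∈ p.support, ∀ y ∈ p.support, s(x, y) ∈ p.edges → ¬ G.Adj x y) :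
    detour G p ≤ Lat ∧
    (∀ x, deg (detour G p) x = 0 ∨ deg (detour G p) x = 2) ∧
    (∀ x, x ∈ (detour G p).support ↔ x ∈ G.support ∨ x ∈ p.support) ∧
    (∀ x y, G.Reachable x y → (detour G p).Reachable x y) ∧
    (∀ x ∈ (detour G p).support, x ∈ G.support ∨ (detour G p).Reachable a x) := by
  set R := detour G p with hR
  have hRadj : ∀ x y, R.Adj x y ↔ (G.Adj x y ∧ s(x, y) ≠ s(a, a')) ∨ s(x, y) ∈ p.edges :=
    fun x y => Iff.rfl
  have hRL : R ≤ Lat := by
    intro x y h
    rcases (hRadj x y).1 h with h | h
    · exact hG h.1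
    · exact p.adj_of_mem_edges h
  have hap : a ∈ p.support := p.start_mem_support
  have hap' : a' ∈ p.support := p.end_mem_support
  have hnaa : a ≠ a' := h1.ne
  have hform : ∀ x, deg R x + 2 * (if x = a then 1 else 0) + 2 * (if x = a' then 1 else 0) =
      deg G x + (if x ∈ p.support then 2 else 0) := by
    intro x
    have e1 : R.edgeSet ∪ {s(a, a')} = G.edgeSet ∪ {z | z ∈ p.edges} := by
      ext z
      induction z using Sym2.ind with
      | _ u v =>
        simp only [Set.mem_union, SimpleGraph.mem_edgeSet, Set.mem_singleton_iff,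
          Set.mem_ofPred_eq, hRadj]
        constructor
        · rintro ((h | h) | h)
          · exact Or.inl h.1
          · exact Or.inr h
          · left
            rw [← SimpleGraph.mem_edgeSet, h]
            exact h1
        · rintro (h | h)
          · by_cases h3 : s(u, v) = s(a, a')
            · exact Or.inr h3
            · exact Or.inl (Or.inl ⟨h, h3⟩)
          · exact Or.inl (Or.inr h)
    have d2 : Disjoint R.edgeSet {s(a, a')} := by
      rw [Set.disjoint_singleton_right]
      intro h
      rw [SimpleGraph.mem_edgeSet, hRadj] at h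
      rcases h with h | h
      · exact h.2 rfl
      · exact hpe _ hap _ hap' h h1
    have d4 : Disjoint G.edgeSet {z | z ∈ p.edges} := by
      rw [Set.disjoint_left]
      intro z
      induction z using Sym2.ind with
      | _ u v =>
        intro h h'
        exact hpe _ (p.fst_mem_support_of_mem_edges h') _ (p.snd_mem_support_of_mem_edges h') h' h
    have e2 : cnt (R.edgeSet ∪ {s(a, a')}) x = cnt (G.edgeSet ∪ {z | z ∈ p.edges}) x := by
      rw [e1]
    rw [cnt_union d2, cnt_union d4, cnt_single (hG h1), ← deg_eq_cnt, ← deg_eq_cnt] at e2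
    have h3 := cnt_path p hp x
    omega
  have hG2 : ∀ x, x ∈ G.support → deg G x = 2 := by
    intro x hx
    rcases hcl x with h | h
    · exact absurd h ((mem_support_iff_deg hG x).1 hx)
    · exact h
  have hG0 : ∀ x, x ∉ G.support → deg G x = 0 := by
    intro x hx
    by_contra h
    exact hx ((mem_support_iff_deg hG x).2 h)
  have haG : a ∈ G.support := ⟨a', h1⟩
  have haG' : a' ∈ G.support := ⟨a, h1.symm⟩
  have hdegR : ∀ x, deg R x = if x ∈ G.support ∨ x ∈ p.support then 2 else 0 := by
    intro x
    have h3 := hform x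
    by_cases xa : x = a
    · subst xa
      rw [if_pos rfl, if_neg hnaa, if_pos hap, hG2 _ haG] at h3
      rw [if_pos (Or.inl haG)]
      omega
    by_cases xa' : x = a'
    · subst xa'
      rw [if_neg hnaa.symm, if_pos rfl, if_pos hap', hG2 _ haG'] at h3
      rw [if_pos (Or.inl haG')]
      omega
    rw [if_neg xa, if_neg xa'] at h3
    by_cases xp : x ∈ p.support
    · have h5 := hG0 x (hpi x xp xa xa')
      rw [if_pos xp, h5] at h3
      rw [if_pos (Or.inr xp)]
      omega
    rw [if_neg xp] at h3
    by_cases xG : x ∈ G.support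
    · rw [if_pos (Or.inl xG)]
      have := hG2 _ xG
      omega
    · rw [if_neg (not_or.2 ⟨xG, xp⟩)]
      have := hG0 _ xG
      omega
  have hsupp : ∀ x, x ∈ R.support ↔ x ∈ G.support ∨ x ∈ p.support := by
    intro x
    rw [mem_support_iff_deg hRL, hdegR]
    split_ifs with h
    · exact ⟨fun _ => h, fun _ => by decide⟩
    · exact ⟨fun h' => absurd rfl h', fun h' => absurd h' h⟩
  have hreach_p : ∀ x ∈ p.support, R.Reachable a x :=
    reach_of_walk p fun z => by
      induction z using Sym2.ind with
      | _ u v => exact fun hz => Or.inr hz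
  refine ⟨hRL, ?_, hsupp, ?_, ?_⟩
  · intro x
    rw [hdegR]
    split_ifs
    · exact Or.inr rfl
    · exact Or.inl rfl
  · intro x y hxy
    refine reach_mono ?_ hxy
    intro u v huv
    by_cases h3 : s(u, v) = s(a, a')
    · rcases Sym2.eq_iff.1 h3 with ⟨rfl, rfl⟩ | ⟨rfl, rfl⟩
      · exact hreach_p _ hap'
      · exact (hreach_p _ hap').symm
    exact (show R.Adj u v from Or.inl ⟨huv, h3⟩).reachable
  · intro x hx
    rcases (hsupp x).1 hx with h | h
    · exact Or.inl h
    · exact Or.inr (hreach_p x h)

end Pool.Agent.Lib.MP_280b4e_pr
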