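import Pool.Agent.Lib.MP_280b4e_pr.Closed
import Pool.Agent.Lib.MP_280b4e_pr.Graph

/-!
Summed form of box clearing, and elimination of two near free ends.
-/

namespace Pool.Agent.Lib.MP_280b4e_pr

open scoped ENNReal
open Classical

/-- Transfer with label dependent targets. -/
theorem Om_transfer_dep {ι : Type*} (p : Par) (A : Set FG) (L : Finset ι) (T : ι → Set FG) (c : ℝ)
    (R : FG → ι → FG → Prop)
    (hex : ∀ a ∈ A, ∃ l ∈ L, ∃ b ∈ T l, R a l b ∧ W p a ≤ c + W p b)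
    (huniq : ∀ a ∈ A, ∀ a' ∈ A, ∀ l b, R a l b → R a' l b → a = a') :
    Om p A ≤ ENNReal.ofReal (Real.exp c) * ∑ l ∈ L, Om p (T l) := by
  have h1 : A ⊆ ⋃ l ∈ L, {a | a ∈ A ∧ ∃ b ∈ T l, R a l b ∧ W p a ≤ c + W p b} := by
    intro a ha
    obtain ⟨l, hl, b, hb, hR, hW⟩ := hex a ha
    simp only [Set.mem_iUnion]
    exact ⟨l, hl, ha, b, hb, hR, hW⟩
  refine (Om_mono p h1).trans ((Om_biUnion_le p L _).trans ?_)
  rw [Finset.mul_sum]
  refine Finset.sum_le_sum fun l _ => ?_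
  have key := Om_transfer (ι := Unit) p
    {a | a ∈ A ∧ ∃ b ∈ T l, R a l b ∧ W p a ≤ c + W p b} (T l) {()} c
    (fun a _ b => R a l b) ?_ ?_
  · simpa using key
  · rintro a ⟨_, b, hb, hR, hW⟩
    exact ⟨(), by simp, b, hb, hR, hW⟩
  · rintro a ⟨ha, _⟩ a' ⟨ha', _⟩ _ b h h'
    exact huniq a ha a' ha' l b h h'

/-- No graph has exactly one point of odd degree. -/
theorem Cls_single (c N : ℕ) (x : P) : Cls c N {x} = ∅ := by
  rw [Set.eq_empty_iff_forall_notMem]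
  rintro F ⟨h1, h2, h3, h4, h5⟩
  exact no_single_odd F.G F.le F.fin x (fun y hy => h4 y (by simpa using hy)) (h3 x (by simp))

theorem Cls_odd_mem {c N : ℕ} {O : Finset P} {F : FG} (hF : F ∈ Cls c N O) {x : P} (hx : x ∈ O) :
    x ∈ F.V := by
  by_contra hn
  have h3 : deg F.G x = 0 := (deg_eq_zero F.le).2 fun y hy => hn (FG.mem_V_left hy)
  have := hF.2.2.1 x hx
  omega

theorem BoxAround.reg_card {B : Bx} {a : P} {ρ τ : ℕ} (h : BoxAround B a ρ τ) :
    B.reg.card ≤ (2 * ρ + 2 * τ + 3) ^ 3 := by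
  unfold Bx.reg
  refine card_Icc_le fun i => ?_
  have h2 := h.rhigh i
  have h3 := h.llow i
  have h4 := B.off_cases i
  simp only [Bx.lo, Bx.hi]
  split_ifs with h5
  · obtain ⟨rfl, h6⟩ := h5
    have h7 := h4.2.2 ⟨rfl, h6⟩
    push_cast; omega
  · push_cast; omega

theorem BoxAround.zone_inBox {B : Bx} {a : P} {ρ τ N : ℕ} (h : BoxAround B a ρ τ)
    (ha : InBox N a) (j : Fin 3) (k : ℕ) : ∀ x ∈ B.zone j k, InBox (N + ρ + τ + k + 4) x := by
  intro x hx i
  have h2 := h.rhigh i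
  have h3 := h.llow i
  have hl := B.hlr i
  have h4 := B.off_cases i
  have h5 := abs_le.1 (ha i)
  have hhi : B.hi i = B.r i + B.off i + 1 := rfl
  rw [Bx.zone, Finset.mem_union, List.mem_toFinset] at hx
  rw [abs_le]; push_cast
  rcases hx with hx | hx
  · have h6 := B.mem_reg.1 hx i
    have hlo : B.lo i = if i = 0 ∧ B.l 0 = 0 then 0 else B.l i + B.off i - 1 := rfl
    rw [hlo] at h6
    split_ifs at h6 with h7
    · obtain ⟨rfl, h8⟩ := h7
      constructor <;> omega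
    · constructor <;> omega
  · rw [Bx.mem_ltail] at hx
    rcases hx with ⟨m, hm, rfl⟩ | rfl | rfl
    · rw [B.tip_coord]
      split_ifs <;> constructor <;> omega
    · simp only [Pi.add_apply, e]
      split_ifs <;> constructor <;> omega
    · simp only [Pi.add_apply, e]
      split_ifs <;> constructor <;> omega

/-- Summed form of box clearing. -/
theorem clear_sum (p : Par) {N : ℕ} (A : Set FG) (ρ τ kmax : ℕ) (j : Fin 3)
    (T : Bx → ℕ → Set FG) (D : ℝ) (Y : ℝ≥0∞)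
    (h : ∀ F ∈ A, ∃ a B k, InBox N a ∧ BoxAround B a ρ τ ∧ k ≤ kmax ∧
      ∃ F' ∈ T B k, B.Agree j k F F' ∧ |W p F - W p F'| ≤ D)
    (hT : ∀ a B k, InBox N a → BoxAround B a ρ τ → k ≤ kmax → Om p (T B k) ≤ Y) :
    Om p A ≤ ENNReal.ofReal (Real.exp D) * ((((2 * N + (2 * ρ + 2 * τ + 1)) ^ 6 *
      2 ^ (((2 * (2 * ρ + 2 * τ) + 1) ^ 3) ^ 2) * (kmax + 1) : ℕ) : ℝ≥0∞) * Y) := by
  let s := 2 * ρ + 2 * τ
  let L : Finset ((P × P) × (Finset (P × P) × ℕ)) :=
    (cubeF (N + ρ + τ) ×ˢ cubeF (N + ρ + τ)) ×ˢ ((cubeF s ×ˢ cubeF s).powerset ×ˢ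
      Finset.range (kmax + 1))
  let T' : (P × P) × (Finset (P × P) × ℕ) → Set FG := fun l =>
    {F' | ∃ a B, InBox N a ∧ BoxAround B a ρ τ ∧ B.l = l.1.1 ∧ B.r = l.1.2 ∧ l.2.2 ≤ kmax ∧
      F' ∈ T B l.2.2}
  have key := Om_transfer_dep p A L T' D
    (fun F l F' => ∃ B : Bx, B.l = l.1.1 ∧ B.r = l.1.2 ∧ B.Agree j l.2.2 F F' ∧
      ∀ u v, B.mem u → B.mem v → (F.G.Adj u v ↔ (u - B.l, v - B.l) ∈ l.2.1)) ?_ ?_
  · refine key.trans (mul_le_mul' le_rfl ?_)
    have hY : ∀ l ∈ L, Om p (T' l) ≤ Y := by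
      intro l hl
      by_cases hne : (T' l).Nonempty
      · obtain ⟨F', a, B, h1, h2, h3, h4, h5, h6⟩ := hne
        refine le_trans (Om_mono p ?_) (hT a B l.2.2 h1 h2 h5)
        rintro F'' ⟨a', B', h1', h2', h3', h4', h5', h6'⟩
        have : B' = B := Bx.ext_lr (h3'.trans h3.symm) (h4'.trans h4.symm)
        rwa [this] at h6'
      · rw [Set.not_nonempty_iff_eq_empty] at hne
        rw [hne, Om_empty]; exact zero_le
    refine (Finset.sum_le_sum hY).trans ?_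
    rw [Finset.sum_const, nsmul_eq_mul]
    refine mul_le_mul' (le_of_eq ?_) le_rfl
    congr 1
    simp only [L, s, Finset.card_product, Finset.card_powerset, card_cubeF, Finset.card_range]
    ring
  · intro F hF
    obtain ⟨a, B, k, ha, hB, hk, F', hF', hAg, hW⟩ := h F hF
    refine ⟨((B.l, B.r), ((cubeF s ×ˢ cubeF s).filter fun z =>
      F.G.Adj (B.l + z.1) (B.l + z.2), k)), ?_, F', ⟨a, B, ha, hB, rfl, rfl, hk, hF'⟩,
      ⟨B, rfl, rfl, hAg, ?_⟩, ?_⟩
    · simp only [L, Finset.mem_product, Finset.mem_powerset, Finset.mem_range]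
      exact ⟨hB.lr_mem ha, Finset.filter_subset _ _, by omega⟩
    · intro u v hu hv
      simp only [Finset.mem_filter, Finset.mem_product, mem_cubeF, add_sub_cancel]
      have hin : ∀ u, B.mem u → InBox s (u - B.l) := by
        intro u hu i
        have h1 := hu i
        have h2 := hB.rhigh i
        have h3 := hB.llow i
        rw [Pi.sub_apply, abs_le]
        simp only [s]; push_cast
        constructor <;> omega
      exact ⟨fun h => ⟨⟨hin u hu, hin v hv⟩, h⟩, fun h => h.2⟩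
    · have := (abs_le.1 hW).2
      linarith
  · rintro F₁ - F₂ - l F' ⟨B, h1, h2, h3, h4⟩ ⟨B', h1', h2', h3', h4'⟩
    have hB : B = B' := Bx.ext_lr (h1.trans h1'.symm) (h2.trans h2'.symm)
    subst hB
    refine B.clear_unique h3 h3' fun u v hu hv => ?_
    rw [h4 u v hu hv, h4' u v hu hv]

end Pool.Agent.Lib.MP_280b4e_pr
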