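import Pool.Agent.Lib.MP_280b4e_pr.Clear
import Pool.Agent.Lib.MP_280b4e_pr.Graph

/-!
Merging two components of a closed graph through two lanes in the shells around a box.
-/

namespace Pool.Agent.Lib.MP_280b4e_pr

open Classical

namespace Bx

variable (B : Bx)

/-- The region with both layers of the shells. -/
noncomputable def big (B : Bx) : Finset P :=
  Finset.Icc (fun i => if i = 0 ∧ B.l 0 = 0 then 0 else B.l i + B.off i - 2)
    (fun i => B.r i + B.off i + 2)

/-- Image of the lower corner of the box. -/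
def Lo (i : Fin 3) : ℤ := B.l i + B.off i

/-- Image of the upper corner of the box. -/
def Hi (i : Fin 3) : ℤ := B.r i + B.off i

theorem Lo_le_Hi (i : Fin 3) : B.Lo i ≤ B.Hi i := by
  have := B.hlr i
  simp only [Lo, Hi]; omega

/-- Either the box stands on the wall or there is room below. -/
theorem Lo_cases : B.Lo 0 = 0 ∨ 3 ≤ B.Lo 0 := by
  have := B.hw
  simp only [Lo, off, if_true]; omega

theorem cor_iff {i : Fin 3} {x : P} : B.cor i x ↔
    (B.Lo i - 2 ≤ x i ∧ x i < B.Lo i) ∨ (B.Hi i < x i ∧ x i ≤ B.Hi i + 2) := by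
  simp only [cor, cor1, Lo, Hi]; omega

/-- The first shell. -/
def S1 (x : P) : Prop :=
  0 ≤ x 0 ∧ (∀ i, B.Lo i - 1 ≤ x i ∧ x i ≤ B.Hi i + 1) ∧
    ∃ i, x i = B.Lo i - 1 ∨ x i = B.Hi i + 1

/-- The outer layer of the second shell. -/
def T2 (x : P) : Prop :=
  0 ≤ x 0 ∧ (∀ i, B.Lo i - 2 ≤ x i ∧ x i ≤ B.Hi i + 2) ∧
    ∃ i, x i = B.Lo i - 2 ∨ x i = B.Hi i + 2

/-- Push map. -/
def pu (x : P) : P := fun i =>
  if x i = B.Hi i + 1 then x i + 1 else if x i = B.Lo i - 1 then x i - 1 else x i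

theorem S1_not_T2 {x : P} (h : B.S1 x) : ¬ B.T2 x := by
  rintro ⟨_, _, i, h3⟩
  have := h.2.1 i
  omega

theorem T2_pu {x : P} (h : B.S1 x) : B.T2 (B.pu x) := by
  obtain ⟨h0, h1, i, h2⟩ := h
  refine ⟨?_, ?_, i, ?_⟩
  · have h3 := B.Lo_cases
    have h4 := B.Lo_le_Hi 0
    have h5 := h1 0
    simp only [pu]; split_ifs <;> omega
  · intro j
    have h4 := B.Lo_le_Hi j
    have h5 := h1 j
    simp only [pu]; split_ifs <;> omega
  · have h4 := B.Lo_le_Hi i
    simp only [pu]; split_ifs <;> omega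

theorem S1_mem_big {x : P} (h : B.S1 x) : x ∈ B.big := by
  obtain ⟨h0, h1, _⟩ := h
  unfold big
  rw [Finset.mem_Icc, Pi.le_def, Pi.le_def]
  constructor
  · intro i
    have h5 := h1 i
    simp only [Lo, Hi] at h5
    split_ifs with h
    · obtain ⟨rfl, _⟩ := h; exact h0
    · omega
  · intro i
    have h5 := h1 i
    simp only [Lo, Hi] at h5
    show x i ≤ B.r i + B.off i + 2
    omega

theorem T2_mem_big {x : P} (h : B.T2 x) : x ∈ B.big := by
  obtain ⟨h0, h1, _⟩ := h
  unfold big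
  rw [Finset.mem_Icc, Pi.le_def, Pi.le_def]
  constructor
  · intro i
    have h5 := h1 i
    simp only [Lo, Hi] at h5
    split_ifs with h
    · obtain ⟨rfl, _⟩ := h; exact h0
    · omega
  · intro i
    have h5 := h1 i
    simp only [Lo, Hi] at h5
    show x i ≤ B.r i + B.off i + 2
    omega

theorem cor_of_out {x : P} {i : Fin 3} (h : x i = B.Lo i - 1 ∨ x i = B.Hi i + 1) :
    B.cor i x := by
  rw [cor_iff]; omega

theorem cor_of_out2 {x : P} {i : Fin 3} (h : x i = B.Lo i - 2 ∨ x i = B.Hi i + 2) :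
    B.cor i x := by
  rw [cor_iff]; omega

theorem st_apply_self (i : Fin 3) (s : Bool) : st (i, s) i = if s then 1 else -1 := by
  simp [st]

theorem st_apply_ne {i j : Fin 3} (s : Bool) (h : j ≠ i) : st (i, s) j = 0 := by
  simp [st, h]

/-- No edges inside the first shell. -/
theorem no_edge_S1 {F : FG} {x y : P} (hx : B.S1 x) (hy : B.S1 y) : ¬ (B.ExG F.G).Adj x y := by
  intro h
  obtain ⟨_, _, i, hi⟩ := hx
  obtain ⟨d, rfl⟩ := (adj_iff_st _ _).1 h.1
  obtain ⟨hd, h2, _⟩ := (B.ExG_adj_cor F.le (B.cor_of_out hi) d).1 h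
  obtain ⟨k, s⟩ := d
  simp only at hd
  subst hd
  obtain ⟨_, _, j, hj⟩ := hy
  have hl := B.Lo_le_Hi k
  by_cases hjk : j = k
  · subst hjk
    rw [Pi.add_apply, st_apply_self] at hj
    cases s <;> simp at hj <;> omega
  · rw [Pi.add_apply, st_apply_ne _ hjk, add_zero] at hj
    exact h2 j hjk (B.cor_of_out hj)

/-- No edges inside the outer layer. -/
theorem no_edge_T2 {F : FG} {x y : P} (hx : B.T2 x) (hy : B.T2 y) : ¬ (B.ExG F.G).Adj x y := by
  intro h
  obtain ⟨_, _, i, hi⟩ := hx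
  obtain ⟨d, rfl⟩ := (adj_iff_st _ _).1 h.1
  obtain ⟨hd, h2, _⟩ := (B.ExG_adj_cor F.le (B.cor_of_out2 hi) d).1 h
  obtain ⟨k, s⟩ := d
  simp only at hd
  subst hd
  obtain ⟨_, _, j, hj⟩ := hy
  have hl := B.Lo_le_Hi k
  by_cases hjk : j = k
  · subst hjk
    rw [Pi.add_apply, st_apply_self] at hj
    cases s <;> simp at hj <;> omega
  · rw [Pi.add_apply, st_apply_ne _ hjk, add_zero] at hj
    exact h2 j hjk (B.cor_of_out2 hj)

theorem pu_apply_of_not_out {x : P} {j : Fin 3} (h : ¬ (x j = B.Lo j - 1 ∨ x j = B.Hi j + 1)) :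
    B.pu x j = x j := by
  simp only [pu]; split_ifs <;> omega

theorem pu_out {x : P} {j : Fin 3} (h : x j = B.Lo j - 1 ∨ x j = B.Hi j + 1) :
    B.pu x j = B.Lo j - 2 ∨ B.pu x j = B.Hi j + 2 := by
  have := B.Lo_le_Hi j
  simp only [pu]; split_ifs <;> omega

/-- Not a leg: the pushed point is isolated. -/
theorem pu_iso {F : FG} {x : P} (hx : B.S1 x) (hn : x ∉ (B.ExG F.G).support) :
    B.pu x ∉ (B.ExG F.G).support := by
  rintro ⟨y, hy⟩
  obtain ⟨_, h1, i, hi⟩ := hx
  have hc := B.cor_of_out2 (B.pu_out hi)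
  obtain ⟨d, rfl⟩ := (adj_iff_st _ _).1 hy.1
  obtain ⟨_, h2, h3⟩ := (B.ExG_adj_cor F.le hc d).1 hy
  have h4 : ∀ j, j ≠ i → ¬ (x j = B.Lo j - 1 ∨ x j = B.Hi j + 1) := fun j hj hh =>
    h2 j hj (B.cor_of_out2 (B.pu_out hh))
  have h5 : B.dn (B.pu x) = B.dn x := by
    funext j
    by_cases hj : j = i
    · subst hj
      have hl := B.hlr j
      simp only [Lo, Hi] at hi
      simp only [dn, dn1, pu, Lo, Hi]
      split_ifs <;> omega
    · simp only [dn, B.pu_apply_of_not_out (h4 j hj)]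
  rw [h5] at h3
  apply hn
  refine ⟨x + st (i, true), ?_⟩
  show (B.ExG F.G).Adj x (x + st (i, true))
  rw [B.ExG_adj_cor F.le (B.cor_of_out hi)]
  refine ⟨rfl, ?_, h3⟩
  intro j hj hc'
  have h6 := h4 j hj
  have h7 := h1 j
  rw [cor_iff] at hc'
  omega

/-- A leg is joined to its pushed point. -/
theorem leg_pu {F : FG} {x : P} (hx : B.S1 x) (hs : x ∈ (B.ExG F.G).support) :
    (B.ExG F.G).Adj x (B.pu x) := by
  obtain ⟨y, hy⟩ := hs
  obtain ⟨_, h1, i, hi⟩ := hx
  obtain ⟨d, rfl⟩ := (adj_iff_st _ _).1 hy.1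
  obtain ⟨_, h2, h3⟩ := (B.ExG_adj_cor F.le (B.cor_of_out hi) d).1 hy
  have hl := B.Lo_le_Hi i
  have key : ∃ s : Bool, B.pu x = x + st (i, s) := by
    refine ⟨if x i = B.Hi i + 1 then true else false, ?_⟩
    funext j
    by_cases hj : j = i
    · subst hj
      rw [Pi.add_apply, st_apply_self]
      simp only [pu]
      rcases hi with hi | hi
      · have h5 : ¬ x j = B.Hi j + 1 := by omega
        have h6 : (if x j = B.Hi j + 1 then true else false) = false := if_neg h5
        rw [h6, if_neg h5, if_pos hi]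
        simp [sub_eq_add_neg]
      · simp [hi]
    · rw [Pi.add_apply, st_apply_ne _ hj, add_zero]
      apply B.pu_apply_of_not_out
      intro hh
      exact h2 j hj (B.cor_of_out hh)
  obtain ⟨s, hs⟩ := key
  rw [hs, B.ExG_adj_cor F.le (B.cor_of_out hi)]
  exact ⟨rfl, h2, h3⟩

/-- The shell graph. -/
def SG : SimpleGraph P where
  Adj x y := Lat.Adj x y ∧ B.S1 x ∧ B.S1 y
  symm := ⟨fun _ _ h => ⟨h.1.symm, h.2.2, h.2.1⟩⟩
  loopless := ⟨fun _ h => Lat.loopless.irrefl _ h.1⟩

theorem up_move (n : ℕ) : ∀ (x : P) (i j : Fin 3), i ≠ j →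
    (x i = B.Lo i - 1 ∨ x i = B.Hi i + 1) → B.S1 x → (B.Hi j + 1 - x j).toNat = n →
    ∃ y, B.SG.Reachable x y ∧ B.S1 y ∧ y j = B.Hi j + 1 ∧ ∀ k, k ≠ j → y k = x k := by
  induction n with
  | zero =>
    intro x i j hij hi hx hn
    have := hx.2.1 j
    exact ⟨x, SimpleGraph.Reachable.refl _, hx, by omega, fun _ _ => rfl⟩
  | succ n ih =>
    intro x i j hij hi hx hn
    have hxj := hx.2.1 j
    have hl := B.Lo_le_Hi j
    have e1 : (x + e j) j = x j + 1 := by simp [e]
    have e2 : ∀ k, k ≠ j → (x + e j) k = x k := fun k hk => by simp [e, hk]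
    have hS : B.S1 (x + e j) := by
      refine ⟨?_, ?_, i, by rwa [e2 i hij]⟩
      · by_cases h0 : (0 : Fin 3) = j
        · subst h0; rw [e1]; have := hx.1; omega
        · rw [e2 0 h0]; exact hx.1
      · intro k
        by_cases hk : k = j
        · subst hk; rw [e1]; omega
        · rw [e2 k hk]; exact hx.2.1 k
    obtain ⟨y, h1, h2, h3, h4⟩ := ih (x + e j) i j hij (by rwa [e2 i hij]) hS
      (by rw [e1]; omega)
    have hadj : B.SG.Adj x (x + e j) := ⟨adj_e x j, hx, hS⟩
    exact ⟨y, hadj.reachable.trans h1, h2, h3, fun k hk => by rw [h4 k hk, e2 k hk]⟩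

theorem SG_corner {x : P} (hx : B.S1 x) : B.SG.Reachable x B.hi := by
  obtain ⟨i, hi⟩ := hx.2.2
  have : ∃ j k : Fin 3, i ≠ j ∧ i ≠ k ∧ j ≠ k ∧ ∀ m, m = i ∨ m = j ∨ m = k := by
    fin_cases i
    · exact ⟨1, 2, by decide, by decide, by decide, by decide⟩
    · exact ⟨0, 2, by decide, by decide, by decide, by decide⟩
    · exact ⟨0, 1, by decide, by decide, by decide, by decide⟩
  obtain ⟨j, k, hij, hik, hjk, hall⟩ := this
  obtain ⟨y, y1, y2, y3, y4⟩ := B.up_move _ x i j hij hi hx rfl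
  obtain ⟨z, z1, z2, z3, z4⟩ := B.up_move _ y i k hik (by rw [y4 i hij]; exact hi) y2 rfl
  have hzj : z j = B.Hi j + 1 := by rw [z4 j hjk, y3]
  obtain ⟨w, w1, w2, w3, w4⟩ := B.up_move _ z j i hij.symm (Or.inr hzj) z2 rfl
  have hw : w = B.hi := by
    funext m
    have hm : B.hi m = B.Hi m + 1 := rfl
    rw [hm]
    rcases hall m with rfl | rfl | rfl
    · exact w3
    · rw [w4 m hij.symm, hzj]
    · rw [w4 m hik.symm, z3]
  rw [← hw]
  exact (y1.trans z1).trans w1

theorem SG_conn {x y : P} (hx : B.S1 x) (hy : B.S1 y) : B.SG.Reachable x y :=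
  (B.SG_corner hx).trans (B.SG_corner hy).symm

theorem SG_support {x y : P} (w : B.SG.Walk x y) (hx : B.S1 x) : ∀ z ∈ w.support, B.S1 z := by
  induction w with
  | nil => intro z hz; simp at hz; rwa [hz]
  | cons h w ih =>
    intro z hz
    rw [SimpleGraph.Walk.support_cons, List.mem_cons] at hz
    rcases hz with rfl | hz
    · exact hx
    · exact ih h.2.2 z hz

/-- Push of an edge of the shell. -/
theorem pu_step {F : FG} {x : P} {i : Fin 3} (hx : B.S1 x) (hy : B.S1 (x + e i)) :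
    B.pu (x + e i) = B.pu x + e i ∨
    (B.pu (x + e i) = B.pu x + e i + e i ∧ B.T2 (B.pu x + e i) ∧
      B.pu x + e i ∉ (B.ExG F.G).support) := by
  have e1 : (x + e i) i = x i + 1 := by simp [e]
  have e2 : ∀ k, k ≠ i → (x + e i) k = x k := fun k hk => by simp [e, hk]
  have p2 : ∀ k, k ≠ i → B.pu (x + e i) k = B.pu x k := fun k hk => by
    simp only [pu, e2 k hk]
  have hl := B.Lo_le_Hi i
  have hxi := hx.2.1 i
  have hyi := hy.2.1 i
  rw [e1] at hyi
  by_cases hcase : x i = B.Lo i - 1 ∨ x i = B.Hi i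
  swap
  · left
    funext k
    by_cases hk : k = i
    · subst hk
      have : (B.pu x + e k) k = B.pu x k + 1 := by simp [e]
      rw [this]
      simp only [pu, e1]
      split_ifs <;> omega
    · have : (B.pu x + e i) k = B.pu x k := by simp [e, hk]
      rw [this, p2 k hk]
  · right
    have q1 : (B.pu x + e i) i = B.pu x i + 1 := by simp [e]
    have q2 : ∀ k, k ≠ i → (B.pu x + e i) k = B.pu x k := fun k hk => by simp [e, hk]
    have hpi : B.pu x i + 1 = B.Lo i - 1 ∨ B.pu x i + 1 = B.Hi i + 1 := by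
      simp only [pu]; split_ifs <;> omega
    -- another outside coordinate
    have hout : ∃ j, j ≠ i ∧ (x j = B.Lo j - 1 ∨ x j = B.Hi j + 1) := by
      rcases hcase with hc | hc
      · obtain ⟨j, hj⟩ := hy.2.2
        refine ⟨j, ?_, ?_⟩
        · rintro rfl; rw [e1] at hj; omega
        · have hji : j ≠ i := by rintro rfl; rw [e1] at hj; omega
          rwa [e2 j hji] at hj
      · obtain ⟨j, hj⟩ := hx.2.2
        refine ⟨j, ?_, hj⟩
        rintro rfl; omega
    obtain ⟨j, hji, hj⟩ := hout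
    have hpj := B.pu_out hj
    refine ⟨?_, ⟨?_, ?_, j, ?_⟩, ?_⟩
    · funext k
      by_cases hk : k = i
      · subst hk
        have : (B.pu x + e k + e k) k = B.pu x k + 2 := by simp [e]; ring
        rw [this]
        simp only [pu, e1]
        split_ifs <;> omega
      · have : (B.pu x + e i + e i) k = B.pu x k := by simp [e, hk]
        rw [this, p2 k hk]
    · have := (B.T2_pu hx).1
      by_cases h0 : (0 : Fin 3) = i
      · subst h0; rw [q1]; omega
      · rw [q2 0 h0]; exact this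
    · intro k
      have := (B.T2_pu hx).2.1 k
      by_cases hk : k = i
      · subst hk; rw [q1]; omega
      · rw [q2 k hk]; exact this
    · rw [q2 j hji]; exact hpj
    · rintro ⟨y, hy'⟩
      refine B.iso_of_two_cor (F := F) ⟨i, j, hji.symm, ?_, ?_⟩ y hy'
      · apply B.cor_of_out; rw [q1]; exact hpi
      · apply B.cor_of_out2; rw [q2 j hji]; exact hpj

/-- Push of a walk in the shell. -/
theorem push_walk {F : FG} {x y : P} (w : B.SG.Walk x y) (hx : B.S1 x) :
    ∃ q : Lat.Walk (B.pu x) (B.pu y), ∀ z ∈ q.support, B.T2 z ∧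
      (z ∉ (B.ExG F.G).support ∨ ∃ v ∈ w.support, z = B.pu v) := by
  induction w with
  | nil =>
    refine ⟨SimpleGraph.Walk.nil, ?_⟩
    intro z hz
    simp only [SimpleGraph.Walk.support_nil, List.mem_singleton] at hz
    subst hz
    exact ⟨B.T2_pu hx, Or.inr ⟨_, by simp, rfl⟩⟩
  | @cons x v y h w ih =>
    obtain ⟨q, hq⟩ := ih h.2.2
    have hstep : ∃ s : Lat.Walk (B.pu x) (B.pu v), ∀ z ∈ s.support, B.T2 z ∧
        (z ∉ (B.ExG F.G).support ∨ z = B.pu x ∨ z = B.pu v) := by
      obtain ⟨i, hi | hi⟩ := (adj_iff_e _ _).1 h.1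
      · have hS := h.2.2
        rw [hi] at hS
        rcases B.pu_step (F := F) hx hS with h1 | ⟨h1, h2, h3⟩
        · rw [← hi] at h1
          refine ⟨SimpleGraph.Walk.cons (h1 ▸ adj_e (B.pu x) i) SimpleGraph.Walk.nil, ?_⟩
          intro z hz
          simp only [SimpleGraph.Walk.support_cons, SimpleGraph.Walk.support_nil, List.mem_cons,
            List.not_mem_nil, or_false] at hz
          rcases hz with rfl | rfl
          · exact ⟨B.T2_pu hx, Or.inr (Or.inl rfl)⟩
          · exact ⟨B.T2_pu h.2.2, Or.inr (Or.inr rfl)⟩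
        · rw [← hi] at h1
          refine ⟨SimpleGraph.Walk.cons (adj_e (B.pu x) i)
            (SimpleGraph.Walk.cons (h1 ▸ adj_e (B.pu x + e i) i) SimpleGraph.Walk.nil), ?_⟩
          intro z hz
          simp only [SimpleGraph.Walk.support_cons, SimpleGraph.Walk.support_nil, List.mem_cons,
            List.not_mem_nil, or_false] at hz
          rcases hz with rfl | rfl | rfl
          · exact ⟨B.T2_pu hx, Or.inr (Or.inl rfl)⟩
          · exact ⟨h2, Or.inl h3⟩
          · exact ⟨B.T2_pu h.2.2, Or.inr (Or.inr rfl)⟩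
      · have hS := hx
        rw [hi] at hS
        rcases B.pu_step (F := F) h.2.2 hS with h1 | ⟨h1, h2, h3⟩
        · rw [← hi] at h1
          refine ⟨SimpleGraph.Walk.cons (h1 ▸ (adj_e (B.pu v) i).symm) SimpleGraph.Walk.nil, ?_⟩
          intro z hz
          simp only [SimpleGraph.Walk.support_cons, SimpleGraph.Walk.support_nil, List.mem_cons,
            List.not_mem_nil, or_false] at hz
          rcases hz with rfl | rfl
          · exact ⟨B.T2_pu hx, Or.inr (Or.inl rfl)⟩
          · exact ⟨B.T2_pu h.2.2, Or.inr (Or.inr rfl)⟩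
        · rw [← hi] at h1
          refine ⟨SimpleGraph.Walk.cons (h1 ▸ (adj_e (B.pu v + e i) i).symm)
            (SimpleGraph.Walk.cons (adj_e (B.pu v) i).symm SimpleGraph.Walk.nil), ?_⟩
          intro z hz
          simp only [SimpleGraph.Walk.support_cons, SimpleGraph.Walk.support_nil, List.mem_cons,
            List.not_mem_nil, or_false] at hz
          rcases hz with rfl | rfl | rfl
          · exact ⟨B.T2_pu hx, Or.inr (Or.inl rfl)⟩
          · exact ⟨h2, Or.inl h3⟩
          · exact ⟨B.T2_pu h.2.2, Or.inr (Or.inr rfl)⟩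
    obtain ⟨s, hs⟩ := hstep
    refine ⟨s.append q, ?_⟩
    intro z hz
    rw [SimpleGraph.Walk.mem_support_append_iff] at hz
    rcases hz with hz | hz
    · obtain ⟨h1, h2⟩ := hs z hz
      refine ⟨h1, ?_⟩
      rcases h2 with h2 | h2 | h2
      · exact Or.inl h2
      · exact Or.inr ⟨x, by simp, h2⟩
      · exact Or.inr ⟨v, by simp, h2⟩
    · obtain ⟨h1, h2⟩ := hq z hz
      refine ⟨h1, ?_⟩
      rcases h2 with h2 | ⟨v', h3, h4⟩
      · exact Or.inl h2
      · exact Or.inr ⟨v', by simp [h3], h4⟩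

/-- A walk in the shell between legs of different components contains one without inner legs. -/
theorem exists_free_walk (G : SimpleGraph P) (n : ℕ) : ∀ {x y : P} (w : B.SG.Walk x y),
    w.length = n → x ∈ G.support → y ∈ G.support → ¬ G.Reachable x y →
    ∃ (a b : P) (w' : B.SG.Walk a b), a ∈ w.support ∧ a ∈ G.support ∧ b ∈ G.support ∧
      ¬ G.Reachable a b ∧ ∀ z ∈ w'.support, z ≠ a → z ≠ b → z ∉ G.support := by
  induction n using Nat.strong_induction_on with
  | _ n ih =>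
    intro x y w hn hx hy hxy
    by_cases h : ∃ z ∈ w.support, z ≠ x ∧ z ≠ y ∧ z ∈ G.support
    swap
    · push Not at h
      exact ⟨x, y, w, w.start_mem_support, hx, hy, hxy, h⟩
    obtain ⟨z, hz, hzx, hzy, hzG⟩ := h
    by_cases hxz : G.Reachable x z
    · have hzy' : ¬ G.Reachable z y := fun hh => hxy (hxz.trans hh)
      have hlt : (w.dropUntil z hz).length < n := by
        rw [← hn]; exact SimpleGraph.Walk.length_dropUntil_lt_length hz hzx
      obtain ⟨a, b, w', h1, h2⟩ := ih _ hlt (w.dropUntil z hz) rfl hzG hy hzy'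
      exact ⟨a, b, w', w.support_dropUntil_subset_support hz h1, h2⟩
    · have hlt : (w.takeUntil z hz).length < n := by
        rw [← hn]; exact SimpleGraph.Walk.length_takeUntil_lt_length hz hzy
      obtain ⟨a, b, w', h1, h2⟩ := ih _ hlt (w.takeUntil z hz) rfl hx hzG hxz
      exact ⟨a, b, w', w.support_takeUntil_subset_support hz h1, h2⟩

/-- A component that leaves the box has a leg. -/
theorem exists_leg {F : FG} {u : P} (huB : B.mem u) (hu' : ∃ x, F.G.Reachable u x ∧ ¬ B.mem x) :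
    ∃ a, B.S1 a ∧ a ∈ (B.ExG F.G).support ∧ (B.ExG F.G).Reachable (B.ex u) a := by
  have hedge : ∃ s s', F.G.Reachable u s ∧ F.G.Adj s s' ∧ B.mem s ∧ ¬ B.mem s' := by
    obtain ⟨x, hx, hxB⟩ := hu'
    rw [SimpleGraph.reachable_iff_reflTransGen] at hx
    induction hx with
    | refl => exact absurd huB hxB
    | @tail b c hb hbc ih =>
      by_cases hbB : B.mem b
      · exact ⟨b, c, (SimpleGraph.reachable_iff_reflTransGen _ _).2 hb, hbc, hbB, hxB⟩
      · exact ih hbB
  obtain ⟨s, s', h1, h2, h3, h4⟩ := hedge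
  obtain ⟨⟨i, b⟩, rfl⟩ := (adj_iff_st _ _).1 (F.le h2)
  have hadj : (B.ExG F.G).Adj (B.ex s) (B.ex s + st (i, b)) := (B.ExG_adj_ex F.le s _).2 h2
  have hsup : B.ex s + st (i, b) ∈ (B.ExG F.G).support := ⟨_, hadj.symm⟩
  refine ⟨B.ex s + st (i, b), ?_, hsup, (B.reach_ex F.le h1).trans hadj.reachable⟩
  have hexs : ∀ k, B.ex s k = s k + B.off k := by
    intro k
    have := h3 k
    simp only [ex, ex1]; split_ifs <;> omega
  have hsi : s i = if b then B.r i else B.l i := by
    simp only [mem] at h4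
    push Not at h4
    obtain ⟨j, hj⟩ := h4
    have hji : j = i := by
      by_contra hne
      rw [Pi.add_apply, st_apply_ne _ hne, add_zero] at hj
      exact absurd (h3 j).2 (not_le.2 (hj (h3 j).1))
    subst hji
    have h5 := h3 j
    rw [Pi.add_apply, st_apply_self] at hj
    cases b
    · simp only [Bool.false_eq_true, if_false] at hj ⊢
      by_contra hne
      have := hj (by omega)
      omega
    · simp only [if_true] at hj ⊢
      have := hj (by omega)
      omega
  refine ⟨(B.Ex F).half _ hsup, ?_, i, ?_⟩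
  · intro k
    have h5 := h3 k
    by_cases hk : k = i
    · subst hk
      rw [Pi.add_apply, st_apply_self, hexs]
      simp only [Lo, Hi]
      cases b
      · simp only [Bool.false_eq_true, if_false] at hsi ⊢; omega
      · simp only [if_true] at hsi ⊢; omega
    · rw [Pi.add_apply, st_apply_ne _ hk, hexs]
      simp only [Lo, Hi]; omega
  · rw [Pi.add_apply, st_apply_self, hexs]
    simp only [Lo, Hi]
    cases b
    · simp only [Bool.false_eq_true, if_false] at hsi ⊢; left; omega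
    · simp only [if_true] at hsi ⊢; right; omega

theorem not_S1_ex (u : P) : ¬ B.S1 (B.ex u) := by
  rintro ⟨_, _, i, hi⟩
  exact B.not_cor_ex i u (B.cor_of_out hi)

theorem not_T2_ex (u : P) : ¬ B.T2 (B.ex u) := by
  rintro ⟨_, _, i, hi⟩
  exact B.not_cor_ex i u (B.cor_of_out2 hi)

theorem map_SG_support {x y : P} (w : B.SG.Walk x y) :
    (w.mapLe (fun _ _ h => h.1 : B.SG ≤ Lat)).support = w.support := by
  simp

/-- Merging two components of a closed graph near a box. -/
theorem merge_step (B : Bx) (F : FG) (hcl : ∀ x, deg F.G x = 0 ∨ deg F.G x = 2)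
    {u v : P} (hu : u ∈ F.V) (hv : v ∈ F.V) (huB : B.mem u) (hvB : B.mem v)
    (huv : ¬ F.G.Reachable u v)
    (hu' : ∃ x, F.G.Reachable u x ∧ ¬ B.mem x) (hv' : ∃ x, F.G.Reachable v x ∧ ¬ B.mem x)
    {c : ℕ} (hr : Rooted (c + 1) F.G) :
    ∃ F' : FG,
      (∀ x i, F.G.Adj x (x + e i) ↔ F'.G.Adj (B.ex x) (B.ex x + e i)) ∧
      (∀ x, deg F'.G x = 0 ∨ deg F'.G x = 2) ∧ Rooted c F'.G ∧
      (∀ x y, ¬ (x ∈ B.big ∧ y ∈ B.big) → ((B.Ex F).G.Adj x y ↔ F'.G.Adj x y)) := by
  obtain ⟨a₀, ha₀, ha₀s, ha₀r⟩ := B.exists_leg huB hu'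
  obtain ⟨b₀, hb₀, hb₀s, hb₀r⟩ := B.exists_leg hvB hv'
  have hab₀ : ¬ (B.ExG F.G).Reachable a₀ b₀ := by
    intro h
    have h1 : (B.ExG F.G).Reachable (B.ex u) (B.ex v) := (ha₀r.trans h).trans hb₀r.symm
    have h2 := B.reach_dn F.le h1
    rw [dn_ex, dn_ex] at h2
    exact huv h2
  obtain ⟨w₀⟩ := B.SG_conn ha₀ hb₀
  obtain ⟨a, b, w, haw, has, hbs, hab, hfree⟩ :=
    B.exists_free_walk (B.ExG F.G) _ w₀ rfl ha₀s hb₀s hab₀
  have haS : B.S1 a := B.SG_support w₀ ha₀ a haw
  have hwS := B.SG_support w haS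
  have hbS : B.S1 b := hwS b w.end_mem_support
  obtain ⟨q₀, hq₀⟩ := B.push_walk (F := F) w haS
  set p := (w.mapLe (fun _ _ h => h.1 : B.SG ≤ Lat)).bypass with hp
  set q := q₀.bypass with hq
  have hpsub : ∀ z ∈ p.support, z ∈ w.support := by
    intro z hz
    have := (w.mapLe (fun _ _ h => h.1 : B.SG ≤ Lat)).support_bypass_subset_support hz
    rwa [B.map_SG_support] at this
  have hqsub : ∀ z ∈ q.support, z ∈ q₀.support := fun z hz =>
    q₀.support_bypass_subset_support hz
  have hpS : ∀ z ∈ p.support, B.S1 z := fun z hz => hwS z (hpsub z hz)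
  have hqT : ∀ z ∈ q.support, B.T2 z := fun z hz => (hq₀ z (hqsub z hz)).1
  have hclG : ∀ x, deg (B.ExG F.G) x = 0 ∨ deg (B.ExG F.G) x = 2 := by
    intro x
    by_cases him : ∃ u, B.ex u = x
    · obtain ⟨u, rfl⟩ := him
      rw [B.deg_ExG_ex F.le]; exact hcl u
    · push Not at him
      exact B.deg_Ex_of_not_image F him
  obtain ⟨r1, r2, r3, r4, r5, r6⟩ := rewire_spec (B.ExG F.G) (B.ExG_le F.G) (B.Ex F).fin hclG
    (B.leg_pu haS has) (B.leg_pu hbS hbs) hab p q
    (SimpleGraph.Walk.bypass_isPath _) (SimpleGraph.Walk.bypass_isPath _)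
    (fun x hx hx' => B.S1_not_T2 (hpS x hx) (hqT x hx'))
    (fun x hx hxa hxb => hfree x (hpsub x hx) hxa hxb)
    (by
      intro x hx hxa hxb
      rcases (hq₀ x (hqsub x hx)).2 with h | ⟨v', hv1, rfl⟩
      · exact h
      · apply B.pu_iso (hwS v' hv1)
        apply hfree v' hv1
        · rintro rfl; exact hxa rfl
        · rintro rfl; exact hxb rfl)
    (fun x hx y hy => B.no_edge_S1 (hpS x hx) (hpS y hy))
    (fun x hx y hy => B.no_edge_T2 (hqT x hx) (hqT y hy))
  let F' : FG :=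
    { G := rewire (B.ExG F.G) p q
      le := r1
      fin := by
        refine ((B.Ex F).fin.union ((p.support.toFinset.finite_toSet).union
          (q.support.toFinset.finite_toSet))).subset ?_
        intro x hx
        rcases (r3 x).1 hx with h | h | h
        · exact Or.inl h
        · right; left; simpa using h
        · right; right; simpa using h
      half := by
        intro x hx
        rcases (r3 x).1 hx with h | h | h
        · exact (B.Ex F).half x h
        · exact (hpS x h).1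
        · exact (hqT x h).1 }
  have hadj : ∀ x y, F'.G.Adj x y ↔ ((B.ExG F.G).Adj x y ∧ s(x, y) ≠ s(a, B.pu a) ∧
      s(x, y) ≠ s(b, B.pu b)) ∨ s(x, y) ∈ p.edges ∨ s(x, y) ∈ q.edges := fun x y => Iff.rfl
  have hpe : ∀ x y, s(x, y) ∈ p.edges → B.S1 x ∧ B.S1 y := fun x y h =>
    ⟨hpS x (p.fst_mem_support_of_mem_edges h), hpS y (p.snd_mem_support_of_mem_edges h)⟩
  have hqe : ∀ x y, s(x, y) ∈ q.edges → B.T2 x ∧ B.T2 y := fun x y h =>
    ⟨hqT x (q.fst_mem_support_of_mem_edges h), hqT y (q.snd_mem_support_of_mem_edges h)⟩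
  refine ⟨F', ?_, r2, ?_, ?_⟩
  · intro x i
    have h1 := B.ExG_adj_ex F.le x (i, true)
    rw [st_true] at h1
    rw [hadj, ← h1]
    constructor
    · intro h
      refine Or.inl ⟨h, ?_, ?_⟩
      · intro hh
        rcases Sym2.eq_iff.1 hh with ⟨h2, _⟩ | ⟨h2, _⟩
        · rw [← h2] at haS; exact B.not_S1_ex x haS
        · have := B.T2_pu haS; rw [← h2] at this; exact B.not_T2_ex x this
      · intro hh
        rcases Sym2.eq_iff.1 hh with ⟨h2, _⟩ | ⟨h2, _⟩
        · rw [← h2] at hbS; exact B.not_S1_ex x hbS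
        · have := B.T2_pu hbS; rw [← h2] at this; exact B.not_T2_ex x this
    · rintro (h | h | h)
      · exact h.1
      · exact absurd (hpe _ _ h).1 (B.not_S1_ex x)
      · exact absurd (hqe _ _ h).1 (B.not_T2_ex x)
  · obtain ⟨ρ, hρ1, hρ2⟩ := hr
    have hroot := B.rooted_Ex hρ2
    obtain ⟨ra, hra, hraa⟩ := hroot a has
    obtain ⟨rb, hrb, hrbb⟩ := hroot b hbs
    have hne : ra ≠ rb := by
      rintro rfl
      exact hab (hraa.symm.trans hrbb)
    refine ⟨(ρ.image B.ex).erase rb, ?_, ?_⟩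
    · rw [Finset.card_erase_of_mem hrb]
      have : (ρ.image B.ex).card ≤ ρ.card := Finset.card_image_le
      omega
    · have hra' : ra ∈ (ρ.image B.ex).erase rb := Finset.mem_erase.2 ⟨hne, hra⟩
      have hRa : F'.G.Reachable ra a := r4 _ _ hraa
      have hold : ∀ x ∈ (B.ExG F.G).support,
          ∃ r ∈ (ρ.image B.ex).erase rb, F'.G.Reachable r x := by
        intro x hx
        obtain ⟨r, hr, hrx⟩ := hroot x hx
        by_cases hrr : r = rb
        · subst hrr
          refine ⟨ra, hra', ?_⟩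
          exact (hRa.trans r5).trans ((r4 _ _ hrbb).symm.trans (r4 _ _ hrx))
        · exact ⟨r, Finset.mem_erase.2 ⟨hrr, hr⟩, r4 _ _ hrx⟩
      intro x hx
      rcases r6 x hx with h | h
      · exact hold x h
      · exact ⟨ra, hra', hRa.trans h⟩
  · intro x y hxy
    rw [hadj]
    constructor
    · intro h
      refine Or.inl ⟨h, ?_, ?_⟩
      · intro hh
        apply hxy
        rcases Sym2.eq_iff.1 hh with ⟨h2, h3⟩ | ⟨h2, h3⟩
        · rw [h2, h3]; exact ⟨B.S1_mem_big haS, B.T2_mem_big (B.T2_pu haS)⟩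
        · rw [h2, h3]; exact ⟨B.T2_mem_big (B.T2_pu haS), B.S1_mem_big haS⟩
      · intro hh
        apply hxy
        rcases Sym2.eq_iff.1 hh with ⟨h2, h3⟩ | ⟨h2, h3⟩
        · rw [h2, h3]; exact ⟨B.S1_mem_big hbS, B.T2_mem_big (B.T2_pu hbS)⟩
        · rw [h2, h3]; exact ⟨B.T2_mem_big (B.T2_pu hbS), B.S1_mem_big hbS⟩
    · rintro (h | h | h)
      · exact h.1
      · exact absurd ⟨B.S1_mem_big (hpe _ _ h).1, B.S1_mem_big (hpe _ _ h).2⟩ hxy
      · exact absurd ⟨B.T2_mem_big (hqe _ _ h).1, B.T2_mem_big (hqe _ _ h).2⟩ hxy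

end Bx

end Pool.Agent.Lib.MP_280b4e_pr
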