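import Pool.Agent.Lib.MP_280b4e_pr.Sub
import Pool.Agent.Lib.MP_280b4e_pr.Merge

/-!
Closed graphs with a bounded number of components grow subexponentially if single polygons do.
-/

namespace Pool.Agent.Lib.MP_280b4e_pr

open scoped ENNReal
open Classical

theorem card_Icc_le {l u : P} {s : ℕ} (h : ∀ i, u i - l i + 1 ≤ (s : ℤ)) :
    (Finset.Icc l u : Finset P).card ≤ s ^ 3 := by
  rw [Pi.card_Icc]
  calc ∏ i : Fin 3, (Finset.Icc (l i) (u i)).card ≤ ∏ _i : Fin 3, s := by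
        refine Finset.prod_le_prod' fun i _ => ?_
        rw [Int.card_Icc]
        have := h i
        omega
    _ = s ^ 3 := by simp

theorem Bx.ext_lr {B B' : Bx} (h1 : B.l = B'.l) (h2 : B.r = B'.r) : B = B' := by
  have h3 : B.o = B'.o := by
    have a := B.hw
    have b := B'.hw
    rw [h1] at a
    omega
  cases B; cases B'; simp_all

theorem BoxAround.mem_of_near {B : Bx} {a x : P} {ρ τ : ℕ} (h : BoxAround B a ρ τ)
    (hx : InBox ρ (x - a)) (h0 : 0 ≤ x 0) : B.mem x := by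
  intro i
  have h1 := abs_le.1 (hx i)
  have h2 := h.rlow i
  rw [Pi.sub_apply] at h1
  refine ⟨?_, by omega⟩
  rcases h.lhigh i with h3 | ⟨h3, h4⟩
  · omega
  · subst h3; omega

theorem BoxAround.near_of_mem {B : Bx} {a x : P} {ρ τ : ℕ} (h : BoxAround B a ρ τ)
    (hx : B.mem x) : InBox (ρ + τ) (x - a) := by
  intro i
  have h1 := hx i
  have h2 := h.rhigh i
  have h3 := h.llow i
  rw [Pi.sub_apply, abs_le]
  push_cast
  constructor <;> omega

theorem BoxAround.lr_mem {B : Bx} {a : P} {ρ τ N : ℕ} (h : BoxAround B a ρ τ)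
    (ha : InBox N a) : B.l ∈ cubeF (N + ρ + τ) ∧ B.r ∈ cubeF (N + ρ + τ) := by
  rw [mem_cubeF, mem_cubeF]
  constructor
  · intro i
    have h1 := B.hlr i
    have h2 := h.rhigh i
    have h3 := h.llow i
    have h4 := abs_le.1 (ha i)
    rw [abs_le]; push_cast
    constructor <;> omega
  · intro i
    have h1 := B.hlr i
    have h2 := h.rhigh i
    have h3 := h.llow i
    have h4 := abs_le.1 (ha i)
    rw [abs_le]; push_cast
    constructor <;> omega

theorem Bx.off_cases (B : Bx) (i : Fin 3) : 0 ≤ B.off i ∧ B.off i ≤ 2 ∧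
    ((i = 0 ∧ B.l 0 = 0) → B.off i = 0) := by
  have h := B.hw
  unfold Bx.off
  split_ifs with h1
  · refine ⟨by omega, by omega, fun h2 => by omega⟩
  · exact ⟨le_rfl, by norm_num, fun h2 => rfl⟩

theorem BoxAround.big_card {B : Bx} {a : P} {ρ τ : ℕ} (h : BoxAround B a ρ τ) :
    B.big.card ≤ (2 * ρ + 2 * τ + 5) ^ 3 := by
  unfold Bx.big
  refine card_Icc_le fun i => ?_
  have h2 := h.rhigh i
  have h3 := h.llow i
  have h4 := B.off_cases i
  split_ifs with h5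
  · obtain ⟨rfl, h6⟩ := h5
    have h7 := h4.2.2 ⟨rfl, h6⟩
    push_cast; omega
  · push_cast; omega

theorem BoxAround.big_inBox {B : Bx} {a : P} {ρ τ N : ℕ} (h : BoxAround B a ρ τ)
    (ha : InBox N a) : ∀ x ∈ B.big, InBox (N + ρ + τ + 4) x := by
  intro x hx i
  unfold Bx.big at hx
  rw [Finset.mem_Icc, Pi.le_def, Pi.le_def] at hx
  have h1 := hx.1 i
  have h1' := hx.2 i
  have h2 := h.rhigh i
  have h3 := h.llow i
  have h4 := B.off_cases i
  have h5 := abs_le.1 (ha i)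
  rw [abs_le]; push_cast
  split_ifs at h1 with h6
  · obtain ⟨rfl, h6⟩ := h6
    have h7 := h4.2.2 ⟨rfl, h6⟩
    constructor <;> omega
  · constructor <;> omega

/-- Merge transfer. -/
theorem Om_merge_le (p : Par) (c N τ : ℕ) (hτ : 72 ≤ τ) :
    Om p {F | F ∈ Cls (c + 1) N ∅ ∧ ∃ u ∈ F.V, ∃ v ∈ F.V, ∃ B : Bx, BoxAround B u 1 τ ∧
        τ * (B.blk F).card ≤ 12 * F.V.card ∧ B.mem u ∧ B.mem v ∧ ¬ F.G.Reachable u v ∧
        (∃ x, F.G.Reachable u x ∧ ¬ B.mem x) ∧ (∃ x, F.G.Reachable v x ∧ ¬ B.mem x)} ≤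
      ENNReal.ofReal (Real.exp (14 * C0 p * (12 / τ) * N + 14 * C0 p * (2 * τ + 7 : ℕ) ^ 3)) *
      (((2 * N + (2 * τ + 3)) ^ 6 : ℕ) * Om p (Cls c (2 * N + ((2 * τ + 7) ^ 3 + τ + 10)) ∅)) := by
  have key := Om_transfer (ι := P × P) p
    {F | F ∈ Cls (c + 1) N ∅ ∧ ∃ u ∈ F.V, ∃ v ∈ F.V, ∃ B : Bx, BoxAround B u 1 τ ∧
        τ * (B.blk F).card ≤ 12 * F.V.card ∧ B.mem u ∧ B.mem v ∧ ¬ F.G.Reachable u v ∧
        (∃ x, F.G.Reachable u x ∧ ¬ B.mem x) ∧ (∃ x, F.G.Reachable v x ∧ ¬ B.mem x)}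
    (Cls c (2 * N + ((2 * τ + 7) ^ 3 + τ + 10)) ∅) (cubeF (N + 1 + τ) ×ˢ cubeF (N + 1 + τ))
    (14 * C0 p * (12 / τ) * N + 14 * C0 p * (2 * τ + 7 : ℕ) ^ 3)
    (fun a l b => ∃ B : Bx, B.l = l.1 ∧ B.r = l.2 ∧
      ∀ x i, a.G.Adj x (x + e i) ↔ b.G.Adj (B.ex x) (B.ex x + e i)) ?_ ?_
  · refine key.trans (le_of_eq ?_)
    congr 2
    rw [Finset.card_product, card_cubeF]
    push_cast; ring
  · rintro F ⟨hF, u, hu, v, hv, B, hB, hblk, hBu, hBv, huv, hu', hv'⟩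
    have hcl : ∀ x, deg F.G x = 0 ∨ deg F.G x = 2 := fun x => hF.2.2.2.1 x (by simp)
    obtain ⟨F', h1, h2, h3, h4⟩ := B.merge_step F hcl hu hv hBu hBv huv hu' hv' hF.2.2.2.2
    have huN := hF.2.1 u hu
    have hVN := hF.1
    have hbig := hB.big_card
    have hbig' : B.big.card ≤ (2 * τ + 7) ^ 3 := by
      refine hbig.trans (le_of_eq ?_); ring
    have hblk1 : 72 * (B.blk F).card ≤ 12 * N := by
      have : 72 * (B.blk F).card ≤ τ * (B.blk F).card := Nat.mul_le_mul_right _ hτ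
      omega
    have hVsub : F'.V ⊆ (B.Ex F).V ∪ B.big := by
      intro x hx
      by_cases hxz : x ∈ B.big
      · exact Finset.mem_union_right _ hxz
      · obtain ⟨y, hy⟩ := FG.mem_V.1 hx
        exact Finset.mem_union_left _ (FG.mem_V.2 ⟨y, (h4 x y fun hh => hxz hh.1).2 hy⟩)
    refine ⟨(B.l, B.r), ?_, F', ⟨?_, ?_, by simp, fun x _ => h2 x, h3⟩, ⟨B, rfl, rfl, h1⟩, ?_⟩
    · exact Finset.mem_product.2 (hB.lr_mem huN)
    · have h5 := (Finset.card_le_card hVsub).trans (Finset.card_union_le _ _)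
      have h6 := B.card_V_Ex F
      omega
    · intro x hx
      rcases Finset.mem_union.1 (hVsub hx) with h | h
      · intro i
        refine (B.inBox_Ex hF.2.1 x h i).trans ?_
        push_cast
        have : (0 : ℤ) ≤ (2 * τ + 7) ^ 3 := by positivity
        omega
      · intro i
        refine (hB.big_inBox huN x h i).trans ?_
        push_cast
        have : (0 : ℤ) ≤ (2 * τ + 7) ^ 3 := by positivity
        omega
    · have h5 := B.W_Ex p F
      have h6 := W_local p (B.Ex F) F' B.big h4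
      have h7 : W p F - W p F' ≤ |W p F - W p (B.Ex F)| + |W p (B.Ex F) - W p F'| :=
        (le_abs_self _).trans (abs_sub_le _ _ _)
      have hτ0 : (0 : ℝ) < τ := by
        have : (72 : ℝ) ≤ τ := by exact_mod_cast hτ
        linarith
      have h8 : ((B.blk F).card : ℝ) ≤ 12 / τ * N := by
        rw [div_mul_eq_mul_div, le_div_iff₀ hτ0, mul_comm]
        have : τ * (B.blk F).card ≤ 12 * N := by omega
        exact_mod_cast this
      have h9 : (B.big.card : ℝ) ≤ (2 * τ + 7 : ℕ) ^ 3 := by exact_mod_cast hbig'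
      have hC := C0_nonneg p
      have h10 : 14 * C0 p * ((B.blk F).card : ℝ) ≤ 14 * C0 p * (12 / τ * N) := by gcongr
      have h11 : 14 * C0 p * (B.big.card : ℝ) ≤ 14 * C0 p * (2 * τ + 7 : ℕ) ^ 3 := by gcongr
      have h12 : 14 * C0 p * (12 / τ * N) = 14 * C0 p * (12 / τ) * N := by ring
      linarith
  · rintro a - a' - l b ⟨B, h1, h2, h3⟩ ⟨B', h1', h2', h3'⟩
    have hB : B = B' := Bx.ext_lr (h1.trans h1'.symm) (h2.trans h2'.symm)
    subst hB
    apply FG.ext_e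
    intro x i
    rw [h3, h3']

theorem Om_Cls_zero_le (p : Par) (N : ℕ) : Om p (Cls 0 N ∅) ≤ 1 := by
  have hempty : ∀ F ∈ Cls 0 N ∅, ∀ x y, ¬ F.G.Adj x y := by
    rintro F ⟨-, -, -, -, ρ, h1, h2⟩ x y hxy
    obtain ⟨r, hr, -⟩ := h2 x ⟨y, hxy⟩
    rw [Nat.le_zero, Finset.card_eq_zero] at h1
    simp [h1] at hr
  have key := tsum_transfer (α := FG) (β := Unit) (Cls 0 N ∅) Set.univ ({()} : Finset Unit)
    (wt p) (fun _ => 1) 1 (fun _ _ _ => True) ?_ ?_
  · unfold Om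
    refine key.trans ?_
    rw [one_mul, Finset.card_singleton, Nat.cast_one, one_mul]
    rw [tsum_fintype]
    simp
  · intro F hF
    refine ⟨(), by simp, (), trivial, trivial, ?_⟩
    have hV : F.V = ∅ := by
      rw [Finset.eq_empty_iff_forall_notMem]
      intro x hx
      obtain ⟨y, hy⟩ := FG.mem_V.1 hx
      exact hempty F hF x y hy
    unfold wt W
    rw [hV]; simp
  · intro F hF F' hF' _ _ _ _
    apply FG.ext'
    intro x y
    exact ⟨fun h => absurd h (hempty F hF x y), fun h => absurd h (hempty F' hF' x y)⟩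

/-- Decomposition of the class. -/
theorem Cls_succ_subset (c N τ : ℕ) (hτ : 1 ≤ τ) :
    Cls (c + 1) N ∅ ⊆ Cls c N ∅ ∪
      ({F | F ∈ Cls (c + 1) N ∅ ∧ ∃ S : Set P, (∀ x y, F.G.Adj x y → x ∈ S → y ∈ S) ∧
        F.sub S ∈ Cls 1 N ∅ ∧ F.sub Sᶜ ∈ Cls c N ∅ ∧
        (∀ x ∈ F.V, ∀ y ∈ F.V, Lat.Adj x y → x ∈ S → y ∈ S)} ∪
      ({F | F ∈ Cls (c + 1) N ∅ ∧ ∃ w ∈ F.V, ∀ x, F.G.Reachable w x → InBox (2 * τ + 2) (x - w)} ∪
      {F | F ∈ Cls (c + 1) N ∅ ∧ ∃ u ∈ F.V, ∃ v ∈ F.V, ∃ B : Bx, BoxAround B u 1 τ ∧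
        τ * (B.blk F).card ≤ 12 * F.V.card ∧ B.mem u ∧ B.mem v ∧ ¬ F.G.Reachable u v ∧
        (∃ x, F.G.Reachable u x ∧ ¬ B.mem x) ∧ (∃ x, F.G.Reachable v x ∧ ¬ B.mem x)})) := by
  intro F hF
  by_cases hV : F.V.Nonempty
  swap
  · left
    obtain ⟨h1, h2, h3, h4, ρ, hρ1, hρ2⟩ := hF
    refine ⟨h1, h2, h3, h4, ∅, by simp, ?_⟩
    rintro x ⟨y, hy⟩
    exact absurd ⟨x, FG.mem_V.2 ⟨y, hy⟩⟩ hV
  right
  obtain ⟨w, hw⟩ := hV
  by_cases hcon : ∃ u ∈ F.V, ∃ v ∈ F.V, Lat.Adj u v ∧ u ∈ F.comp w ∧ v ∉ F.comp w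
  swap
  · left
    push Not at hcon
    exact ⟨hF, F.comp w, FG.comp_closed w, FG.cls_comp hF w, FG.cls_comp_compl hF hw,
      fun x hx y hy hxy hxw => hcon x hx y hy hxy hxw⟩
  right
  obtain ⟨u, hu, v, hv, hadj, huw, hvw⟩ := hcon
  obtain ⟨B, hB, hblk⟩ := exists_lowBox F u (FG.nonneg hu) 1 τ hτ
  have hBu : B.mem u := hB.mem_of_near (by intro i; simp) (FG.nonneg hu)
  have hBv : B.mem v := by
    refine hB.mem_of_near ?_ (FG.nonneg hv)
    intro i
    rw [Pi.sub_apply]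
    rw [adj_coord] at hadj
    rw [abs_le]; push_cast
    fin_cases i <;> simp only [Fin.zero_eta, Fin.mk_one, Fin.reduceFinMk] <;> constructor <;> omega
  by_cases hu' : ∃ x, F.G.Reachable u x ∧ ¬ B.mem x
  swap
  · left
    push Not at hu'
    refine ⟨hF, u, hu, fun x hx i => ?_⟩
    have := hB.near_of_mem (hu' x hx) i
    refine this.trans ?_
    push_cast; omega
  by_cases hv' : ∃ x, F.G.Reachable v x ∧ ¬ B.mem x
  swap
  · left
    push Not at hv'
    refine ⟨hF, v, hv, fun x hx i => ?_⟩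
    have h1 := abs_le.1 (hB.near_of_mem (hv' x hx) i)
    have h2 := abs_le.1 (hB.near_of_mem hBv i)
    simp only [Pi.sub_apply] at h1 h2 ⊢
    push_cast at h1 h2 ⊢
    rw [abs_le]
    constructor <;> omega
  right
  refine ⟨hF, u, hu, v, hv, B, hB, hblk, hBu, hBv, ?_, hu', hv'⟩
  intro huv
  exact hvw (SimpleGraph.Reachable.trans huw huv)

/-- Closed graphs with at most `c` components. -/
theorem closed_subExp (p : Par) (hbase : SubExp (fun N => Om p (Cls 1 N ∅))) (c : ℕ) :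
    SubExp (fun N => Om p (Cls c N ∅)) := by
  induction c with
  | zero =>
    refine (SubExp_natConst 1).mono fun N => ?_
    simpa using Om_Cls_zero_le p N
  | succ c ih =>
    intro ε hε
    obtain ⟨τ, hτ⟩ := exists_nat_ge (72 + 14 * C0 p * 12 / (ε / 4))
    have hC := C0_nonneg p
    have hτ72 : 72 ≤ τ := by
      have : (72 : ℝ) ≤ τ := by
        have : 0 ≤ 14 * C0 p * 12 / (ε / 4) := by positivity
        linarith
      exact_mod_cast this
    have hτ0 : (0 : ℝ) < τ := by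
      have : (72 : ℝ) ≤ τ := by exact_mod_cast hτ72
      linarith
    have hrate : 14 * C0 p * (12 / τ) ≤ ε / 4 := by
      have h1 : 14 * C0 p * 12 / (ε / 4) ≤ τ := by linarith
      rw [div_le_iff₀ (by positivity)] at h1
      rw [← mul_div_assoc, div_le_iff₀ hτ0]
      linarith
    have h1 : SubExp (fun N => Om p (Cls 1 N ∅) * Om p (Cls c N ∅)) := hbase.mul ih
    have h2 : SubExp (fun N => ENNReal.ofReal
        (Real.exp (14 * C0 p * (2 * (2 * τ + 2) + 1 : ℕ) ^ 3)) *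
        (((2 * N + 1) ^ 3 * 2 ^ (((2 * (2 * τ + 2) + 1) ^ 3) ^ 2) : ℕ) * Om p (Cls c N ∅))) := by
      refine (SubExp_const _).mul (SubExp.mul ?_ ih)
      refine ((SubExp_poly 2 1 3).mul (SubExp_natConst (2 ^ (((2 * (2 * τ + 2) + 1) ^ 3) ^ 2)))).mono
        fun N => ?_
      push_cast; exact le_rfl
    have h3 : SubExp (fun N => ((2 * N + (2 * τ + 3)) ^ 6 : ℕ) *
        Om p (Cls c (2 * N + ((2 * τ + 7) ^ 3 + τ + 10)) ∅)) :=
      (SubExp_poly 2 (2 * τ + 3) 6).mul (ih.comp 2 _)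
    have h4 : GE ε (fun N => ENNReal.ofReal
        (Real.exp (14 * C0 p * (12 / τ) * N + 14 * C0 p * (2 * τ + 7 : ℕ) ^ 3)) *
        (((2 * N + (2 * τ + 3)) ^ 6 : ℕ) *
          Om p (Cls c (2 * N + ((2 * τ + 7) ^ 3 + τ + 10)) ∅))) := by
      have := (GE_exp' (14 * C0 p * (2 * τ + 7 : ℕ) ^ 3) hrate).mul (h3 (ε / 4) (by positivity))
      exact this.rate (by linarith)
    refine GE.mono (GE.add (ih ε hε) (GE.add (h1 ε hε) (GE.add (h2 ε hε) h4))) fun N => ?_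
    refine (Om_mono p (Cls_succ_subset c N τ (by omega))).trans ?_
    refine (Om_union_le _ _ _).trans (add_le_add le_rfl ?_)
    refine (Om_union_le _ _ _).trans (add_le_add ?_ ?_)
    · refine Om_prod_le p _ _ _ ?_
      rintro F ⟨hF, S, hS1, hS2, hS3, hS4⟩
      exact ⟨S, hS1, hS2, hS3, FG.W_sub_add p hS1 hS4⟩
    refine (Om_union_le _ _ _).trans (add_le_add ?_ ?_)
    · exact Om_drop_le p c N (2 * τ + 2)
    · exact Om_merge_le p c N τ hτ72

end Pool.Agent.Lib.MP_280b4e_pr
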