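import Pool.Agent.Lib.MP_280b4e_pr.Basic

/-!
Cyclic enumeration of a connected finite graph in which all degrees are two.
-/

namespace Pool.Agent.Lib.MP_280b4e_pr
open scoped ENNReal
open Classical

namespace CycleAux

/-- `w` is a path of length `m` starting at `a`. -/
def PathTo (G : SimpleGraph P) (a : P) (m : ℕ) (w : ℕ → P) : Prop :=
  w 0 = a ∧ (∀ i < m, G.Adj (w i) (w (i + 1))) ∧ ∀ i ≤ m, ∀ j ≤ m, w i = w j → i = j

theorem nbr_two {G : SimpleGraph P} (hG : G ≤ Lat) {x y z : P} (h : deg G x = 2)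
    (hy : G.Adj x y) (hz : G.Adj x z) (hyz : y ≠ z) : ∀ u, G.Adj x u → u = y ∨ u = z := by
  rw [deg_eq_ncard hG] at h
  obtain ⟨a, b, hab, hs⟩ := Set.ncard_eq_two.1 h
  have key : ∀ u, G.Adj x u → u = a ∨ u = b := by
    intro u hu
    have h1 : u ∈ G.neighborSet x := hu
    rw [hs] at h1
    simpa using h1
  intro u hu
  rcases key y hy with rfl | rfl <;> rcases key z hz with rfl | rfl
  · exact absurd rfl hyz
  · exact key u hu
  · exact (key u hu).symm
  · exact absurd rfl hyz

theorem exists_other {G : SimpleGraph P} (hG : G ≤ Lat) {x : P} (h : deg G x = 2) (y : P) :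
    ∃ z, G.Adj x z ∧ z ≠ y := by
  rw [deg_eq_ncard hG] at h
  obtain ⟨a, b, hab, hs⟩ := Set.ncard_eq_two.1 h
  have ha : G.Adj x a := by
    have : a ∈ G.neighborSet x := by rw [hs]; simp
    exact this
  have hb : G.Adj x b := by
    have : b ∈ G.neighborSet x := by rw [hs]; simp
    exact this
  by_cases h1 : a = y
  · refine ⟨b, hb, ?_⟩
    rw [← h1]
    exact hab.symm
  · exact ⟨a, ha, h1⟩

theorem pathTo_mem (F : FG) {a : P} (ha : a ∈ F.V) {m : ℕ} {w : ℕ → P}
    (hw : PathTo F.G a m w) : ∀ i ≤ m, w i ∈ F.V := by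
  intro i hi
  rcases Nat.eq_zero_or_pos i with rfl | h0
  · rw [hw.1]
    exact ha
  · have := hw.2.1 (i - 1) (by omega)
    rw [Nat.sub_add_cancel h0] at this
    exact FG.mem_V_right this

theorem pathTo_card (F : FG) {a : P} (ha : a ∈ F.V) {m : ℕ} {w : ℕ → P}
    (hw : PathTo F.G a m w) : m + 1 ≤ F.V.card := by
  have h := Finset.card_le_card_of_injOn (s := Finset.range (m + 1)) (t := F.V) w
    (fun i hi => pathTo_mem F ha hw i (by
      have := Finset.mem_range.1 hi
      omega))
    (fun i hi j hj hij => hw.2.2 i (by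
      have := Finset.mem_range.1 hi
      omega) j (by
      have := Finset.mem_range.1 hj
      omega) hij)
  rwa [Finset.card_range] at h

theorem exists_max (F : FG) {a : P} (ha : a ∈ F.V) :
    ∃ m, (∃ w, PathTo F.G a m w) ∧ ¬ ∃ w, PathTo F.G a (m + 1) w := by
  by_contra hc
  push Not at hc
  have hall : ∀ m, ∃ w, PathTo F.G a m w := by
    intro m
    induction m with
    | zero =>
      refine ⟨fun _ => a, rfl, fun i hi => absurd hi (Nat.not_lt_zero _), fun i hi j hj _ => ?_⟩
      omega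
    | succ m ih => exact hc m ih
  obtain ⟨w, hw⟩ := hall F.V.card
  have := pathTo_card F ha hw
  omega

/-- The cycle as a sequence. -/
theorem exists_cycle (F : FG) (hcl : ∀ x, deg F.G x = 0 ∨ deg F.G x = 2) (a : P) (ha : a ∈ F.V) :
    ∃ m w, 2 ≤ m ∧ PathTo F.G a m w ∧ F.G.Adj (w m) (w 0) := by
  have hdeg : ∀ x ∈ F.V, deg F.G x = 2 := by
    intro x hx
    rcases hcl x with h0 | h0
    · obtain ⟨y, hy⟩ := FG.mem_V.1 hx
      exact absurd hy ((deg_eq_zero F.le).1 h0 y)
    · exact h0
  obtain ⟨m, ⟨w, hw⟩, hmax⟩ := exists_max F ha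
  have hmem := pathTo_mem F ha hw
  have hnb : ∀ z, F.G.Adj (w m) z → ∃ k ≤ m, z = w k := by
    intro z hz
    by_contra hc
    push Not at hc
    apply hmax
    refine ⟨fun i => if i ≤ m then w i else z, ?_, ?_, ?_⟩
    · simpa using hw.1
    · intro i hi
      have h1 : i ≤ m := by omega
      rcases Nat.lt_or_ge i m with h2 | h2
      · have h3 : i + 1 ≤ m := h2
        simp only [h1, h3, if_true]
        exact hw.2.1 i h2
      · have h3 : i = m := by omega
        subst h3
        have h4 : ¬ i + 1 ≤ i := by omega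
        simp only [le_refl, h4, if_true, if_false]
        exact hz
    · intro i hi j hj hij
      by_cases h1 : i ≤ m <;> by_cases h2 : j ≤ m
      · simp only [h1, h2, if_true] at hij
        exact hw.2.2 i h1 j h2 hij
      · simp only [h1, h2, if_true, if_false] at hij
        exact absurd hij.symm (hc i h1)
      · simp only [h1, h2, if_true, if_false] at hij
        exact absurd hij (hc j h2)
      · omega
  have hm1 : 1 ≤ m := by
    by_contra hc
    have h0 : m = 0 := by omega
    subst h0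
    obtain ⟨z, hz, _⟩ := exists_other F.le (hdeg _ (hmem 0 le_rfl)) (w 0)
    obtain ⟨k, hk, rfl⟩ := hnb z hz
    have : k = 0 := by omega
    subst this
    exact hz.ne rfl
  obtain ⟨c, hc, hcne⟩ := exists_other F.le (hdeg _ (hmem m le_rfl)) (w (m - 1))
  obtain ⟨k, hk, rfl⟩ := hnb c hc
  have hkm : k ≠ m := by
    rintro rfl
    exact hc.ne rfl
  have hkm1 : k ≠ m - 1 := by
    rintro rfl
    exact hcne rfl
  rcases Nat.eq_zero_or_pos k with rfl | hk0
  · exact ⟨m, w, by omega, hw, hc⟩
  · exfalso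
    have e1 : F.G.Adj (w k) (w (k + 1)) := hw.2.1 k (by omega)
    have e2 : F.G.Adj (w (k - 1)) (w k) := by
      have := hw.2.1 (k - 1) (by omega)
      rwa [Nat.sub_add_cancel hk0] at this
    have hne : w (k - 1) ≠ w (k + 1) := by
      intro h
      have := hw.2.2 (k - 1) (by omega) (k + 1) (by omega) h
      omega
    rcases nbr_two F.le (hdeg _ (hmem k hk)) e2.symm e1 hne (w m) hc.symm with h | h
    · have := hw.2.2 m le_rfl (k - 1) (by omega) h
      omega
    · have := hw.2.2 m le_rfl (k + 1) (by omega) h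
      omega

end CycleAux

open CycleAux in
theorem exists_cycle_enum (F : FG) (hcl : ∀ x, deg F.G x = 0 ∨ deg F.G x = 2)
    (hconn : ∀ x ∈ F.V, ∀ y ∈ F.V, F.G.Reachable x y) (a : P) (ha : a ∈ F.V) (n : ℕ)
    (hn : F.V.card = n + 1) :
    ∃ w : Fin (n + 1) → P, w 0 = a ∧ Function.Injective w ∧ (∀ x, x ∈ F.V ↔ ∃ i, w i = x) ∧
      (∀ x y, F.G.Adj x y ↔ (∃ i : Fin n, s(x, y) = s(w i.castSucc, w i.succ)) ∨
        s(x, y) = s(w (Fin.last n), w 0)) := by
  have hdeg : ∀ x ∈ F.V, deg F.G x = 2 := by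
    intro x hx
    rcases hcl x with h0 | h0
    · obtain ⟨y, hy⟩ := FG.mem_V.1 hx
      exact absurd hy ((deg_eq_zero F.le).1 h0 y)
    · exact h0
  obtain ⟨m, w, hm, hw, hclose⟩ := exists_cycle F hcl a ha
  have hmem := pathTo_mem F ha hw
  -- neighbours
  have hnb : ∀ i ≤ m, ∀ u, F.G.Adj (w i) u →
      (i < m ∧ u = w (i + 1)) ∨ (0 < i ∧ u = w (i - 1)) ∨ (i = m ∧ u = w 0) ∨
        (i = 0 ∧ u = w m) := by
    intro i hi u hu
    rcases Nat.eq_zero_or_pos i with rfl | h0
    · have e1 : F.G.Adj (w 0) (w 1) := hw.2.1 0 (by omega)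
      have hne : w 1 ≠ w m := by
        intro h
        have := hw.2.2 1 (by omega) m le_rfl h
        omega
      rcases nbr_two F.le (hdeg _ (hmem 0 (Nat.zero_le _))) e1 hclose.symm hne u hu with h | h
      · exact Or.inl ⟨by omega, h⟩
      · exact Or.inr (Or.inr (Or.inr ⟨rfl, h⟩))
    · have e2 : F.G.Adj (w (i - 1)) (w i) := by
        have := hw.2.1 (i - 1) (by omega)
        rwa [Nat.sub_add_cancel h0] at this
      rcases Nat.lt_or_ge i m with h1 | h1
      · have e1 := hw.2.1 i h1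
        have hne : w (i - 1) ≠ w (i + 1) := by
          intro h
          have := hw.2.2 (i - 1) (by omega) (i + 1) (by omega) h
          omega
        rcases nbr_two F.le (hdeg _ (hmem i hi)) e2.symm e1 hne u hu with h | h
        · exact Or.inr (Or.inl ⟨h0, h⟩)
        · exact Or.inl ⟨h1, h⟩
      · have h2 : i = m := by omega
        subst h2
        have hne : w (i - 1) ≠ w 0 := by
          intro h
          have := hw.2.2 (i - 1) (by omega) 0 (by omega) h
          omega
        rcases nbr_two F.le (hdeg _ (hmem i hi)) e2.symm hclose hne u hu with h | h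
        · exact Or.inr (Or.inl ⟨h0, h⟩)
        · exact Or.inr (Or.inr (Or.inl ⟨rfl, h⟩))
  have hstep : ∀ i ≤ m, ∀ u, F.G.Adj (w i) u → ∃ j ≤ m, u = w j := by
    intro i hi u hu
    rcases hnb i hi u hu with ⟨h, rfl⟩ | ⟨h, rfl⟩ | ⟨h, rfl⟩ | ⟨h, rfl⟩
    · exact ⟨i + 1, h, rfl⟩
    · exact ⟨i - 1, by omega, rfl⟩
    · exact ⟨0, by omega, rfl⟩
    · exact ⟨m, le_rfl, rfl⟩
  have hwalk : ∀ x y : P, F.G.Walk x y → (∃ j ≤ m, x = w j) → ∃ j ≤ m, y = w j := by
    intro x y p
    induction p with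
    | nil => exact id
    | @cons x b y h p ih =>
      rintro ⟨j, hj, rfl⟩
      exact ih (hstep j hj b h)
  have hall : ∀ x ∈ F.V, ∃ j ≤ m, x = w j := by
    intro x hx
    obtain ⟨p⟩ := hconn a ha x hx
    exact hwalk a x p ⟨0, Nat.zero_le _, hw.1.symm⟩
  have hcard : F.V.card = m + 1 := by
    apply le_antisymm
    · have h1 : F.V ⊆ (Finset.range (m + 1)).image w := by
        intro x hx
        obtain ⟨j, hj, rfl⟩ := hall x hx
        exact Finset.mem_image_of_mem _ (Finset.mem_range.2 (by omega))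
      have h2 := (Finset.card_le_card h1).trans Finset.card_image_le
      rwa [Finset.card_range] at h2
    · exact pathTo_card F ha hw
  have hmn : m = n := by omega
  subst hmn
  refine ⟨fun i => w i, hw.1, ?_, ?_, ?_⟩
  · intro i j hij
    exact Fin.ext (hw.2.2 i (by omega) j (by omega) hij)
  · intro x
    constructor
    · intro hx
      obtain ⟨j, hj, rfl⟩ := hall x hx
      exact ⟨⟨j, by omega⟩, rfl⟩
    · rintro ⟨i, rfl⟩
      exact hmem i (by omega)
  · intro x y
    constructor
    · intro h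
      obtain ⟨i, hi, rfl⟩ := hall x (FG.mem_V_left h)
      rcases hnb i hi y h with ⟨h1, rfl⟩ | ⟨h1, rfl⟩ | ⟨h1, rfl⟩ | ⟨h1, rfl⟩
      · left
        exact ⟨⟨i, h1⟩, rfl⟩
      · left
        refine ⟨⟨i - 1, by omega⟩, ?_⟩
        rw [Sym2.eq_swap]
        simp only [Fin.castSucc_mk, Fin.succ_mk]
        rw [Nat.sub_add_cancel h1]
      · right
        subst h1
        simp
      · right
        subst h1
        rw [Sym2.eq_swap]
        simp
    · rintro (⟨i, h⟩ | h)
      · rw [← SimpleGraph.mem_edgeSet, h, SimpleGraph.mem_edgeSet]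
        exact hw.2.1 i i.2
      · rw [← SimpleGraph.mem_edgeSet, h, SimpleGraph.mem_edgeSet]
        exact hclose

end Pool.Agent.Lib.MP_280b4e_pr
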