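import Pool.Agent.Lib.MP_280b4e_pr.Basic

/-!
Doubling step: two finite lattice graphs are cut at a plane and their halves are reflected and
glued, which gives a graph made of the two left halves and a graph made of the two right halves.
-/

namespace Pool.Agent.Lib.MP_280b4e_pr
open scoped ENNReal
open Classical

/-- Reflection of coordinate `j` at the plane between `pl - 1` and `pl`. -/
def mir (j : Fin 3) (pl : ℤ) (x : P) : P := Function.update x j (2 * pl - 1 - x j)

/-- Left end points of the edges crossing the plane between `pl - 1` and `pl`. -/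
noncomputable def crossing (F : FG) (j : Fin 3) (pl : ℤ) : Finset P :=
  F.V.filter fun x => x j = pl - 1 ∧ F.G.Adj x (x + e j)

namespace Double

variable {j : Fin 3} {pl : ℤ}

lemma mir_j (x : P) : mir j pl x j = 2 * pl - 1 - x j := by
  simp [mir]

lemma mir_ne (x : P) {i : Fin 3} (h : i ≠ j) : mir j pl x i = x i := by
  simp [mir, h]

lemma mir_mir (x : P) : mir j pl (mir j pl x) = x := by
  funext i
  by_cases h : i = j
  · subst h; rw [mir_j, mir_j]; ring
  · rw [mir_ne _ h, mir_ne _ h]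

lemma mir_inj : Function.Injective (mir j pl) := fun x y h => by
  rw [← mir_mir (j := j) (pl := pl) x, h, mir_mir]

lemma mir_eq_iff {x y : P} : mir j pl x = y ↔ x = mir j pl y := by
  constructor
  · rintro rfl; rw [mir_mir]
  · rintro rfl; rw [mir_mir]

lemma mir_left {x : P} : mir j pl x j < pl ↔ pl ≤ x j := by
  rw [mir_j]; omega

lemma mir_right {x : P} : pl ≤ mir j pl x j ↔ x j < pl := by
  rw [mir_j]; omega

/-- Flip of the directions along axis `j`. -/
def flipd (j : Fin 3) : Equiv.Perm Dir where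
  toFun d := (d.1, if d.1 = j then !d.2 else d.2)
  invFun d := (d.1, if d.1 = j then !d.2 else d.2)
  left_inv := by
    rintro ⟨i, b⟩
    by_cases h : i = j <;> simp [h]
  right_inv := by
    rintro ⟨i, b⟩
    by_cases h : i = j <;> simp [h]

lemma mir_st (x : P) (d : Dir) : mir j pl (x + st d) = mir j pl x + st (flipd j d) := by
  obtain ⟨i, b⟩ := d
  funext k
  by_cases hk : k = j
  · subst hk
    rw [mir_j, Pi.add_apply, Pi.add_apply, mir_j]
    by_cases hi : i = k
    · subst hi
      cases b <;> simp [st, flipd] <;> ring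
    · have : k ≠ i := fun h => hi h.symm
      simp [st, flipd, this]
  · rw [mir_ne _ hk, Pi.add_apply, Pi.add_apply, mir_ne _ hk]
    by_cases hi : i = j
    · subst hi
      simp [st, flipd, hk]
    · simp [st, flipd, hi]

lemma mir_plane {x : P} (h : x j = pl - 1) : mir j pl x = x + e j := by
  funext k
  by_cases hk : k = j
  · subst hk
    rw [mir_j, Pi.add_apply]
    simp [e]; omega
  · rw [mir_ne _ hk, Pi.add_apply]
    simp [e, hk]

lemma mir_plane' {x : P} (h : x j = pl - 1) : mir j pl (x + e j) = x := by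
  rw [← mir_plane h, mir_mir]

lemma mir_adj {x y : P} (h : Lat.Adj x y) : Lat.Adj (mir j pl x) (mir j pl y) := by
  obtain ⟨d, rfl⟩ := (adj_iff_st _ _).1 h
  rw [mir_st]
  exact adj_st _ _

/-- An edge from the left half to the right half. -/
lemma cross_eq {x y : P} (h : Lat.Adj x y) (hx : x j < pl) (hy : pl ≤ y j) :
    x j = pl - 1 ∧ y = x + e j ∧ y = mir j pl x := by
  obtain ⟨⟨i, b⟩, rfl⟩ := (adj_iff_st _ _).1 h
  rw [Pi.add_apply] at hy
  have h1 : i = j := by
    by_contra hc
    have : j ≠ i := fun h => hc h.symm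
    simp [st, this] at hy
    omega
  subst h1
  have h2 : b = true := by
    by_contra hc
    have : b = false := by simpa using hc
    subst this
    simp [st] at hy
    omega
  subst h2
  have h3 : x i = pl - 1 := by
    simp [st] at hy
    omega
  refine ⟨h3, by rw [st_true], ?_⟩
  rw [mir_plane h3, st_true]

/-- Reflected graph. -/
def mirF (j : Fin 3) (hj : j ≠ 0) (pl : ℤ) (F : FG) : FG where
  G := F.G.comap (mir j pl)
  le := fun x y h => by
    have := mir_adj (j := j) (pl := pl) (F.le h)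
    rwa [mir_mir, mir_mir] at this
  fin := by
    refine (F.fin.preimage (f := mir j pl) (mir_inj.injOn)).subset ?_
    rintro x ⟨y, hy⟩
    exact ⟨mir j pl y, hy⟩
  half := by
    rintro x ⟨y, hy⟩
    have := F.half (mir j pl x) ⟨mir j pl y, hy⟩
    rwa [mir_ne _ hj.symm] at this

variable {hj : j ≠ 0}

lemma mirF_adj {F : FG} {x y : P} :
    (mirF j hj pl F).G.Adj x y ↔ F.G.Adj (mir j pl x) (mir j pl y) := Iff.rfl

lemma mirF_V {F : FG} {x : P} : x ∈ (mirF j hj pl F).V ↔ mir j pl x ∈ F.V := by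
  rw [FG.mem_V, FG.mem_V]
  constructor
  · rintro ⟨y, hy⟩; exact ⟨_, hy⟩
  · rintro ⟨y, hy⟩
    refine ⟨mir j pl y, ?_⟩
    rw [mirF_adj, mir_mir]; exact hy

lemma mirF_mirF (F : FG) : mirF j hj pl (mirF j hj pl F) = F := by
  apply FG.ext'
  intro x y
  rw [mirF_adj, mirF_adj, mir_mir, mir_mir]

lemma mirF_phi (par : Par) (F : FG) (x : P) :
    phi par (mirF j hj pl F) x = phi par F (mir j pl x) := by
  apply phi_congr par (flipd j)
  · rw [mir_ne _ hj.symm]
  · intro d
    rw [mirF_V, mir_st]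
  · intro d
    rw [mirF_adj, mir_st]

lemma mirF_deg (F : FG) (x : P) : deg (mirF j hj pl F).G x = deg F.G (mir j pl x) := by
  unfold deg
  refine Finset.card_bij (fun d _ => flipd j d) ?_ ?_ ?_
  · intro d hd
    simp only [Finset.mem_filter, Finset.mem_univ, true_and] at hd ⊢
    rw [mirF_adj, mir_st] at hd
    exact hd
  · intro a _ b _ h; exact (flipd j).injective h
  · intro d hd
    simp only [Finset.mem_filter, Finset.mem_univ, true_and] at hd
    refine ⟨(flipd j).symm d, ?_, by simp⟩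
    simp only [Finset.mem_filter, Finset.mem_univ, true_and]
    rw [mirF_adj, mir_st]
    simpa using hd

/-- Left half of `A`, reflected left half of `B`, crossing edges at `Y`. -/
def gl (j : Fin 3) (pl : ℤ) (A B : SimpleGraph P) (Y : Finset P) : SimpleGraph P where
  Adj x y := (x j < pl ∧ y j < pl ∧ A.Adj x y) ∨
    (pl ≤ x j ∧ pl ≤ y j ∧ B.Adj (mir j pl x) (mir j pl y)) ∨
    (x ∈ Y ∧ y = mir j pl x) ∨ (y ∈ Y ∧ x = mir j pl y)
  symm := ⟨fun x y h => by
    rcases h with ⟨h1, h2, h3⟩ | ⟨h1, h2, h3⟩ | h | h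
    · exact Or.inl ⟨h2, h1, h3.symm⟩
    · exact Or.inr (Or.inl ⟨h2, h1, h3.symm⟩)
    · exact Or.inr (Or.inr (Or.inr h))
    · exact Or.inr (Or.inr (Or.inl h))⟩
  loopless := ⟨fun x h => by
    have hne : x ≠ mir j pl x := fun h => by
      have := congrFun h j
      rw [mir_j] at this
      omega
    rcases h with ⟨_, _, h3⟩ | ⟨_, _, h3⟩ | ⟨_, h⟩ | ⟨_, h⟩
    · exact A.loopless.irrefl _ h3
    · exact B.loopless.irrefl _ h3
    · exact hne h
    · exact hne h⟩

/-- Conditions on the crossing set. -/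
structure Good (j : Fin 3) (pl : ℤ) (A : FG) (Y : Finset P) : Prop where
  plane : ∀ y ∈ Y, y j = pl - 1
  mem : ∀ y ∈ Y, y ∈ A.V
  cross : ∀ x, x j = pl - 1 → A.G.Adj x (x + e j) → x ∈ Y

lemma gl_left {A B : FG} {Y : Finset P} (hA : Good j pl A Y) {x y : P} (hx : x j < pl) :
    (gl j pl A.G B.G Y).Adj x y ↔ (y j < pl ∧ A.G.Adj x y) ∨ (x ∈ Y ∧ y = mir j pl x) := by
  constructor
  · rintro (⟨_, h2, h3⟩ | ⟨h1, _, _⟩ | h | ⟨h1, h2⟩)
    · exact Or.inl ⟨h2, h3⟩
    · omega
    · exact Or.inr h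
    · exfalso
      have := hA.plane y h1
      have h3 := congrFun h2 j
      rw [mir_j] at h3
      omega
  · rintro (⟨h1, h2⟩ | h)
    · exact Or.inl ⟨hx, h1, h2⟩
    · exact Or.inr (Or.inr (Or.inl h))

lemma gl_swap {A B : SimpleGraph P} {Y : Finset P} {x y : P} :
    (gl j pl A B Y).Adj (mir j pl x) (mir j pl y) ↔ (gl j pl B A Y).Adj x y := by
  show (_ ∨ _ ∨ _ ∨ _) ↔ (_ ∨ _ ∨ _ ∨ _)
  rw [mir_left, mir_left, mir_right, mir_right, mir_mir, mir_mir]
  constructor
  · rintro (⟨h1, h2, h3⟩ | ⟨h1, h2, h3⟩ | ⟨h1, h2⟩ | ⟨h1, h2⟩)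
    · exact Or.inr (Or.inl ⟨h1, h2, h3⟩)
    · exact Or.inl ⟨h1, h2, h3⟩
    · right; right; right
      subst h2
      exact ⟨by rwa [mir_mir] at h1, rfl⟩
    · right; right; left
      subst h2
      exact ⟨by rwa [mir_mir] at h1, rfl⟩
  · rintro (⟨h1, h2, h3⟩ | ⟨h1, h2, h3⟩ | ⟨h1, h2⟩ | ⟨h1, h2⟩)
    · exact Or.inr (Or.inl ⟨h1, h2, h3⟩)
    · exact Or.inl ⟨h1, h2, h3⟩
    · right; right; right
      subst h2
      exact ⟨by rwa [mir_mir], rfl⟩
    · right; right; left
      subst h2
      exact ⟨by rwa [mir_mir], rfl⟩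

/-- Glued graph as a finite graph of the half space. -/
def glF (j : Fin 3) (hj : j ≠ 0) (pl : ℤ) (A B : FG) (Y : Finset P) (hA : Good j pl A Y)
    (hB : Good j pl B Y) : FG where
  G := gl j pl A.G B.G Y
  le := by
    rintro x y (⟨_, _, h⟩ | ⟨_, _, h⟩ | ⟨h, rfl⟩ | ⟨h, rfl⟩)
    · exact A.le h
    · have := mir_adj (j := j) (pl := pl) (B.le h)
      rwa [mir_mir, mir_mir] at this
    · rw [mir_plane (hA.plane _ h)]; exact adj_e _ _
    · rw [mir_plane (hA.plane _ h)]; exact (adj_e _ _).symm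
  fin := by
    refine ((A.fin.union (B.fin.preimage (f := mir j pl) (mir_inj.injOn)))).subset ?_
    rintro x ⟨y, hy⟩
    rcases hy with ⟨_, _, h⟩ | ⟨_, _, h⟩ | ⟨h, _⟩ | ⟨h, rfl⟩
    · exact Or.inl ⟨y, h⟩
    · exact Or.inr ⟨_, h⟩
    · exact Or.inl (FG.mem_V.1 (hA.mem _ h))
    · right
      have := FG.mem_V.1 (hB.mem _ h)
      show mir j pl (mir j pl y) ∈ B.G.support
      rw [mir_mir]; exact this
  half := by
    rintro x ⟨y, hy⟩
    rcases hy with ⟨_, _, h⟩ | ⟨_, _, h⟩ | ⟨h, _⟩ | ⟨h, rfl⟩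
    · exact A.half x ⟨y, h⟩
    · have := B.half (mir j pl x) ⟨_, h⟩
      rwa [mir_ne _ hj.symm] at this
    · exact A.nonneg (hA.mem _ h)
    · rw [mir_ne _ hj.symm]
      exact B.nonneg (hB.mem _ h)

lemma glF_G {A B : FG} {Y : Finset P} (hA : Good j pl A Y) (hB : Good j pl B Y) :
    (glF j hj pl A B Y hA hB).G = gl j pl A.G B.G Y := rfl

lemma mirF_glF {A B : FG} {Y : Finset P} (hA : Good j pl A Y) (hB : Good j pl B Y) :
    mirF j hj pl (glF j hj pl A B Y hA hB) = glF j hj pl B A Y hB hA := by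
  apply FG.ext'
  intro x y
  rw [mirF_adj, glF_G, glF_G]
  exact gl_swap

lemma glF_V_left {A B : FG} {Y : Finset P} (hA : Good j pl A Y) (hB : Good j pl B Y) {x : P}
    (hx : x j < pl) : x ∈ (glF j hj pl A B Y hA hB).V ↔ x ∈ A.V := by
  constructor
  · intro h
    obtain ⟨y, hy⟩ := FG.mem_V.1 h
    rcases (gl_left hA hx).1 hy with ⟨_, h⟩ | ⟨h, _⟩
    · exact FG.mem_V_left h
    · exact hA.mem _ h
  · intro h
    obtain ⟨y, hy⟩ := FG.mem_V.1 h
    rcases lt_or_ge (y j) pl with hyl | hyr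
    · exact FG.mem_V.2 ⟨y, (gl_left hA hx).2 (Or.inl ⟨hyl, hy⟩)⟩
    · obtain ⟨h1, h2, h3⟩ := cross_eq (A.le hy) hx hyr
      rw [h2] at hy
      exact FG.mem_V.2 ⟨mir j pl x, (gl_left hA hx).2 (Or.inr ⟨hA.cross x h1 hy, rfl⟩)⟩

/-- Adjacency at a left point where the crossing edges agree. -/
lemma glF_adj_left {A B : FG} {Y : Finset P} (hA : Good j pl A Y) (hB : Good j pl B Y) {x : P}
    (hx : x j < pl) (hY : x ∈ Y → A.G.Adj x (x + e j)) {y : P} :
    (glF j hj pl A B Y hA hB).G.Adj x y ↔ A.G.Adj x y := by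
  rw [glF_G, gl_left hA hx]
  constructor
  · rintro (⟨_, h⟩ | ⟨h, rfl⟩)
    · exact h
    · rw [mir_plane (hA.plane _ h)]; exact hY h
  · intro hy
    rcases lt_or_ge (y j) pl with hyl | hyr
    · exact Or.inl ⟨hyl, hy⟩
    · obtain ⟨h1, h2, h3⟩ := cross_eq (A.le hy) hx hyr
      rw [h2] at hy
      exact Or.inr ⟨hA.cross x h1 hy, h3⟩

lemma glF_deg_left {A B : FG} {Y : Finset P} (hA : Good j pl A Y) (hB : Good j pl B Y) {x : P}
    (hx : x j < pl) (hY : x ∈ Y → A.G.Adj x (x + e j)) :
    deg (glF j hj pl A B Y hA hB).G x = deg A.G x := by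
  unfold deg
  congr 1
  apply Finset.filter_congr
  intro d _
  rw [glF_adj_left hA hB hx hY]

lemma glF_deg_T {A B : FG} {Y : Finset P} (hA : Good j pl A Y) (hB : Good j pl B Y) {x : P}
    (hx : x ∈ Y) (hY : ¬ A.G.Adj x (x + e j)) :
    deg (glF j hj pl A B Y hA hB).G x = deg A.G x + 1 := by
  have hpl := hA.plane x hx
  have hxl : x j < pl := by omega
  unfold deg
  rw [← Finset.card_insert_of_notMem (a := ((j, true) : Dir))
    (s := Finset.univ.filter fun d : Dir => A.G.Adj x (x + st d))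
    (by simpa [st_true] using hY)]
  congr 1
  ext d
  simp only [Finset.mem_filter, Finset.mem_univ, true_and, Finset.mem_insert]
  rw [glF_G, gl_left hA hxl]
  constructor
  · rintro (⟨_, h⟩ | ⟨_, h⟩)
    · exact Or.inr h
    · left
      rw [mir_plane hpl, ← st_true] at h
      exact st_injective (add_left_cancel h)
  · rintro (h | h)
    · right
      refine ⟨hx, ?_⟩
      rw [h, st_true, mir_plane hpl]
    · rcases lt_or_ge ((x + st d) j) pl with hyl | hyr
      · exact Or.inl ⟨hyl, h⟩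
      · exfalso
        obtain ⟨_, h2, _⟩ := cross_eq (A.le h) hxl hyr
        rw [h2] at h
        exact hY h

lemma glF_deg_right {A B : FG} {Y : Finset P} (hA : Good j pl A Y) (hB : Good j pl B Y) (x : P) :
    deg (glF j hj pl A B Y hA hB).G x = deg (glF j hj pl B A Y hB hA).G (mir j pl x) := by
  rw [← mirF_glF hA hB, mirF_deg, mir_mir]

lemma glF_V_right {A B : FG} {Y : Finset P} (hA : Good j pl A Y) (hB : Good j pl B Y) {x : P}
    (hx : pl ≤ x j) : x ∈ (glF j hj pl A B Y hA hB).V ↔ mir j pl x ∈ B.V := by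
  rw [← glF_V_left (hj := hj) hB hA (mir_left.2 hx), ← mirF_glF hA hB, mirF_V, mir_mir]

/-- Energy of the left half. -/
noncomputable def WL (j : Fin 3) (pl : ℤ) (par : Par) (F : FG) : ℝ :=
  ∑ x ∈ F.V.filter (fun x => x j < pl), phi par F x

lemma WR_eq (par : Par) (F : FG) :
    ∑ x ∈ F.V.filter (fun x => ¬ x j < pl), phi par F x = WL j pl par (mirF j hj pl F) := by
  unfold WL
  apply Finset.sum_bij (fun x _ => mir j pl x)
  · intro x hx
    rw [Finset.mem_filter] at hx ⊢
    rw [mirF_V, mir_mir, mir_left]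
    exact ⟨hx.1, by omega⟩
  · intro a _ b _ h; exact mir_inj h
  · intro x hx
    rw [Finset.mem_filter] at hx
    refine ⟨mir j pl x, ?_, mir_mir x⟩
    rw [Finset.mem_filter]
    rw [mirF_V] at hx
    refine ⟨hx.1, ?_⟩
    rw [mir_left]
    omega
  · intro x _
    rw [mirF_phi, mir_mir]

lemma W_split (par : Par) (F : FG) :
    W par F = WL j pl par F + WL j pl par (mirF j hj pl F) := by
  rw [← WR_eq]
  unfold W WL
  exact (Finset.sum_filter_add_sum_filter_not _ _ _).symm

/-- Number of left vertices next to the plane. -/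
noncomputable def np (j : Fin 3) (pl : ℤ) (F : FG) : ℕ :=
  (F.V.filter fun x => x j = pl - 1).card

lemma WL_glF (par : Par) {A B : FG} {Y : Finset P} (hA : Good j pl A Y) (hB : Good j pl B Y) :
    |WL j pl par A - WL j pl par (glF j hj pl A B Y hA hB)| ≤ 2 * C0 par * np j pl A := by
  set D := glF j hj pl A B Y hA hB with hD
  have key : ∀ F : FG, WL j pl par F
      = ∑ x ∈ F.V.filter (fun x => x j < pl - 1), phi par F x
        + ∑ x ∈ F.V.filter (fun x => x j = pl - 1), phi par F x := by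
    intro F
    unfold WL
    rw [← Finset.sum_union]
    · apply Finset.sum_congr _ (fun _ _ => rfl)
      ext x
      simp only [Finset.mem_filter, Finset.mem_union]
      constructor
      · rintro ⟨h1, h2⟩
        by_cases h : x j = pl - 1
        · exact Or.inr ⟨h1, h⟩
        · exact Or.inl ⟨h1, by omega⟩
      · rintro (⟨h1, h2⟩ | ⟨h1, h2⟩)
        · exact ⟨h1, by omega⟩
        · exact ⟨h1, by omega⟩
    · rw [Finset.disjoint_filter]
      intro x _ h1 h2
      omega
  have hset1 : D.V.filter (fun x => x j < pl - 1) = A.V.filter (fun x => x j < pl - 1) := by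
    ext x
    simp only [Finset.mem_filter]
    constructor
    · rintro ⟨h1, h2⟩
      exact ⟨(glF_V_left hA hB (by omega)).1 h1, h2⟩
    · rintro ⟨h1, h2⟩
      exact ⟨(glF_V_left hA hB (by omega)).2 h1, h2⟩
  have hset2 : D.V.filter (fun x => x j = pl - 1) = A.V.filter (fun x => x j = pl - 1) := by
    ext x
    simp only [Finset.mem_filter]
    constructor
    · rintro ⟨h1, h2⟩
      exact ⟨(glF_V_left hA hB (by omega)).1 h1, h2⟩
    · rintro ⟨h1, h2⟩
      exact ⟨(glF_V_left hA hB (by omega)).2 h1, h2⟩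
  have hsame : ∑ x ∈ A.V.filter (fun x => x j < pl - 1), phi par A x
      = ∑ x ∈ D.V.filter (fun x => x j < pl - 1), phi par D x := by
    rw [hset1]
    apply Finset.sum_congr rfl
    intro x hx
    rw [Finset.mem_filter] at hx
    have hnb : ∀ d, (x + st d) j < pl := by
      rintro ⟨i, b⟩
      rw [Pi.add_apply]
      have : st (i, b) j ≤ 1 := by
        unfold st
        split_ifs <;> simp
      omega
    apply phi_congr' par Iff.rfl
    · intro d
      exact (glF_V_left hA hB (hnb d)).symm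
    · intro d
      refine (glF_adj_left hA hB (by omega) ?_).symm
      intro hY
      have := hA.plane x hY
      omega
  have h1 := abs_sum_phi_le par A (A.V.filter (fun x => x j = pl - 1))
  have h2 := abs_sum_phi_le par D (D.V.filter (fun x => x j = pl - 1))
  rw [hset2] at h2
  have h3 : ((A.V.filter (fun x => x j = pl - 1)).card : ℝ) = np j pl A := by
    unfold np
    rfl
  rw [h3] at h1 h2
  rw [key A, key D, hsame, hset2]
  rw [abs_le] at h1 h2 ⊢
  constructor <;> linarith [h1.1, h1.2, h2.1, h2.2]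

lemma reach_left {A B : FG} {Y ρ : Finset P} (hA : Good j pl A Y) (hB : Good j pl B Y) {r x : P}
    (hr : r ∈ ρ) (h : A.G.Reachable r x) (hx : x j < pl) :
    ∃ r' ∈ ρ.filter (fun r => r j < pl) ∪ Y,
      (glF j hj pl A B Y hA hB).G.Reachable r' x := by
  rw [SimpleGraph.reachable_iff_reflTransGen] at h
  induction h with
  | refl =>
    exact ⟨r, Finset.mem_union_left _ (Finset.mem_filter.2 ⟨hr, hx⟩), SimpleGraph.Reachable.refl _⟩
  | @tail y z _ hyz ih =>
    rcases lt_or_ge (y j) pl with hyl | hyr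
    · obtain ⟨r', h1, h2⟩ := ih hyl
      refine ⟨r', h1, h2.trans (SimpleGraph.Adj.reachable ?_)⟩
      exact (gl_left hA hyl).2 (Or.inl ⟨hx, hyz⟩)
    · obtain ⟨h1, h2, h3⟩ := cross_eq (A.le hyz.symm) hx hyr
      have h4 : A.G.Adj z (z + e j) := by rw [← h2]; exact hyz.symm
      exact ⟨z, Finset.mem_union_right _ (hA.cross z h1 h4), SimpleGraph.Reachable.refl _⟩

lemma glF_rooted {A B : FG} {Y : Finset P} (hA : Good j pl A Y) (hB : Good j pl B Y) {c c₁ : ℕ}
    (rA : Rooted c A.G) (rB : Rooted c B.G) (hY : Y.card ≤ c₁) :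
    Rooted (2 * (c + c₁)) (glF j hj pl A B Y hA hB).G := by
  obtain ⟨ρ, hρ, hρ'⟩ := rA
  obtain ⟨τ, hτ, hτ'⟩ := rB
  refine ⟨(ρ.filter (fun r => r j < pl) ∪ Y) ∪
    (τ.filter (fun r => r j < pl) ∪ Y).image (mir j pl), ?_, ?_⟩
  · refine (Finset.card_union_le _ _).trans ?_
    have h1 := Finset.card_union_le (ρ.filter (fun r => r j < pl)) Y
    have h2 := Finset.card_union_le (τ.filter (fun r => r j < pl)) Y
    have h3 := Finset.card_filter_le ρ (fun r => r j < pl)
    have h4 := Finset.card_filter_le τ (fun r => r j < pl)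
    have h5 : ((τ.filter (fun r => r j < pl) ∪ Y).image (mir j pl)).card
      ≤ (τ.filter (fun r => r j < pl) ∪ Y).card := Finset.card_image_le
    omega
  · intro x hx
    have hxV : x ∈ (glF j hj pl A B Y hA hB).V := by
      obtain ⟨y, hy⟩ := hx
      exact FG.mem_V.2 ⟨y, hy⟩
    rcases lt_or_ge (x j) pl with hl | hr
    · have hxA : x ∈ A.G.support := by
        have := (glF_V_left hA hB hl).1 hxV
        obtain ⟨y, hy⟩ := FG.mem_V.1 this
        exact ⟨y, hy⟩
      obtain ⟨r, hr1, hr2⟩ := hρ' x hxA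
      obtain ⟨r', h1, h2⟩ := reach_left (hj := hj) hA hB hr1 hr2 hl
      exact ⟨r', Finset.mem_union_left _ h1, h2⟩
    · have hxB : mir j pl x ∈ B.G.support := by
        have := (glF_V_right hA hB hr).1 hxV
        obtain ⟨y, hy⟩ := FG.mem_V.1 this
        exact ⟨y, hy⟩
      obtain ⟨r, hr1, hr2⟩ := hτ' _ hxB
      obtain ⟨r', h1, h2⟩ := reach_left (hj := hj) hB hA hr1 hr2 (mir_left.2 hr)
      refine ⟨mir j pl r', Finset.mem_union_right _ (Finset.mem_image_of_mem _ h1), ?_⟩
      let f : (glF j hj pl B A Y hB hA).G →g (glF j hj pl A B Y hA hB).G :=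
        ⟨mir j pl, fun {a b} hab => by
          rw [glF_G]
          exact gl_swap.2 hab⟩
      have h3 := h2.map f
      have h4 : f (mir j pl x) = x := mir_mir x
      rw [h4] at h3
      exact h3

lemma mirF_rooted {F : FG} {c : ℕ} (h : Rooted c F.G) : Rooted c (mirF j hj pl F).G := by
  obtain ⟨ρ, hρ, hρ'⟩ := h
  refine ⟨ρ.image (mir j pl), Finset.card_image_le.trans hρ, ?_⟩
  intro x hx
  have hx' : mir j pl x ∈ F.G.support := by
    obtain ⟨y, hy⟩ := hx
    exact ⟨mir j pl y, hy⟩
  obtain ⟨r, h1, h2⟩ := hρ' _ hx'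
  refine ⟨mir j pl r, Finset.mem_image_of_mem _ h1, ?_⟩
  let f : F.G →g (mirF j hj pl F).G :=
    ⟨mir j pl, fun {a b} hab => by
      rw [mirF_adj, mir_mir, mir_mir]; exact hab⟩
  have h3 := h2.map f
  have h4 : f (mir j pl x) = x := mir_mir x
  rw [h4] at h3
  exact h3

lemma glF_mem {A B : FG} {Y : Finset P} (hA : Good j pl A Y) (hB : Good j pl B Y) {c c₁ N : ℕ}
    {O : Finset P} (rA : Rooted c A.G) (rB : Rooted c B.G) (hY : Y.card ≤ c₁)
    (cA : A.V.card ≤ N) (cB : B.V.card ≤ N)
    (bA : ∀ x ∈ A.V, InBox (3 * N + 1) x) (bB : ∀ x ∈ B.V, InBox (3 * N + 1) (mir j pl x))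
    (hO : ∀ x ∈ O, deg (glF j hj pl A B Y hA hB).G x = 1)
    (hO' : ∀ x, x ∉ O → deg (glF j hj pl A B Y hA hB).G x = 0 ∨
      deg (glF j hj pl A B Y hA hB).G x = 2) :
    glF j hj pl A B Y hA hB ∈ Cls (2 * (c + c₁)) (3 * N + 1) O := by
  refine ⟨?_, ?_, hO, hO', glF_rooted hA hB rA rB hY⟩
  · have hsub : (glF j hj pl A B Y hA hB).V ⊆ A.V ∪ B.V.image (mir j pl) := by
      intro x hx
      rcases lt_or_ge (x j) pl with hl | hr
      · exact Finset.mem_union_left _ ((glF_V_left hA hB hl).1 hx)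
      · refine Finset.mem_union_right _ (Finset.mem_image.2 ⟨mir j pl x, ?_, mir_mir x⟩)
        exact (glF_V_right hA hB hr).1 hx
    have h1 := Finset.card_le_card hsub
    have h2 := Finset.card_union_le A.V (B.V.image (mir j pl))
    have h3 : (B.V.image (mir j pl)).card ≤ B.V.card := Finset.card_image_le
    omega
  · intro x hx
    rcases lt_or_ge (x j) pl with hl | hr
    · exact bA x ((glF_V_left hA hB hl).1 hx)
    · have := bB _ ((glF_V_right hA hB hr).1 hx)
      rwa [mir_mir] at this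

lemma gl_both_left {A B : FG} {Y : Finset P} (hA : Good j pl A Y) {x y : P} (hx : x j < pl)
    (hy : y j < pl) : (gl j pl A.G B.G Y).Adj x y ↔ A.G.Adj x y := by
  rw [gl_left hA hx]
  constructor
  · rintro (⟨_, h⟩ | ⟨_, h⟩)
    · exact h
    · exfalso
      rw [h, mir_left] at hy
      omega
  · intro h
    exact Or.inl ⟨hy, h⟩

lemma determined {A A' B B' : FG} {Y X : Finset P} (hA : Good j pl A Y) (hA' : Good j pl A' Y)
    (hmA : Good j pl (mirF j hj pl A) X) (hmA' : Good j pl (mirF j hj pl A') X)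
    (h1 : gl j pl A.G B.G Y = gl j pl A'.G B'.G Y)
    (h2 : gl j pl (mirF j hj pl A).G (mirF j hj pl B).G X
      = gl j pl (mirF j hj pl A').G (mirF j hj pl B').G X)
    (hc : crossing A j pl = crossing A' j pl) : A = A' := by
  have hcr : ∀ F : FG, ∀ x y : P, x j < pl → pl ≤ y j →
      (F.G.Adj x y ↔ x ∈ crossing F j pl ∧ y = x + e j) := by
    intro F x y hx hy
    constructor
    · intro h
      obtain ⟨g1, g2, _⟩ := cross_eq (F.le h) hx hy
      refine ⟨?_, g2⟩
      rw [crossing, Finset.mem_filter]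
      exact ⟨FG.mem_V_left h, g1, by rw [← g2]; exact h⟩
    · rintro ⟨h, rfl⟩
      rw [crossing, Finset.mem_filter] at h
      exact h.2.2
  apply FG.ext'
  intro x y
  rcases lt_or_ge (x j) pl with hx | hx <;> rcases lt_or_ge (y j) pl with hy | hy
  · rw [← gl_both_left (B := B) hA hx hy, h1, gl_both_left hA' hx hy]
  · rw [hcr A x y hx hy, hcr A' x y hx hy, hc]
  · rw [SimpleGraph.adj_comm, SimpleGraph.adj_comm A'.G, hcr A y x hy hx, hcr A' y x hy hx, hc]
  · have g1 := gl_both_left (B := mirF j hj pl B) hmA (mir_left.2 hx) (mir_left.2 hy)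
    have g2 := gl_both_left (B := mirF j hj pl B') hmA' (mir_left.2 hx) (mir_left.2 hy)
    rw [mirF_adj, mir_mir, mir_mir] at g1 g2
    rw [← g1, h2, g2]

lemma np_add_np (F : FG) : np j pl F + np j pl (mirF j hj pl F)
    ≤ (F.V.filter fun x => x j = pl - 1 ∨ x j = pl).card := by
  have h1 : np j pl (mirF j hj pl F) = (F.V.filter fun x => x j = pl).card := by
    unfold np
    apply Finset.card_bij (fun x _ => mir j pl x)
    · intro x hx
      rw [Finset.mem_filter, mirF_V] at hx
      rw [Finset.mem_filter, mir_j]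
      exact ⟨hx.1, by omega⟩
    · intro a _ b _ h; exact mir_inj h
    · intro x hx
      rw [Finset.mem_filter] at hx
      refine ⟨mir j pl x, ?_, mir_mir x⟩
      rw [Finset.mem_filter, mirF_V, mir_mir, mir_j]
      exact ⟨hx.1, by omega⟩
  rw [h1]
  unfold np
  rw [← Finset.card_union_of_disjoint]
  · apply Finset.card_le_card
    intro x hx
    rw [Finset.mem_union, Finset.mem_filter, Finset.mem_filter] at hx
    rw [Finset.mem_filter]
    rcases hx with h | h
    · exact ⟨h.1, Or.inl h.2⟩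
    · exact ⟨h.1, Or.inr h.2⟩
  · rw [Finset.disjoint_filter]
    intro x _ h1 h2
    omega

end Double

open Double in
theorem double_step (par : Par) (j : Fin 3) (hj : j ≠ 0) (pl : ℤ) (T b : P)
    (hT : T j = pl - 1) (hTb : T ≠ b) (c N c₁ : ℕ) (X : Finset P) :
    (Om par {F | F ∈ Cls c N {T, b} ∧ ¬ F.G.Adj T (T + e j) ∧ crossing F j pl = X ∧
      (F.V.filter fun x => x j = pl - 1 ∨ x j = pl).card ≤ c₁}) ^ 2 ≤
    ENNReal.ofReal (Real.exp (8 * C0 par * c₁)) *
      (Om par (Cls (2 * (c + c₁)) (3 * N + 1) (if b j < pl then {b, mir j pl b} else ∅)) *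
       Om par (Cls (2 * (c + c₁)) (3 * N + 1) (if b j < pl then ∅ else {b, mir j pl b}))) := by
  set S : Set FG := {F | F ∈ Cls c N {T, b} ∧ ¬ F.G.Adj T (T + e j) ∧ crossing F j pl = X ∧
      (F.V.filter fun x => x j = pl - 1 ∨ x j = pl).card ≤ c₁} with hS
  set CL := Cls (2 * (c + c₁)) (3 * N + 1) (if b j < pl then {b, mir j pl b} else ∅) with hCL
  set CR := Cls (2 * (c + c₁)) (3 * N + 1) (if b j < pl then ∅ else {b, mir j pl b}) with hCR
  -- elementary facts on the members of `S`
  have hcrossX : ∀ F ∈ S, ∀ x, x ∈ X ↔ x j = pl - 1 ∧ F.G.Adj x (x + e j) := by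
    intro F hF x
    rw [← hF.2.2.1, crossing, Finset.mem_filter]
    constructor
    · rintro ⟨_, h⟩; exact h
    · intro h; exact ⟨FG.mem_V_left h.2, h⟩
  have hTV : ∀ F ∈ S, T ∈ F.V := by
    intro F hF
    have h1 : deg F.G T = 1 := hF.1.2.2.1 T (by simp)
    by_contra hc
    have h2 : deg F.G T = 0 := (deg_eq_zero F.le).2 (fun y hy => hc (FG.mem_V_left hy))
    omega
  have hG1 : ∀ F ∈ S, Good j pl F (insert T X) := by
    intro F hF
    refine ⟨?_, ?_, ?_⟩
    · intro y hy
      rcases Finset.mem_insert.1 hy with h | h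
      · rw [h]; exact hT
      · exact ((hcrossX F hF y).1 h).1
    · intro y hy
      rcases Finset.mem_insert.1 hy with h | h
      · rw [h]; exact hTV F hF
      · exact FG.mem_V_left ((hcrossX F hF y).1 h).2
    · intro x hx1 hx2
      exact Finset.mem_insert_of_mem ((hcrossX F hF x).2 ⟨hx1, hx2⟩)
  have hG2 : ∀ F ∈ S, Good j pl (mirF j hj pl F) X := by
    intro F hF
    refine ⟨?_, ?_, ?_⟩
    · intro y hy
      exact ((hcrossX F hF y).1 hy).1
    · intro y hy
      obtain ⟨h1, h2⟩ := (hcrossX F hF y).1 hy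
      rw [mirF_V, mir_plane h1]
      exact FG.mem_V_right h2
    · intro x hx1 hx2
      rw [mirF_adj, mir_plane hx1, mir_plane' hx1] at hx2
      exact (hcrossX F hF x).2 ⟨hx1, hx2.symm⟩
  have hYc : ∀ F ∈ S, (insert T X).card ≤ c₁ := by
    intro F hF
    refine le_trans (Finset.card_le_card ?_) hF.2.2.2
    intro x hx
    rw [Finset.mem_filter]
    exact ⟨(hG1 F hF).mem x hx, Or.inl ((hG1 F hF).plane x hx)⟩
  have hXc : ∀ F ∈ S, X.card ≤ c₁ := fun F hF =>
    (Finset.card_le_card (Finset.subset_insert T X)).trans (hYc F hF)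
  have hbox : ∀ F ∈ S, ∀ x ∈ F.V, InBox (3 * N + 1) x ∧ InBox (3 * N + 1) (mir j pl x) := by
    intro F hF x hx
    have h1 := hF.1.2.1 x hx
    have h2 := hF.1.2.1 T (hTV F hF) j
    rw [hT] at h2
    constructor
    · intro i
      have := h1 i
      push_cast
      linarith [abs_nonneg (x i)]
    · intro i
      by_cases hi : i = j
      · subst hi
        have h3 := h1 i
        rw [mir_j]
        rw [abs_le] at h2 h3 ⊢
        push_cast
        constructor <;> omega
      · have := h1 i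
        rw [mir_ne _ hi]
        push_cast
        linarith [abs_nonneg (x i)]
  have hboxm : ∀ F ∈ S, ∀ x ∈ (mirF j hj pl F).V,
      InBox (3 * N + 1) x ∧ InBox (3 * N + 1) (mir j pl x) := by
    intro F hF x hx
    rw [mirF_V] at hx
    have := hbox F hF _ hx
    rw [mir_mir] at this
    exact ⟨this.2, this.1⟩
  have hcardm : ∀ F ∈ S, (mirF j hj pl F).V.card ≤ N := by
    intro F hF
    refine le_trans ?_ hF.1.1
    apply Finset.card_le_card_of_injOn (mir j pl)
    · intro x hx
      have : x ∈ (mirF j hj pl F).V := hx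
      rw [mirF_V] at this
      exact this
    · exact mir_inj.injOn
  -- degrees
  have hdegF : ∀ F ∈ S, ∀ x, x ≠ T → (x = b → deg F.G x = 1) ∧
      (x ≠ b → deg F.G x = 0 ∨ deg F.G x = 2) := by
    intro F hF x hx
    constructor
    · rintro rfl
      exact hF.1.2.2.1 x (by simp)
    · intro h
      exact hF.1.2.2.2.1 x (by simp [hx, h])
  have hdL : ∀ F (hF : F ∈ S) F' (hF' : F' ∈ S) x, x j < pl →
      (x = b → deg (glF j hj pl F F' (insert T X) (hG1 F hF) (hG1 F' hF')).G x = 1) ∧
      (x ≠ b → deg (glF j hj pl F F' (insert T X) (hG1 F hF) (hG1 F' hF')).G x = 0 ∨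
        deg (glF j hj pl F F' (insert T X) (hG1 F hF) (hG1 F' hF')).G x = 2) := by
    intro F hF F' hF' x hx
    by_cases hxT : x = T
    · subst hxT
      refine ⟨fun h => absurd h hTb, fun _ => Or.inr ?_⟩
      rw [glF_deg_T (hG1 F hF) (hG1 F' hF') (Finset.mem_insert_self _ _) hF.2.1]
      have : deg F.G x = 1 := hF.1.2.2.1 x (by simp)
      omega
    · rw [glF_deg_left (hG1 F hF) (hG1 F' hF') hx (by
        intro h
        rcases Finset.mem_insert.1 h with h | h
        · exact absurd h hxT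
        · exact ((hcrossX F hF x).1 h).2)]
      exact hdegF F hF x hxT
  have hdR : ∀ F (hF : F ∈ S) F' (hF' : F' ∈ S) x, x j < pl →
      (mir j pl x = b → deg (glF j hj pl (mirF j hj pl F) (mirF j hj pl F') X
        (hG2 F hF) (hG2 F' hF')).G x = 1) ∧
      (mir j pl x ≠ b → deg (glF j hj pl (mirF j hj pl F) (mirF j hj pl F') X
        (hG2 F hF) (hG2 F' hF')).G x = 0 ∨
        deg (glF j hj pl (mirF j hj pl F) (mirF j hj pl F') X
          (hG2 F hF) (hG2 F' hF')).G x = 2) := by
    intro F hF F' hF' x hx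
    rw [glF_deg_left (hG2 F hF) (hG2 F' hF') hx (by
      intro h
      obtain ⟨h1, h2⟩ := (hcrossX F hF x).1 h
      rw [mirF_adj, mir_plane h1, mir_plane' h1]
      exact h2.symm), mirF_deg]
    apply hdegF F hF
    intro h
    have := congrFun h j
    rw [mir_j] at this
    omega
  -- the two members
  have hmemL : ∀ F (hF : F ∈ S) F' (hF' : F' ∈ S),
      glF j hj pl F F' (insert T X) (hG1 F hF) (hG1 F' hF') ∈ CL := by
    intro F hF F' hF'
    rw [hCL]
    apply glF_mem (hG1 F hF) (hG1 F' hF') hF.1.2.2.2.2 hF'.1.2.2.2.2 (hYc F hF) hF.1.1 hF'.1.1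
      (fun x hx => (hbox F hF x hx).1) (fun x hx => (hbox F' hF' x hx).2)
    · intro x hx
      split_ifs at hx with hb
      · rcases Finset.mem_insert.1 hx with h | h
        · subst h
          exact (hdL F hF F' hF' x hb).1 rfl
        · rw [Finset.mem_singleton] at h
          subst h
          rw [glF_deg_right, mir_mir]
          exact (hdL F' hF' F hF b hb).1 rfl
      · simp at hx
    · intro x hx
      rcases lt_or_ge (x j) pl with hl | hr
      · apply (hdL F hF F' hF' x hl).2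
        rintro rfl
        rw [if_pos hl] at hx
        simp at hx
      · rw [glF_deg_right]
        apply (hdL F' hF' F hF _ (mir_left.2 hr)).2
        intro h
        rw [← h] at hx
        rw [if_pos (mir_left.2 hr), mir_mir] at hx
        simp at hx
  have hmemR : ∀ F (hF : F ∈ S) F' (hF' : F' ∈ S),
      glF j hj pl (mirF j hj pl F) (mirF j hj pl F') X (hG2 F hF) (hG2 F' hF') ∈ CR := by
    intro F hF F' hF'
    rw [hCR]
    apply glF_mem (hG2 F hF) (hG2 F' hF') (mirF_rooted hF.1.2.2.2.2) (mirF_rooted hF'.1.2.2.2.2)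
      (hXc F hF) (hcardm F hF) (hcardm F' hF')
      (fun x hx => (hboxm F hF x hx).1) (fun x hx => (hboxm F' hF' x hx).2)
    · intro x hx
      split_ifs at hx with hb
      · simp at hx
      · have hbr : pl ≤ b j := by omega
        rcases Finset.mem_insert.1 hx with h | h
        · subst h
          rw [glF_deg_right]
          exact (hdR F' hF' F hF _ (mir_left.2 hbr)).1 (mir_mir x)
        · rw [Finset.mem_singleton] at h
          subst h
          exact (hdR F hF F' hF' _ (mir_left.2 hbr)).1 (mir_mir b)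
    · intro x hx
      rcases lt_or_ge (x j) pl with hl | hr
      · apply (hdR F hF F' hF' x hl).2
        intro h
        have hbr : ¬ b j < pl := by
          rw [← h, mir_left]; omega
        rw [if_neg hbr] at hx
        rw [← h, mir_mir] at hx
        simp at hx
      · rw [glF_deg_right]
        apply (hdR F' hF' F hF _ (mir_left.2 hr)).2
        rw [mir_mir]
        intro h
        have hbr : ¬ b j < pl := by
          rw [← h]; omega
        rw [if_neg hbr, h] at hx
        simp at hx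
  -- energies
  have hC := C0_nonneg par
  have hW : ∀ F (hF : F ∈ S) F' (hF' : F' ∈ S),
      W par F + W par F' ≤ 8 * C0 par * c₁ +
        (W par (glF j hj pl F F' (insert T X) (hG1 F hF) (hG1 F' hF')) +
         W par (glF j hj pl (mirF j hj pl F) (mirF j hj pl F') X (hG2 F hF) (hG2 F' hF'))) := by
    intro F hF F' hF'
    rw [W_split (j := j) (hj := hj) (pl := pl) par F, W_split (j := j) (hj := hj) (pl := pl) par F',
      W_split (j := j) (hj := hj) (pl := pl) par (glF j hj pl F F' _ _ _),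
      W_split (j := j) (hj := hj) (pl := pl) par (glF j hj pl (mirF j hj pl F) _ _ _ _),
      mirF_glF, mirF_glF]
    have e1 := WL_glF par (hj := hj) (hG1 F hF) (hG1 F' hF')
    have e2 := WL_glF par (hj := hj) (hG1 F' hF') (hG1 F hF)
    have e3 := WL_glF par (hj := hj) (hG2 F hF) (hG2 F' hF')
    have e4 := WL_glF par (hj := hj) (hG2 F' hF') (hG2 F hF)
    have n1 : ((np j pl F + np j pl (mirF j hj pl F) : ℕ) : ℝ) ≤ c₁ := by
      exact_mod_cast (np_add_np (hj := hj) F).trans hF.2.2.2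
    have n2 : ((np j pl F' + np j pl (mirF j hj pl F') : ℕ) : ℝ) ≤ c₁ := by
      exact_mod_cast (np_add_np (hj := hj) F').trans hF'.2.2.2
    have m1 := mul_le_mul_of_nonneg_left n1 hC
    have m2 := mul_le_mul_of_nonneg_left n2 hC
    push_cast at m1 m2
    have m3 : 0 ≤ C0 par * c₁ := by positivity
    rw [abs_le] at e1 e2 e3 e4
    linarith [e1.2, e2.2, e3.2, e4.2]
  -- summation
  let f : S × S → CL × CR := fun p =>
    (⟨glF j hj pl p.1.1 p.2.1 (insert T X) (hG1 _ p.1.2) (hG1 _ p.2.2), hmemL _ p.1.2 _ p.2.2⟩,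
     ⟨glF j hj pl (mirF j hj pl p.1.1) (mirF j hj pl p.2.1) X (hG2 _ p.1.2) (hG2 _ p.2.2),
      hmemR _ p.1.2 _ p.2.2⟩)
  have hf : Function.Injective f := by
    rintro ⟨⟨F, hF⟩, ⟨F', hF'⟩⟩ ⟨⟨K, hK⟩, ⟨K', hK'⟩⟩ h
    have h1 : glF j hj pl F F' (insert T X) (hG1 _ hF) (hG1 _ hF')
        = glF j hj pl K K' (insert T X) (hG1 _ hK) (hG1 _ hK') :=
      congrArg (fun z => z.1.1) h
    have h2 : glF j hj pl (mirF j hj pl F) (mirF j hj pl F') X (hG2 _ hF) (hG2 _ hF')
        = glF j hj pl (mirF j hj pl K) (mirF j hj pl K') X (hG2 _ hK) (hG2 _ hK') :=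
      congrArg (fun z => z.2.1) h
    have h3 := congrArg (mirF j hj pl) h1
    have h4 := congrArg (mirF j hj pl) h2
    rw [mirF_glF, mirF_glF] at h3 h4
    have hFK : F = K := determined (hG1 _ hF) (hG1 _ hK) (hG2 _ hF) (hG2 _ hK)
      (congrArg FG.G h1) (congrArg FG.G h2) (hF.2.2.1.trans hK.2.2.1.symm)
    have hFK' : F' = K' := determined (hG1 _ hF') (hG1 _ hK') (hG2 _ hF') (hG2 _ hK')
      (congrArg FG.G h3) (congrArg FG.G h4) (hF'.2.2.1.trans hK'.2.2.1.symm)
    subst hFK
    subst hFK'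
    rfl
  have hwt : ∀ p : S × S, wt par p.1.1 * wt par p.2.1
      ≤ ENNReal.ofReal (Real.exp (8 * C0 par * c₁)) *
        (wt par (f p).1.1 * wt par (f p).2.1) := by
    rintro ⟨⟨F, hF⟩, ⟨F', hF'⟩⟩
    unfold wt
    rw [← ENNReal.ofReal_mul (Real.exp_pos _).le, ← ENNReal.ofReal_mul (Real.exp_pos _).le,
      ← ENNReal.ofReal_mul (Real.exp_pos _).le, ← Real.exp_add, ← Real.exp_add, ← Real.exp_add]
    exact ENNReal.ofReal_le_ofReal (Real.exp_le_exp.2 (hW F hF F' hF'))
  calc (Om par S) ^ 2 = ∑' p : S × S, wt par p.1.1 * wt par p.2.1 := by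
        rw [pow_two, ENNReal.tsum_prod']
        unfold Om
        rw [← ENNReal.tsum_mul_right]
        apply tsum_congr
        intro a
        exact ENNReal.tsum_mul_left.symm
    _ ≤ ∑' p : S × S, ENNReal.ofReal (Real.exp (8 * C0 par * c₁)) *
        (wt par (f p).1.1 * wt par (f p).2.1) := ENNReal.tsum_le_tsum hwt
    _ = ENNReal.ofReal (Real.exp (8 * C0 par * c₁)) *
        ∑' p : S × S, (wt par (f p).1.1 * wt par (f p).2.1) := ENNReal.tsum_mul_left
    _ ≤ ENNReal.ofReal (Real.exp (8 * C0 par * c₁)) *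
        ∑' z : CL × CR, (wt par z.1.1 * wt par z.2.1) := by
        gcongr
        exact ENNReal.tsum_comp_le_tsum_of_injective hf
          (fun z : CL × CR => wt par z.1.1 * wt par z.2.1)
    _ = ENNReal.ofReal (Real.exp (8 * C0 par * c₁)) * (Om par CL * Om par CR) := by
        congr 1
        rw [ENNReal.tsum_prod']
        unfold Om
        rw [← ENNReal.tsum_mul_right]
        apply tsum_congr
        intro a
        show ∑' b : CR, wt par a.1 * wt par b.1 = _
        exact ENNReal.tsum_mul_left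

end Pool.Agent.Lib.MP_280b4e_pr
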