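import Pool.Agent.Lib.MP_280b4e_pr.Pairs
import Pool.Agent.Lib.MP_280b4e_pr.Double

/-!
The doubling step: a free end is led to a plane with few vertices, then the graph is doubled.
-/

namespace Pool.Agent.Lib.MP_280b4e_pr

open scoped ENNReal
open Classical

theorem card_small_subsets {α : Type*} (S : Finset α) (n : ℕ) :
    (S.powerset.filter fun T => T.card ≤ n).card ≤ (S.card + 1) ^ n := by
  have h1 : (S.powerset.filter fun T => T.card ≤ n) ⊆
      (Finset.range (n + 1)).biUnion fun i => Finset.powersetCard i S := by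
    intro T hT
    rw [Finset.mem_filter, Finset.mem_powerset] at hT
    rw [Finset.mem_biUnion]
    exact ⟨T.card, Finset.mem_range.2 (by omega), Finset.mem_powersetCard.2 ⟨hT.1, rfl⟩⟩
  refine (Finset.card_le_card h1).trans (Finset.card_biUnion_le.trans ?_)
  rw [add_pow]
  refine Finset.sum_le_sum fun i hi => ?_
  rw [Finset.card_powersetCard, one_pow, mul_one]
  have h2 : 1 ≤ n.choose i := Nat.choose_pos (by rw [Finset.mem_range] at hi; omega)
  calc S.card.choose i ≤ S.card ^ i := Nat.choose_le_pow _ _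
    _ = S.card ^ i * 1 := (mul_one _).symm
    _ ≤ S.card ^ i * n.choose i := Nat.mul_le_mul_left _ h2

theorem le_one_add_of_sq_le {x y : ℝ≥0∞} (h : x ^ 2 ≤ y) : x ≤ 1 + y := by
  rcases le_total x 1 with h1 | h1
  · exact h1.trans le_self_add
  · calc x = x * 1 := (mul_one x).symm
      _ ≤ x * x := mul_le_mul' le_rfl h1
      _ = x ^ 2 := (sq x).symm
      _ ≤ y := h
      _ ≤ 1 + y := le_add_self

theorem Bx.tip_not_mem_zone_succ (B : Bx) (j : Fin 3) (k : ℕ) :
    B.tip j k + e j ∉ B.zone j k := by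
  have h0 : B.tip j k + e j = B.tip j (k + 1) := by
    simp only [Bx.tip]; push_cast; rw [add_smul, one_smul, add_assoc]
  rw [h0]
  have h1 : B.tip j (k + 1) ∈ B.ltail j (k + 1) := List.mem_cons_self
  rw [Bx.zone, Finset.mem_union, List.mem_toFinset, Bx.mem_ltail]
  rintro (h | ⟨m, hm, h⟩ | h | h)
  · exact (B.ltail_cor h1).2.1 h
  · have := congrFun h j
    rw [B.tip_coord, B.tip_coord, if_pos rfl, if_pos rfl] at this
    push_cast at this; omega
  · have := congrFun h 2
    rw [B.tip_coord] at this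
    simp only [Pi.add_apply, e] at this
    split_ifs at this <;> simp_all <;> omega
  · have := congrFun h 2
    rw [B.tip_coord] at this
    simp only [Pi.add_apply, e] at this
    split_ifs at this <;> simp_all <;> omega

/-- The target of the clearing before the doubling. -/
def DS (c N : ℕ) (j : Fin 3) (T b : P) (c₁ : ℕ) (X : Finset P) : Set FG :=
  {F | F ∈ Cls c N {T, b} ∧ ¬ F.G.Adj T (T + e j) ∧ crossing F j (T j + 1) = X ∧
    (F.V.filter fun x => x j = T j + 1 - 1 ∨ x j = T j + 1).card ≤ c₁}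

/-- Distance of the two points of the doubled free end. -/
theorem DS_bound (p : Par) (j : Fin 3) (hj : j ≠ 0) (c N c₁ : ℕ) (T b : P) (hTb : T ≠ b)
    (X : Finset P) (Y₀ Y₁ : ℝ≥0∞) (m : ℕ) (hm : (|2 * (T j - b j) + 1| : ℤ) ≤ m)
    (h0 : Om p (Cls (2 * (c + c₁)) (3 * N + 1) ∅) ≤ Y₀)
    (h1 : ∀ (b' : P) (k : ℕ), 1 ≤ k → k ≤ m →
      Om p (Cls (2 * (c + c₁)) (3 * N + 1) {b', b' + (k : ℤ) • e j}) ≤ Y₁) :
    Om p (DS c N j T b c₁ X) ≤ 1 + ENNReal.ofReal (Real.exp (8 * C0 p * c₁)) * (Y₀ * Y₁) := by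
  apply le_one_add_of_sq_le
  have key := double_step p j hj (T j + 1) T b (by omega) hTb c N c₁ X
  have hpair : Om p (Cls (2 * (c + c₁)) (3 * N + 1) {b, mir j (T j + 1) b}) ≤ Y₁ := by
    by_cases hb : b j < T j + 1
    · have h2 : mir j (T j + 1) b = b + (((2 * (T j - b j) + 1).toNat : ℕ) : ℤ) • e j := by
        funext i
        by_cases hi : i = j
        · subst hi
          simp only [mir, Function.update_self, Pi.add_apply, Pi.smul_apply, e, if_true,
            smul_eq_mul, mul_one]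
          omega
        · simp [mir, e, hi]
      rw [h2]
      rw [abs_le] at hm
      exact h1 b _ (by omega) (by omega)
    · have h2 : b = mir j (T j + 1) b + (((-(2 * (T j - b j) + 1)).toNat : ℕ) : ℤ) • e j := by
        funext i
        by_cases hi : i = j
        · subst hi
          simp only [mir, Function.update_self, Pi.add_apply, Pi.smul_apply, e, if_true,
            smul_eq_mul, mul_one]
          omega
        · simp [mir, e, hi]
      have h3 : ({b, mir j (T j + 1) b} : Finset P) = {mir j (T j + 1) b,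
          mir j (T j + 1) b + (((-(2 * (T j - b j) + 1)).toNat : ℕ) : ℤ) • e j} := by
        rw [← h2, Finset.pair_comm]
      rw [h3]
      rw [abs_le] at hm
      exact h1 _ _ (by omega) (by omega)
  refine key.trans (mul_le_mul' le_rfl ?_)
  by_cases hb : b j < T j + 1
  · rw [if_pos hb, if_pos hb, mul_comm Y₀]
    exact mul_le_mul' hpair h0
  · rw [if_neg hb, if_neg hb]
    exact mul_le_mul' h0 hpair

/-- Clearing at a free end and leading it to a plane with few vertices. -/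
theorem clear_to_plane (p : Par) {c N : ℕ} {a b : P} {F : FG} (hF : F ∈ Cls c N {a, b})
    {B : Bx} {τ : ℕ} (hB : BoxAround B a 0 τ) (hblk : τ * (B.blk F).card ≤ 12 * F.V.card)
    (hτ : 72 ≤ τ) (hbB : ¬ B.mem b) (j : Fin 3) (β : ℝ) (hβ : 0 < β) (hβ1 : β ≤ 1) (c₂ : ℕ)
    (hc₂ : 4 / β ≤ c₂) :
    ∃ k : ℕ, k ≤ ⌊β * N⌋₊ ∧ ∃ F' : FG, B.Agree j k F F' ∧
      (∃ X ∈ (cubeF (3 * N + ((2 * 0 + 2 * τ + 3) ^ 3 + τ + 20))).powerset.filter
        (fun T => T.card ≤ c₂ + 3),
        F' ∈ DS (c + (2 * 0 + 2 * τ + 3) ^ 3 + 1) (3 * N + ((2 * 0 + 2 * τ + 3) ^ 3 + τ + 20)) j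
          (B.tip j k) (B.ex b) (c₂ + 3) X) ∧
      |W p F - W p F'| ≤ 14 * C0 p * (12 / τ * N + (2 * 0 + 2 * τ + 3 : ℕ) ^ 3 + k + 3) := by
  set w := ⌊β * N⌋₊ + 1 with hw
  have hwN : ⌊β * N⌋₊ ≤ N := by
    have h1 : (⌊β * N⌋₊ : ℝ) ≤ β * N := Nat.floor_le (by positivity)
    have h2 : β * N ≤ 1 * N := by gcongr
    have : (⌊β * N⌋₊ : ℝ) ≤ N := by linarith
    exact_mod_cast this
  obtain ⟨t, ht1, ht2, ht3⟩ := window (B.Ex F).V j (B.hi j + 1) w (by omega)
  set k := (t - (B.hi j + 1)).toNat with hk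
  have hkw : k ≤ ⌊β * N⌋₊ := by omega
  have htk : t = B.hi j + 1 + k := by omega
  obtain ⟨F', hA, hcls, hW⟩ := clear_pair p hF hB hblk hτ j k
    (3 * N + ((2 * 0 + 2 * τ + 3) ^ 3 + τ + 20)) (by omega)
  have hcls' : F' ∈ Cls (c + (2 * 0 + 2 * τ + 3) ^ 3 + 1)
      (3 * N + ((2 * 0 + 2 * τ + 3) ^ 3 + τ + 20)) {B.tip j k, B.ex b} := by
    rcases hcls with ⟨h, _⟩ | ⟨_, h⟩
    · exact absurd h hbB
    · exact h
  have htip : B.tip j k j = t := by rw [B.tip_coord, if_pos rfl, htk]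
  have hload : (F'.V.filter fun x => x j = B.tip j k j + 1 - 1 ∨ x j = B.tip j k j + 1).card
      ≤ c₂ + 3 := by
    rw [htip]
    have hsub : (F'.V.filter fun x => x j = t + 1 - 1 ∨ x j = t + 1) ⊆
        ((B.Ex F).V.filter fun u => u j = t ∨ u j = t + 1) ∪
        {B.tip j k, B.hi + e 0 + e 1, B.hi + e 0} := by
      intro x hx
      rw [Finset.mem_filter] at hx
      obtain ⟨hx, hxt⟩ := hx
      by_cases hxz : x ∈ B.zone j k
      · apply Finset.mem_union_right
        rw [Bx.zone, Finset.mem_union, List.mem_toFinset, Bx.mem_ltail] at hxz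
        simp only [Finset.mem_insert, Finset.mem_singleton]
        rcases hxz with h | ⟨m, hm, rfl⟩ | h | h
        · have := ((B.mem_reg).1 h j).2
          omega
        · left
          rw [B.tip_coord, if_pos rfl] at hxt
          have : m = k := by omega
          rw [this]
        · exact Or.inr (Or.inl h)
        · exact Or.inr (Or.inr h)
      · apply Finset.mem_union_left
        rw [Finset.mem_filter]
        refine ⟨?_, by omega⟩
        obtain ⟨y, hy⟩ := FG.mem_V.1 hx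
        exact FG.mem_V.2 ⟨y, (hA x y fun hh => hxz hh.1).2 hy⟩
    have h1 := (Finset.card_le_card hsub).trans (Finset.card_union_le _ _)
    have h2 : ({B.tip j k, B.hi + e 0 + e 1, B.hi + e 0} : Finset P).card ≤ 3 :=
      Finset.card_le_three
    have h3 : ((B.Ex F).V.filter fun u => u j = t ∨ u j = t + 1).card ≤ c₂ := by
      set q := ((B.Ex F).V.filter fun u => u j = t ∨ u j = t + 1).card
      have h4 := B.card_V_Ex F
      have h5 : 72 * (B.blk F).card ≤ 12 * N := by
        have h1 : 72 * (B.blk F).card ≤ τ * (B.blk F).card := Nat.mul_le_mul_right _ hτ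
        have := hF.1
        omega
      have h6 := hF.1
      have h7 : w * q ≤ 4 * N := by omega
      rcases Nat.eq_zero_or_pos N with hN | hN
      · have : w * q = 0 := by omega
        rcases Nat.mul_eq_zero.1 this with h | h
        · omega
        · omega
      · have h8 : β * N ≤ w := by
          have := Nat.lt_floor_add_one (β * N)
          rw [hw]; push_cast; exact this.le
        have h9 : (w : ℝ) * q ≤ 4 * N := by exact_mod_cast h7
        have hN' : (0 : ℝ) < N := by exact_mod_cast hN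
        have h10 : β * N * q ≤ 4 * N :=
          (mul_le_mul_of_nonneg_right h8 (Nat.cast_nonneg q)).trans h9
        have h11 : (q : ℝ) ≤ 4 / β := by
          rw [le_div_iff₀ hβ]
          have : N * (q * β) ≤ N * (4 : ℝ) := by linarith
          exact le_of_mul_le_mul_left this hN'
        have h12 : (q : ℝ) ≤ c₂ := h11.trans hc₂
        exact_mod_cast h12
    omega
  refine ⟨k, hkw, F', hA, ⟨crossing F' j (B.tip j k j + 1), ?_, hcls', ?_, rfl, hload⟩, hW⟩
  · rw [Finset.mem_filter, Finset.mem_powerset]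
    constructor
    · intro x hx
      rw [crossing, Finset.mem_filter] at hx
      exact mem_cubeF.2 (hcls'.2.1 x hx.1)
    · refine le_trans (Finset.card_le_card ?_) hload
      intro x hx
      rw [crossing, Finset.mem_filter] at hx
      rw [Finset.mem_filter]
      exact ⟨hx.1, Or.inl hx.2.1⟩
  · intro hadj
    have h1 := (hA (B.tip j k) (B.tip j k + e j) fun hh => B.tip_not_mem_zone_succ j k hh.2).2 hadj
    exact B.iso_of_two_cor (B.ltail_cor (j := j) (k := k) (List.mem_cons_self)).1 _ h1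

/-- The doubling step. -/
theorem dstep (p : Par) (hS : ∀ c, SubExp (fun N => Om p (Cls c N ∅))) (j : Fin 3) (hj : j ≠ 0)
    (L : ℝ) (hL : 0 ≤ L)
    (H : ∀ (c : ℕ) (ε : ℝ), 0 < ε → ∃ K : ℝ, 0 ≤ K ∧ ∀ (N : ℕ) (b : P) (k : ℕ), 1 ≤ k →
      Om p (Cls c N {b, b + (k : ℤ) • e j}) ≤ ENNReal.ofReal (K * Real.exp (ε * N + L * k)))
    (c : ℕ) (ε : ℝ) (hε : 0 < ε) : ∃ K : ℝ, 0 ≤ K ∧ ∀ (N : ℕ) (a b : P), 
      Om p (Cls c N {a, b}) ≤
        ENNReal.ofReal (K * Real.exp (ε * N + 2 * L * (|a j - b j| : ℤ))) := by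
  have hC := C0_nonneg p
  obtain ⟨τ, hτ, hrate⟩ := exists_tau (C0 p) (ε / 16) hC (by positivity)
  set z := (2 * 0 + 2 * τ + 3) ^ 3 with hz
  set β := min 1 (ε / 16 / (14 * C0 p + 2 * L + 1)) with hβ
  have hden : 0 < 14 * C0 p + 2 * L + 1 := by positivity
  have hβ0 : 0 < β := lt_min one_pos (by positivity)
  have hβ1 : β ≤ 1 := min_le_left _ _
  have hβ2 : β * (14 * C0 p + 2 * L + 1) ≤ ε / 16 := by
    have : β ≤ ε / 16 / (14 * C0 p + 2 * L + 1) := min_le_right _ _
    rwa [le_div_iff₀ hden] at this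
  have hβ3 : 14 * C0 p * β ≤ ε / 16 := by nlinarith
  have hβ4 : 2 * L * β ≤ ε / 16 := by nlinarith
  obtain ⟨c₂, hc₂⟩ := exists_nat_ge (4 / β)
  set c' := c + z + 1 with hc'
  set c₁ := c₂ + 3 with hc₁
  set ε' := ε / 144 with hε'
  obtain ⟨K₁, hK₁, hH⟩ := H (2 * (c' + c₁)) ε' (by positivity)
  let km : ℕ → ℕ := fun N => ⌊β * N⌋₊
  have hkm : ∀ N : ℕ, (km N : ℝ) ≤ β * N := fun N => Nat.floor_le (by positivity)
  have hkmN : ∀ N : ℕ, km N ≤ N := by
    intro N
    have h2 : β * N ≤ 1 * N := by gcongr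
    have : (km N : ℝ) ≤ N := by linarith [hkm N]
    exact_mod_cast this
  set D := z + τ + 20 with hD
  -- the pieces of the bound
  let fA : ℕ → ℝ≥0∞ := fun N => ENNReal.ofReal (Real.exp (14 * C0 p * (12 / τ * N + z + km N + 3)))
  let fL : ℕ → ℝ≥0∞ := fun N => (((2 * N + (2 * 0 + 2 * τ + 1)) ^ 6 *
      2 ^ (((2 * (2 * 0 + 2 * τ) + 1) ^ 3) ^ 2) * (km N + 1) : ℕ) : ℝ≥0∞)
  let fX : ℕ → ℝ≥0∞ := fun N => (((2 * (3 * N + D) + 1) ^ 3 + 1) ^ c₁ : ℕ)
  let fZ : ℕ → ℝ≥0∞ := fun N => 1 + ENNReal.ofReal (Real.exp (8 * C0 p * c₁)) *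
      (Om p (Cls (2 * (c' + c₁)) (3 * (3 * N + D) + 1) ∅) *
        ENNReal.ofReal (K₁ * Real.exp (ε' * ((3 * (3 * N + D) + 1 : ℕ) : ℝ) +
          L * (2 * km N + 2 * τ + 17))))
  have gA : GE (ε / 8) fA := by
    refine (GE_exp' (c := ε / 8) (14 * C0 p * (z + 3)) le_rfl).mono fun N => ?_
    refine ENNReal.ofReal_le_ofReal (Real.exp_le_exp.2 ?_)
    have h1 : 14 * C0 p * (12 / τ) * N ≤ ε / 16 * N := by gcongr
    have h2 : 14 * C0 p * (km N : ℝ) ≤ 14 * C0 p * (β * N) := by gcongr; exact hkm N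
    have h3 : 14 * C0 p * β * N ≤ ε / 16 * N := by gcongr
    nlinarith
  have gL : SubExp fL := by
    refine (((SubExp_poly 2 (2 * 0 + 2 * τ + 1) 6).mul
      (SubExp_natConst (2 ^ (((2 * (2 * 0 + 2 * τ) + 1) ^ 3) ^ 2)))).mul
      (SubExp_lin 1 1)).mono fun N => ?_
    simp only [fL]
    rw [← Nat.cast_mul, ← Nat.cast_mul]
    exact_mod_cast Nat.mul_le_mul_left _ (by have := hkmN N; omega)
  have gX : SubExp fX := by
    have h1 : SubExp (fun N => ((((2 * (3 * N + D) + 1) ^ 3 : ℕ) : ℝ≥0∞) + ((1 : ℕ) : ℝ≥0∞))) := by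
      refine SubExp.add ?_ (SubExp_natConst 1)
      refine (SubExp_poly 6 (2 * D + 1) 3).mono fun N => ?_
      have : 2 * (3 * N + D) + 1 = 6 * N + (2 * D + 1) := by ring
      rw [this]
    refine (SubExp_pow h1 c₁).mono fun N => ?_
    simp only [fX]
    push_cast; exact le_rfl
  have gZ : GE (ε / 4) fZ := by
    have h1 : GE (ε / 4) (fun _ => (1 : ℝ≥0∞)) := by
      refine (GE_natConst (ε := ε / 4) (by positivity) 1).mono fun N => by simp
    refine GE.add h1 ?_
    have h2 : SubExp (fun N => ENNReal.ofReal (Real.exp (8 * C0 p * c₁)) *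
        Om p (Cls (2 * (c' + c₁)) (9 * N + (3 * D + 1)) ∅)) :=
      (SubExp_const _).mul ((hS _).comp 9 (3 * D + 1))
    have h3 : GE (ε / 8) (fun N => ENNReal.ofReal (K₁ * Real.exp (ε' *
        ((3 * (3 * N + D) + 1 : ℕ) : ℝ) + L * (2 * km N + 2 * τ + 17)))) := by
      refine ⟨K₁ * Real.exp (ε' * (3 * D + 1) + L * (2 * τ + 17)), by positivity, fun N => ?_⟩
      refine ENNReal.ofReal_le_ofReal ?_
      rw [mul_assoc, ← Real.exp_add]
      refine mul_le_mul_of_nonneg_left (Real.exp_le_exp.2 ?_) hK₁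
      push_cast
      have h4 : L * (2 * (km N : ℝ)) ≤ L * (2 * (β * N)) := by
        gcongr; exact hkm N
      have h5 : 2 * L * β * N ≤ ε / 16 * N := by gcongr
      have h6 : ε' * (9 * N) = ε / 16 * N := by rw [hε']; ring
      nlinarith
    have h4 := GE.mul (h2 (ε / 8) (by positivity)) h3
    refine (h4.rate (ε' := ε / 4) (by linarith)).mono fun N => ?_
    have h5 : 3 * (3 * N + D) + 1 = 9 * N + (3 * D + 1) := by ring
    simp only [h5]
    exact (mul_assoc _ _ _).symm.le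
  have gY : GE (ε / 2) (fun N => Om p (Cls c' (3 * N + D) ∅) + fX N * fZ N) := by
    refine GE.add (((hS c').comp 3 D) (ε / 2) (by positivity)) ?_
    exact (GE.mul (gX (ε / 8) (by positivity)) gZ).rate (by linarith)
  obtain ⟨K, hK, hKN⟩ := (GE.mul gA (GE.mul (gL (ε / 8) (by positivity)) gY)).rate (ε' := ε)
    (by linarith)
  refine ⟨K, hK, fun N a b => ?_⟩
  set g : ℤ := |a j - b j| with hg
  have hg0 : 0 ≤ g := abs_nonneg _
  set G : ℝ≥0∞ := ENNReal.ofReal (Real.exp (2 * L * g)) with hG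
  have hgR : (0 : ℝ) ≤ g := by exact_mod_cast hg0
  have hG1 : 1 ≤ G := by
    rw [hG, ENNReal.one_le_ofReal]
    exact Real.one_le_exp (by positivity)
  have key := clear_sum p (N := N) (Cls c N {a, b}) 0 τ (km N) j
    (fun B k => {F' | BoxAround B a 0 τ ∧ (F' ∈ Cls c' (3 * N + D) ∅ ∨
      ∃ X ∈ (cubeF (3 * N + D)).powerset.filter (fun T => T.card ≤ c₁),
        F' ∈ DS c' (3 * N + D) j (B.tip j k) (B.ex b) c₁ X)})
    (14 * C0 p * (12 / τ * N + z + km N + 3))
    ((Om p (Cls c' (3 * N + D) ∅) + fX N * fZ N) * G) ?_ ?_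
  · refine key.trans ?_
    have h1 : ENNReal.ofReal (K * Real.exp (ε * N + 2 * L * g)) =
        ENNReal.ofReal (K * Real.exp (ε * N)) * G := by
      rw [Real.exp_add, ← mul_assoc, ENNReal.ofReal_mul (by positivity)]
    rw [h1]
    refine le_trans (le_of_eq ?_) (mul_le_mul' (hKN N) le_rfl)
    show fA N * (fL N * ((Om p (Cls c' (3 * N + D) ∅) + fX N * fZ N) * G)) =
      fA N * (fL N * (Om p (Cls c' (3 * N + D) ∅) + fX N * fZ N)) * G
    rw [mul_assoc (fA N), mul_assoc (fL N)]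
  · intro F hF
    have haV : a ∈ F.V := Cls_odd_mem hF (by simp)
    obtain ⟨B, hB, hblk⟩ := exists_lowBox F a (FG.nonneg haV) 0 τ (by omega)
    have hDle : ∀ k' : ℕ, k' ≤ km N →
        14 * C0 p * (12 / τ * N + (2 * 0 + 2 * τ + 3 : ℕ) ^ 3 + k' + 3)
        ≤ 14 * C0 p * (12 / τ * N + z + km N + 3) := by
      intro k' hk'
      have : (k' : ℝ) ≤ km N := by exact_mod_cast hk'
      have h0 : ((2 * 0 + 2 * τ + 3 : ℕ) : ℝ) ^ 3 = z := by rw [hz]; push_cast; ring
      rw [h0]
      gcongr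
    by_cases hbB : B.mem b
    · obtain ⟨F', hA, hcls, hW⟩ := clear_pair p hF hB hblk hτ j 0 (3 * N + D) (by omega)
      refine ⟨a, B, 0, hF.2.1 a haV, hB, by omega, F', ⟨hB, Or.inl ?_⟩, hA,
        hW.trans (hDle 0 (by omega))⟩
      rcases hcls with ⟨_, h⟩ | ⟨h, _⟩
      · exact h
      · exact absurd hbB h
    · obtain ⟨k, hk, F', hA, hX, hW⟩ := clear_to_plane p hF hB hblk hτ hbB j β hβ0 hβ1 c₂ hc₂
      exact ⟨a, B, k, hF.2.1 a haV, hB, hk, F', ⟨hB, Or.inr hX⟩, hA, hW.trans (hDle k hk)⟩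
  · intro a' B k ha' hB' hk
    by_cases hB : BoxAround B a 0 τ
    swap
    · have : {F' | BoxAround B a 0 τ ∧ (F' ∈ Cls c' (3 * N + D) ∅ ∨
          ∃ X ∈ (cubeF (3 * N + D)).powerset.filter (fun T => T.card ≤ c₁),
          F' ∈ DS c' (3 * N + D) j (B.tip j k) (B.ex b) c₁ X)} = ∅ := by
        rw [Set.eq_empty_iff_forall_notMem]
        rintro F' ⟨h, _⟩; exact hB h
      rw [this, Om_empty]; exact zero_le
    have hsub : {F' | BoxAround B a 0 τ ∧ (F' ∈ Cls c' (3 * N + D) ∅ ∨
          ∃ X ∈ (cubeF (3 * N + D)).powerset.filter (fun T => T.card ≤ c₁),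
          F' ∈ DS c' (3 * N + D) j (B.tip j k) (B.ex b) c₁ X)} ⊆
        Cls c' (3 * N + D) ∅ ∪
          ⋃ X ∈ (cubeF (3 * N + D)).powerset.filter (fun T => T.card ≤ c₁),
            DS c' (3 * N + D) j (B.tip j k) (B.ex b) c₁ X := by
      rintro F' ⟨_, h | ⟨X, hX, h⟩⟩
      · exact Or.inl h
      · right
        simp only [Set.mem_iUnion]
        exact ⟨X, hX, h⟩
    refine (Om_mono p hsub).trans ((Om_union_le _ _ _).trans ?_)
    rw [add_mul]
    refine add_le_add ?_ ?_
    · calc Om p (Cls c' (3 * N + D) ∅) = Om p (Cls c' (3 * N + D) ∅) * 1 := (mul_one _).symm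
        _ ≤ _ := mul_le_mul' le_rfl hG1
    · refine (Om_biUnion_le p _ _).trans ?_
      have hTb : B.tip j k ≠ B.ex b := by
        intro h
        obtain ⟨⟨i, _, _, h1, _⟩, _⟩ := B.ltail_cor (j := j) (k := k) (x := B.tip j k)
          List.mem_cons_self
        rw [h] at h1
        exact B.not_cor_ex i b h1
      have hone : ∀ X, Om p (DS c' (3 * N + D) j (B.tip j k) (B.ex b) c₁ X) ≤ fZ N * G := by
        intro X
        set m : ℕ := (2 * g + 2 * km N + 2 * τ + 17).toNat with hm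
        have hmZ : (m : ℤ) = 2 * g + 2 * km N + 2 * τ + 17 := by
          rw [hm, Int.toNat_of_nonneg]; omega
        have h1 := DS_bound p j hj c' (3 * N + D) c₁ (B.tip j k) (B.ex b) hTb X
          (Om p (Cls (2 * (c' + c₁)) (3 * (3 * N + D) + 1) ∅))
          (ENNReal.ofReal (K₁ * Real.exp (ε' * ((3 * (3 * N + D) + 1 : ℕ) : ℝ) + L * m))) m
          ?_ le_rfl ?_
        · refine h1.trans ?_
          have h2 : ENNReal.ofReal (K₁ * Real.exp (ε' * ((3 * (3 * N + D) + 1 : ℕ) : ℝ) + L * m)) =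
              ENNReal.ofReal (K₁ * Real.exp (ε' * ((3 * (3 * N + D) + 1 : ℕ) : ℝ) +
                L * (2 * km N + 2 * τ + 17))) * G := by
            rw [hG, ← ENNReal.ofReal_mul (by positivity), mul_assoc, ← Real.exp_add]
            congr 3
            have : (m : ℝ) = 2 * g + 2 * km N + 2 * τ + 17 := by exact_mod_cast hmZ
            rw [this]; ring
          rw [h2]
          simp only [fZ]
          rw [add_mul, one_mul]
          refine add_le_add hG1 (le_of_eq ?_)
          ring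
        · rw [hmZ, B.tip_coord, if_pos rfl]
          have e1 := hB.rhigh j
          have e2 := hB.rlow j
          have e3 := B.off_cases j
          have hhi : B.hi j = B.r j + B.off j + 1 := rfl
          have e4 : (k : ℤ) ≤ km N := by exact_mod_cast hk
          have e5 := abs_le.1 (le_of_eq hg.symm)
          have e6 : B.ex b j = ex1 (B.l j) (B.r j) (B.off j) (b j) := rfl
          rw [e6, ex1, abs_le]
          split_ifs <;> constructor <;> omega
        · intro b' k' hk1 hk2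
          refine (hH _ b' k' hk1).trans (ENNReal.ofReal_le_ofReal ?_)
          have : (k' : ℝ) ≤ m := by exact_mod_cast hk2
          gcongr
      refine (Finset.sum_le_sum fun X _ => hone X).trans ?_
      rw [Finset.sum_const, nsmul_eq_mul, mul_assoc]
      refine mul_le_mul' ?_ le_rfl
      have h3 := card_small_subsets (cubeF (3 * N + D)) c₁
      rw [card_cubeF] at h3
      simp only [fX]
      exact_mod_cast h3

end Pool.Agent.Lib.MP_280b4e_pr
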