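import Mathlib

/-!
Definitions used in the statement of the main theorem of MP_280b4e_pr.
-/

namespace Pool.Agent.Lib.MP_280b4e_pr

/-- Points of the cubic lattice. -/
abbrev P := Fin 3 → ℤ

/-- Nearest neighbour graph of the cubic lattice: Euclidean distance one. -/
def Lat : SimpleGraph P where
  Adj x y := (x 0 - y 0) ^ 2 + (x 1 - y 1) ^ 2 + (x 2 - y 2) ^ 2 = 1
  symm := ⟨fun x y h => by
    have h' : (x 0 - y 0) ^ 2 + (x 1 - y 1) ^ 2 + (x 2 - y 2) ^ 2 = 1 := h
    show (y 0 - x 0) ^ 2 + (y 1 - x 1) ^ 2 + (y 2 - x 2) ^ 2 = 1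
    rw [← h']; ring⟩
  loopless := ⟨fun x h => by
    have h' : (x 0 - x 0) ^ 2 + (x 1 - x 1) ^ 2 + (x 2 - x 2) ^ 2 = 1 := h
    simp at h'⟩

/-- Number of points of `S` in the wall `x 0 = 0`. -/
noncomputable def visits (S : Set P) : ℕ := {x ∈ S | x 0 = 0}.ncard

/-- Number of contacts: unordered pairs of points of `S` at Euclidean distance one which are not
joined by an edge of `E`. -/
noncomputable def contacts (S : Set P) (E : Set (Sym2 P)) : ℕ :=
  {e ∈ Lat.edgeSet | (∀ x ∈ e, x ∈ S) ∧ e ∉ E}.ncard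

/-- Boltzmann weight of a figure with vertex set `S` and edge set `E`. -/
noncomputable def weight (ζ γ : ℝ) (S : Set P) (E : Set (Sym2 P)) : ℝ :=
  Real.exp (ζ * visits S + γ * contacts S E)

/-- `w` is an `n`-step self-avoiding walk from the origin in the half space `0 ≤ x 0`. -/
def IsSAW (n : ℕ) (w : Fin (n + 1) → P) : Prop :=
  w 0 = 0 ∧ (∀ i : Fin n, Lat.Adj (w i.castSucc) (w i.succ)) ∧ Function.Injective w ∧
    ∀ i, 0 ≤ w i 0

/-- The edges of a walk. -/
def walkEdges {n : ℕ} (w : Fin (n + 1) → P) : Set (Sym2 P) :=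
  {e | ∃ i : Fin n, e = s(w i.castSucc, w i.succ)}

/-- Partition function of the walks. -/
noncomputable def Z (n : ℕ) (ζ γ : ℝ) : ℝ :=
  ∑' w : {w : Fin (n + 1) → P // IsSAW n w}, weight ζ γ (Set.range w.1) (walkEdges w.1)

/-- `p` is a self-avoiding polygon with `n` edges in the half space with a vertex in the wall:
a finite connected subgraph of the lattice in which all vertices have degree two. -/
def IsSAP (n : ℕ) (p : Lat.Subgraph) : Prop :=
  p.verts.Finite ∧ p.Connected ∧ (∀ x ∈ p.verts, (p.neighborSet x).ncard = 2) ∧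
    p.edgeSet.ncard = n ∧ (∀ x ∈ p.verts, 0 ≤ x 0) ∧ ∃ x ∈ p.verts, x 0 = 0

/-- Normal form modulo translations parallel to the wall: the smallest values of the coordinates
`x 1` and `x 2` on the vertices are zero. -/
def IsNormal (p : Lat.Subgraph) : Prop :=
  (∀ x ∈ p.verts, 0 ≤ x 1) ∧ (∃ x ∈ p.verts, x 1 = 0) ∧
    (∀ x ∈ p.verts, 0 ≤ x 2) ∧ (∃ x ∈ p.verts, x 2 = 0)

/-- Partition function of the polygons modulo translations parallel to the wall. -/
noncomputable def Q (n : ℕ) (ζ γ : ℝ) : ℝ :=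
  ∑' p : {p : Lat.Subgraph // IsSAP n p ∧ IsNormal p}, weight ζ γ p.1.verts p.1.edgeSet

end Pool.Agent.Lib.MP_280b4e_pr
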