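import Pool.Agent.Lib.MP_280b4e_pr.Basic

/-!
Box expansion: insert two empty layers at each of the planes bounding a box.
-/

namespace Pool.Agent.Lib.MP_280b4e_pr

open Classical

/-- One dimensional expansion map. -/
def ex1 (l r o t : ℤ) : ℤ :=
  if t < l then t - 2 + o else if t ≤ r then t + o else t + 2 + o

/-- Largest `t` with `ex1 t ≤ X`. -/
def dn1 (l r o X : ℤ) : ℤ :=
  if X - o < l - 2 then X - o + 2 else if X - o < l then l - 1 else
    if X - o ≤ r then X - o else if X - o ≤ r + 2 then r else X - o - 2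

/-- Smallest `t` with `X ≤ ex1 t`. -/
def up1 (l r o X : ℤ) : ℤ :=
  if X - o < l - 2 then X - o + 2 else if X - o < l then l else
    if X - o ≤ r then X - o else if X - o ≤ r + 2 then r + 1 else X - o - 2

/-- Corridor coordinates. -/
def cor1 (l r o X : ℤ) : Prop :=
  (l - 2 ≤ X - o ∧ X - o < l) ∨ (r < X - o ∧ X - o ≤ r + 2)

section one
variable {l r o X t : ℤ}

theorem up1_succ (h : l ≤ r) : up1 l r o (X + 1) = dn1 l r o X + 1 := by
  unfold up1 dn1; split_ifs <;> omega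

theorem dn1_ex1 (h : l ≤ r) : dn1 l r o (ex1 l r o t) = t := by
  unfold ex1 dn1; split_ifs <;> omega

theorem up1_ex1 (h : l ≤ r) : up1 l r o (ex1 l r o t) = t := by
  unfold ex1 up1; split_ifs <;> omega

theorem not_cor1_ex1 (h : l ≤ r) : ¬ cor1 l r o (ex1 l r o t) := by
  unfold ex1 cor1; split_ifs <;> omega

theorem ex1_dn1 (h : l ≤ r) (hc : ¬ cor1 l r o X) : ex1 l r o (dn1 l r o X) = X := by
  unfold cor1 at hc
  unfold ex1 dn1; split_ifs <;> omega

theorem up1_of_not_cor (h : l ≤ r) (hc : ¬ cor1 l r o X) : up1 l r o X = dn1 l r o X := by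
  unfold cor1 at hc
  unfold up1 dn1; split_ifs <;> omega

theorem up1_of_cor (h : l ≤ r) (hc : cor1 l r o X) : up1 l r o X = dn1 l r o X + 1 := by
  unfold cor1 at hc
  unfold up1 dn1; split_ifs <;> omega

theorem dn1_pred_of_cor (h : l ≤ r) (hc : cor1 l r o X) :
    dn1 l r o (X - 1) = dn1 l r o X := by
  unfold cor1 at hc
  unfold dn1; split_ifs <;> omega

theorem dn1_pred_of_not_cor (h : l ≤ r) (hc : ¬ cor1 l r o X) :
    dn1 l r o (X - 1) = dn1 l r o X - 1 := by
  unfold cor1 at hc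
  unfold dn1; split_ifs <;> omega

theorem dn1_succ (h : l ≤ r) : dn1 l r o (X + 1) = dn1 l r o X ∨
    dn1 l r o (X + 1) = dn1 l r o X + 1 := by
  unfold dn1; split_ifs <;> omega

theorem ex1_dn1_le (h : l ≤ r) : ex1 l r o (dn1 l r o X) ≤ X ∧ X ≤ ex1 l r o (dn1 l r o X) + 2 := by
  unfold ex1 dn1; split_ifs <;> omega

theorem ex1_inj (h : l ≤ r) {s : ℤ} (hst : ex1 l r o s = ex1 l r o t) : s = t := by
  have := congrArg (dn1 l r o) hst
  rwa [dn1_ex1 h, dn1_ex1 h] at this

theorem ex1_succ (h : l ≤ r) : (ex1 l r o (t + 1) = ex1 l r o t + 1 ∧ t ≠ r ∧ t + 1 ≠ l) ∨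
    (ex1 l r o (t + 1) = ex1 l r o t + 3 ∧ (t = r ∨ t + 1 = l)) := by
  unfold ex1; split_ifs <;> omega

theorem dn1_ex1_add (h : l ≤ r) (ht : t = r ∨ t + 1 = l) {k : ℤ} (hk : 0 ≤ k) (hk2 : k ≤ 2) :
    dn1 l r o (ex1 l r o t + k) = t := by
  unfold ex1 dn1; split_ifs <;> omega

end one

/-- A box with its offset for axis zero; either the box stands on the wall and there is no
expansion below it, or it is above the wall. -/
structure Bx where
  l : P
  r : P
  o : ℤ
  hlr : ∀ i, l i ≤ r i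
  hw : (l 0 = 0 ∧ o = 0) ∨ (1 ≤ l 0 ∧ o = 2)

namespace Bx

variable (B : Bx)

/-- Offsets of the axes. -/
def off (i : Fin 3) : ℤ := if i = 0 then B.o else 0

/-- Expansion map. -/
def ex (x : P) : P := fun i => ex1 (B.l i) (B.r i) (B.off i) (x i)

/-- Lower projection. -/
def dn (x : P) : P := fun i => dn1 (B.l i) (B.r i) (B.off i) (x i)

/-- Upper projection. -/
def up (x : P) : P := fun i => up1 (B.l i) (B.r i) (B.off i) (x i)

/-- Corridor coordinate. -/
def cor (i : Fin 3) (x : P) : Prop := cor1 (B.l i) (B.r i) (B.off i) (x i)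

theorem dn_ex (x : P) : B.dn (B.ex x) = x := by
  funext i; exact dn1_ex1 (B.hlr i)

theorem up_ex (x : P) : B.up (B.ex x) = x := by
  funext i; exact up1_ex1 (B.hlr i)

theorem ex_injective : Function.Injective B.ex := fun x y h => by
  rw [← B.dn_ex x, h, B.dn_ex]

theorem not_cor_ex (i : Fin 3) (x : P) : ¬ B.cor i (B.ex x) := not_cor1_ex1 (B.hlr i)

theorem ex_dn {x : P} (h : ∀ i, ¬ B.cor i x) : B.ex (B.dn x) = x := by
  funext i; exact ex1_dn1 (B.hlr i) (h i)

/-- Expanded graph. -/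
def ExG (G : SimpleGraph P) : SimpleGraph P where
  Adj x y := Lat.Adj x y ∧ ((x ≤ y ∧ G.Adj (B.dn x) (B.up y)) ∨ (y ≤ x ∧ G.Adj (B.dn y) (B.up x)))
  symm := ⟨fun _ _ h => ⟨h.1.symm, h.2.symm⟩⟩
  loopless := ⟨fun x h => Lat.loopless.irrefl x h.1⟩

theorem ExG_le (G : SimpleGraph P) : B.ExG G ≤ Lat := fun _ _ h => h.1

theorem le_add_e (x : P) (i : Fin 3) : x ≤ x + e i := by
  intro j; simp only [Pi.add_apply, e]; split_ifs <;> omega

theorem not_add_e_le (x : P) (i : Fin 3) : ¬ x + e i ≤ x := by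
  intro h; have := h i; simp [e] at this

theorem ExG_adj_pos (G : SimpleGraph P) (x : P) (i : Fin 3) :
    (B.ExG G).Adj x (x + e i) ↔ G.Adj (B.dn x) (B.up (x + e i)) := by
  constructor
  · rintro ⟨_, h | h⟩
    · exact h.2
    · exact absurd h.1 (not_add_e_le x i)
  · intro h; exact ⟨adj_e x i, Or.inl ⟨le_add_e x i, h⟩⟩

theorem up_add_e_self (x : P) (i : Fin 3) : B.up (x + e i) i = B.dn x i + 1 := by
  have : (x + e i) i = x i + 1 := by simp [e]
  simp only [up, this]
  exact up1_succ (B.hlr i)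

theorem up_add_e_ne (x : P) {i j : Fin 3} (h : j ≠ i) : B.up (x + e i) j = B.up x j := by
  have : (x + e i) j = x j := by simp [e, h]
  simp only [up, this]

/-- Lattice adjacency with a difference in a known coordinate. -/
theorem Lat_adj_same {x y : P} {i j : Fin 3} (h : Lat.Adj x y) (hi : x i ≠ y i) (hj : j ≠ i) :
    x j = y j := by
  rw [adj_coord] at h
  fin_cases i <;> fin_cases j <;> simp only [Fin.zero_eta, Fin.mk_one, Fin.reduceFinMk, ne_eq,
    not_true_eq_false] at hi hj ⊢ <;> omega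

theorem ExG_adj_e {G : SimpleGraph P} (hG : G ≤ Lat) (x : P) (i : Fin 3) :
    (B.ExG G).Adj x (x + e i) ↔
      (∀ j, j ≠ i → ¬ B.cor j x) ∧ G.Adj (B.dn x) (B.dn x + e i) := by
  rw [ExG_adj_pos]
  constructor
  · intro h
    have h1 : ∀ j, j ≠ i → B.dn x j = B.up x j := by
      intro j hj
      have := Lat_adj_same (hG h) (i := i) (j := j) (by rw [up_add_e_self]; omega) hj
      rwa [up_add_e_ne _ _ hj] at this
    have h2 : ∀ j, j ≠ i → ¬ B.cor j x := by
      intro j hj hc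
      have := up1_of_cor (B.hlr j) hc
      have h3 := h1 j hj
      simp only [dn, up] at h3
      omega
    refine ⟨h2, ?_⟩
    have h3 : B.up (x + e i) = B.dn x + e i := by
      funext j
      by_cases hj : j = i
      · subst hj; rw [up_add_e_self]; simp [e]
      · rw [up_add_e_ne _ _ hj, ← h1 j hj]; simp [e, hj]
    rwa [← h3]
  · rintro ⟨h1, h2⟩
    have h3 : B.up (x + e i) = B.dn x + e i := by
      funext j
      by_cases hj : j = i
      · subst hj; rw [up_add_e_self]; simp [e]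
      · rw [up_add_e_ne _ _ hj]
        have := up1_of_not_cor (B.hlr j) (h1 j hj)
        simp [e, hj, up, dn, this]
    rwa [h3]

theorem sub_e_add_e (x : P) (i : Fin 3) : x - e i + e i = x := by simp

theorem ExG_adj_neg {G : SimpleGraph P} (hG : G ≤ Lat) (x : P) (i : Fin 3) :
    (B.ExG G).Adj x (x - e i) ↔
      (∀ j, j ≠ i → ¬ B.cor j x) ∧ G.Adj (B.dn (x - e i)) (B.dn (x - e i) + e i) := by
  rw [SimpleGraph.adj_comm]
  have := B.ExG_adj_e hG (x - e i) i
  rw [sub_e_add_e] at this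
  rw [this]
  apply and_congr_left'
  apply forall_congr'
  intro j
  apply forall_congr'
  intro hj
  have : (x - e i) j = x j := by simp [e, hj]
  simp only [cor, this]

theorem dn_sub_e_of_cor {x : P} {i : Fin 3} (h : B.cor i x) : B.dn (x - e i) = B.dn x := by
  funext j
  by_cases hj : j = i
  · subst hj
    have : (x - e j) j = x j - 1 := by simp [e]
    simp only [dn, this]
    exact dn1_pred_of_cor (B.hlr j) h
  · have : (x - e i) j = x j := by simp [e, hj]
    simp only [dn, this]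

theorem dn_sub_e_of_not_cor {x : P} {i : Fin 3} (h : ¬ B.cor i x) :
    B.dn (x - e i) = B.dn x - e i := by
  funext j
  by_cases hj : j = i
  · subst hj
    have : (x - e j) j = x j - 1 := by simp [e]
    simp only [dn, this]
    rw [dn1_pred_of_not_cor (B.hlr j) h]; simp [e, dn]
  · have : (x - e i) j = x j := by simp [e, hj]
    simp only [dn, this]
    simp [e, hj, dn]

/-- Edges at images of old points. -/
theorem ExG_adj_ex {G : SimpleGraph P} (hG : G ≤ Lat) (u : P) (d : Dir) :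
    (B.ExG G).Adj (B.ex u) (B.ex u + st d) ↔ G.Adj u (u + st d) := by
  obtain ⟨i, b⟩ := d
  cases b
  · rw [st_false, ← sub_eq_add_neg, ← sub_eq_add_neg, ExG_adj_neg _ hG,
      B.dn_sub_e_of_not_cor (B.not_cor_ex i u), dn_ex, sub_e_add_e, G.adj_comm]
    exact and_iff_right fun j _ => B.not_cor_ex j u
  · rw [st_true, ExG_adj_e _ hG, dn_ex]
    exact and_iff_right fun j _ => B.not_cor_ex j u

theorem deg_ExG_ex {G : SimpleGraph P} (hG : G ≤ Lat) (u : P) :
    deg (B.ExG G) (B.ex u) = deg G u := by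
  unfold deg
  congr 1
  ext d
  simp only [Finset.mem_filter, Finset.mem_univ, true_and]
  exact B.ExG_adj_ex hG u d

/-- Edges at a corridor point. -/
theorem ExG_adj_cor {G : SimpleGraph P} (hG : G ≤ Lat) {x : P} {i : Fin 3} (hi : B.cor i x)
    (d : Dir) : (B.ExG G).Adj x (x + st d) ↔
      d.1 = i ∧ (∀ j, j ≠ i → ¬ B.cor j x) ∧ G.Adj (B.dn x) (B.dn x + e i) := by
  obtain ⟨k, b⟩ := d
  cases b
  · rw [st_false, ← sub_eq_add_neg, ExG_adj_neg _ hG]
    constructor
    · rintro ⟨h1, h2⟩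
      have hk : k = i := by
        by_contra hk
        exact h1 i (Ne.symm hk) hi
      subst hk
      rw [B.dn_sub_e_of_cor hi] at h2
      exact ⟨rfl, h1, h2⟩
    · rintro ⟨rfl, h1, h2⟩
      refine ⟨h1, ?_⟩
      rw [B.dn_sub_e_of_cor hi]; exact h2
  · rw [st_true, ExG_adj_e _ hG]
    constructor
    · rintro ⟨h1, h2⟩
      have hk : k = i := by
        by_contra hk
        exact h1 i (Ne.symm hk) hi
      subst hk
      exact ⟨rfl, h1, h2⟩
    · rintro ⟨rfl, h1, h2⟩
      exact ⟨h1, h2⟩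

/-- A corridor point on a stretched edge has degree two, other corridor points are isolated. -/
theorem deg_ExG_cor {G : SimpleGraph P} (hG : G ≤ Lat) {x : P} {i : Fin 3} (hi : B.cor i x) :
    deg (B.ExG G) x =
      if (∀ j, j ≠ i → ¬ B.cor j x) ∧ G.Adj (B.dn x) (B.dn x + e i) then 2 else 0 := by
  unfold deg
  simp only [B.ExG_adj_cor hG hi]
  split_ifs with h
  · have : (Finset.univ.filter fun d : Dir => d.1 = i ∧ (∀ j, j ≠ i → ¬ B.cor j x) ∧
        G.Adj (B.dn x) (B.dn x + e i)) = {(i, true), (i, false)} := by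
      ext ⟨k, b⟩
      simp only [Finset.mem_filter, Finset.mem_univ, true_and, Finset.mem_insert,
        Finset.mem_singleton, Prod.mk.injEq]
      constructor
      · rintro ⟨rfl, _⟩; cases b <;> simp
      · rintro (⟨rfl, _⟩ | ⟨rfl, _⟩) <;> exact ⟨rfl, h⟩
    rw [this, Finset.card_pair (by simp)]
  · rw [Finset.card_eq_zero, Finset.filter_eq_empty_iff]
    rintro d _ ⟨_, h2⟩
    exact h h2

theorem dn_mem_of_adj {G : SimpleGraph P} (hG : G ≤ Lat) {x y : P} (h : (B.ExG G).Adj x y) :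
    B.dn x ∈ G.support := by
  by_cases hc : ∃ i, B.cor i x
  · obtain ⟨i, hi⟩ := hc
    obtain ⟨d, rfl⟩ := (adj_iff_st _ _).1 h.1
    exact ⟨_, ((B.ExG_adj_cor hG hi d).1 h).2.2⟩
  · have hc' : ∀ i, ¬ B.cor i x := fun i hi => hc ⟨i, hi⟩
    obtain ⟨d, rfl⟩ := (adj_iff_st _ _).1 h.1
    rw [← B.ex_dn hc', B.ExG_adj_ex hG] at h
    exact ⟨_, by simpa [dn_ex] using h⟩

theorem ex_dn_le (x : P) (i : Fin 3) : B.ex (B.dn x) i ≤ x i ∧ x i ≤ B.ex (B.dn x) i + 2 :=
  ex1_dn1_le (B.hlr i)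

theorem ex_nonneg {u : P} (h : 0 ≤ u 0) : 0 ≤ B.ex u 0 := by
  have h1 := B.hw
  have h2 := B.hlr 0
  simp only [ex, off, if_true, ex1]
  split_ifs <;> omega

theorem ex_zero_iff {u : P} (h : 0 ≤ u 0) : B.ex u 0 = 0 ↔ u 0 = 0 := by
  have h1 := B.hw
  have h2 := B.hlr 0
  simp only [ex, off, if_true, ex1]
  split_ifs <;> omega

/-- Expansion of a finite graph. -/
def Ex (F : FG) : FG where
  G := B.ExG F.G
  le := B.ExG_le F.G
  fin := by
    have hf : ((fun z : P × P => B.ex z.1 + z.2) '' (F.G.support ×ˢ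
        (Set.Icc (0 : P) (fun _ => 2)))).Finite :=
      (F.fin.prod (Set.finite_Icc _ _)).image _
    refine hf.subset ?_
    rintro x ⟨y, hxy⟩
    refine ⟨(B.dn x, x - B.ex (B.dn x)), ⟨B.dn_mem_of_adj F.le hxy, ?_, ?_⟩, ?_⟩
    · intro i; have := B.ex_dn_le x i; simp only [Pi.zero_apply, Pi.sub_apply]; omega
    · intro i; have := B.ex_dn_le x i; simp only [Pi.sub_apply]; omega
    · simp
  half := by
    rintro x ⟨y, hxy⟩
    have h1 := F.half _ (B.dn_mem_of_adj F.le hxy)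
    have h2 := B.ex_nonneg h1
    have h3 := (B.ex_dn_le x 0).1
    omega

theorem mem_V_Ex_ex (F : FG) (u : P) : B.ex u ∈ (B.Ex F).V ↔ u ∈ F.V := by
  rw [FG.mem_V_st, FG.mem_V_st]
  exact exists_congr fun d => B.ExG_adj_ex F.le u d

theorem dn_mem_V {F : FG} {x : P} (h : x ∈ (B.Ex F).V) : B.dn x ∈ F.V := by
  obtain ⟨y, hy⟩ := FG.mem_V.1 h
  obtain ⟨z, hz⟩ := B.dn_mem_of_adj F.le hy
  exact FG.mem_V.2 ⟨z, hz⟩

end Bx

end Pool.Agent.Lib.MP_280b4e_pr
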