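import Pool.Agent.Lib.MP_280b4e_pr.PolyChain

/-!
Existence of the polygon free energy.
-/

namespace Pool.Agent.Lib.MP_280b4e_pr
open scoped ENNReal
open Classical Filter Topology

namespace Poly

/-- The unit square in the wall. -/
def Sq : SimpleGraph P where
  Adj x y := Lat.Adj x y ∧ (x 0 = 0 ∧ (x 1 = 0 ∨ x 1 = 1) ∧ (x 2 = 0 ∨ x 2 = 1)) ∧
    (y 0 = 0 ∧ (y 1 = 0 ∨ y 1 = 1) ∧ (y 2 = 0 ∨ y 2 = 1))
  symm := ⟨fun x y h => ⟨h.1.symm, h.2.2, h.2.1⟩⟩
  loopless := ⟨fun x h => Lat.loopless.irrefl x h.1⟩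

/-- The corners of the square. -/
noncomputable def corners : Finset P := {![0, 0, 0], ![0, 1, 0], ![0, 0, 1], ![0, 1, 1]}

theorem mem_corners (x : P) : x ∈ corners ↔
    (x 0 = 0 ∧ (x 1 = 0 ∨ x 1 = 1) ∧ (x 2 = 0 ∨ x 2 = 1)) := by
  unfold corners
  simp only [Finset.mem_insert, Finset.mem_singleton]
  constructor
  · rintro (rfl | rfl | rfl | rfl) <;> simp
  · rintro ⟨h0, h1 | h1, h2 | h2⟩
    · left; exact P_ext h0 h1 h2
    · right; right; left; exact P_ext h0 h1 h2
    · right; left; exact P_ext h0 h1 h2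
    · right; right; right; exact P_ext h0 h1 h2

theorem sq_adj (x y : P) : Sq.Adj x y ↔ Lat.Adj x y ∧ x ∈ corners ∧ y ∈ corners := by
  rw [mem_corners, mem_corners]; rfl

theorem sq_support (x : P) : x ∈ Sq.support ↔ x ∈ corners := by
  rw [SimpleGraph.mem_support]
  constructor
  · rintro ⟨y, hy⟩; exact ((sq_adj _ _).1 hy).2.1
  · intro hx
    have hx' := (mem_corners x).1 hx
    have e0 : (![0, 1 - x 1, x 2] : P) 0 = 0 := rfl
    have e1 : (![0, 1 - x 1, x 2] : P) 1 = 1 - x 1 := rfl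
    have e2 : (![0, 1 - x 1, x 2] : P) 2 = x 2 := rfl
    refine ⟨![0, 1 - x 1, x 2], (sq_adj _ _).2 ⟨?_, hx, ?_⟩⟩
    · rw [adj_coord, e0, e1, e2]
      omega
    · rw [mem_corners, e0, e1, e2]
      omega

/-- The square as a finite graph. -/
noncomputable def SqF : FG where
  G := Sq
  le := fun x y h => h.1
  fin := by
    apply corners.finite_toSet.subset
    intro x hx
    exact (sq_support x).1 hx
  half := by
    intro x hx
    have := (mem_corners x).1 ((sq_support x).1 hx)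
    omega

theorem SqF_V : SqF.V = corners := by
  ext x
  rw [← sq_support]
  exact Set.Finite.mem_toFinset SqF.fin

theorem sq_deg (x : P) (hx : x ∈ corners) : deg Sq x = 2 := by
  have h := (mem_corners x).1 hx
  unfold deg
  have : (Finset.univ.filter fun d : Dir => Sq.Adj x (x + st d)) =
      {((1 : Fin 3), decide (x 1 = 0)), ((2 : Fin 3), decide (x 2 = 0))} := by
    ext ⟨i, b⟩
    simp only [Finset.mem_filter, Finset.mem_univ, true_and, Finset.mem_insert,
      Finset.mem_singleton, Prod.mk.injEq]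
    rw [sq_adj, mem_corners (x + _)]
    obtain ⟨h0, h1 | h1, h2 | h2⟩ := h <;> fin_cases i <;> cases b <;>
      simp [h0, h1, h2, st, adj_st, hx]
  rw [this, Finset.card_pair]
  intro h'
  have h'' : (1 : Fin 3) = 2 := congrArg Prod.fst h'
  exact absurd h'' (by decide)

theorem sq_reach (x : P) (hx : x ∈ corners) : Sq.Reachable ![0, 0, 0] x := by
  have h := (mem_corners x).1 hx
  have step : ∀ y z : P, y ∈ corners → z ∈ corners → Lat.Adj y z → Sq.Reachable y z :=
    fun y z hy hz hyz => SimpleGraph.Adj.reachable ((sq_adj y z).2 ⟨hyz, hy, hz⟩)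
  have c0 : (![0, 0, 0] : P) ∈ corners := by rw [mem_corners]; simp
  have e0 : (![0, x 1, 0] : P) 0 = 0 := rfl
  have e1 : (![0, x 1, 0] : P) 1 = x 1 := rfl
  have e2 : (![0, x 1, 0] : P) 2 = 0 := rfl
  have hy : (![0, x 1, 0] : P) ∈ corners := by
    rw [mem_corners, e0, e1, e2]
    omega
  have s1 : Sq.Reachable ![0, 0, 0] ![0, x 1, 0] := by
    rcases h.2.1 with h1 | h1
    · rw [h1]
    · apply step _ _ c0 hy
      have d0 : (![0, 0, 0] : P) 0 = 0 := rfl
      have d1 : (![0, 0, 0] : P) 1 = 0 := rfl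
      have d2 : (![0, 0, 0] : P) 2 = 0 := rfl
      rw [adj_coord, e0, e1, e2, d0, d1, d2]
      omega
  refine s1.trans ?_
  rcases h.2.2 with h2 | h2
  · have : x = ![0, x 1, 0] := P_ext h.1 rfl h2
    rw [← this]
  · apply step _ _ hy hx
    rw [adj_coord, e0, e1, e2]
    omega

theorem SqF_mem : SqF ∈ PolF 4 := by
  refine ⟨?_, ?_, ?_, ?_, ?_, ?_, ?_, ?_, ?_⟩
  · rw [SqF_V]
    unfold corners
    rw [Finset.card_insert_of_notMem, Finset.card_insert_of_notMem, Finset.card_pair]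
    · intro h; have := congrFun h 1; simp at this
    · simp only [Finset.mem_insert, Finset.mem_singleton, not_or]
      constructor
      · intro h; have := congrFun h 1; simp at this
      · intro h; have := congrFun h 2; simp at this
    · simp only [Finset.mem_insert, Finset.mem_singleton, not_or]
      refine ⟨?_, ?_, ?_⟩
      · intro h; have := congrFun h 1; simp at this
      · intro h; have := congrFun h 2; simp at this
      · intro h; have := congrFun h 1; simp at this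
  · rw [SqF_V]; exact ⟨![0, 0, 0], by rw [mem_corners]; simp⟩
  · intro x
    by_cases hx : x ∈ corners
    · right; exact sq_deg x hx
    · left
      rw [deg_eq_zero SqF.le]
      intro y hy
      exact hx ((sq_adj x y).1 hy).2.1
  · intro x hx y hy
    rw [SqF_V] at hx hy
    exact (sq_reach x hx).symm.trans (sq_reach y hy)
  · rw [SqF_V]; exact ⟨![0, 0, 0], by rw [mem_corners]; simp, rfl⟩
  · intro x hx
    rw [SqF_V, mem_corners] at hx
    omega
  · rw [SqF_V]; exact ⟨![0, 0, 0], by rw [mem_corners]; simp, rfl⟩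
  · intro x hx
    rw [SqF_V, mem_corners] at hx
    omega
  · rw [SqF_V]; exact ⟨![0, 0, 0], by rw [mem_corners]; simp, rfl⟩

theorem Q4_pos (ζ γ : ℝ) : 0 < Q 4 ζ γ := by
  have h := Q_eq 4 (by norm_num) ζ γ
  have h1 : 0 < Om ⟨ζ, γ, 0⟩ (PolF 4) := by
    unfold Om
    refine lt_of_lt_of_le (wt_pos ⟨ζ, γ, 0⟩ SqF) ?_
    exact ENNReal.le_tsum (f := fun F : PolF 4 => wt ⟨ζ, γ, 0⟩ F.1) ⟨SqF, SqF_mem⟩
  rw [← h, ENNReal.ofReal_pos] at h1
  exact h1

/-- The abstract limit lemma. -/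
theorem limit_of_chain (r e : ℕ → ℝ) (a0 : ℕ) (B : ℝ) (hB : ∀ m, a0 ≤ m → r m ≤ B * (m + 1))
    (he : Tendsto (fun a : ℕ => e a / a) atTop (𝓝 0))
    (hlow : ∀ a, a0 ≤ a → ∃ D : ℝ, ∀ᶠ m : ℕ in atTop,
      (m : ℝ) / (a + 1) * (r a - e a) - D - Real.log (2 * m + 1) ≤ r m) :
    ∃ κ : ℝ, Tendsto (fun m : ℕ => r m / m) atTop (𝓝 κ) := by
  have hlogt : Tendsto (fun m : ℕ => Real.log (2 * m + 1) / m) atTop (𝓝 0) := by
    have h1 : Tendsto (fun x : ℝ => Real.log x / x) atTop (𝓝 0) := by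
      have := Real.isLittleO_log_id_atTop.tendsto_div_nhds_zero
      simpa using this
    have h2 : Tendsto (fun m : ℕ => (2 * m + 1 : ℝ)) atTop atTop := by
      apply tendsto_atTop_mono (f := fun m : ℕ => (m : ℝ))
      · intro m; have : (0 : ℝ) ≤ m := by positivity
        linarith
      · exact tendsto_natCast_atTop_atTop
    have h3 := h1.comp h2
    have h4 : Tendsto (fun m : ℕ => (2 * (m : ℝ) + 1) / m) atTop (𝓝 2) := by
      have : Tendsto (fun m : ℕ => 2 + 1 / (m : ℝ)) atTop (𝓝 (2 + 0)) :=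
        tendsto_const_nhds.add tendsto_one_div_atTop_nhds_zero_nat
      rw [add_zero] at this
      refine this.congr' ?_
      filter_upwards [eventually_gt_atTop 0] with m hm
      have : (m : ℝ) ≠ 0 := by positivity
      field_simp
    have h5 := h3.mul h4
    rw [zero_mul] at h5
    refine h5.congr ?_
    intro m
    simp only [Function.comp_apply]
    have : (2 * (m : ℝ) + 1) ≠ 0 := by positivity
    field_simp
  obtain ⟨a1, ha1⟩ : ∃ a1 : ℕ, ∀ a, a1 ≤ a → |e a / a| < 1 := by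
    have := (Metric.tendsto_atTop.1 he) 1 one_pos
    obtain ⟨N, hN⟩ := this
    exact ⟨N, fun a ha => by have := hN a ha; rwa [Real.dist_eq, sub_zero] at this⟩
  set A := max (max a0 a1) 1 with hA
  let σ : ℕ → ℝ := fun a => (r a - e a) / (a + 1)
  have hσ : ∀ a, A ≤ a → σ a ≤ B + 1 := by
    intro a ha
    have h1 : a0 ≤ a := ((le_max_left _ _).trans (le_max_left _ _)).trans ha
    have h2 : a1 ≤ a := ((le_max_right _ _).trans (le_max_left _ _)).trans ha
    have h3 : 1 ≤ a := (le_max_right _ _).trans ha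
    have h3' : (0 : ℝ) < a := by exact_mod_cast h3
    have h4 := hB a h1
    have h5 := (abs_lt.1 (ha1 a h2)).1
    have h6 : -(a : ℝ) < e a := by
      rw [lt_div_iff₀ h3'] at h5
      linarith
    simp only [σ]
    rw [div_le_iff₀ (by positivity)]
    linarith
  have hne : (σ '' Set.Ici A).Nonempty := ⟨_, A, Set.mem_Ici.2 le_rfl, rfl⟩
  have hbdd : BddAbove (σ '' Set.Ici A) := ⟨B + 1, by rintro _ ⟨a, ha, rfl⟩; exact hσ a ha⟩
  refine ⟨sSup (σ '' Set.Ici A), ?_⟩
  set κ := sSup (σ '' Set.Ici A) with hκ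
  rw [tendsto_order]
  constructor
  · intro κ' hκ'
    obtain ⟨_, ⟨a, ha, rfl⟩, hlt⟩ := exists_lt_of_lt_csSup hne hκ'
    have h1 : a0 ≤ a := ((le_max_left _ _).trans (le_max_left _ _)).trans ha
    obtain ⟨D, hD⟩ := hlow a h1
    have ht : Tendsto (fun m : ℕ => σ a - D / m - Real.log (2 * m + 1) / m) atTop
        (𝓝 (σ a - 0 - 0)) :=
      (tendsto_const_nhds.sub (tendsto_const_div_atTop_nhds_zero_nat D)).sub hlogt
    rw [sub_zero, sub_zero] at ht
    filter_upwards [ht.eventually_const_lt hlt, hD, eventually_gt_atTop 0] with m hm1 hm2 hm3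
    have hm3' : (0 : ℝ) < m := by exact_mod_cast hm3
    refine lt_of_lt_of_le hm1 ?_
    rw [le_div_iff₀ hm3']
    calc (σ a - D / m - Real.log (2 * m + 1) / m) * m
        = (m : ℝ) / (a + 1) * (r a - e a) - D - Real.log (2 * m + 1) := by
          simp only [σ]; field_simp
      _ ≤ r m := hm2
  · intro κ' hκ'
    have ht : Tendsto (fun m : ℕ => κ + κ / m + e m / m) atTop (𝓝 (κ + 0 + 0)) :=
      (tendsto_const_nhds.add (tendsto_const_div_atTop_nhds_zero_nat κ)).add he
    rw [add_zero, add_zero] at ht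
    filter_upwards [ht.eventually_lt_const hκ', eventually_ge_atTop A] with m hm1 hm2
    have hm3 : 1 ≤ m := (le_max_right _ _).trans hm2
    have hm3' : (0 : ℝ) < m := by exact_mod_cast hm3
    refine lt_of_le_of_lt ?_ hm1
    rw [div_le_iff₀ hm3']
    have h2 : σ m ≤ κ := le_csSup hbdd ⟨m, hm2, rfl⟩
    simp only [σ] at h2
    rw [div_le_iff₀ (by positivity)] at h2
    calc r m ≤ κ * (m + 1) + e m := by linarith
      _ = (κ + κ / m + e m / m) * m := by field_simp

theorem log_Kn_tendsto (c : ℝ) :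
    Tendsto (fun a : ℕ => (Real.log (Kn (2 * a)) + c) / a) atTop (𝓝 0) := by
  have hlogt : Tendsto (fun m : ℕ => Real.log (4 * m + 2) / m) atTop (𝓝 0) := by
    have h1 : Tendsto (fun x : ℝ => Real.log x / x) atTop (𝓝 0) := by
      have := Real.isLittleO_log_id_atTop.tendsto_div_nhds_zero
      simpa using this
    have h2 : Tendsto (fun m : ℕ => (4 * m + 2 : ℝ)) atTop atTop := by
      apply tendsto_atTop_mono (f := fun m : ℕ => (m : ℝ))
      · intro m; have : (0 : ℝ) ≤ m := by positivity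
        linarith
      · exact tendsto_natCast_atTop_atTop
    have h3 := h1.comp h2
    have h4 : Tendsto (fun m : ℕ => (4 * (m : ℝ) + 2) / m) atTop (𝓝 4) := by
      have : Tendsto (fun m : ℕ => 4 + 2 / (m : ℝ)) atTop (𝓝 (4 + 0)) :=
        tendsto_const_nhds.add (tendsto_const_div_atTop_nhds_zero_nat 2)
      rw [add_zero] at this
      refine this.congr' ?_
      filter_upwards [eventually_gt_atTop 0] with m hm
      have : (m : ℝ) ≠ 0 := by positivity
      field_simp
    have h5 := h3.mul h4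
    rw [zero_mul] at h5
    refine h5.congr ?_
    intro m
    simp only [Function.comp_apply]
    have : (4 * (m : ℝ) + 2) ≠ 0 := by positivity
    field_simp
  have hup : Tendsto (fun a : ℕ => 5 * (Real.log (4 * a + 2) / a) + (Real.log 4 + |c|) / a) atTop
      (𝓝 (5 * 0 + 0)) :=
    (hlogt.const_mul 5).add (tendsto_const_div_atTop_nhds_zero_nat _)
  rw [mul_zero, add_zero] at hup
  apply squeeze_zero_norm _ hup
  intro a
  have hK1 : (1 : ℝ) ≤ Kn (2 * a) := by
    have : 1 ≤ Kn (2 * a) := by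
      have : 0 < Kn (2 * a) := by unfold Kn; positivity
      omega
    exact_mod_cast this
  have hK2 : (Kn (2 * a) : ℝ) ≤ 4 * (4 * (a : ℝ) + 2) ^ 5 := by
    unfold Kn
    push_cast
    have e1 : (2 * (2 * (a : ℝ)) + 1) ≤ 4 * (a : ℝ) + 2 := by linarith
    have e2 : (2 * (a : ℝ) + 1) ≤ 4 * (a : ℝ) + 2 := by
      have : (0 : ℝ) ≤ a := by positivity
      linarith
    calc (2 * (2 * (a : ℝ)) + 1) * (4 * (2 * (a : ℝ) + 1) * (2 * (2 * (a : ℝ)) + 1) ^ 3)
        ≤ (4 * (a : ℝ) + 2) * (4 * (4 * (a : ℝ) + 2) * (4 * (a : ℝ) + 2) ^ 3) := by gcongr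
      _ = 4 * (4 * (a : ℝ) + 2) ^ 5 := by ring
  have hl0 : 0 ≤ Real.log (Kn (2 * a)) := Real.log_nonneg hK1
  have hl1 : Real.log (Kn (2 * a)) ≤ Real.log 4 + 5 * Real.log (4 * a + 2) := by
    have := Real.log_le_log (by linarith) hK2
    rw [Real.log_mul (by norm_num) (by positivity), Real.log_pow] at this
    push_cast at this
    exact this
  rw [norm_div, Real.norm_eq_abs, Real.norm_natCast]
  have habs : |Real.log (Kn (2 * a)) + c| ≤ Real.log 4 + 5 * Real.log (4 * a + 2) + |c| := by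
    refine (abs_add_le _ _).trans ?_
    rw [abs_of_nonneg hl0]
    linarith
  calc |Real.log (Kn (2 * a)) + c| / a ≤ (Real.log 4 + 5 * Real.log (4 * a + 2) + |c|) / a := by
        gcongr
    _ = 5 * (Real.log (4 * a + 2) / a) + (Real.log 4 + |c|) / a := by ring

theorem limit_exists (ζ γ : ℝ) : ∃ κ : ℝ,
    Tendsto (fun m : ℕ => Real.log (Q (2 * m) ζ γ) / (2 * m)) atTop (𝓝 κ) := by
  -- positivity
  obtain ⟨D0, hD0⟩ := log_chain ζ γ 2 (by norm_num) (Q4_pos ζ γ)
  have hpos : ∀ m : ℕ, 12 ≤ m → 0 < Q (2 * m) ζ γ := fun m hm => (hD0 m (by omega)).1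
  obtain ⟨C, hC, hQZ⟩ := Q_le_Z ζ γ
  obtain ⟨C', hC', hZ⟩ := Z_le ζ γ
  have hup : ∀ m : ℕ, 12 ≤ m → Real.log (Q (2 * m) ζ γ) ≤
      (|Real.log C| + 2 * Real.log C') * (m + 1) := by
    intro m hm
    obtain ⟨n, hn⟩ : ∃ n, 2 * m = n + 1 := ⟨2 * m - 1, by omega⟩
    have h1 := (hQZ n).1
    have h2 : Q (2 * m) ζ γ ≤ C * C' ^ (2 * m) := by
      rw [hn]
      exact h1.trans (mul_le_mul_of_nonneg_left (hZ n) hC.le)
    have h3 := Real.log_le_log (hpos m hm) h2
    rw [Real.log_mul hC.ne' (by positivity), Real.log_pow] at h3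
    push_cast at h3
    have h4 : 0 ≤ Real.log C' := Real.log_nonneg hC'
    have h5 := le_abs_self (Real.log C)
    have h6 : (0 : ℝ) ≤ m := by positivity
    have h7 := abs_nonneg (Real.log C)
    nlinarith
  obtain ⟨κ, hκ⟩ := limit_of_chain (fun m => Real.log (Q (2 * m) ζ γ))
    (fun a => Real.log (Kn (2 * a)) + 84 * C0 ⟨ζ, γ, 0⟩) 12 _ hup
    (log_Kn_tendsto _) (by
      intro a ha
      obtain ⟨D, hD⟩ := log_chain ζ γ a (by omega) (hpos a ha)
      refine ⟨D, ?_⟩
      filter_upwards [eventually_ge_atTop (4 * a + 4)] with m hm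
      exact (hD m hm).2)
  refine ⟨κ / 2, ?_⟩
  have := hκ.div_const 2
  refine this.congr ?_
  intro m
  rw [div_div, mul_comm (m : ℝ) 2]

end Poly

end Pool.Agent.Lib.MP_280b4e_pr
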