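import Pool.Agent.Lib.MP_280b4e_pr.PolyUnder
import Pool.Agent.Lib.MP_280b4e_pr.PolyLim

/-!
The free energy of the polygons exists and governs closed connected graphs in a box.
-/

namespace Pool.Agent.Lib.MP_280b4e_pr
open scoped ENNReal
open Classical Filter Topology

namespace Poly

theorem Om_theta (ζ γ θ : ℝ) (M : ℕ) :
    Om ⟨ζ, γ, θ⟩ (PolF M) = ENNReal.ofReal (Real.exp (-θ * M)) * Om ⟨ζ, γ, 0⟩ (PolF M) := by
  unfold Om
  rw [← ENNReal.tsum_mul_left]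
  apply tsum_congr
  intro F
  rw [wt_theta ζ γ θ F.1, F.2.1]

theorem pol_bounded (ζ γ κ θ : ℝ)
    (hlim : Tendsto (fun m : ℕ => Real.log (Q (2 * m) ζ γ) / (2 * m)) atTop (𝓝 κ)) (hθ : κ < θ) :
    ∃ K : ℝ, 0 ≤ K ∧ ∀ M, Om ⟨ζ, γ, θ⟩ (PolF M) ≤ ENNReal.ofReal K := by
  have hev : ∀ᶠ m : ℕ in atTop, Real.log (Q (2 * m) ζ γ) / (2 * m) < θ :=
    hlim.eventually_lt_const hθ
  obtain ⟨m0, hm0⟩ := (hev.and (eventually_gt_atTop 0)).exists_forall_of_atTop
  have hnn : ∀ m : ℕ, 0 ≤ Real.exp (-θ * (2 * m : ℕ)) * Q (2 * m) ζ γ := fun m =>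
    mul_nonneg (Real.exp_pos _).le (Q_nonneg _ _ _)
  refine ⟨1 + ∑ m ∈ Finset.range m0, Real.exp (-θ * (2 * m : ℕ)) * Q (2 * m) ζ γ,
    add_nonneg zero_le_one (Finset.sum_nonneg fun m _ => hnn m), ?_⟩
  intro M
  rcases Nat.even_or_odd M with hM | hM
  · obtain ⟨m, rfl⟩ := hM.two_dvd
    rcases Nat.eq_zero_or_pos m with rfl | hm
    · have : PolF (2 * 0) = ∅ := by
        rw [Set.eq_empty_iff_forall_notMem]
        rintro F ⟨h1, h2, -⟩
        rw [Finset.card_eq_zero.1 h1] at h2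
        exact Finset.not_nonempty_empty h2
      rw [this, Om_empty]
      exact zero_le
    · rw [Om_theta, ← Q_eq (2 * m) (by omega), ← ENNReal.ofReal_mul (Real.exp_pos _).le]
      apply ENNReal.ofReal_le_ofReal
      by_cases hlt : m < m0
      · have h1 : Real.exp (-θ * (2 * m : ℕ)) * Q (2 * m) ζ γ ≤
            ∑ m ∈ Finset.range m0, Real.exp (-θ * (2 * m : ℕ)) * Q (2 * m) ζ γ :=
          Finset.single_le_sum (f := fun m : ℕ => Real.exp (-θ * (2 * m : ℕ)) * Q (2 * m) ζ γ)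
            (fun m _ => hnn m) (Finset.mem_range.2 hlt)
        linarith
      · have h2 := (hm0 m (by omega)).1
        have hm' : (0 : ℝ) < m := by exact_mod_cast hm
        have h3 : 0 ≤ ∑ m ∈ Finset.range m0, Real.exp (-θ * (2 * m : ℕ)) * Q (2 * m) ζ γ :=
          Finset.sum_nonneg fun m _ => hnn m
        have h4 : Real.exp (-θ * (2 * m : ℕ)) * Q (2 * m) ζ γ ≤ 1 := by
          rcases (Q_nonneg (2 * m) ζ γ).eq_or_lt with hq | hq
          · rw [← hq, mul_zero]; exact zero_le_one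
          · rw [div_lt_iff₀ (by positivity)] at h2
            have h5 : Q (2 * m) ζ γ ≤ Real.exp (θ * (2 * m)) := by
              rw [← Real.log_le_iff_le_exp hq]; exact h2.le
            calc Real.exp (-θ * (2 * m : ℕ)) * Q (2 * m) ζ γ
                ≤ Real.exp (-θ * (2 * m : ℕ)) * Real.exp (θ * (2 * m)) := by gcongr
              _ = 1 := by
                rw [← Real.exp_add]
                push_cast
                rw [show -θ * (2 * (m : ℝ)) + θ * (2 * (m : ℝ)) = 0 by ring, Real.exp_zero]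
        linarith
  · rw [PolF_odd M hM, Om_empty]
    exact zero_le

theorem poly_exp (ε : ℝ) (hε : 0 < ε) (k : ℕ) : ∃ K : ℝ, 0 ≤ K ∧ ∀ N : ℕ,
    (2 * (N : ℝ) + 1) ^ k ≤ K * Real.exp (ε * N) := by
  refine ⟨(2 / ε) ^ k * k.factorial * Real.exp (ε / 2), by positivity, ?_⟩
  intro N
  have h := Real.pow_div_factorial_le_exp (ε * (2 * (N : ℝ) + 1) / 2) (by positivity) k
  rw [div_le_iff₀ (by positivity)] at h
  have h2 : Real.exp (ε * (2 * (N : ℝ) + 1) / 2) = Real.exp (ε / 2) * Real.exp (ε * N) := by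
    rw [← Real.exp_add]; congr 1; ring
  rw [h2] at h
  calc (2 * (N : ℝ) + 1) ^ k = (2 / ε) ^ k * (ε * (2 * (N : ℝ) + 1) / 2) ^ k := by
        rw [← mul_pow]; congr 1; field_simp
    _ ≤ (2 / ε) ^ k * (Real.exp (ε / 2) * Real.exp (ε * N) * k.factorial) := by gcongr
    _ = _ := by ring

end Poly

theorem polygon_limit (ζ γ : ℝ) : ∃ κ : ℝ,
    Filter.Tendsto (fun m : ℕ => Real.log (Q (2 * m) ζ γ) / (2 * m)) Filter.atTop (nhds κ) ∧
    ∀ θ : ℝ, κ < θ → SubExp (fun N => Om ⟨ζ, γ, θ⟩ (Cls 1 N ∅)) := by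
  obtain ⟨κ, hκ⟩ := Poly.limit_exists ζ γ
  refine ⟨κ, hκ, ?_⟩
  intro θ hθ ε hε
  obtain ⟨K, hK, hb⟩ := Poly.pol_bounded ζ γ κ θ hκ hθ
  obtain ⟨K', hK', hp⟩ := Poly.poly_exp ε hε 7
  set C : ℝ := Real.exp (56 * C0 ⟨ζ, γ, θ⟩) with hC
  have hC0 : 0 < C := Real.exp_pos _
  refine ⟨1 + C * (20 * K) * K', by positivity, ?_⟩
  intro N
  have h1 := Poly.cls_le ⟨ζ, γ, θ⟩ N
  have h2 : Om ⟨ζ, γ, θ⟩ (Poly.TT N) ≤ ENNReal.ofReal ((N + 5 : ℕ) * K) := by
    refine (Poly.TT_le _ N).trans ?_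
    calc ∑ M ∈ Finset.range (N + 5), Om ⟨ζ, γ, θ⟩ (PolF M)
        ≤ ∑ _M ∈ Finset.range (N + 5), ENNReal.ofReal K := Finset.sum_le_sum fun M _ => hb M
      _ = ENNReal.ofReal ((N + 5 : ℕ) * K) := by
        rw [Finset.sum_const, Finset.card_range, nsmul_eq_mul, ENNReal.ofReal_mul (by positivity),
          ENNReal.ofReal_natCast]
  refine h1.trans ?_
  calc 1 + ENNReal.ofReal C * (((4 * (2 * N + 1) ^ 6 : ℕ) : ℝ≥0∞) * Om ⟨ζ, γ, θ⟩ (Poly.TT N))
      ≤ 1 + ENNReal.ofReal C * (((4 * (2 * N + 1) ^ 6 : ℕ) : ℝ≥0∞) *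
          ENNReal.ofReal ((N + 5 : ℕ) * K)) := by gcongr
    _ = ENNReal.ofReal (1 + C * ((4 * (2 * N + 1) ^ 6 : ℕ) * ((N + 5 : ℕ) * K))) := by
        rw [ENNReal.ofReal_add zero_le_one (by positivity), ENNReal.ofReal_one,
          ENNReal.ofReal_mul hC0.le, ENNReal.ofReal_mul (p := ((4 * (2 * N + 1) ^ 6 : ℕ) : ℝ))
            (by positivity), ENNReal.ofReal_natCast]
    _ ≤ _ := by
        apply ENNReal.ofReal_le_ofReal
        have hN : (0 : ℝ) ≤ N := by positivity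
        have h5 : ((N + 5 : ℕ) : ℝ) ≤ 5 * (2 * N + 1) := by push_cast; linarith
        have h6 := hp N
        have h7 : (1 : ℝ) ≤ Real.exp (ε * N) := Real.one_le_exp (by positivity)
        calc 1 + C * (((4 * (2 * N + 1) ^ 6 : ℕ) : ℝ) * (((N + 5 : ℕ) : ℝ) * K))
            ≤ 1 + C * (((4 * (2 * N + 1) ^ 6 : ℕ) : ℝ) * ((5 * (2 * N + 1)) * K)) := by gcongr
          _ = 1 + C * (20 * K) * (2 * (N : ℝ) + 1) ^ 7 := by push_cast; ring
          _ ≤ Real.exp (ε * N) + C * (20 * K) * (K' * Real.exp (ε * N)) := by gcongr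
          _ = (1 + C * (20 * K) * K') * Real.exp (ε * N) := by ring

end Pool.Agent.Lib.MP_280b4e_pr
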