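import Pool.Agent.Lib.MP_280b4e_pr.Bridge
import Pool.Agent.Lib.MP_280b4e_pr.Cycle

/-!
Self-avoiding walks as finite graphs, comparison of polygons and walks.
-/

namespace Pool.Agent.Lib.MP_280b4e_pr
open scoped ENNReal
open Classical

/-- The box of size `N` as a finset. -/
noncomputable def boxF (N : ℕ) : Finset P := Finset.Icc (fun _ => -(N : ℤ)) (fun _ => (N : ℤ))

namespace Walks

theorem mem_boxF {N : ℕ} {x : P} : x ∈ boxF N ↔ InBox N x := by
  unfold boxF InBox
  rw [Finset.mem_Icc]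
  constructor
  · rintro ⟨h1, h2⟩ i
    exact abs_le.2 ⟨h1 i, h2 i⟩
  · intro h
    exact ⟨fun i => (abs_le.1 (h i)).1, fun i => (abs_le.1 (h i)).2⟩

variable {n : ℕ}

theorem isSAW_ne {w : Fin (n + 1) → P} (hw : IsSAW n w) (i : Fin n) :
    w i.castSucc ≠ w i.succ := (hw.2.1 i).ne

/-- The finite graph of a walk. -/
def wF (w : Fin (n + 1) → P) (hw : IsSAW n w) : FG where
  G :=
    { Adj := fun x y => s(x, y) ∈ walkEdges w
      symm := ⟨fun x y h => by rwa [Sym2.eq_swap]⟩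
      loopless := ⟨fun x h => by
        obtain ⟨i, hi⟩ := h
        rw [Sym2.eq_iff] at hi
        rcases hi with ⟨h1, h2⟩ | ⟨h1, h2⟩
        · exact isSAW_ne hw i (h1.symm.trans h2)
        · exact isSAW_ne hw i (h2.symm.trans h1)⟩ }
  le := by
    intro x y h
    obtain ⟨i, hi⟩ := h
    rw [← SimpleGraph.mem_edgeSet, hi]
    exact hw.2.1 i
  fin := by
    refine (Set.finite_range w).subset ?_
    rintro x ⟨y, i, hi⟩
    rw [Sym2.eq_iff] at hi
    rcases hi with ⟨h1, _⟩ | ⟨h1, _⟩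
    · exact ⟨_, h1.symm⟩
    · exact ⟨_, h1.symm⟩
  half := by
    rintro x ⟨y, i, hi⟩
    rw [Sym2.eq_iff] at hi
    rcases hi with ⟨h1, _⟩ | ⟨h1, _⟩
    · rw [h1]
      exact hw.2.2.2 _
    · rw [h1]
      exact hw.2.2.2 _

theorem wF_adj (w : Fin (n + 1) → P) (hw : IsSAW n w) (x y : P) :
    (wF w hw).G.Adj x y ↔ ∃ i : Fin n, s(x, y) = s(w i.castSucc, w i.succ) := Iff.rfl

theorem wF_edgeSet (w : Fin (n + 1) → P) (hw : IsSAW n w) :
    (wF w hw).G.edgeSet = walkEdges w := by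
  ext e
  induction e with
  | h x y => exact Iff.rfl

theorem wF_adj_iff (w : Fin (n + 1) → P) (hw : IsSAW n w) (i j : Fin (n + 1)) :
    (wF w hw).G.Adj (w i) (w j) ↔ i.val + 1 = j.val ∨ j.val + 1 = i.val := by
  rw [wF_adj]
  constructor
  · rintro ⟨k, hk⟩
    rw [Sym2.eq_iff] at hk
    rcases hk with ⟨h1, h2⟩ | ⟨h1, h2⟩
    · left
      rw [hw.2.2.1 h1, hw.2.2.1 h2]
      simp
    · right
      rw [hw.2.2.1 h1, hw.2.2.1 h2]
      simp
  · rintro (h | h)
    · refine ⟨⟨i.val, by omega⟩, ?_⟩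
      congr 2
      exact Fin.ext h.symm
    · refine ⟨⟨j.val, by omega⟩, ?_⟩
      rw [Sym2.eq_swap]
      congr 2
      exact Fin.ext h.symm

theorem wF_adj_mem (w : Fin (n + 1) → P) (hw : IsSAW n w) {x y : P}
    (h : (wF w hw).G.Adj x y) : ∃ i, w i = x := by
  obtain ⟨i, hi⟩ := h
  rw [Sym2.eq_iff] at hi
  rcases hi with ⟨h1, _⟩ | ⟨h1, _⟩
  · exact ⟨_, h1.symm⟩
  · exact ⟨_, h1.symm⟩

theorem wF_V (hn : 1 ≤ n) (w : Fin (n + 1) → P) (hw : IsSAW n w) (x : P) :
    x ∈ (wF w hw).V ↔ ∃ i, w i = x := by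
  rw [FG.mem_V]
  constructor
  · rintro ⟨y, h⟩
    exact wF_adj_mem w hw h
  · rintro ⟨i, rfl⟩
    by_cases h : i.val < n
    · exact ⟨w ⟨i.val + 1, by omega⟩, (wF_adj_iff w hw _ _).2 (Or.inl rfl)⟩
    · have h2 : i.val - 1 + 1 = i.val := by omega
      exact ⟨w ⟨i.val - 1, by omega⟩, (wF_adj_iff w hw _ _).2 (Or.inr h2)⟩

theorem wF_V' (hn : 1 ≤ n) (w : Fin (n + 1) → P) (hw : IsSAW n w) :
    ((wF w hw).V : Set P) = Set.range w := by
  ext x
  exact wF_V hn w hw x

theorem wF_card (hn : 1 ≤ n) (w : Fin (n + 1) → P) (hw : IsSAW n w) :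
    (wF w hw).V.card = n + 1 := by
  have : (wF w hw).V = Finset.univ.image w := by
    ext x
    rw [wF_V hn]
    simp
  rw [this, Finset.card_image_of_injective _ hw.2.2.1]
  simp

theorem wF_W (hn : 1 ≤ n) (ζ γ θ : ℝ) (w : Fin (n + 1) → P) (hw : IsSAW n w) :
    ENNReal.ofReal (weight ζ γ (Set.range w) (walkEdges w)) =
      ENNReal.ofReal (Real.exp (θ * (n + 1))) * wt ⟨ζ, γ, θ⟩ (wF w hw) := by
  unfold wt weight
  rw [W_eq, wF_V' hn, wF_edgeSet, wF_card hn, ← ENNReal.ofReal_mul (Real.exp_pos _).le,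
    ← Real.exp_add]
  congr 2
  push_cast
  ring

theorem deg_first (hn : 1 ≤ n) (w : Fin (n + 1) → P) (hw : IsSAW n w) :
    deg (wF w hw).G 0 = 1 := by
  rw [deg_eq_ncard (wF w hw).le, Set.ncard_eq_one]
  refine ⟨w ⟨1, by omega⟩, ?_⟩
  ext y
  rw [SimpleGraph.mem_neighborSet, Set.mem_singleton_iff, ← hw.1]
  constructor
  · intro h
    obtain ⟨j, rfl⟩ := wF_adj_mem w hw h.symm
    rw [wF_adj_iff] at h
    congr 1
    apply Fin.ext
    simp only [Fin.val_zero] at h
    show j.val = 1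
    omega
  · rintro rfl
    rw [wF_adj_iff]
    left
    simp

theorem deg_last (hn : 1 ≤ n) (w : Fin (n + 1) → P) (hw : IsSAW n w) :
    deg (wF w hw).G (w (Fin.last n)) = 1 := by
  rw [deg_eq_ncard (wF w hw).le, Set.ncard_eq_one]
  refine ⟨w ⟨n - 1, by omega⟩, ?_⟩
  ext y
  rw [SimpleGraph.mem_neighborSet, Set.mem_singleton_iff]
  constructor
  · intro h
    obtain ⟨j, rfl⟩ := wF_adj_mem w hw h.symm
    rw [wF_adj_iff] at h
    congr 1
    apply Fin.ext
    simp only [Fin.val_last] at h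
    show j.val = n - 1
    omega
  · rintro rfl
    rw [wF_adj_iff]
    right
    simp only [Fin.val_last]
    omega

theorem deg_other (w : Fin (n + 1) → P) (hw : IsSAW n w) (x : P) (h0 : x ≠ 0)
    (h1 : x ≠ w (Fin.last n)) : deg (wF w hw).G x = 0 ∨ deg (wF w hw).G x = 2 := by
  by_cases hx : ∃ i, w i = x
  · obtain ⟨i, rfl⟩ := hx
    right
    have hi0 : i.val ≠ 0 := by
      intro h
      apply h0
      rw [← hw.1]
      congr 1
      exact Fin.ext h
    have hin : i.val ≠ n := by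
      intro h
      apply h1
      congr 1
      exact Fin.ext h
    have hi2 := i.2
    rw [deg_eq_ncard (wF w hw).le, Set.ncard_eq_two]
    refine ⟨w ⟨i.val - 1, by omega⟩, w ⟨i.val + 1, by omega⟩, ?_, ?_⟩
    · intro h
      have := congrArg Fin.val (hw.2.2.1 h)
      simp only at this
      omega
    · ext y
      rw [SimpleGraph.mem_neighborSet, Set.mem_insert_iff, Set.mem_singleton_iff]
      constructor
      · intro h
        obtain ⟨j, rfl⟩ := wF_adj_mem w hw h.symm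
        rw [wF_adj_iff] at h
        rcases h with h | h
        · right
          congr 1
          exact Fin.ext h.symm
        · left
          congr 1
          apply Fin.ext
          show j.val = i.val - 1
          omega
      · rintro (rfl | rfl)
        · rw [wF_adj_iff]
          right
          show i.val - 1 + 1 = i.val
          omega
        · rw [wF_adj_iff]
          left
          rfl
  · left
    rw [deg_eq_zero (wF w hw).le]
    intro y hy
    exact hx (wF_adj_mem w hw hy)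

theorem coord_bound (w : Fin (n + 1) → P) (hw : IsSAW n w) (k : ℕ) (hk : k < n + 1) (j : Fin 3) :
    |w ⟨k, hk⟩ j| ≤ k := by
  induction k with
  | zero =>
    have : w ⟨0, hk⟩ = 0 := hw.1
    rw [this]
    simp
  | succ k ih =>
    have h1 := ih (by omega)
    have h2 := Bridge.coord_step (hw.2.1 ⟨k, by omega⟩) j
    simp only [Fin.castSucc_mk, Fin.succ_mk] at h2
    push_cast
    rw [abs_le] at h1 h2 ⊢
    constructor <;> linarith [h1.1, h1.2, h2.1, h2.2]

theorem reach (w : Fin (n + 1) → P) (hw : IsSAW n w) (k : ℕ) (hk : k < n + 1) :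
    (wF w hw).G.Reachable 0 (w ⟨k, hk⟩) := by
  induction k with
  | zero =>
    have : w ⟨0, hk⟩ = 0 := hw.1
    rw [this]
  | succ k ih =>
    refine (ih (by omega)).trans (SimpleGraph.Adj.reachable ?_)
    rw [wF_adj_iff]
    left
    rfl

theorem wF_mem (hn : 1 ≤ n) (w : Fin (n + 1) → P) (hw : IsSAW n w) :
    wF w hw ∈ Cls 1 (n + 1) {0, w (Fin.last n)} := by
  refine ⟨(wF_card hn w hw).le, ?_, ?_, ?_, ?_⟩
  · intro x hx j
    obtain ⟨i, rfl⟩ := (wF_V hn w hw x).1 hx
    refine (coord_bound w hw i.val i.2 j).trans ?_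
    have := i.2
    push_cast
    omega
  · intro x hx
    rw [Finset.mem_insert, Finset.mem_singleton] at hx
    rcases hx with rfl | rfl
    · exact deg_first hn w hw
    · exact deg_last hn w hw
  · intro x hx
    rw [Finset.mem_insert, Finset.mem_singleton, not_or] at hx
    exact deg_other w hw x hx.1 hx.2
  · refine ⟨{0}, by simp, ?_⟩
    rintro x ⟨y, hy⟩
    obtain ⟨i, rfl⟩ := wF_adj_mem w hw hy
    exact ⟨0, by simp, reach w hw i.val i.2⟩

theorem last_ne (hn : 1 ≤ n) (w : Fin (n + 1) → P) (hw : IsSAW n w) : w (Fin.last n) ≠ 0 := by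
  rw [← hw.1]
  intro h
  have := congrArg Fin.val (hw.2.2.1 h)
  simp only [Fin.val_last, Fin.val_zero] at this
  omega

/-- The graph and the starting point determine the walk. -/
theorem wF_inj (w w' : Fin (n + 1) → P) (hw : IsSAW n w) (hw' : IsSAW n w')
    (h : wF w hw = wF w' hw') : w = w' := by
  have key : ∀ k : ℕ, ∀ hk : k < n + 1, ∀ j ≤ k, ∀ hj : j < n + 1, w ⟨j, hj⟩ = w' ⟨j, hj⟩ := by
    intro k
    induction k with
    | zero =>
      intro hk j hj hj'
      have : j = 0 := by omega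
      subst this
      exact hw.1.trans hw'.1.symm
    | succ k ih =>
      intro hk j hj hj'
      rcases Nat.lt_or_ge j (k + 1) with h1 | h1
      · exact ih (by omega) j (by omega) hj'
      · have hjk : j = k + 1 := by omega
        subst hjk
        have e1 : (wF w' hw').G.Adj (w' ⟨k, by omega⟩) (w' ⟨k + 1, hj'⟩) :=
          (wF_adj_iff w' hw' _ _).2 (Or.inl rfl)
        rw [← h, ← ih (by omega) k le_rfl (by omega)] at e1
        obtain ⟨i, hi⟩ := wF_adj_mem w hw e1.symm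
        rw [← hi, wF_adj_iff] at e1
        rcases e1 with e1 | e1
        · rw [← hi]
          congr 1
          exact Fin.ext e1
        · exfalso
          simp only at e1
          have e2 := ih (by omega) i.val (by omega) i.2
          have e3 : w' ⟨i.val, i.2⟩ = w' ⟨k + 1, hj'⟩ := by
            rw [← e2, ← hi]
          have := congrArg Fin.val (hw'.2.2.1 e3)
          simp only at this
          omega
  funext i
  exact key n (by omega) i.val (by omega) i.2

/-- Directions of the steps. -/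
noncomputable def dirs (w : {w : Fin (n + 1) → P // IsSAW n w}) : Fin n → Dir :=
  fun i => ((adj_iff_st _ _).1 (w.2.2.1 i)).choose

theorem dirs_spec (w : {w : Fin (n + 1) → P // IsSAW n w}) (i : Fin n) :
    w.1 i.succ = w.1 i.castSucc + st (dirs w i) :=
  ((adj_iff_st _ _).1 (w.2.2.1 i)).choose_spec

theorem dirs_inj : Function.Injective (dirs (n := n)) := by
  intro w w' h
  apply Subtype.ext
  funext i
  induction i using Fin.induction with
  | zero => exact w.2.1.trans w'.2.1.symm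
  | succ i ih => rw [dirs_spec, dirs_spec, ih, h]

instance finite_SAW : Finite {w : Fin (n + 1) → P // IsSAW n w} :=
  Finite.of_injective _ (dirs_inj (n := n))

theorem ofReal_Z (n : ℕ) (ζ γ : ℝ) : ENNReal.ofReal (Z n ζ γ) =
    ∑' w : {w : Fin (n + 1) → P // IsSAW n w},
      ENNReal.ofReal (weight ζ γ (Set.range w.1) (walkEdges w.1)) := by
  have hpos : ∀ w : {w : Fin (n + 1) → P // IsSAW n w},
      0 ≤ weight ζ γ (Set.range w.1) (walkEdges w.1) := fun _ => (Real.exp_pos _).le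
  unfold Z
  rw [ENNReal.ofReal_tsum_of_nonneg hpos Summable.of_finite]

end Walks

open Walks in
theorem walks_le (ζ γ θ : ℝ) (n : ℕ) (hn : 1 ≤ n) :
    ENNReal.ofReal (Z n ζ γ) ≤ ENNReal.ofReal (Real.exp (θ * (n + 1))) *
      ∑ b ∈ (boxF n).erase 0, Om ⟨ζ, γ, θ⟩ (Cls 1 (n + 1) {0, b}) := by
  have h1 : (∑' w : {w : Fin (n + 1) → P // IsSAW n w},
      ENNReal.ofReal (weight ζ γ (Set.range w.1) (walkEdges w.1))) =
      ∑' w : {w : Fin (n + 1) → P // IsSAW n w},
        ENNReal.ofReal (Real.exp (θ * (n + 1))) * wt ⟨ζ, γ, θ⟩ (wF w.1 w.2) :=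
    tsum_congr (fun w => wF_W hn ζ γ θ w.1 w.2)
  rw [ofReal_Z, h1, ENNReal.tsum_mul_left]
  gcongr
  have hb : ∀ w : {w : Fin (n + 1) → P // IsSAW n w}, w.1 (Fin.last n) ∈ (boxF n).erase 0 := by
    intro w
    rw [Finset.mem_erase, mem_boxF]
    refine ⟨last_ne hn w.1 w.2, fun j => ?_⟩
    exact coord_bound w.1 w.2 n (by omega) j
  refine le_trans ?_ (Om_biUnion_le ⟨ζ, γ, θ⟩ ((boxF n).erase 0)
    (fun b => Cls 1 (n + 1) {0, b}))
  have hmem : ∀ w : {w : Fin (n + 1) → P // IsSAW n w}, wF w.1 w.2 ∈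
      ⋃ b ∈ (boxF n).erase 0, Cls 1 (n + 1) {0, b} := by
    intro w
    rw [Set.mem_iUnion₂]
    exact ⟨_, hb w, wF_mem hn w.1 w.2⟩
  let f : {w : Fin (n + 1) → P // IsSAW n w} →
      (⋃ b ∈ (boxF n).erase 0, Cls 1 (n + 1) {0, b} : Set FG) :=
    fun w => ⟨wF w.1 w.2, hmem w⟩
  have hf : Function.Injective f := by
    intro w w' h
    apply Subtype.ext
    apply wF_inj w.1 w'.1 w.2 w'.2
    exact congrArg Subtype.val h
  exact ENNReal.tsum_comp_le_tsum_of_injective hf (fun z => wt ⟨ζ, γ, θ⟩ z.1)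

open Walks in
theorem Z_le (ζ γ : ℝ) : ∃ C : ℝ, 1 ≤ C ∧ ∀ n, Z n ζ γ ≤ C ^ (n + 1) := by
  set c := C0 ⟨ζ, γ, 0⟩ with hc
  refine ⟨max (6 * Real.exp c) (max 1 (Z 0 ζ γ)),
    le_trans (le_max_left _ _) (le_max_right _ _), ?_⟩
  intro n
  rcases Nat.eq_zero_or_pos n with rfl | hn
  · rw [zero_add, pow_one]
    exact le_trans (le_max_right _ _) (le_max_right _ _)
  · have hfin : Finite {w : Fin (n + 1) → P // IsSAW n w} := finite_SAW
    let _ := Fintype.ofFinite {w : Fin (n + 1) → P // IsSAW n w}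
    have hw : ∀ w : {w : Fin (n + 1) → P // IsSAW n w},
        weight ζ γ (Set.range w.1) (walkEdges w.1) ≤ Real.exp (c * (n + 1)) := by
      intro w
      have h1 : weight ζ γ (Set.range w.1) (walkEdges w.1) =
          Real.exp (W ⟨ζ, γ, 0⟩ (wF w.1 w.2)) := by
        unfold weight
        rw [W_eq, wF_V' hn, wF_edgeSet]
        simp
      rw [h1]
      apply Real.exp_le_exp.2
      have h2 := abs_sum_phi_le ⟨ζ, γ, 0⟩ (wF w.1 w.2) (wF w.1 w.2).V
      rw [wF_card hn] at h2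
      have h3 := (abs_le.1 h2).2
      push_cast at h3
      exact h3
    have hcard : (Fintype.card {w : Fin (n + 1) → P // IsSAW n w} : ℝ) ≤ 6 ^ n := by
      have h1 := Fintype.card_le_of_injective _ (dirs_inj (n := n))
      have h2 : Fintype.card (Fin n → Dir) = 6 ^ n := by
        rw [Fintype.card_fun]
        simp [Dir]
      rw [h2] at h1
      exact_mod_cast h1
    calc Z n ζ γ = ∑ w : {w : Fin (n + 1) → P // IsSAW n w},
          weight ζ γ (Set.range w.1) (walkEdges w.1) := by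
          unfold Z
          rw [tsum_fintype]
      _ ≤ ∑ _w : {w : Fin (n + 1) → P // IsSAW n w}, Real.exp (c * (n + 1)) :=
          Finset.sum_le_sum fun w _ => hw w
      _ = Fintype.card {w : Fin (n + 1) → P // IsSAW n w} * Real.exp (c * (n + 1)) := by
          rw [Finset.sum_const, nsmul_eq_mul, Finset.card_univ]
      _ ≤ 6 ^ n * Real.exp (c * (n + 1)) := by gcongr
      _ ≤ 6 ^ (n + 1) * Real.exp (c * (n + 1)) := by
          gcongr
          · norm_num
          · omega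
      _ = (6 * Real.exp c) ^ (n + 1) := by
          rw [mul_pow, ← Real.exp_nat_mul]
          congr 2
          push_cast
          ring
      _ ≤ _ := by
          gcongr
          exact le_max_left _ _

namespace Walks

/-- Translation of edges. -/
def tre (x : P) : Sym2 P → Sym2 P := Sym2.map (fun y => y + x)

theorem add_inj' (x : P) : Function.Injective (fun y : P => y + x) :=
  fun _ _ h => add_right_cancel h

theorem tre_inj (x : P) : Function.Injective (tre x) := Sym2.map.injective (add_inj' x)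

theorem lat_add (x y z : P) : Lat.Adj (y + x) (z + x) ↔ Lat.Adj y z := by
  rw [adj_iff, adj_iff]
  simp

theorem visits_trans (x : P) (hx : x 0 = 0) (S : Set P) :
    visits ((fun y => y + x) '' S) = visits S := by
  unfold visits
  rw [← Set.ncard_image_of_injective {y ∈ S | y 0 = 0} (add_inj' x)]
  congr 1
  ext y
  constructor
  · rintro ⟨⟨z, hz, rfl⟩, h0⟩
    refine ⟨z, ⟨hz, ?_⟩, rfl⟩
    simpa [hx] using h0
  · rintro ⟨z, ⟨hz, h0⟩, rfl⟩
    exact ⟨⟨z, hz, rfl⟩, by simp [hx, h0]⟩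

theorem contacts_trans (x : P) (S : Set P) (E : Set (Sym2 P)) :
    contacts ((fun y => y + x) '' S) (tre x '' E) = contacts S E := by
  unfold contacts
  rw [← Set.ncard_image_of_injective {e ∈ Lat.edgeSet | (∀ y ∈ e, y ∈ S) ∧ e ∉ E} (tre_inj x)]
  congr 1
  ext e
  constructor
  · rintro ⟨h1, h2, h3⟩
    obtain ⟨e', rfl⟩ : ∃ e', tre x e' = e := by
      induction e with
      | h a b => exact ⟨s(a - x, b - x), by simp [tre]⟩
    refine ⟨e', ⟨?_, ?_, ?_⟩, rfl⟩
    · induction e' with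
      | h a b =>
        rw [tre, Sym2.map_mk, SimpleGraph.mem_edgeSet] at h1
        exact (lat_add x a b).1 h1
    · intro y hy
      obtain ⟨z, hz, hzy⟩ := h2 (y + x) (Sym2.mem_map.2 ⟨y, hy, rfl⟩)
      rw [← add_right_cancel hzy]
      exact hz
    · intro h
      exact h3 ⟨e', h, rfl⟩
  · rintro ⟨e', ⟨h1, h2, h3⟩, rfl⟩
    refine ⟨?_, ?_, ?_⟩
    · induction e' with
      | h a b =>
        rw [tre, Sym2.map_mk, SimpleGraph.mem_edgeSet]
        exact (lat_add x a b).2 h1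
    · intro y hy
      obtain ⟨z, hz, rfl⟩ := Sym2.mem_map.1 hy
      exact ⟨z, h2 z hz, rfl⟩
    · rintro ⟨e'', h4, h5⟩
      rw [tre_inj x h5] at h4
      exact h3 h4

theorem finite_in {S : Set P} (hS : S.Finite) : {e : Sym2 P | ∀ y ∈ e, y ∈ S}.Finite := by
  refine ((hS.prod hS).image (fun q : P × P => s(q.1, q.2))).subset ?_
  intro e
  induction e with
  | h a b =>
    intro h
    exact ⟨(a, b), ⟨h a (Sym2.mem_mk_left a b), h b (Sym2.mem_mk_right a b)⟩, rfl⟩

theorem star_ncard (z : P) : {e ∈ Lat.edgeSet | z ∈ e}.Finite ∧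
    {e ∈ Lat.edgeSet | z ∈ e}.ncard ≤ 6 := by
  have h : {e ∈ Lat.edgeSet | z ∈ e} ⊆ Set.range (fun d : Dir => s(z, z + st d)) := by
    rintro e ⟨h1, h2⟩
    obtain ⟨y, rfl⟩ := h2
    rw [SimpleGraph.mem_edgeSet, adj_iff_st] at h1
    obtain ⟨d, rfl⟩ := h1
    exact ⟨d, rfl⟩
  refine ⟨(Set.finite_range _).subset h, ?_⟩
  refine (Set.ncard_le_ncard h (Set.finite_range _)).trans ?_
  rw [← Set.image_univ]
  refine (Set.ncard_image_le Set.finite_univ).trans ?_
  rw [Set.ncard_univ, Nat.card_eq_fintype_card]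
  simp [Dir]

/-- Adding a point `z` and edges at `z` changes the number of contacts by at most six. -/
theorem contacts_close (S S' : Set P) (E E' : Set (Sym2 P)) (z : P) (hS : S.Finite)
    (h1 : S' ⊆ S) (h2 : ∀ y ∈ S, y = z ∨ y ∈ S') (hE : E' ⊆ E) (hE2 : ∀ e ∈ E, e ∈ E' ∨ z ∈ e) :
    contacts S E ≤ contacts S' E' + 6 ∧ contacts S' E' ≤ contacts S E + 6 := by
  unfold contacts
  obtain ⟨hf, hc⟩ := star_ncard z
  have hA : {e ∈ Lat.edgeSet | (∀ x ∈ e, x ∈ S) ∧ e ∉ E}.Finite :=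
    (finite_in hS).subset fun e he => he.2.1
  have hB : {e ∈ Lat.edgeSet | (∀ x ∈ e, x ∈ S') ∧ e ∉ E'}.Finite :=
    (finite_in (hS.subset h1)).subset fun e he => he.2.1
  constructor
  · have hsub : {e ∈ Lat.edgeSet | (∀ x ∈ e, x ∈ S) ∧ e ∉ E} ⊆
        {e ∈ Lat.edgeSet | (∀ x ∈ e, x ∈ S') ∧ e ∉ E'} ∪ {e ∈ Lat.edgeSet | z ∈ e} := by
      rintro e ⟨he1, he2, he3⟩
      by_cases hz : z ∈ e
      · exact Or.inr ⟨he1, hz⟩
      · left
        refine ⟨he1, fun y hy => ?_, fun h => he3 (hE h)⟩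
        rcases h2 y (he2 y hy) with rfl | h
        · exact absurd hy hz
        · exact h
    have := (Set.ncard_le_ncard hsub (hB.union hf)).trans (Set.ncard_union_le _ _)
    omega
  · have hsub : {e ∈ Lat.edgeSet | (∀ x ∈ e, x ∈ S') ∧ e ∉ E'} ⊆
        {e ∈ Lat.edgeSet | (∀ x ∈ e, x ∈ S) ∧ e ∉ E} ∪ {e ∈ Lat.edgeSet | z ∈ e} := by
      rintro e ⟨he1, he2, he3⟩
      by_cases hz : z ∈ e
      · exact Or.inr ⟨he1, hz⟩
      · left
        refine ⟨he1, fun y hy => h1 (he2 y hy), fun h => ?_⟩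
        rcases hE2 e h with h | h
        · exact he3 h
        · exact hz h
    have := (Set.ncard_le_ncard hsub (hA.union hf)).trans (Set.ncard_union_le _ _)
    omega

theorem visits_close (S S' : Set P) (z : P) (hS : S.Finite)
    (h1 : S' ⊆ S) (h2 : ∀ y ∈ S, y = z ∨ y ∈ S') :
    visits S ≤ visits S' + 1 ∧ visits S' ≤ visits S + 1 := by
  unfold visits
  constructor
  · have hsub : {x ∈ S | x 0 = 0} ⊆ {x ∈ S' | x 0 = 0} ∪ {z} := by
      rintro y ⟨hy, h0⟩
      rcases h2 y hy with rfl | h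
      · exact Or.inr rfl
      · exact Or.inl ⟨h, h0⟩
    have h3 : {x ∈ S' | x 0 = 0}.Finite := (hS.subset h1).subset fun y hy => hy.1
    have := (Set.ncard_le_ncard hsub (h3.union (Set.finite_singleton z))).trans
      (Set.ncard_union_le _ _)
    rw [Set.ncard_singleton] at this
    exact this
  · have hsub : {x ∈ S' | x 0 = 0} ⊆ {x ∈ S | x 0 = 0} := fun y hy => ⟨h1 hy.1, hy.2⟩
    have h3 : {x ∈ S | x 0 = 0}.Finite := hS.subset fun y hy => hy.1
    exact (Set.ncard_le_ncard hsub h3).trans (Nat.le_succ _)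

theorem weight_close (ζ γ : ℝ) (S S' : Set P) (E E' : Set (Sym2 P)) (z : P) (hS : S.Finite)
    (h1 : S' ⊆ S) (h2 : ∀ y ∈ S, y = z ∨ y ∈ S') (hE : E' ⊆ E) (hE2 : ∀ e ∈ E, e ∈ E' ∨ z ∈ e) :
    weight ζ γ S E ≤ Real.exp (|ζ| + 6 * |γ|) * weight ζ γ S' E' := by
  unfold weight
  rw [← Real.exp_add]
  apply Real.exp_le_exp.2
  obtain ⟨c1, c2⟩ := contacts_close S S' E E' z hS h1 h2 hE hE2
  obtain ⟨v1, v2⟩ := visits_close S S' z hS h1 h2
  have c1' : (contacts S E : ℝ) ≤ contacts S' E' + 6 := by exact_mod_cast c1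
  have c2' : (contacts S' E' : ℝ) ≤ contacts S E + 6 := by exact_mod_cast c2
  have v1' : (visits S : ℝ) ≤ visits S' + 1 := by exact_mod_cast v1
  have v2' : (visits S' : ℝ) ≤ visits S + 1 := by exact_mod_cast v2
  have hv : ζ * ((visits S : ℝ) - visits S') ≤ |ζ| := by
    have h3 : |(visits S : ℝ) - visits S'| ≤ 1 := by
      rw [abs_le]
      constructor <;> linarith
    calc ζ * ((visits S : ℝ) - visits S') ≤ |ζ * ((visits S : ℝ) - visits S')| := le_abs_self _
      _ = |ζ| * |(visits S : ℝ) - visits S'| := abs_mul _ _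
      _ ≤ |ζ| * 1 := by gcongr
      _ = |ζ| := mul_one _
  have hc : γ * ((contacts S E : ℝ) - contacts S' E') ≤ 6 * |γ| := by
    have h3 : |(contacts S E : ℝ) - contacts S' E'| ≤ 6 := by
      rw [abs_le]
      constructor <;> linarith
    calc γ * ((contacts S E : ℝ) - contacts S' E')
        ≤ |γ * ((contacts S E : ℝ) - contacts S' E')| := le_abs_self _
      _ = |γ| * |(contacts S E : ℝ) - contacts S' E'| := abs_mul _ _
      _ ≤ |γ| * 6 := by gcongr
      _ = 6 * |γ| := mul_comm _ _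
  linarith

/-- Closed edge set of an enumeration. -/
def cyc {m : ℕ} (v : Fin (m + 1) → P) : Set (Sym2 P) := walkEdges v ∪ {s(v (Fin.last m), v 0)}

/-- `v` enumerates a translate of `F` parallel to the wall. -/
def Enc {m : ℕ} (F : FG) (v : Fin (m + 1) → P) : Prop :=
  ∃ x : P, x 0 = 0 ∧ ∀ y z, F.G.Adj (y + x) (z + x) ↔ s(y, z) ∈ cyc v

theorem Enc_uniq {m k k' : ℕ} {F F' : FG} {v : Fin (m + 1) → P} (hF : F ∈ PolF k)
    (hF' : F' ∈ PolF k') (h : Enc F v) (h' : Enc F' v) : F = F' := by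
  obtain ⟨x, hx, h⟩ := h
  obtain ⟨x', hx', h'⟩ := h'
  obtain ⟨-, -, -, -, -, a1, ⟨p, hp, hp0⟩, a2, ⟨q, hq, hq0⟩⟩ := hF
  obtain ⟨-, -, -, -, -, b1, ⟨p', hp', hp0'⟩, b2, ⟨q', hq', hq0'⟩⟩ := hF'
  have key : ∀ y z, F.G.Adj y z ↔ F'.G.Adj (y + (x' - x)) (z + (x' - x)) := by
    intro y z
    have e1 := h (y - x) (z - x)
    have e2 := h' (y - x) (z - x)
    rw [sub_add_cancel, sub_add_cancel] at e1
    rw [e1, ← e2]
    have e3 : ∀ y : P, y - x + x' = y + (x' - x) := fun y => by abel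
    rw [e3, e3]
  have hV : ∀ y, y ∈ F.V → y + (x' - x) ∈ F'.V := by
    intro y hy
    obtain ⟨z, hz⟩ := FG.mem_V.1 hy
    exact FG.mem_V_left ((key y z).1 hz)
  have hV' : ∀ y, y ∈ F'.V → y - (x' - x) ∈ F.V := by
    intro y hy
    obtain ⟨z, hz⟩ := FG.mem_V.1 hy
    have := (key (y - (x' - x)) (z - (x' - x))).2 (by
      rw [sub_add_cancel, sub_add_cancel]
      exact hz)
    exact FG.mem_V_left this
  have t0 : (x' - x) 0 = 0 := by simp [hx, hx']
  have t1 : (x' - x) 1 = 0 := by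
    have e1 := b1 _ (hV p hp)
    have e2 := a1 _ (hV' p' hp')
    simp only [Pi.add_apply, Pi.sub_apply] at e1 e2 ⊢
    omega
  have t2 : (x' - x) 2 = 0 := by
    have e1 := b2 _ (hV q hq)
    have e2 := a2 _ (hV' q' hq')
    simp only [Pi.add_apply, Pi.sub_apply] at e1 e2 ⊢
    omega
  have ht : x' - x = 0 := P_ext t0 t1 t2
  apply FG.ext'
  intro y z
  rw [key, ht, add_zero, add_zero]

/-- A polygon is enumerated starting at a wall vertex. -/
theorem exists_enc (ζ γ : ℝ) {m : ℕ} {F : FG} (hF : F ∈ PolF (m + 1)) :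
    ∃ v : Fin (m + 1) → P, Enc F v ∧ v 0 = 0 ∧ Function.Injective v ∧ (∀ i, 0 ≤ v i 0) ∧
      (∀ i : Fin m, Lat.Adj (v i.castSucc) (v i.succ)) ∧ Lat.Adj (v (Fin.last m)) (v 0) ∧
      wt ⟨ζ, γ, 0⟩ F = ENNReal.ofReal (weight ζ γ (Set.range v) (cyc v)) := by
  obtain ⟨x, hx, hx0⟩ := hF.2.2.2.2.1
  obtain ⟨w, hw0, hwi, hwV, hwA⟩ := exists_cycle_enum F hF.2.2.1 hF.2.2.2.1 x hx m hF.1
  have hEnc : ∀ y z, F.G.Adj (y + x) (z + x) ↔ s(y, z) ∈ cyc (fun i => w i - x) := by
    intro y z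
    have key : ∀ a b : P, s(y + x, z + x) = s(a, b) ↔ s(y, z) = s(a - x, b - x) := by
      intro a b
      rw [Sym2.eq_iff, Sym2.eq_iff]
      simp only [eq_sub_iff_add_eq]
    rw [hwA]
    unfold cyc walkEdges
    rw [Set.mem_union, Set.mem_singleton_iff, Set.mem_ofPred_eq, key]
    simp only [key]
  have hrange : (F.V : Set P) = (fun y => y + x) '' Set.range (fun i => w i - x) := by
    ext y
    rw [Finset.mem_coe, hwV]
    constructor
    · rintro ⟨i, rfl⟩
      exact ⟨w i - x, ⟨i, rfl⟩, by simp⟩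
    · rintro ⟨_, ⟨i, rfl⟩, rfl⟩
      exact ⟨i, by simp⟩
  have hedge : F.G.edgeSet = tre x '' cyc (fun i => w i - x) := by
    ext e
    induction e with
    | h a b =>
      rw [SimpleGraph.mem_edgeSet]
      constructor
      · intro h
        refine ⟨s(a - x, b - x), ?_, by simp [tre]⟩
        rw [← hEnc, sub_add_cancel, sub_add_cancel]
        exact h
      · rintro ⟨e', he', h⟩
        induction e' with
        | h a' b' =>
          rw [← hEnc] at he'
          rw [tre, Sym2.map_mk] at h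
          rw [← SimpleGraph.mem_edgeSet, ← h]
          exact he'
  refine ⟨fun i => w i - x, ⟨x, hx0, hEnc⟩, ?_, ?_, ?_, ?_, ?_, ?_⟩
  · simp [hw0]
  · intro i j hij
    exact hwi (sub_left_injective hij)
  · intro i
    have : 0 ≤ w i 0 := F.nonneg ((hwV _).2 ⟨i, rfl⟩)
    simpa [hx0] using this
  · intro i
    have h1 : F.G.Adj (w i.castSucc) (w i.succ) := (hwA _ _).2 (Or.inl ⟨i, rfl⟩)
    have h2 := (lat_add x (w i.castSucc - x) (w i.succ - x)).1
    rw [sub_add_cancel, sub_add_cancel] at h2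
    exact h2 (F.le h1)
  · have h1 : F.G.Adj (w (Fin.last m)) (w 0) := (hwA _ _).2 (Or.inr rfl)
    have h2 := (lat_add x (w (Fin.last m) - x) (w 0 - x)).1
    rw [sub_add_cancel, sub_add_cancel] at h2
    exact h2 (F.le h1)
  · unfold wt weight
    rw [W_eq, hrange, hedge, contacts_trans, visits_trans x hx0]
    simp

theorem le_of_transfer (ζ γ : ℝ) (n m : ℕ) (hm : 1 ≤ m) {ι : Type} (L : Finset ι)
    (hL : L.card ≤ 6) (R : FG → ι → (Fin (n + 1) → P) → Prop)
    (hex : ∀ F ∈ PolF m, ∃ l ∈ L, ∃ v, IsSAW n v ∧ R F l v ∧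
      wt ⟨ζ, γ, 0⟩ F ≤ ENNReal.ofReal (Real.exp (|ζ| + 6 * |γ|)) *
        ENNReal.ofReal (weight ζ γ (Set.range v) (walkEdges v)))
    (huniq : ∀ F ∈ PolF m, ∀ F' ∈ PolF m, ∀ l v, R F l v → R F' l v → F = F') :
    Q m ζ γ ≤ (6 * Real.exp (|ζ| + 6 * |γ|)) * Z n ζ γ := by
  have h := tsum_transfer (PolF m) {v | IsSAW n v} L (wt ⟨ζ, γ, 0⟩)
    (fun v => ENNReal.ofReal (weight ζ γ (Set.range v) (walkEdges v)))
    (ENNReal.ofReal (Real.exp (|ζ| + 6 * |γ|))) R hex huniq
  have h1 : ENNReal.ofReal (Q m ζ γ) ≤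
      ENNReal.ofReal (6 * Real.exp (|ζ| + 6 * |γ|) * Z n ζ γ) := by
    rw [Q_eq m hm]
    refine h.trans ?_
    have h2 : (∑' v : {v : Fin (n + 1) → P | IsSAW n v},
        ENNReal.ofReal (weight ζ γ (Set.range v.1) (walkEdges v.1))) =
        ENNReal.ofReal (Z n ζ γ) := (ofReal_Z n ζ γ).symm
    rw [h2, ENNReal.ofReal_mul (by positivity), ENNReal.ofReal_mul (by norm_num),
      mul_comm (ENNReal.ofReal 6), mul_assoc]
    gcongr
    have h3 : (6 : ℝ≥0∞) = ((6 : ℕ) : ℝ≥0∞) := by norm_num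
    have h4 : ENNReal.ofReal 6 = ((6 : ℕ) : ℝ≥0∞) := by
      rw [← h3]
      simp
    rw [h4]
    exact_mod_cast hL
  exact (ENNReal.ofReal_le_ofReal_iff (mul_nonneg (by positivity) (Z_nonneg n ζ γ))).1 h1

end Walks

open Walks in
theorem Q_le_Z (ζ γ : ℝ) : ∃ C : ℝ, 0 < C ∧ ∀ n, Q (n + 1) ζ γ ≤ C * Z n ζ γ ∧
    Q (n + 2) ζ γ ≤ C * Z n ζ γ := by
  refine ⟨6 * Real.exp (|ζ| + 6 * |γ|), by positivity, fun n => ⟨?_, ?_⟩⟩
  · refine le_of_transfer ζ γ n (n + 1) (by omega) ({()} : Finset Unit) (by simp)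
      (fun F _ v => Enc F v) ?_ ?_
    · intro F hF
      obtain ⟨v, hE, h0, hi, hh, ha, _, hw⟩ := exists_enc ζ γ hF
      refine ⟨(), by simp, v, ⟨h0, ha, hi, hh⟩, hE, ?_⟩
      rw [hw, ← ENNReal.ofReal_mul (Real.exp_pos _).le]
      apply ENNReal.ofReal_le_ofReal
      refine weight_close ζ γ _ _ _ _ (v (Fin.last n)) (Set.finite_range v) (le_refl _)
        (fun y hy => Or.inr hy) Set.subset_union_left ?_
      rintro e (he | he)
      · exact Or.inl he
      · right
        rw [Set.mem_singleton_iff.1 he]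
        exact Sym2.mem_mk_left _ _
    · intro F hF F' hF' l v h h'
      exact Enc_uniq hF hF' h h'
  · refine le_of_transfer ζ γ n (n + 2) (by omega) (Finset.univ : Finset Dir) (by simp [Dir])
      (fun F d v => Enc F (Fin.snoc (α := fun _ => P) v (st d) : Fin (n + 2) → P)) ?_ ?_
    · intro F hF
      obtain ⟨v, hE, h0, hi, hh, ha, hc, hw⟩ := exists_enc (m := n + 1) ζ γ hF
      rw [h0] at hc
      obtain ⟨d, hd⟩ := (adj_iff_st _ _).1 hc.symm
      rw [zero_add] at hd
      have hsnoc : (Fin.snoc (α := fun _ => P) (fun i : Fin (n + 1) => v i.castSucc) (st d) :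
          Fin (n + 2) → P) = v := by
        rw [← hd]
        exact Fin.snoc_init_self v
      refine ⟨d, Finset.mem_univ _, fun i => v i.castSucc, ⟨h0, ?_, ?_, ?_⟩, ?_, ?_⟩
      · intro i
        exact ha i.castSucc
      · intro i j hij
        exact Fin.castSucc_injective _ (hi hij)
      · intro i
        exact hh _
      · rw [hsnoc]
        exact hE
      · rw [hw, ← ENNReal.ofReal_mul (Real.exp_pos _).le]
        apply ENNReal.ofReal_le_ofReal
        refine weight_close ζ γ _ _ _ _ (v (Fin.last (n + 1))) (Set.finite_range v) ?_ ?_ ?_ ?_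
        · rintro _ ⟨i, rfl⟩
          exact ⟨i.castSucc, rfl⟩
        · rintro _ ⟨i, rfl⟩
          induction i using Fin.lastCases with
          | last => exact Or.inl rfl
          | cast i => exact Or.inr ⟨i, rfl⟩
        · rintro _ ⟨i, rfl⟩
          exact Or.inl ⟨i.castSucc, rfl⟩
        · rintro e (⟨i, rfl⟩ | he)
          · induction i using Fin.lastCases with
            | last =>
              right
              rw [Fin.succ_last]
              exact Sym2.mem_mk_right _ _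
            | cast i => exact Or.inl ⟨i, rfl⟩
          · right
            rw [Set.mem_singleton_iff.1 he]
            exact Sym2.mem_mk_left _ _
    · intro F hF F' hF' l v h h'
      exact Enc_uniq hF hF' h h'

end Pool.Agent.Lib.MP_280b4e_pr
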