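import Pool.Agent.Lib.MP_280b4e_pr.Upper
import Pool.Agent.Lib.MP_280b4e_pr.Walks
import Pool.Agent.Lib.MP_280b4e_pr.Poly

/-!
Assembly: walks and polygons have the same free energy.
-/

namespace Pool.Agent.Lib.MP_280b4e_pr

open scoped ENNReal Topology
open Classical Filter

theorem Q_pos (ζ γ : ℝ) : ∃ m0 : ℕ, ∀ m ≥ m0, 0 < Q (2 * m) ζ γ := by
  obtain ⟨D, hD⟩ := Poly.log_chain ζ γ 2 (by norm_num) (Poly.Q4_pos ζ γ)
  exact ⟨12, fun m hm => (hD m (by omega)).1⟩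

/-- Upper bound for the walks. -/
theorem Z_upper (ζ γ θ : ℝ) (hS : ∀ c, SubExp (fun N => Om ⟨ζ, γ, θ⟩ (Cls c N ∅))) (ε : ℝ)
    (hε : 0 < ε) : ∃ K : ℝ, 0 < K ∧ ∀ n : ℕ, 1 ≤ n → Z n ζ γ ≤ K * Real.exp ((θ + ε) * n) := by
  obtain ⟨K₁, hK₁, h1⟩ := all_pairs ⟨ζ, γ, θ⟩ hS 1 (ε / 2) (by positivity)
  obtain ⟨K₂, hK₂, h2⟩ := SubExp_poly 2 1 3 (ε / 2) (by positivity)
  refine ⟨Real.exp θ * Real.exp (ε / 2) * K₂ * K₁ + 1, by positivity, fun n hn => ?_⟩
  have key := walks_le ζ γ θ n hn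
  have h3 : ∑ b ∈ (boxF n).erase 0, Om ⟨ζ, γ, θ⟩ (Cls 1 (n + 1) {0, b}) ≤
      ENNReal.ofReal (K₂ * Real.exp (ε / 2 * n)) *
        ENNReal.ofReal (K₁ * Real.exp (ε / 2 * (n + 1 : ℕ))) := by
    refine (Finset.sum_le_sum fun b _ => h1 (n + 1) 0 b).trans ?_
    rw [Finset.sum_const, nsmul_eq_mul]
    refine mul_le_mul' (le_trans ?_ (h2 n)) le_rfl
    have h4 : ((boxF n).erase 0).card ≤ (2 * n + 1) ^ 3 := by
      refine (Finset.card_erase_le).trans (le_of_eq ?_)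
      exact card_cubeF n
    show (((boxF n).erase 0).card : ℝ≥0∞) ≤ (((2 * n + 1) ^ 3 : ℕ) : ℝ≥0∞)
    exact_mod_cast h4
  have h5 := key.trans (mul_le_mul' le_rfl h3)
  rw [← ENNReal.ofReal_mul (by positivity), ← ENNReal.ofReal_mul (by positivity)] at h5
  have h6 := (ENNReal.ofReal_le_ofReal_iff (by positivity)).1 h5
  refine h6.trans ?_
  have h7 : Real.exp (θ * (n + 1)) * (K₂ * Real.exp (ε / 2 * n) *
      (K₁ * Real.exp (ε / 2 * (n + 1 : ℕ)))) =
      (Real.exp θ * Real.exp (ε / 2) * K₂ * K₁) * Real.exp ((θ + ε) * n) := by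
    have e1 : Real.exp ((θ + ε) * n) = Real.exp (θ * n) * Real.exp (ε / 2 * n) *
        Real.exp (ε / 2 * n) := by
      rw [← Real.exp_add, ← Real.exp_add]; congr 1; ring
    have e2 : Real.exp (θ * (n + 1)) = Real.exp θ * Real.exp (θ * n) := by
      rw [← Real.exp_add]; congr 1; ring
    have e3 : Real.exp (ε / 2 * (n + 1 : ℕ)) = Real.exp (ε / 2) * Real.exp (ε / 2 * n) := by
      rw [← Real.exp_add]; congr 1; push_cast; ring
    rw [e1, e2, e3]; ring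
  rw [h7]
  have := Real.exp_pos ((θ + ε) * n)
  nlinarith

theorem tendsto_of_bounds (κ : ℝ) (a : ℕ → ℝ)
    (hlow : ∀ δ > 0, ∀ᶠ n in atTop, κ - δ ≤ a n)
    (hup : ∀ δ > 0, ∀ᶠ n in atTop, a n ≤ κ + δ) : Tendsto a atTop (𝓝 κ) := by
  rw [Metric.tendsto_atTop']
  intro ε hε
  obtain ⟨n1, h1⟩ := eventually_atTop.1 (hlow (ε / 2) (by positivity))
  obtain ⟨n2, h2⟩ := eventually_atTop.1 (hup (ε / 2) (by positivity))
  refine ⟨max n1 n2, fun n hn => ?_⟩
  have h3 := h1 n (by have := le_max_left n1 n2; omega)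
  have h4 := h2 n (by have := le_max_right n1 n2; omega)
  rw [Real.dist_eq, abs_lt]
  constructor <;> linarith

/-- The walks have the free energy of the polygons. -/
theorem main (ζ γ : ℝ) : ∃ κ : ℝ,
    Tendsto (fun m : ℕ => Real.log (Q (2 * m) ζ γ) / (2 * m)) atTop (𝓝 κ) ∧
    Tendsto (fun n : ℕ => Real.log (Z n ζ γ) / n) atTop (𝓝 κ) := by
  obtain ⟨κ, hκ, hθ⟩ := polygon_limit ζ γ
  obtain ⟨m0, hm0⟩ := Q_pos ζ γ
  obtain ⟨C, hC, hCZ⟩ := Q_le_Z ζ γ
  refine ⟨κ, hκ, ?_⟩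
  have hcmp : ∀ n : ℕ, Q (2 * (n / 2 + 1)) ζ γ ≤ C * Z n ζ γ := by
    intro n
    rcases Nat.even_or_odd n with h | h
    · have : 2 * (n / 2 + 1) = n + 2 := by have := Nat.even_iff.1 h; omega
      rw [this]; exact (hCZ n).2
    · have : 2 * (n / 2 + 1) = n + 1 := by have := Nat.odd_iff.1 h; omega
      rw [this]; exact (hCZ n).1
  have hZpos : ∀ n : ℕ, 2 * m0 ≤ n → 0 < Z n ζ γ := by
    intro n hn
    have h1 := hm0 (n / 2 + 1) (by omega)
    have h2 := hcmp n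
    by_contra hcon
    push Not at hcon
    nlinarith
  have hhalf : Tendsto (fun n : ℕ => n / 2 + 1) atTop atTop := by
    refine tendsto_atTop.2 fun b => ?_
    filter_upwards [eventually_ge_atTop (2 * b)] with n hn
    omega
  have hb : Tendsto (fun n : ℕ => Real.log (Q (2 * (n / 2 + 1)) ζ γ) /
      (2 * ((n / 2 + 1 : ℕ) : ℝ))) atTop (𝓝 κ) := hκ.comp hhalf
  refine tendsto_of_bounds κ _ ?_ ?_
  · intro δ hδ
    have hb1 := (tendsto_order.1 hb).1 (κ - δ / 2) (by linarith)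
    have hb2 := (tendsto_order.1 hb).2 (|κ| + 1) (by have := le_abs_self κ; linarith)
    have hb3 := (tendsto_order.1 hb).1 (-(|κ| + 1)) (by have := neg_abs_le κ; linarith)
    obtain ⟨M, hM⟩ := exists_nat_ge ((2 * (|κ| + 1) + |Real.log C|) / (δ / 2))
    filter_upwards [hb1, hb2, hb3, eventually_ge_atTop (2 * m0), eventually_ge_atTop (M + 1)]
      with n h1 h2 h3 h4 h5
    have hn0 : (0 : ℝ) < n := by
      have : 0 < n := by omega
      exact_mod_cast this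
    set b := Real.log (Q (2 * (n / 2 + 1)) ζ γ) / (2 * ((n / 2 + 1 : ℕ) : ℝ)) with hbdef
    have hmpos : (0 : ℝ) < 2 * ((n / 2 + 1 : ℕ) : ℝ) := by positivity
    have hlogQ : Real.log (Q (2 * (n / 2 + 1)) ζ γ) = b * (2 * ((n / 2 + 1 : ℕ) : ℝ)) := by
      rw [hbdef]; field_simp
    have hQ := hm0 (n / 2 + 1) (by omega)
    have hlog : Real.log (Q (2 * (n / 2 + 1)) ζ γ) ≤ Real.log C + Real.log (Z n ζ γ) := by
      rw [← Real.log_mul hC.ne' (hZpos n h4).ne']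
      exact Real.log_le_log hQ (hcmp n)
    have hm1 : (n : ℝ) ≤ 2 * ((n / 2 + 1 : ℕ) : ℝ) := by
      have : n ≤ 2 * (n / 2 + 1) := by omega
      exact_mod_cast this
    have hm2 : 2 * ((n / 2 + 1 : ℕ) : ℝ) ≤ n + 2 := by
      have : 2 * (n / 2 + 1) ≤ n + 2 := by omega
      exact_mod_cast this
    rw [le_div_iff₀ hn0]
    have h6 : (2 * (|κ| + 1) + |Real.log C|) ≤ δ / 2 * n := by
      rw [div_le_iff₀ (by positivity)] at hM
      have : (M : ℝ) ≤ n := by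
        have : M ≤ n := by omega
        exact_mod_cast this
      nlinarith
    have h7 := le_abs_self (Real.log C)
    have h8 : b * (2 * ((n / 2 + 1 : ℕ) : ℝ)) ≥ b * n - 2 * (|κ| + 1) := by
      have h9 : |b * (2 * ((n / 2 + 1 : ℕ) : ℝ) - n)| ≤ (|κ| + 1) * 2 := by
        rw [abs_mul]
        have h10 : |b| ≤ |κ| + 1 := abs_le.2 ⟨h3.le, h2.le⟩
        have h11 : |2 * ((n / 2 + 1 : ℕ) : ℝ) - n| ≤ 2 := abs_le.2 ⟨by linarith, by linarith⟩
        exact mul_le_mul h10 h11 (abs_nonneg _) (by positivity)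
      have := (abs_le.1 h9).1
      nlinarith
    have h12 : (κ - δ / 2) * n ≤ b * n := by
      exact mul_le_mul_of_nonneg_right h1.le hn0.le
    nlinarith
  · intro δ hδ
    have hS := closed_subExp ⟨ζ, γ, κ + δ / 4⟩ (hθ (κ + δ / 4) (by linarith))
    obtain ⟨K, hK, hKn⟩ := Z_upper ζ γ (κ + δ / 4) hS (δ / 4) (by positivity)
    obtain ⟨M, hM⟩ := exists_nat_ge (|Real.log K| / (δ / 2))
    filter_upwards [eventually_ge_atTop (2 * m0), eventually_ge_atTop (M + 1)] with n h4 h5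
    have hn0 : (0 : ℝ) < n := by
      have : 0 < n := by omega
      exact_mod_cast this
    have h1 := hKn n (by omega)
    have h2 := Real.log_le_log (hZpos n h4) h1
    rw [Real.log_mul hK.ne' (Real.exp_pos _).ne', Real.log_exp] at h2
    rw [div_le_iff₀ hn0]
    have h6 : |Real.log K| ≤ δ / 2 * n := by
      rw [div_le_iff₀ (by positivity)] at hM
      have : (M : ℝ) ≤ n := by
        have : M ≤ n := by omega
        exact_mod_cast this
      nlinarith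
    have h7 := le_abs_self (Real.log K)
    nlinarith

end Pool.Agent.Lib.MP_280b4e_pr
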