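import Pool.Agent.Lib.MP_280b4e_pr.Basic

/-!
Exponential growth bounds for sequences in the extended nonnegative reals.
-/

namespace Pool.Agent.Lib.MP_280b4e_pr

open scoped ENNReal
open Classical

/-- `f N` is at most a constant times `exp (ε N)`. -/
def GE (ε : ℝ) (f : ℕ → ℝ≥0∞) : Prop :=
  ∃ K : ℝ, 0 ≤ K ∧ ∀ N : ℕ, f N ≤ ENNReal.ofReal (K * Real.exp (ε * N))

theorem subExp_iff {f : ℕ → ℝ≥0∞} : SubExp f ↔ ∀ ε : ℝ, 0 < ε → GE ε f := Iff.rfl

theorem GE.mono {ε : ℝ} {f g : ℕ → ℝ≥0∞} (hg : GE ε g) (h : ∀ N, f N ≤ g N) : GE ε f := by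
  obtain ⟨K, hK, hg⟩ := hg
  exact ⟨K, hK, fun N => (h N).trans (hg N)⟩

theorem GE.rate {ε ε' : ℝ} {f : ℕ → ℝ≥0∞} (hf : GE ε f) (h : ε ≤ ε') : GE ε' f := by
  obtain ⟨K, hK, hf⟩ := hf
  refine ⟨K, hK, fun N => (hf N).trans (ENNReal.ofReal_le_ofReal ?_)⟩
  gcongr

theorem GE.add {ε : ℝ} {f g : ℕ → ℝ≥0∞} (hf : GE ε f) (hg : GE ε g) :
    GE ε (fun N => f N + g N) := by
  obtain ⟨K, hK, hf⟩ := hf
  obtain ⟨L, hL, hg⟩ := hg
  refine ⟨K + L, by positivity, fun N => ?_⟩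
  rw [add_mul, ENNReal.ofReal_add (by positivity) (by positivity)]
  exact add_le_add (hf N) (hg N)

theorem GE.mul {ε ε' : ℝ} {f g : ℕ → ℝ≥0∞} (hf : GE ε f) (hg : GE ε' g) :
    GE (ε + ε') (fun N => f N * g N) := by
  obtain ⟨K, hK, hf⟩ := hf
  obtain ⟨L, hL, hg⟩ := hg
  refine ⟨K * L, by positivity, fun N => ?_⟩
  have : K * L * Real.exp ((ε + ε') * N) = (K * Real.exp (ε * N)) * (L * Real.exp (ε' * N)) := by
    rw [add_mul, Real.exp_add]; ring
  rw [this, ENNReal.ofReal_mul (by positivity)]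
  exact mul_le_mul' (hf N) (hg N)

theorem GE_exp (c d : ℝ) : GE c (fun N => ENNReal.ofReal (Real.exp (c * N + d))) := by
  refine ⟨Real.exp d, (Real.exp_pos _).le, fun N => ENNReal.ofReal_le_ofReal ?_⟩
  rw [Real.exp_add, mul_comm]

theorem GE_exp' {c c' : ℝ} (d : ℝ) (h : c ≤ c') :
    GE c' (fun N => ENNReal.ofReal (Real.exp (c * N + d))) := (GE_exp c d).rate h

theorem GE_const {ε : ℝ} (hε : 0 ≤ ε) (a : ℝ) : GE ε (fun _ => ENNReal.ofReal a) := by
  refine ⟨|a|, abs_nonneg _, fun N => ENNReal.ofReal_le_ofReal ?_⟩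
  have h1 : 1 ≤ Real.exp (ε * N) := Real.one_le_exp (by positivity)
  have h2 := le_abs_self a
  have h3 := abs_nonneg a
  nlinarith

theorem GE_natConst {ε : ℝ} (hε : 0 ≤ ε) (a : ℕ) : GE ε (fun _ => (a : ℝ≥0∞)) := by
  have := GE_const hε (a : ℝ)
  refine this.mono fun N => ?_
  rw [ENNReal.ofReal_natCast]

theorem GE.comp {ε : ℝ} {f : ℕ → ℝ≥0∞} (hf : GE ε f) (a b : ℕ) :
    GE (ε * a) (fun N => f (a * N + b)) := by
  obtain ⟨K, hK, hf⟩ := hf
  refine ⟨K * Real.exp (ε * b), by positivity, fun N => (hf _).trans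
    (ENNReal.ofReal_le_ofReal ?_)⟩
  rw [mul_assoc, ← Real.exp_add]
  push_cast
  have : ε * (a * N + b) = ε * b + ε * a * N := by ring
  rw [this]

theorem SubExp.mono {f g : ℕ → ℝ≥0∞} (hg : SubExp g) (h : ∀ N, f N ≤ g N) : SubExp f :=
  fun ε hε => GE.mono (hg ε hε) h

theorem SubExp.add {f g : ℕ → ℝ≥0∞} (hf : SubExp f) (hg : SubExp g) :
    SubExp (fun N => f N + g N) := fun ε hε => GE.add (hf ε hε) (hg ε hε)

theorem SubExp.mul {f g : ℕ → ℝ≥0∞} (hf : SubExp f) (hg : SubExp g) :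
    SubExp (fun N => f N * g N) := fun ε hε => by
  have := GE.mul (hf (ε / 2) (by positivity)) (hg (ε / 2) (by positivity))
  rwa [add_halves] at this

theorem SubExp.comp {f : ℕ → ℝ≥0∞} (hf : SubExp f) (a b : ℕ) :
    SubExp (fun N => f (a * N + b)) := fun ε hε => by
  have h1 : (0 : ℝ) < (a : ℝ) + 1 := by positivity
  have := GE.comp (ε := ε / (a + 1)) (hf _ (by positivity)) a b
  refine this.rate ?_
  rw [div_mul_eq_mul_div, div_le_iff₀ h1]
  nlinarith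

theorem SubExp_const (a : ℝ) : SubExp (fun _ => ENNReal.ofReal a) :=
  fun _ hε => GE_const hε.le a

theorem SubExp_natConst (a : ℕ) : SubExp (fun _ => (a : ℝ≥0∞)) :=
  fun _ hε => GE_natConst hε.le a

theorem SubExp_lin (a b : ℕ) : SubExp (fun N => ((a * N + b : ℕ) : ℝ≥0∞)) := by
  intro ε hε
  refine ⟨a / ε + b, by positivity, fun N => ?_⟩
  show ((a * N + b : ℕ) : ℝ≥0∞) ≤ _
  rw [← ENNReal.ofReal_natCast]
  refine ENNReal.ofReal_le_ofReal ?_
  push_cast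
  have h1 : ε * N ≤ Real.exp (ε * N) := by
    have := Real.add_one_le_exp (ε * N); linarith
  have h2 : 1 ≤ Real.exp (ε * N) := Real.one_le_exp (by positivity)
  have h3 : (a : ℝ) * N ≤ a / ε * Real.exp (ε * N) := by
    have h4 : (a : ℝ) * N = a / ε * (ε * N) := by field_simp
    rw [h4]
    exact mul_le_mul_of_nonneg_left h1 (by positivity)
  have h5 : (b : ℝ) ≤ b * Real.exp (ε * N) := by
    have : (0 : ℝ) ≤ b := by positivity
    nlinarith
  rw [add_mul]; linarith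

theorem SubExp_pow {f : ℕ → ℝ≥0∞} (hf : SubExp f) (d : ℕ) : SubExp (fun N => f N ^ d) := by
  induction d with
  | zero =>
    simp only [pow_zero]
    exact (SubExp_natConst 1).mono fun N => by simp
  | succ d ih =>
    simp only [pow_succ]
    exact ih.mul hf

theorem SubExp_poly (a b d : ℕ) : SubExp (fun N => (((a * N + b) ^ d : ℕ) : ℝ≥0∞)) := by
  have := SubExp_pow (SubExp_lin a b) d
  refine this.mono fun N => ?_
  push_cast; exact le_rfl

/-- The box of size `N` as a finset. -/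
noncomputable def cubeF (N : ℕ) : Finset P := Finset.Icc (fun _ => -(N : ℤ)) (fun _ => (N : ℤ))

theorem mem_cubeF {N : ℕ} {x : P} : x ∈ cubeF N ↔ InBox N x := by
  unfold cubeF InBox
  rw [Finset.mem_Icc, Pi.le_def, Pi.le_def]
  constructor
  · rintro ⟨h1, h2⟩ i; rw [abs_le]; exact ⟨h1 i, h2 i⟩
  · intro h; exact ⟨fun i => (abs_le.1 (h i)).1, fun i => (abs_le.1 (h i)).2⟩

theorem card_cubeF (N : ℕ) : (cubeF N).card = (2 * N + 1) ^ 3 := by
  unfold cubeF
  rw [Pi.card_Icc]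
  simp only [Int.card_Icc, Finset.prod_const, Finset.card_univ, Fintype.card_fin]
  congr 1
  omega

end Pool.Agent.Lib.MP_280b4e_pr
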