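import Pool.Agent.Lib.MP_280b4e_pr.Expand

/-!
Local changes of finite graphs: energies and components.
-/

namespace Pool.Agent.Lib.MP_280b4e_pr

open Classical

/-- `Z` together with its lattice neighbours. -/
noncomputable def nbhd (Z : Finset P) : Finset P :=
  Z ∪ (Finset.univ : Finset Dir).biUnion fun d => Z.image fun x => x + st d

theorem nbhd_card (Z : Finset P) : (nbhd Z).card ≤ 7 * Z.card := by
  unfold nbhd
  refine (Finset.card_union_le _ _).trans ?_
  have h1 : ((Finset.univ : Finset Dir).biUnion fun d => Z.image fun x => x + st d).card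
      ≤ 6 * Z.card := by
    refine Finset.card_biUnion_le.trans ?_
    refine (Finset.sum_le_sum fun d _ => Finset.card_image_le).trans ?_
    simp
  omega

theorem subset_nbhd (Z : Finset P) : Z ⊆ nbhd Z := Finset.subset_union_left

theorem mem_nbhd_of_adj {Z : Finset P} {x y : P} (h : Lat.Adj x y) (hx : x ∈ Z) : y ∈ nbhd Z := by
  obtain ⟨d, rfl⟩ := (adj_iff_st _ _).1 h
  refine Finset.mem_union_right _ (Finset.mem_biUnion.2 ⟨d, Finset.mem_univ _, ?_⟩)
  exact Finset.mem_image_of_mem _ hx

/-- Two finite graphs which differ only on pairs of points of `Z` have close energies. -/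
theorem W_local (p : Par) (F F' : FG) (Z : Finset P)
    (h : ∀ x y, ¬ (x ∈ Z ∧ y ∈ Z) → (F.G.Adj x y ↔ F'.G.Adj x y)) :
    |W p F - W p F'| ≤ 14 * C0 p * Z.card := by
  have hV : ∀ x, x ∉ Z → (x ∈ F.V ↔ x ∈ F'.V) := by
    intro x hx
    rw [FG.mem_V, FG.mem_V]
    exact exists_congr fun y => h x y fun hh => hx hh.1
  have key := W_compare p F F' id (nbhd Z) (7 * Z.card) (Function.injective_id.injOn) ?_ ?_
    (nbhd_card Z) ?_
  · refine key.trans (le_of_eq ?_)
    push_cast; ring
  · intro x hx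
    rw [Finset.mem_sdiff] at hx
    exact (hV x fun hh => hx.2 (subset_nbhd Z hh)).1 hx.1
  · intro x hx
    rw [Finset.mem_sdiff] at hx
    have hxZ : x ∉ Z := fun hh => hx.2 (subset_nbhd Z hh)
    refine phi_congr' p Iff.rfl ?_ ?_
    · intro d
      refine hV _ fun hh => hx.2 ?_
      exact mem_nbhd_of_adj (adj_st x d).symm hh
    · intro d
      exact h _ _ fun hh => hxZ hh.1
  · refine le_trans (Finset.card_le_card ?_) (nbhd_card Z)
    intro x hx
    rw [Finset.mem_sdiff, Finset.mem_image] at hx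
    by_contra hn
    have hxZ : x ∉ Z := fun hh => hn (subset_nbhd Z hh)
    exact hx.2 ⟨x, Finset.mem_sdiff.2 ⟨(hV x hxZ).2 hx.1, hn⟩, rfl⟩

/-- Components under a local change. -/
theorem rooted_local {G G' : SimpleGraph P} (Z ρ ρ' Zv : Finset P)
    (h : ∀ x y, G.Adj x y → ¬ (x ∈ Z ∧ y ∈ Z) → G'.Adj x y)
    (hρ : ∀ x ∈ G.support, ∃ r ∈ ρ, G.Reachable r x)
    (hρ' : ∀ x ∈ G'.support, x ∈ G.support ∨ ∃ z ∈ ρ', G'.Reachable z x)
    (hZv : ∀ x ∈ Z, x ∈ G.support → x ∈ Zv) :
    ∀ x ∈ G'.support, ∃ r ∈ ρ ∪ Zv ∪ ρ', G'.Reachable r x := by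
  intro x hx
  rcases hρ' x hx with hx | ⟨z, hz, hzx⟩
  · obtain ⟨r, hr, hrx⟩ := hρ x hx
    have key : ∀ y, G.Reachable r y → (∃ z ∈ ρ ∪ Zv, G'.Reachable z y) := by
      intro y hy
      rw [SimpleGraph.reachable_iff_reflTransGen] at hy
      induction hy with
      | refl => exact ⟨r, Finset.mem_union_left _ hr, SimpleGraph.Reachable.refl _⟩
      | @tail a b _ hab ih =>
        by_cases hb : b ∈ Z
        · exact ⟨b, Finset.mem_union_right _ (hZv b hb ⟨a, hab.symm⟩), SimpleGraph.Reachable.refl _⟩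
        · obtain ⟨z, hz, hza⟩ := ih
          exact ⟨z, hz, hza.trans (h a b hab fun hh => hb hh.2).reachable⟩
    obtain ⟨z, hz, hzx⟩ := key x hrx
    exact ⟨z, Finset.mem_union_left _ hz, hzx⟩
  · exact ⟨z, Finset.mem_union_right _ hz, hzx⟩

namespace Bx

variable (B : Bx)

/-- Points not next to a cut plane. -/
def clear (u : P) : Prop :=
  ∀ i, (u i ≠ B.r i ∧ u i ≠ B.r i + 1) ∧
    ((i = 0 ∧ B.l 0 = 0) ∨ (u i ≠ B.l i - 1 ∧ u i ≠ B.l i))

theorem ex_add_st {u : P} (hc : B.clear u) (h0 : 0 ≤ u 0) (d : Dir) (h1 : 0 ≤ (u + st d) 0) :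
    B.ex (u + st d) = B.ex u + st d := by
  obtain ⟨i, b⟩ := d
  funext j
  by_cases hj : j = i
  · subst hj
    have hcj := hc j
    have hl := B.hlr j
    have hwall : j = 0 ∧ B.l 0 = 0 → B.l j = 0 ∧ 0 ≤ u j := by
      rintro ⟨rfl, h⟩; exact ⟨h, h0⟩
    have hwall' : j = 0 ∧ B.l 0 = 0 → b = false → 1 ≤ u j := by
      rintro ⟨rfl, h⟩ rfl
      simp [st] at h1; omega
    have hkey : (B.l j = 0 ∧ 0 ≤ u j ∧ (b = false → 1 ≤ u j)) ∨
        (u j ≠ B.l j - 1 ∧ u j ≠ B.l j) := by
      rcases hcj.2 with hw | hw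
      · exact Or.inl ⟨(hwall hw).1, (hwall hw).2, hwall' hw⟩
      · exact Or.inr hw
    have hcj1 := hcj.1
    clear hwall hwall' hcj
    cases b
    · have e1 : (u + st (j, false)) j = u j - 1 := by simp [st]; ring
      have e2 : (B.ex u + st (j, false)) j = B.ex u j - 1 := by simp [st]; ring
      rw [e2]
      simp only [ex, e1, ex1]
      simp only [forall_const] at hkey
      split_ifs <;> omega
    · have e1 : (u + st (j, true)) j = u j + 1 := by simp [st]
      have e2 : (B.ex u + st (j, true)) j = B.ex u j + 1 := by simp [st]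
      rw [e2]
      simp only [ex, e1, ex1]
      split_ifs <;> omega
  · have e1 : (u + st (i, b)) j = u j := by simp [st, hj]
    have e2 : (B.ex u + st (i, b)) j = B.ex u j := by simp [st, hj]
    rw [e2]
    simp only [ex, e1]

theorem mem_V_Ex_st {F : FG} {u : P} (hu : u ∈ F.V) (hc : B.clear u) (d : Dir) :
    u + st d ∈ F.V ↔ B.ex u + st d ∈ (B.Ex F).V := by
  have h0 := FG.nonneg hu
  by_cases h1 : 0 ≤ (u + st d) 0
  · rw [← B.ex_add_st hc h0 d h1, mem_V_Ex_ex]
  · constructor
    · intro h; exact absurd (FG.nonneg h) h1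
    · intro h
      exfalso
      have h2 := FG.nonneg h
      obtain ⟨i, b⟩ := d
      have h3 : i = 0 ∧ b = false ∧ u 0 = 0 := by
        simp only [st, Pi.add_apply] at h1
        split_ifs at h1 with h4 h5
        · omega
        · exact ⟨h4.symm, by simpa using h5, by omega⟩
        · omega
      obtain ⟨rfl, rfl, h4⟩ := h3
      have h5 := (B.ex_zero_iff h0).2 h4
      simp [st, h5] at h2

theorem phi_Ex (p : Par) {F : FG} {u : P} (hu : u ∈ F.V) (hc : B.clear u) :
    phi p F u = phi p (B.Ex F) (B.ex u) := by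
  refine phi_congr' p (B.ex_zero_iff (FG.nonneg hu)).symm (B.mem_V_Ex_st hu hc) ?_
  intro d
  exact (B.ExG_adj_ex F.le u d).symm

/-- Vertices next to a cut plane. -/
noncomputable def blk (F : FG) : Finset P := F.V.filter fun u => ¬ B.clear u

theorem new_subset (F : FG) : (B.Ex F).V \ F.V.image B.ex ⊆
    (B.blk F ×ˢ (Finset.univ : Finset (Fin 3 × Bool))).image
      (fun z => B.ex z.1 + (if z.2.2 then 1 else 2 : ℤ) • e z.2.1) := by
  intro x hx
  rw [Finset.mem_sdiff] at hx
  obtain ⟨hx, hx'⟩ := hx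
  have hd := B.dn_mem_V hx
  have hcor : ∃ i, B.cor i x := by
    by_contra hc
    push Not at hc
    exact hx' (Finset.mem_image.2 ⟨_, hd, B.ex_dn hc⟩)
  obtain ⟨i, hi⟩ := hcor
  obtain ⟨d, hxd⟩ := FG.mem_V_st.1 hx
  obtain ⟨-, h2, h3⟩ := (B.ExG_adj_cor F.le hi d).1 hxd
  have h0 := FG.nonneg hd
  have hl := B.hlr i
  have hw := B.hw
  refine Finset.mem_image.2 ⟨(B.dn x, i, if x i = B.ex (B.dn x) i + 1 then true else false), ?_, ?_⟩
  · refine Finset.mem_product.2 ⟨?_, Finset.mem_univ _⟩
    refine Finset.mem_filter.2 ⟨hd, ?_⟩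
    intro hc
    have hci := hc i
    have hdi : B.dn x i = B.r i ∨ B.dn x i = B.l i - 1 := by
      simp only [cor, cor1] at hi
      simp only [dn, dn1]; split_ifs <;> omega
    rcases hdi with hdi | hdi
    · exact hci.1.1 hdi
    · rcases hci.2 with ⟨h5, h4⟩ | h4
      · subst h5; omega
      · exact h4.1 hdi
  · funext j
    by_cases hj : j = i
    · subst hj
      have h5 := B.ex_dn_le x j
      have h6 : x j ≠ B.ex (B.dn x) j := by
        intro h7
        have := B.not_cor_ex j (B.dn x)
        simp only [cor, h7] at hi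
        exact this hi
      by_cases h8 : x j = B.ex (B.dn x) j + 1
      · simp [e, h8]
      · simp [e, h8]; omega
    · have h5 : B.ex (B.dn x) j = x j := ex1_dn1 (B.hlr j) (h2 j hj)
      by_cases h8 : x i = B.ex (B.dn x) i + 1
      · simp [e, hj, h5, h8]
      · simp [e, hj, h5, h8]

theorem new_card (F : FG) : ((B.Ex F).V \ F.V.image B.ex).card ≤ 6 * (B.blk F).card := by
  refine (Finset.card_le_card (B.new_subset F)).trans ?_
  refine Finset.card_image_le.trans ?_
  rw [Finset.card_product]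
  simp [mul_comm]

theorem card_V_Ex (F : FG) : (B.Ex F).V.card ≤ F.V.card + 6 * (B.blk F).card := by
  have h1 := B.new_card F
  have h2 : (B.Ex F).V ⊆ F.V.image B.ex ∪ ((B.Ex F).V \ F.V.image B.ex) := by
    intro x hx
    by_cases h : x ∈ F.V.image B.ex
    · exact Finset.mem_union_left _ h
    · exact Finset.mem_union_right _ (Finset.mem_sdiff.2 ⟨hx, h⟩)
  have h3 := (Finset.card_le_card h2).trans (Finset.card_union_le _ _)
  have h4 : (F.V.image B.ex).card ≤ F.V.card := Finset.card_image_le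
  omega

theorem W_Ex (p : Par) (F : FG) :
    |W p F - W p (B.Ex F)| ≤ 14 * C0 p * (B.blk F).card := by
  have key := W_compare p F (B.Ex F) B.ex (B.blk F) (7 * (B.blk F).card)
    (B.ex_injective.injOn) ?_ ?_ (by omega) ?_
  · refine key.trans (le_of_eq ?_)
    push_cast; ring
  · intro x hx
    rw [Finset.mem_sdiff] at hx
    exact (B.mem_V_Ex_ex F x).2 hx.1
  · intro x hx
    rw [Finset.mem_sdiff] at hx
    refine B.phi_Ex p hx.1 ?_
    by_contra hc
    exact hx.2 (Finset.mem_filter.2 ⟨hx.1, hc⟩)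
  · have h2 : (B.Ex F).V \ (F.V \ B.blk F).image B.ex ⊆
        ((B.Ex F).V \ F.V.image B.ex) ∪ (B.blk F).image B.ex := by
      intro x hx
      rw [Finset.mem_sdiff] at hx
      by_cases h : x ∈ F.V.image B.ex
      · obtain ⟨u, hu, rfl⟩ := Finset.mem_image.1 h
        refine Finset.mem_union_right _ (Finset.mem_image_of_mem _ ?_)
        by_contra hb
        exact hx.2 (Finset.mem_image_of_mem _ (Finset.mem_sdiff.2 ⟨hu, hb⟩))
      · exact Finset.mem_union_left _ (Finset.mem_sdiff.2 ⟨hx.1, h⟩)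
    have h3 := (Finset.card_le_card h2).trans (Finset.card_union_le _ _)
    have h4 : ((B.blk F).image B.ex).card ≤ (B.blk F).card := Finset.card_image_le
    have h5 := B.new_card F
    omega

/-! ### Reachability -/

theorem dn_step {G : SimpleGraph P} (hG : G ≤ Lat) {x y : P} (h : (B.ExG G).Adj x y) :
    G.Reachable (B.dn x) (B.dn y) := by
  have main : ∀ (x : P) (i : Fin 3), (B.ExG G).Adj x (x + e i) →
      G.Reachable (B.dn x) (B.dn (x + e i)) := by
    intro x i h
    obtain ⟨h1, h2⟩ := (B.ExG_adj_e hG x i).1 h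
    have h3 : B.dn (x + e i) = B.dn x ∨ B.dn (x + e i) = B.dn x + e i := by
      have h4 : (x + e i) i = x i + 1 := by simp [e]
      rcases dn1_succ (X := x i) (o := B.off i) (B.hlr i) with h5 | h5
      · left
        funext j
        by_cases hj : j = i
        · subst hj; simp only [dn, h4]; exact h5
        · have : (x + e i) j = x j := by simp [e, hj]
          simp only [dn, this]
      · right
        funext j
        by_cases hj : j = i
        · subst hj
          have h6 : (B.dn x + e j) j = B.dn x j + 1 := by simp [e]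
          rw [h6]; simp only [dn, h4]; exact h5
        · have : (x + e i) j = x j := by simp [e, hj]
          simp [dn, this, e, hj]
    rcases h3 with h3 | h3
    · rw [h3]
    · rw [h3]; exact h2.reachable
  obtain ⟨i, rfl | rfl⟩ := (adj_iff_e _ _).1 h.1
  · exact main x i h
  · exact (main y i h.symm).symm

theorem reach_dn {G : SimpleGraph P} (hG : G ≤ Lat) {x y : P} (h : (B.ExG G).Reachable x y) :
    G.Reachable (B.dn x) (B.dn y) := by
  rw [SimpleGraph.reachable_iff_reflTransGen] at h
  induction h with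
  | refl => exact SimpleGraph.Reachable.refl _
  | tail _ hab ih => exact ih.trans (B.dn_step hG hab)

/-- Points of a stretched edge. -/
theorem reach_stretch {G : SimpleGraph P} (hG : G ≤ Lat) {u : P} {i : Fin 3}
    (h : G.Adj u (u + e i)) (k : ℕ) (hk : k ≤ 3) (hk' : 2 ≤ k → u i = B.r i ∨ u i + 1 = B.l i) :
    (B.ExG G).Reachable (B.ex u) (B.ex u + (k : ℤ) • e i) := by
  induction k with
  | zero => simp
  | succ k ih =>
    have ih' := ih (by omega) (fun h2 => hk' (by omega))
    refine ih'.trans (SimpleGraph.Adj.reachable ?_)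
    have e1 : B.ex u + ((k + 1 : ℕ) : ℤ) • e i = B.ex u + (k : ℤ) • e i + e i := by
      push_cast; rw [add_smul, one_smul, add_assoc]
    rw [e1, B.ExG_adj_e hG]
    have e2 : B.dn (B.ex u + (k : ℤ) • e i) = u := by
      funext j
      by_cases hj : j = i
      · subst hj
        have e3 : (B.ex u + (k : ℤ) • e j) j = B.ex u j + k := by simp [e]
        simp only [dn, e3]
        rcases Nat.eq_zero_or_pos k with rfl | hpos
        · simp only [Nat.cast_zero, add_zero]; exact dn1_ex1 (B.hlr j)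
        · exact dn1_ex1_add (B.hlr j) (hk' (by omega)) (by omega) (by omega)
      · have e3 : (B.ex u + (k : ℤ) • e i) j = B.ex u j := by simp [e, hj]
        simp only [dn, e3]; exact dn1_ex1 (B.hlr j)
    rw [e2]
    refine ⟨?_, h⟩
    intro j hj
    have e3 : (B.ex u + (k : ℤ) • e i) j = B.ex u j := by simp [e, hj]
    simp only [cor, e3]; exact not_cor1_ex1 (B.hlr j)

theorem reach_ex_adj {G : SimpleGraph P} (hG : G ≤ Lat) {u v : P} (h : G.Adj u v) :
    (B.ExG G).Reachable (B.ex u) (B.ex v) := by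
  have main : ∀ (u : P) (i : Fin 3), G.Adj u (u + e i) →
      (B.ExG G).Reachable (B.ex u) (B.ex (u + e i)) := by
    intro u i h
    have h4 : (u + e i) i = u i + 1 := by simp [e]
    rcases ex1_succ (t := u i) (o := B.off i) (B.hlr i) with h5 | h5
    · have h6 := B.reach_stretch hG h 1 (by omega) (by omega)
      convert h6 using 1
      funext j
      by_cases hj : j = i
      · subst hj; simp only [ex, h4]; rw [h5.1]; simp [e, ex]
      · have : (u + e i) j = u j := by simp [e, hj]
        simp [ex, this, e, hj]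
    · have h6 := B.reach_stretch hG h 3 (by omega) (by omega)
      convert h6 using 1
      funext j
      by_cases hj : j = i
      · subst hj; simp only [ex, h4]; rw [h5.1]; simp [e, ex]
      · have : (u + e i) j = u j := by simp [e, hj]
        simp [ex, this, e, hj]
  obtain ⟨i, rfl | rfl⟩ := (adj_iff_e _ _).1 (hG h)
  · exact main u i h
  · exact (main v i h.symm).symm

theorem reach_ex {G : SimpleGraph P} (hG : G ≤ Lat) {u v : P} (h : G.Reachable u v) :
    (B.ExG G).Reachable (B.ex u) (B.ex v) := by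
  rw [SimpleGraph.reachable_iff_reflTransGen] at h
  induction h with
  | refl => exact SimpleGraph.Reachable.refl _
  | tail _ hab ih => exact ih.trans (B.reach_ex_adj hG hab)

theorem reach_ex_dn {G : SimpleGraph P} (hG : G ≤ Lat) {x : P} (hx : x ∈ (B.ExG G).support) :
    (B.ExG G).Reachable (B.ex (B.dn x)) x := by
  by_cases hc : ∃ i, B.cor i x
  · obtain ⟨i, hi⟩ := hc
    obtain ⟨y, hy⟩ := hx
    obtain ⟨d, rfl⟩ := (adj_iff_st _ _).1 hy.1
    obtain ⟨-, h2, h3⟩ := (B.ExG_adj_cor hG hi d).1 hy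
    have h5 := B.ex_dn_le x i
    have hl := B.hlr i
    have hdi : B.dn x i = B.r i ∨ B.dn x i + 1 = B.l i := by
      simp only [cor, cor1] at hi
      simp only [dn, dn1]; split_ifs <;> omega
    have h6 := B.reach_stretch hG h3 (x i - B.ex (B.dn x) i).toNat (by omega) (fun _ => hdi)
    convert h6 using 1
    funext j
    by_cases hj : j = i
    · subst hj
      simp only [Pi.add_apply, Pi.smul_apply, e, if_true, smul_eq_mul, mul_one]
      omega
    · have h7 : B.ex (B.dn x) j = x j := ex1_dn1 (B.hlr j) (h2 j hj)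
      simp [e, hj, h7]
  · have hc' : ∀ i, ¬ B.cor i x := fun i hi => hc ⟨i, hi⟩
    rw [B.ex_dn hc']

end Bx

end Pool.Agent.Lib.MP_280b4e_pr
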