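import Pool.Agent.Lib.MP_280b4e_pr.Local

/-!
Existence of boxes whose bounding planes carry few vertices.
-/

namespace Pool.Agent.Lib.MP_280b4e_pr

open Classical

theorem window (V : Finset P) (i : Fin 3) (t0 : ℤ) (τ : ℕ) (hτ : 1 ≤ τ) :
    ∃ t : ℤ, t0 ≤ t ∧ t < t0 + τ ∧
      τ * (V.filter fun u => u i = t ∨ u i = t + 1).card ≤ 2 * V.card := by
  have hsum : ∑ k ∈ Finset.range τ, (V.filter fun u => u i = t0 + k ∨ u i = t0 + k + 1).card
      ≤ 2 * V.card := by
    have h1 : ∀ k ∈ Finset.range τ, (V.filter fun u => u i = t0 + k ∨ u i = t0 + k + 1).card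
        = ∑ u ∈ V, if (u i = t0 + k ∨ u i = t0 + k + 1) then 1 else 0 := by
      intro k _
      rw [Finset.card_filter]
    rw [Finset.sum_congr rfl h1, Finset.sum_comm]
    have h2 : ∀ u ∈ V, ∑ k ∈ Finset.range τ,
        (if (u i = t0 + (k : ℤ) ∨ u i = t0 + k + 1) then 1 else 0) ≤ 2 := by
      intro u _
      rw [← Finset.card_filter]
      have h3 : (Finset.range τ).filter (fun k : ℕ => u i = t0 + (k : ℤ) ∨ u i = t0 + k + 1) ⊆
          {(u i - t0).toNat, (u i - t0 - 1).toNat} := by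
        intro k hk
        simp only [Finset.mem_filter, Finset.mem_range] at hk
        simp only [Finset.mem_insert, Finset.mem_singleton]
        omega
      exact (Finset.card_le_card h3).trans Finset.card_le_two
    calc _ ≤ ∑ u ∈ V, 2 := Finset.sum_le_sum h2
      _ = _ := by rw [Finset.sum_const, smul_eq_mul, mul_comm]
  by_contra hcon
  push Not at hcon
  have h4 : ∀ k ∈ Finset.range τ, 2 * V.card <
      τ * (V.filter fun u => u i = t0 + k ∨ u i = t0 + k + 1).card := by
    intro k hk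
    rw [Finset.mem_range] at hk
    exact hcon (t0 + k) (by omega) (by omega)
  have h5 : ∑ k ∈ Finset.range τ, 2 * V.card <
      ∑ k ∈ Finset.range τ, τ * (V.filter fun u => u i = t0 + k ∨ u i = t0 + k + 1).card := by
    refine Finset.sum_lt_sum_of_nonempty ?_ h4
    exact ⟨0, Finset.mem_range.2 hτ⟩
  rw [Finset.sum_const, Finset.card_range, smul_eq_mul, ← Finset.mul_sum] at h5
  have h6 := Nat.mul_le_mul_left τ hsum
  omega

/-- Data of a box around `a` with sides at distance between `ρ` and `ρ + τ`. -/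
structure BoxAround (B : Bx) (a : P) (ρ τ : ℕ) : Prop where
  rlow : ∀ i, a i + ρ ≤ B.r i
  rhigh : ∀ i, B.r i < a i + ρ + τ
  llow : ∀ i, a i - ρ - τ < B.l i
  lhigh : ∀ i, B.l i ≤ a i - ρ ∨ (i = 0 ∧ B.l 0 = 0)

theorem blk_bound (B : Bx) (F : FG) (s : Fin 3 → ℤ) (τ : ℕ)
    (hs : ∀ i, (i = 0 ∧ B.l 0 = 0) ∨ B.l i = s i + 1)
    (h1 : ∀ i, τ * (F.V.filter fun u => u i = B.r i ∨ u i = B.r i + 1).card ≤ 2 * F.V.card)
    (h2 : ∀ i, τ * (F.V.filter fun u => u i = s i ∨ u i = s i + 1).card ≤ 2 * F.V.card) :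
    τ * (B.blk F).card ≤ 12 * F.V.card := by
  have hsub : B.blk F ⊆
      (Finset.univ : Finset (Fin 3)).biUnion (fun i =>
        (F.V.filter fun u => u i = B.r i ∨ u i = B.r i + 1) ∪
        (F.V.filter fun u => u i = s i ∨ u i = s i + 1)) := by
    intro u hu
    obtain ⟨hu1, hu2⟩ := Finset.mem_filter.1 hu
    by_contra hcon
    refine hu2 fun i => ?_
    rw [Finset.mem_biUnion] at hcon
    push Not at hcon
    have h3 := hcon i (Finset.mem_univ _)
    rw [Finset.mem_union, Finset.mem_filter, Finset.mem_filter] at h3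
    push Not at h3
    obtain ⟨h4, h5⟩ := h3
    refine ⟨h4 hu1, ?_⟩
    rcases hs i with h6 | h6
    · exact Or.inl h6
    · right
      have := h5 hu1
      omega
  have h3 := (Finset.card_le_card hsub).trans Finset.card_biUnion_le
  have h4 : τ * ∑ i : Fin 3, ((F.V.filter fun u => u i = B.r i ∨ u i = B.r i + 1) ∪
        (F.V.filter fun u => u i = s i ∨ u i = s i + 1)).card ≤ 12 * F.V.card := by
    rw [Finset.mul_sum]
    calc _ ≤ ∑ i : Fin 3, 4 * F.V.card := by
          refine Finset.sum_le_sum fun i _ => ?_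
          have h3 := Nat.mul_le_mul_left τ (Finset.card_union_le
            (F.V.filter fun u => u i = B.r i ∨ u i = B.r i + 1)
            (F.V.filter fun u => u i = s i ∨ u i = s i + 1))
          have h4 := h1 i
          have h5 := h2 i
          rw [mul_add] at h3
          omega
      _ = _ := by simp; ring
  exact (Nat.mul_le_mul_left τ h3).trans h4

theorem exists_lowBox (F : FG) (a : P) (ha : 0 ≤ a 0) (ρ τ : ℕ) (hτ : 1 ≤ τ) :
    ∃ B : Bx, BoxAround B a ρ τ ∧ τ * (B.blk F).card ≤ 12 * F.V.card := by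
  choose r hr1 hr2 hr3 using fun i : Fin 3 => window F.V i (a i + ρ) τ hτ
  choose s hs1 hs2 hs3 using fun i : Fin 3 => window F.V i (a i - ρ - τ) τ hτ
  by_cases hwall : 0 ≤ a 0 - ρ - τ
  · let l : P := fun i => s i + 1
    have hl : ∀ i, l i ≤ r i := by
      intro i
      have h1 := hr1 i; have h2 := hs2 i
      simp only [l]; omega
    have hw : (l 0 = 0 ∧ (2 : ℤ) = 0) ∨ (1 ≤ l 0 ∧ (2 : ℤ) = 2) := by
      right; have := hs1 0; simp only [l]; exact ⟨by omega, trivial⟩
    refine ⟨⟨l, r, 2, hl, hw⟩, ⟨hr1, ?_, ?_, ?_⟩, ?_⟩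
    · intro i; exact hr2 i
    · intro i; have := hs1 i; show _ < s i + 1; omega
    · intro i; left; have := hs2 i; show s i + 1 ≤ _; omega
    · exact blk_bound _ F s τ (fun i => Or.inr rfl) hr3 hs3
  · push Not at hwall
    let l : P := fun i => if i = 0 then 0 else s i + 1
    have hl : ∀ i, l i ≤ r i := by
      intro i
      have h1 := hr1 i; have h2 := hs2 i
      simp only [l]; split_ifs with h
      · subst h; omega
      · omega
    have hw : (l 0 = 0 ∧ (0 : ℤ) = 0) ∨ (1 ≤ l 0 ∧ (0 : ℤ) = 2) := by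
      left; simp [l]
    refine ⟨⟨l, r, 0, hl, hw⟩, ⟨hr1, ?_, ?_, ?_⟩, ?_⟩
    · intro i; exact hr2 i
    · intro i; have := hs1 i; show _ < if i = 0 then 0 else s i + 1
      split_ifs with h
      · subst h; omega
      · omega
    · intro i; have := hs2 i; show (if i = 0 then 0 else s i + 1) ≤ _ ∨ _
      split_ifs with h
      · right; exact ⟨h, rfl⟩
      · left; omega
    · refine blk_bound _ F s τ (fun i => ?_) hr3 hs3
      by_cases h : i = 0
      · left; exact ⟨h, rfl⟩
      · right; show (if i = 0 then 0 else s i + 1) = _; rw [if_neg h]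

end Pool.Agent.Lib.MP_280b4e_pr
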