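import Pool.Agent.Lib.MP_280b4e_pr.ClearSum

/-!
Elimination of two free ends which are close to each other.
-/

namespace Pool.Agent.Lib.MP_280b4e_pr

open scoped ENNReal
open Classical

/-- Box clearing for graphs with two free ends, the first of which is in the box. -/
theorem clear_pair (p : Par) {c N : ℕ} {a b : P} {F : FG} (hF : F ∈ Cls c N {a, b})
    {B : Bx} {ρ τ : ℕ} (hB : BoxAround B a ρ τ) (hblk : τ * (B.blk F).card ≤ 12 * F.V.card)
    (hτ : 72 ≤ τ) (j : Fin 3) (k N' : ℕ)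
    (hN' : 2 * N + (2 * ρ + 2 * τ + 3) ^ 3 + k + ρ + τ + 10 ≤ N') :
    ∃ F' : FG, B.Agree j k F F' ∧
      ((B.mem b ∧ F' ∈ Cls (c + (2 * ρ + 2 * τ + 3) ^ 3 + 1) N' ∅) ∨
       (¬ B.mem b ∧ F' ∈ Cls (c + (2 * ρ + 2 * τ + 3) ^ 3 + 1) N' {B.tip j k, B.ex b})) ∧
      |W p F - W p F'| ≤ 14 * C0 p * (12 / τ * N + (2 * ρ + 2 * τ + 3 : ℕ) ^ 3 + k + 3) := by
  have haV : a ∈ F.V := Cls_odd_mem hF (by simp)
  have haN := hF.2.1 a haV
  have haB : B.mem a := hB.mem_of_near (by intro i; simp) (FG.nonneg haV)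
  have hblk1 : 72 * (B.blk F).card ≤ 12 * N := by
    have h1 : 72 * (B.blk F).card ≤ τ * (B.blk F).card := Nat.mul_le_mul_right _ hτ
    have := hF.1
    omega
  obtain ⟨F', hA, hcls, hW⟩ := B.clear_cls p hF j k (B.blk F).card ((2 * ρ + 2 * τ + 3) ^ 3) N'
    le_rfl hB.reg_card (by omega) (fun x hx i => (hB.zone_inBox haN j k x hx i).trans (by
      push_cast
      have : (0 : ℤ) ≤ (2 * ρ + 2 * τ + 3) ^ 3 := by positivity
      have h2 : ((2 * N + (2 * ρ + 2 * τ + 3) ^ 3 + k + ρ + τ + 10 : ℕ) : ℤ) ≤ N' := by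
        exact_mod_cast hN'
      push_cast at h2
      omega))
  refine ⟨F', hA, ?_, ?_⟩
  · by_cases hbB : B.mem b
    · left
      have hO : B.outO {a, b} = ∅ := by
        unfold Bx.outO
        rw [Finset.image_eq_empty, Finset.filter_eq_empty_iff]
        intro x hx
        simp only [Finset.mem_insert, Finset.mem_singleton] at hx
        rcases hx with rfl | rfl
        · exact not_not.2 haB
        · exact not_not.2 hbB
      rw [hO] at hcls
      refine ⟨hbB, ?_⟩
      rcases hcls with h | h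
      · exact h
      · have h2 : insert (B.tip j k) (∅ : Finset P) = {B.tip j k} := by simp
        rw [h2, Cls_single] at h
        exact absurd h (by simp)
    · right
      have hO : B.outO {a, b} = {B.ex b} := by
        unfold Bx.outO
        ext x
        simp only [Finset.mem_image, Finset.mem_filter, Finset.mem_insert, Finset.mem_singleton]
        constructor
        · rintro ⟨u, ⟨rfl | rfl, h2⟩, rfl⟩
          · exact absurd haB h2
          · rfl
        · rintro rfl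
          exact ⟨b, ⟨Or.inr rfl, hbB⟩, rfl⟩
      rw [hO] at hcls
      refine ⟨hbB, ?_⟩
      rcases hcls with h | h
      · rw [Cls_single] at h
        exact absurd h (by simp)
      · exact h
  · refine hW.trans ?_
    have hτ0 : (0 : ℝ) < τ := by
      have : (72 : ℝ) ≤ τ := by exact_mod_cast hτ
      linarith
    have h8 : ((B.blk F).card : ℝ) ≤ 12 / τ * N := by
      rw [div_mul_eq_mul_div, le_div_iff₀ hτ0, mul_comm]
      have h1 := hF.1
      have : τ * (B.blk F).card ≤ 12 * N := by omega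
      exact_mod_cast this
    have hC := C0_nonneg p
    push_cast
    gcongr

theorem exists_tau (C ε : ℝ) (hC : 0 ≤ C) (hε : 0 < ε) :
    ∃ τ : ℕ, 72 ≤ τ ∧ 14 * C * (12 / τ) ≤ ε := by
  obtain ⟨τ, hτ⟩ := exists_nat_ge (72 + 14 * C * 12 / ε)
  have h0 : 0 ≤ 14 * C * 12 / ε := by positivity
  have h1 : (72 : ℝ) ≤ τ := by linarith
  refine ⟨τ, by exact_mod_cast h1, ?_⟩
  have hτ0 : (0 : ℝ) < τ := by linarith
  have h2 : 14 * C * 12 / ε ≤ τ := by linarith
  rw [div_le_iff₀ hε] at h2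
  rw [← mul_div_assoc, div_le_iff₀ hτ0]
  linarith

/-- Two free ends at bounded distance. -/
theorem near_pair (p : Par) (hS : ∀ c, SubExp (fun N => Om p (Cls c N ∅))) (s c : ℕ) (ε : ℝ)
    (hε : 0 < ε) : ∃ K : ℝ, 0 ≤ K ∧ ∀ (N : ℕ) (a b : P), InBox s (b - a) →
      Om p (Cls c N {a, b}) ≤ ENNReal.ofReal (K * Real.exp (ε * N)) := by
  have hC := C0_nonneg p
  obtain ⟨τ, hτ, hrate⟩ := exists_tau (C0 p) (ε / 2) hC (by positivity)
  set z := (2 * s + 2 * τ + 3) ^ 3 with hz
  have h3 : SubExp (fun N => (((2 * N + (2 * s + 2 * τ + 1)) ^ 6 *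
      2 ^ (((2 * (2 * s + 2 * τ) + 1) ^ 3) ^ 2) * (0 + 1) : ℕ) : ℝ≥0∞) *
      Om p (Cls (c + z + 1) (2 * N + (z + s + τ + 10)) ∅)) := by
    refine SubExp.mul ?_ ((hS (c + z + 1)).comp 2 (z + s + τ + 10))
    refine ((SubExp_poly 2 (2 * s + 2 * τ + 1) 6).mul
      (SubExp_natConst (2 ^ (((2 * (2 * s + 2 * τ) + 1) ^ 3) ^ 2)))).mono fun N => ?_
    push_cast; rw [mul_one]
  have h4 := (GE_exp' (14 * C0 p * (z + 3)) hrate).mul (h3 (ε / 2) (by positivity))
  obtain ⟨K, hK, hKN⟩ := h4.rate (ε' := ε) (by linarith)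
  refine ⟨K, hK, fun N a b hab => le_trans ?_ (hKN N)⟩
  have key := clear_sum p (N := N) (Cls c N {a, b}) s τ 0 0
    (fun _ _ => Cls (c + z + 1) (2 * N + (z + s + τ + 10)) ∅)
    (14 * C0 p * (12 / τ * N + z + 3))
    (Om p (Cls (c + z + 1) (2 * N + (z + s + τ + 10)) ∅)) ?_ (fun _ _ _ _ _ _ => le_rfl)
  · refine key.trans (le_of_eq ?_)
    congr 3
    ring
  · intro F hF
    have haV : a ∈ F.V := Cls_odd_mem hF (by simp)
    have hbV : b ∈ F.V := Cls_odd_mem hF (by simp)
    obtain ⟨B, hB, hblk⟩ := exists_lowBox F a (FG.nonneg haV) s τ (by omega)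
    obtain ⟨F', hA, hcls, hW⟩ := clear_pair p hF hB hblk hτ 0 0 (2 * N + (z + s + τ + 10))
      (by omega)
    refine ⟨a, B, 0, hF.2.1 a haV, hB, le_rfl, F', ?_, hA, ?_⟩
    · rcases hcls with ⟨_, h⟩ | ⟨h, _⟩
      · exact h
      · exact absurd (hB.mem_of_near hab (FG.nonneg hbV)) h
    · refine hW.trans (le_of_eq ?_)
      rw [hz]; push_cast; ring

/-- Two free ends on a line parallel to a coordinate axis. -/
theorem close_pair (p : Par) (hS : ∀ c, SubExp (fun N => Om p (Cls c N ∅))) (j : Fin 3) (c : ℕ)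
    (ε : ℝ) (hε : 0 < ε) : ∃ K : ℝ, 0 ≤ K ∧ ∀ (N : ℕ) (b : P) (k : ℕ), 1 ≤ k →
      Om p (Cls c N {b, b + (k : ℤ) • e j}) ≤
        ENNReal.ofReal (K * Real.exp (ε * N + (14 * C0 p + 3) * k)) := by
  have hC := C0_nonneg p
  obtain ⟨τ, hτ, hrate⟩ := exists_tau (C0 p) (ε / 8) hC (by positivity)
  set z := (2 * 0 + 2 * τ + 3) ^ 3 with hz
  set c' := c + z + 1 with hc'
  set ε' := min (ε / 8) 1 with hε'
  have hε'0 : 0 < ε' := lt_min (by positivity) one_pos
  have hε'1 : ε' ≤ 1 := min_le_right _ _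
  have hε'2 : ε' ≤ ε / 8 := min_le_left _ _
  obtain ⟨K₀, hK₀, hS0⟩ := hS c' ε' hε'0
  obtain ⟨K₁, hK₁, hS1⟩ := near_pair p hS (τ + 2) c' ε' hε'0
  obtain ⟨K₂, hK₂, hpoly⟩ := SubExp_poly 2 (2 * 0 + 2 * τ + 1) 6 (ε / 8) (by positivity)
  set M := 2 ^ (((2 * (2 * 0 + 2 * τ) + 1) ^ 3) ^ 2) with hM
  refine ⟨Real.exp (14 * C0 p * (z + 3)) * (K₂ * M) * ((K₀ + K₁) * Real.exp (ε' * (z + τ + 10))),
    by positivity, fun N b k hk => ?_⟩
  set b' := b + (k : ℤ) • e j with hb'
  set N' := 2 * N + z + k + 0 + τ + 10 with hN'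
  have key := clear_sum p (N := N) (Cls c N {b, b'}) 0 τ k j
    (fun B k' => Cls c' N' ∅ ∪ {F' | F' ∈ Cls c' N' {B.tip j k', B.ex b'} ∧
      InBox (τ + 2) (B.ex b' - B.tip j k')})
    (14 * C0 p * (12 / τ * N + z + k + 3))
    (ENNReal.ofReal ((K₀ + K₁) * Real.exp (ε' * N'))) ?_ ?_
  · refine key.trans ?_
    have h1 : ((((2 * N + (2 * 0 + 2 * τ + 1)) ^ 6 * M * (k + 1) : ℕ) : ℝ≥0∞)) ≤
        ENNReal.ofReal (K₂ * Real.exp (ε / 8 * N) * M * Real.exp k) := by
      rw [Nat.cast_mul, Nat.cast_mul]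
      rw [ENNReal.ofReal_mul (by positivity), ENNReal.ofReal_mul (by positivity)]
      refine mul_le_mul' (mul_le_mul' (hpoly N) ?_) ?_
      · rw [← ENNReal.ofReal_natCast]
      · rw [← ENNReal.ofReal_natCast]
        refine ENNReal.ofReal_le_ofReal ?_
        push_cast
        exact Real.add_one_le_exp _
    refine (mul_le_mul' le_rfl (mul_le_mul' h1 le_rfl)).trans ?_
    rw [← ENNReal.ofReal_mul (by positivity), ← ENNReal.ofReal_mul (by positivity)]
    refine ENNReal.ofReal_le_ofReal ?_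
    have e1 : Real.exp (14 * C0 p * (12 / τ * N + z + k + 3)) ≤
        Real.exp (14 * C0 p * (z + 3)) * Real.exp (ε / 8 * N + 14 * C0 p * k) := by
      rw [← Real.exp_add]
      refine Real.exp_le_exp.2 ?_
      have : 14 * C0 p * (12 / τ) * N ≤ ε / 8 * N := by gcongr
      nlinarith
    have e2 : Real.exp (ε' * N') ≤
        Real.exp (ε' * (z + τ + 10)) * Real.exp (ε / 4 * N + k) := by
      rw [← Real.exp_add]
      refine Real.exp_le_exp.2 ?_
      rw [hN']
      push_cast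
      have h2 : ε' * (2 * N) ≤ ε / 8 * (2 * N) := by gcongr
      have h3 : ε' * k ≤ 1 * k := by gcongr
      nlinarith
    calc Real.exp (14 * C0 p * (12 / τ * N + z + k + 3)) *
          (K₂ * Real.exp (ε / 8 * N) * M * Real.exp k * ((K₀ + K₁) * Real.exp (ε' * N')))
        ≤ (Real.exp (14 * C0 p * (z + 3)) * Real.exp (ε / 8 * N + 14 * C0 p * k)) *
          (K₂ * Real.exp (ε / 8 * N) * M * Real.exp k * ((K₀ + K₁) *
            (Real.exp (ε' * (z + τ + 10)) * Real.exp (ε / 4 * N + k)))) := by gcongr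
      _ = Real.exp (14 * C0 p * (z + 3)) * (K₂ * M) * ((K₀ + K₁) * Real.exp (ε' * (z + τ + 10))) *
          (Real.exp (ε / 8 * N + 14 * C0 p * k) * Real.exp (ε / 8 * N) * Real.exp k *
            Real.exp (ε / 4 * N + k)) := by ring
      _ = Real.exp (14 * C0 p * (z + 3)) * (K₂ * M) * ((K₀ + K₁) * Real.exp (ε' * (z + τ + 10))) *
          Real.exp (ε / 2 * N + (14 * C0 p + 2) * k) := by
          rw [← Real.exp_add, ← Real.exp_add, ← Real.exp_add]
          congr 2
          ring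
      _ ≤ _ := by
          gcongr
          · linarith
          · norm_num
  · intro F hF
    have haV : b ∈ F.V := Cls_odd_mem hF (by simp)
    have hbV : b' ∈ F.V := Cls_odd_mem hF (by simp)
    obtain ⟨B, hB, hblk⟩ := exists_lowBox F b (FG.nonneg haV) 0 τ (by omega)
    have hbB : B.mem b := hB.mem_of_near (by intro i; simp) (FG.nonneg haV)
    have hDle : ∀ k' : ℕ, k' ≤ k → 14 * C0 p * (12 / τ * N + (2 * 0 + 2 * τ + 3 : ℕ) ^ 3 + k' + 3)
        ≤ 14 * C0 p * (12 / τ * N + z + k + 3) := by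
      intro k' hk'
      have : (k' : ℝ) ≤ k := by exact_mod_cast hk'
      have h0 : ((2 * 0 + 2 * τ + 3 : ℕ) : ℝ) ^ 3 = z := by rw [hz]; push_cast; ring
      rw [h0]
      gcongr
    by_cases hb'B : B.mem b'
    · obtain ⟨F', hA, hcls, hW⟩ := clear_pair p hF hB hblk hτ j 0 N' (by omega)
      refine ⟨b, B, 0, hF.2.1 b haV, hB, by omega, F', ?_, hA, hW.trans (hDle 0 (by omega))⟩
      rcases hcls with ⟨_, h⟩ | ⟨h, _⟩
      · exact Or.inl h
      · exact absurd hb'B h
    · have hbi : ∀ i, i ≠ j → b' i = b i := by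
        intro i hi; rw [hb']; simp [e, hi]
      have hbj : b' j = b j + k := by rw [hb']; simp [e]
      have hbr : B.r j < b' j := by
        by_contra hcon
        push Not at hcon
        apply hb'B
        intro i
        by_cases hi : i = j
        · subst hi
          have := hbB i
          exact ⟨by omega, hcon⟩
        · rw [hbi i hi]; exact hbB i
      have hrj : b j ≤ B.r j := (hbB j).2
      set k' := (b' j - B.r j).toNat with hk'
      have hk'k : k' ≤ k := by omega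
      obtain ⟨F', hA, hcls, hW⟩ := clear_pair p hF hB hblk hτ j k' N' (by omega)
      refine ⟨b, B, k', hF.2.1 b haV, hB, hk'k, F', ?_, hA, hW.trans (hDle k' hk'k)⟩
      rcases hcls with ⟨h, _⟩ | ⟨_, h⟩
      · exact absurd h hb'B
      · right
        refine ⟨h, fun i => ?_⟩
        rw [Pi.sub_apply, B.tip_coord]
        have h1 := hB.rhigh i
        have h2 := hbB i
        have hhi : B.hi i = B.r i + B.off i + 1 := rfl
        by_cases hi : i = j
        · subst hi
          rw [if_pos rfl]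
          simp only [Bx.ex, ex1]
          rw [abs_le]; push_cast
          split_ifs <;> constructor <;> omega
        · rw [if_neg hi]
          simp only [Bx.ex, ex1, hbi i hi]
          rw [abs_le]; push_cast
          split_ifs <;> constructor <;> omega
  · intro a B k' ha hB hk'
    refine (Om_union_le _ _ _).trans ?_
    rw [add_mul, ENNReal.ofReal_add (by positivity) (by positivity)]
    refine add_le_add (hS0 N') ?_
    by_cases hin : InBox (τ + 2) (B.ex b' - B.tip j k')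
    · refine (Om_mono p ?_).trans (hS1 N' (B.tip j k') (B.ex b') hin)
      rintro F' ⟨h, _⟩; exact h
    · have : {F' | F' ∈ Cls c' N' {B.tip j k', B.ex b'} ∧
          InBox (τ + 2) (B.ex b' - B.tip j k')} = ∅ := by
        rw [Set.eq_empty_iff_forall_notMem]
        rintro F' ⟨_, h⟩; exact hin h
      rw [this, Om_empty]; exact zero_le

end Pool.Agent.Lib.MP_280b4e_pr
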