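import Pool.Agent.Lib.MP_280b4e_pr.PolyLayer

/-!
Anchored classes versus polygons in normal form.
-/

namespace Pool.Agent.Lib.MP_280b4e_pr
open scoped ENNReal
open Classical

namespace Poly

/-- Anchored polygons are translates of polygons in normal form. -/
theorem anc_le (p : Par) (M : ℕ) (h : ℤ) (i : Fin 3) (u : P) (i' : Fin 3) :
    Om p (Anc M h i u i') ≤ ((M + 1 : ℕ) : ℝ≥0∞) * Om p (PolF M) := by
  have := Om_transfer p (Anc M h i u i') (PolF M) (Finset.range (M + 1)) 0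
    (fun a t b => ∃ hf, b = tr (trn ![0, 0, (t : ℤ)]) a hf) ?_ ?_
  · simpa using this
  · intro F hF
    obtain ⟨h1, h2, h3, h4, h5, h6, h7, h8⟩ := hF
    have hpt : pt h ∈ F.V := FG.mem_V_left h6
    obtain ⟨m, hm, hmin⟩ := Finset.exists_min_image F.V (fun x => x 2) ⟨_, hpt⟩
    have hm0 : m 2 ≤ 0 := by have := hmin _ hpt; simpa using this
    have hmM : -(M : ℤ) < m 2 := by
      have := diam F h3 hpt hm 2
      rw [h1, pt_2] at this
      have := (abs_lt.1 this).2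
      linarith
    obtain ⟨t, ht⟩ := Int.eq_ofNat_of_zero_le (show 0 ≤ -(m 2) by linarith)
    refine ⟨t, Finset.mem_range.2 (by omega), tr (trn ![0, 0, (t : ℤ)]) F (trn_half rfl),
      ⟨?_, ?_, ?_, ?_, ?_, ?_, ?_, ?_, ?_⟩, ⟨trn_half rfl, rfl⟩, ?_⟩
    · rw [card_tr, h1]
    · exact ⟨_, mem_tr'.2 hpt⟩
    · intro x; rw [deg_tr']; exact h2 _
    · intro x hx y hy
      rw [reach_tr]
      exact h3 _ (mem_tr.1 hx) _ (mem_tr.1 hy)
    · obtain ⟨x, hx, hx0⟩ := h4
      exact ⟨_, mem_tr'.2 hx, by simp [hx0]⟩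
    · intro x hx
      have := (h5 _ (mem_tr.1 hx)).1
      simpa using this
    · exact ⟨_, mem_tr'.2 hpt, by simp⟩
    · intro x hx
      have := hmin _ (mem_tr.1 hx)
      simp at this
      linarith
    · exact ⟨_, mem_tr'.2 hm, by simp; linarith⟩
    · rw [W_trn p F rfl, zero_add]
  · rintro a _ a' _ _ b ⟨_, rfl⟩ ⟨_, h⟩
    exact tr_inj h

/-- The labels. -/
noncomputable def Lb (M : ℕ) : Finset (ℤ × Fin 3 × P × Fin 3) :=
  Finset.Icc (0 : ℤ) M ×ˢ (({0, 2} : Finset (Fin 3)) ×ˢ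
    ((Finset.Icc (fun _ => -(M : ℤ)) (fun _ => (M : ℤ))) ×ˢ ({0, 2} : Finset (Fin 3))))

theorem Lb_card (M : ℕ) : (Lb M).card = 4 * (M + 1) * (2 * M + 1) ^ 3 := by
  unfold Lb
  rw [Finset.card_product, Finset.card_product, Finset.card_product, Pi.card_Icc]
  simp only [Int.card_Icc, Fin.prod_univ_three]
  have h1 : ((M : ℤ) + 1 - 0).toNat = M + 1 := by omega
  have h2 : ((M : ℤ) + 1 - -(M : ℤ)).toNat = 2 * M + 1 := by omega
  rw [h1, h2]
  have h3 : ({0, 2} : Finset (Fin 3)).card = 2 := by decide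
  rw [h3]
  ring

/-- The number of labels including the translation. -/
def Kn (M : ℕ) : ℕ := (2 * M + 1) * (4 * (M + 1) * (2 * M + 1) ^ 3)

theorem pol_le_sum (p : Par) (M : ℕ) :
    Om p (PolF M) ≤ ((M + 1 : ℕ) : ℝ≥0∞) *
      ∑ l ∈ Lb M, Om p (Anc M l.1 l.2.1 l.2.2.1 l.2.2.2) := by
  have := Om_transfer p (PolF M) (⋃ l ∈ Lb M, Anc M l.1 l.2.1 l.2.2.1 l.2.2.2)
    (Finset.range (M + 1)) 0
    (fun a t b => ∃ hf, b = tr (trn ![0, 0, -(t : ℤ)]) a hf) ?_ ?_
  · have h1 := Om_biUnion_le p (Lb M) (fun l => Anc M l.1 l.2.1 l.2.2.1 l.2.2.2)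
    calc Om p (PolF M) ≤ ((M + 1 : ℕ) : ℝ≥0∞) *
          Om p (⋃ l ∈ Lb M, Anc M l.1 l.2.1 l.2.2.1 l.2.2.2) := by simpa using this
      _ ≤ _ := by gcongr
  · intro F hF
    obtain ⟨h1, h2, h3, h4, h5, h6, h7, h8, h9⟩ := hF
    obtain ⟨z, i, u, i', hi, hi', hz1, hu1, hzA, huA, hne⟩ := two_edges F h2 h3 h6 h7
    have hz : z ∈ F.V := FG.mem_V_left hzA
    have hu : u ∈ F.V := FG.mem_V_left huA
    obtain ⟨x0, hx0, hx00⟩ := h5
    obtain ⟨x2, hx2, hx20⟩ := h9
    obtain ⟨x1, hx1, hx10⟩ := h7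
    have hz0 : 0 ≤ z 0 := FG.nonneg hz
    have hu0 : 0 ≤ u 0 := FG.nonneg hu
    have d1 := diam F h4 hz hx0 0
    have d2 := diam F h4 hu hx0 0
    have d3 := diam F h4 hu hx1 1
    have d4 := diam F h4 hz hx2 2
    have d5 := diam F h4 hu hx2 2
    rw [h1] at d1 d2 d3 d4 d5
    rw [hx00, sub_zero, abs_lt] at d1 d2
    rw [hx10, sub_zero, abs_lt] at d3
    rw [hx20, sub_zero, abs_lt] at d4 d5
    have hz2 := h8 _ hz
    have hu2 := h8 _ hu
    have hu10 := h6 _ hu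
    obtain ⟨t, ht⟩ := Int.eq_ofNat_of_zero_le hz2
    have hfz : (trn ![0, 0, -(t : ℤ)]).f z = pt (z 0) := by
      apply P_ext
      · simp
      · simp [hz1]
      · simp; omega
    have hadd : ∀ (x : P) (k : Fin 3), (trn ![0, 0, -(t : ℤ)]).f (x + e k) =
        (trn ![0, 0, -(t : ℤ)]).f x + e k := by
      intro x k
      simp only [trn_f]
      abel
    refine ⟨t, Finset.mem_range.2 (by omega), tr (trn ![0, 0, -(t : ℤ)]) F (trn_half rfl),
      ?_, ⟨trn_half rfl, rfl⟩, ?_⟩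
    · rw [Set.mem_iUnion₂]
      refine ⟨(z 0, i, (trn ![0, 0, -(t : ℤ)]).f u, i'), ?_, ?_⟩
      · unfold Lb
        simp only [Finset.mem_product, Finset.mem_Icc, Finset.mem_insert, Finset.mem_singleton,
          Pi.le_def]
        refine ⟨⟨hz0, d1.2.le⟩, ?_, ⟨?_, ?_⟩, ?_⟩
        · fin_cases i <;> simp_all
        · intro k
          fin_cases k
          · change -(M : ℤ) ≤ u 0 + 0; omega
          · change -(M : ℤ) ≤ u 1 + 0; omega
          · change -(M : ℤ) ≤ u 2 + -(t : ℤ); omega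
        · intro k
          fin_cases k
          · change u 0 + 0 ≤ (M : ℤ); omega
          · change u 1 + 0 ≤ (M : ℤ); omega
          · change u 2 + -(t : ℤ) ≤ (M : ℤ); omega
        · fin_cases i' <;> simp_all
      · refine ⟨?_, ?_, ?_, ?_, ?_, ?_, ?_, ?_⟩
        · rw [card_tr, h1]
        · intro x; rw [deg_tr']; exact h3 _
        · intro x hx y hy
          rw [reach_tr]
          exact h4 _ (mem_tr.1 hx) _ (mem_tr.1 hy)
        · exact ⟨_, mem_tr'.2 hx0, by simp [hx00]⟩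
        · intro x hx
          have e1 := h6 _ (mem_tr.1 hx)
          have e2 := hu1 _ (mem_tr.1 hx)
          simp at e1 e2
          simp
          exact ⟨e1, e2⟩
        · simp only
          rw [← hfz, ← hadd, tr_adj']; exact hzA
        · simp only
          rw [← hadd, tr_adj']; exact huA
        · simp only
          rw [← hfz, ← hadd, ← hadd]
          intro heq
          apply hne
          rw [Sym2.eq_iff] at heq ⊢
          rcases heq with ⟨ha, hb⟩ | ⟨ha, hb⟩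
          · left; exact ⟨(trn _).f.injective ha, (trn _).f.injective hb⟩
          · right; exact ⟨(trn _).f.injective ha, (trn _).f.injective hb⟩
    · rw [W_trn p F rfl, zero_add]
  · rintro a _ a' _ _ b ⟨_, rfl⟩ ⟨_, h⟩
    exact tr_inj h

/-- A most popular class. -/
theorem popular (p : Par) (M : ℕ) : ∃ (h : ℤ) (i : Fin 3) (u : P) (i' : Fin 3),
    i ≠ 1 ∧ i' ≠ 1 ∧ Om p (PolF M) ≤ (Kn M : ℝ≥0∞) * Om p (Anc M h i u i') := by
  have hne : (Lb M).Nonempty := by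
    rw [← Finset.card_pos, Lb_card]; positivity
  obtain ⟨l, hl, hmax⟩ := Finset.exists_max_image (Lb M)
    (fun l => Om p (Anc M l.1 l.2.1 l.2.2.1 l.2.2.2)) hne
  have hl' := hl
  unfold Lb at hl'
  simp only [Finset.mem_product, Finset.mem_insert, Finset.mem_singleton] at hl'
  refine ⟨l.1, l.2.1, l.2.2.1, l.2.2.2, ?_, ?_, ?_⟩
  · rcases hl'.2.1 with h | h <;> rw [h] <;> decide
  · rcases hl'.2.2.2 with h | h <;> rw [h] <;> decide
  · calc Om p (PolF M) ≤ ((M + 1 : ℕ) : ℝ≥0∞) *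
        ∑ l ∈ Lb M, Om p (Anc M l.1 l.2.1 l.2.2.1 l.2.2.2) := pol_le_sum p M
      _ ≤ ((M + 1 : ℕ) : ℝ≥0∞) *
        ∑ _l' ∈ Lb M, Om p (Anc M l.1 l.2.1 l.2.2.1 l.2.2.2) := by
          gcongr with l' hl'
          exact hmax l' hl'
      _ = (((M + 1) * (Lb M).card : ℕ) : ℝ≥0∞) * Om p (Anc M l.1 l.2.1 l.2.2.1 l.2.2.2) := by
          rw [Finset.sum_const, nsmul_eq_mul]
          push_cast
          ring
      _ ≤ (Kn M : ℝ≥0∞) * Om p (Anc M l.1 l.2.1 l.2.2.1 l.2.2.2) := by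
          gcongr
          rw [Lb_card]
          unfold Kn
          gcongr
          omega

end Poly

end Pool.Agent.Lib.MP_280b4e_pr
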