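import Pool.Agent.Lib.MP_280b4e_pr.PolyGlue
import Pool.Agent.Lib.MP_280b4e_pr.Walks

/-!
Chains of glued polygons.
-/

namespace Pool.Agent.Lib.MP_280b4e_pr
open scoped ENNReal
open Classical

namespace Poly

/-- Cost of a junction. -/
noncomputable def cst (par : Par) (d : ℕ) : ℝ≥0∞ := ENNReal.ofReal (Real.exp (28 * C0 par * (d + 1)))

theorem chain_aux (par : Par) (N : ℕ) (h : ℤ) (i : Fin 3) (hi : i ≠ 1) (w : P) (hw : w 0 = h)
    (k : ℕ) : ∃ w' : P, w' 0 = h ∧ Om par (Anc N h i w i) ^ (k + 1) ≤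
      cst par 2 ^ k * Om par (Anc ((k + 1) * N + 2 * k) h i w' i) := by
  induction k with
  | zero => exact ⟨w, hw, by simp⟩
  | succ k ih =>
    obtain ⟨w', hw', ih⟩ := ih
    refine ⟨w' + tau w 2, by rw [Pi.add_apply, tau_0, hw', add_zero], ?_⟩
    have hg := glue_le (par := par) (M := N) (M' := (k + 1) * N + 2 * k) (h := h) (i := i)
      (i' := i) (i'' := i) (u := w) (u' := w') (d := 2) le_rfl hi hi
    have harith : N + ((k + 1) * N + 2 * k) + 2 * (2 - 1) = (k + 1 + 1) * N + 2 * (k + 1) := by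
      ring
    rw [harith, hw] at hg
    calc Om par (Anc N h i w i) ^ (k + 1 + 1)
        = Om par (Anc N h i w i) * Om par (Anc N h i w i) ^ (k + 1) := by rw [pow_succ']
      _ ≤ Om par (Anc N h i w i) *
          (cst par 2 ^ k * Om par (Anc ((k + 1) * N + 2 * k) h i w' i)) := by gcongr
      _ = cst par 2 ^ k * (Om par (Anc N h i w i) *
          Om par (Anc ((k + 1) * N + 2 * k) h i w' i)) := by ring
      _ ≤ cst par 2 ^ k * (cst par 2 *
          Om par (Anc ((k + 1 + 1) * N + 2 * (k + 1)) h i (w' + tau w 2) i)) := by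
          exact mul_le_mul' le_rfl hg
      _ = _ := by rw [pow_succ]; ring

theorem chain (par : Par) (N : ℕ) (h : ℤ) (i : Fin 3) (hi : i ≠ 1) (w : P) (hw : w 0 = h)
    (k t : ℕ) : Om par (Anc N h i w i) ^ (k + 2) ≤
      cst par 2 ^ k * (cst par (2 + t) *
        ((((k + 2) * N + 2 * (k + 1) + 2 * t + 1 : ℕ) : ℝ≥0∞) *
          Om par (PolF ((k + 2) * N + 2 * (k + 1) + 2 * t)))) := by
  obtain ⟨w', hw', ih⟩ := chain_aux par N h i hi w hw k
  have hg := glue_le (par := par) (M := N) (M' := (k + 1) * N + 2 * k) (h := h) (i := i)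
    (i' := i) (i'' := i) (u := w) (u' := w') (d := 2 + t) (by omega) hi hi
  have harith : N + ((k + 1) * N + 2 * k) + 2 * (2 + t - 1) =
      (k + 2) * N + 2 * (k + 1) + 2 * t := by
    have : 2 + t - 1 = 1 + t := by omega
    rw [this]; ring
  rw [harith, hw] at hg
  calc Om par (Anc N h i w i) ^ (k + 2)
      = Om par (Anc N h i w i) * Om par (Anc N h i w i) ^ (k + 1) := by rw [← pow_succ']
    _ ≤ Om par (Anc N h i w i) *
        (cst par 2 ^ k * Om par (Anc ((k + 1) * N + 2 * k) h i w' i)) := by gcongr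
    _ = cst par 2 ^ k * (Om par (Anc N h i w i) *
        Om par (Anc ((k + 1) * N + 2 * k) h i w' i)) := by ring
    _ ≤ cst par 2 ^ k * (cst par (2 + t) *
        Om par (Anc ((k + 2) * N + 2 * (k + 1) + 2 * t) h i (w' + tau w (2 + t)) i)) := by
        exact mul_le_mul' le_rfl hg
    _ ≤ _ := by
        gcongr
        exact anc_le _ _ _ _ _ _

theorem pair_block (par : Par) (n : ℕ) : ∃ (h : ℤ) (i : Fin 3) (w : P), i ≠ 1 ∧ w 0 = h ∧
    Om par (PolF n) ^ 2 ≤ (Kn n : ℝ≥0∞) ^ 2 * (cst par 2 * Om par (Anc (2 * n + 2) h i w i)) := by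
  obtain ⟨h, i, u, i', hi, hi', hpop⟩ := popular par n
  refine ⟨h, i, ![h, u 1, -u 2] + tau u 2, hi, ?_, ?_⟩
  · rw [Pi.add_apply, tau_0]; simp
  · have hm := anc_mirror par n h (i := i) u (i' := i') hi hi'
    have hg := glue_le (par := par) (M := n) (M' := n) (h := h) (i := i) (i' := i') (i'' := i)
      (u := u) (u' := ![h, u 1, -u 2]) (d := 2) le_rfl hi' hi
    have harith : n + n + 2 * (2 - 1) = 2 * n + 2 := by ring
    rw [harith] at hg
    calc Om par (PolF n) ^ 2 ≤ ((Kn n : ℝ≥0∞) * Om par (Anc n h i u i')) ^ 2 := by gcongr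
      _ = (Kn n : ℝ≥0∞) ^ 2 * (Om par (Anc n h i u i') * Om par (Anc n h i u i')) := by ring
      _ ≤ (Kn n : ℝ≥0∞) ^ 2 * (Om par (Anc n h i u i') *
          Om par (Anc n (u 0) i' ![h, u 1, -u 2] i)) := by gcongr
      _ ≤ _ := by
          exact mul_le_mul' le_rfl hg

/-- The number of edges of a chain. -/
def chn (n k t : ℕ) : ℕ := (k + 2) * (2 * n + 2) + 2 * (k + 1) + 2 * t

theorem chain_Q (ζ γ : ℝ) (n k t : ℕ) (hn : 1 ≤ n) :
    Q n ζ γ ^ (2 * (k + 2)) ≤ (Kn n : ℝ) ^ (2 * (k + 2)) *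
      Real.exp (28 * C0 ⟨ζ, γ, 0⟩ * (6 * (k + 2) + t)) * ((chn n k t + 1 : ℕ) : ℝ) *
        Q (chn n k t) ζ γ := by
  set par : Par := ⟨ζ, γ, 0⟩ with hpar
  obtain ⟨h, i, w, hi, hw, hpb⟩ := pair_block par n
  have hch := chain par (2 * n + 2) h i hi w hw k t
  have hM1 : 1 ≤ chn n k t := by unfold chn; omega
  have e1 : Om par (PolF n) = ENNReal.ofReal (Q n ζ γ) := (Q_eq n hn ζ γ).symm
  have e2 : Om par (PolF (chn n k t)) = ENNReal.ofReal (Q (chn n k t) ζ γ) :=
    (Q_eq _ hM1 ζ γ).symm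
  have hcomb : Om par (PolF n) ^ (2 * (k + 2)) ≤
      ENNReal.ofReal ((Kn n : ℝ) ^ (2 * (k + 2)) *
      Real.exp (28 * C0 par * (6 * (k + 2) + t)) * ((chn n k t + 1 : ℕ) : ℝ) *
        Q (chn n k t) ζ γ) := by
    calc Om par (PolF n) ^ (2 * (k + 2)) = (Om par (PolF n) ^ 2) ^ (k + 2) := by rw [pow_mul]
      _ ≤ ((Kn n : ℝ≥0∞) ^ 2 * (cst par 2 * Om par (Anc (2 * n + 2) h i w i))) ^ (k + 2) := by
          gcongr
      _ = (Kn n : ℝ≥0∞) ^ (2 * (k + 2)) * (cst par 2 ^ (k + 2) *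
          Om par (Anc (2 * n + 2) h i w i) ^ (k + 2)) := by
          rw [mul_pow, mul_pow, ← pow_mul]
      _ ≤ (Kn n : ℝ≥0∞) ^ (2 * (k + 2)) * (cst par 2 ^ (k + 2) *
          (cst par 2 ^ k * (cst par (2 + t) * (((chn n k t + 1 : ℕ) : ℝ≥0∞) *
          Om par (PolF (chn n k t)))))) := by
          gcongr
          exact hch
      _ = ENNReal.ofReal ((Kn n : ℝ) ^ (2 * (k + 2)) *
          (Real.exp (28 * C0 par * (2 + 1)) ^ (k + 2) * (Real.exp (28 * C0 par * (2 + 1)) ^ k *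
          (Real.exp (28 * C0 par * ((2 + t : ℕ) + 1)) * (((chn n k t + 1 : ℕ) : ℝ) *
            Q (chn n k t) ζ γ))))) := by
          rw [e2]
          unfold cst
          rw [ENNReal.ofReal_mul (by positivity), ENNReal.ofReal_mul (by positivity),
            ENNReal.ofReal_mul (by positivity), ENNReal.ofReal_mul (by positivity),
            ENNReal.ofReal_mul (by positivity), ENNReal.ofReal_pow (by positivity),
            ENNReal.ofReal_pow (by positivity), ENNReal.ofReal_pow (by positivity),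
            ENNReal.ofReal_natCast, ENNReal.ofReal_natCast]
          norm_num
      _ ≤ _ := by
          apply ENNReal.ofReal_le_ofReal
          have hexp : Real.exp (28 * C0 par * (2 + 1)) ^ (k + 2) *
              (Real.exp (28 * C0 par * (2 + 1)) ^ k *
              Real.exp (28 * C0 par * ((2 + t : ℕ) + 1))) ≤
              Real.exp (28 * C0 par * (6 * (k + 2) + t)) := by
            rw [← Real.exp_nat_mul, ← Real.exp_nat_mul, ← Real.exp_add, ← Real.exp_add]
            apply Real.exp_le_exp.2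
            have hC := C0_nonneg par
            push_cast
            nlinarith
          have hq := Q_nonneg (chn n k t) ζ γ
          calc (Kn n : ℝ) ^ (2 * (k + 2)) *
              (Real.exp (28 * C0 par * (2 + 1)) ^ (k + 2) *
              (Real.exp (28 * C0 par * (2 + 1)) ^ k *
              (Real.exp (28 * C0 par * ((2 + t : ℕ) + 1)) * (((chn n k t + 1 : ℕ) : ℝ) *
                Q (chn n k t) ζ γ)))) =
              (Kn n : ℝ) ^ (2 * (k + 2)) * (Real.exp (28 * C0 par * (2 + 1)) ^ (k + 2) *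
              (Real.exp (28 * C0 par * (2 + 1)) ^ k *
              Real.exp (28 * C0 par * ((2 + t : ℕ) + 1)))) * ((chn n k t + 1 : ℕ) : ℝ) *
                Q (chn n k t) ζ γ := by ring
            _ ≤ _ := by gcongr
  rw [e1, ← ENNReal.ofReal_pow (Q_nonneg _ _ _)] at hcomb
  rwa [ENNReal.ofReal_le_ofReal_iff] at hcomb
  have hq := Q_nonneg (chn n k t) ζ γ
  positivity

/-- Logarithmic form of the chain inequality. -/
theorem log_chain (ζ γ : ℝ) (a : ℕ) (ha : 1 ≤ a) (hpos : 0 < Q (2 * a) ζ γ) :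
    ∃ D : ℝ, ∀ m : ℕ, 4 * a + 4 ≤ m → 0 < Q (2 * m) ζ γ ∧
      (m : ℝ) / (a + 1) * (Real.log (Q (2 * a) ζ γ) -
        (Real.log (Kn (2 * a)) + 84 * C0 ⟨ζ, γ, 0⟩)) - D - Real.log (2 * m + 1) ≤
        Real.log (Q (2 * m) ζ γ) := by
  set c := C0 ⟨ζ, γ, 0⟩ with hc
  have hc0 : 0 ≤ c := C0_nonneg _
  set s := Real.log (Q (2 * a) ζ γ) - (Real.log (Kn (2 * a)) + 84 * c) with hs
  refine ⟨2 * |s| + 28 * c * (2 * a + 2), fun m hm => ?_⟩
  -- division with remainder
  set b := 2 * a + 2 with hb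
  have hbpos : 0 < b := by omega
  obtain ⟨k, hk⟩ : ∃ k, (m + 1) / b = k + 2 := by
    have : 2 ≤ (m + 1) / b := by
      rw [Nat.le_div_iff_mul_le hbpos]; omega
    exact ⟨(m + 1) / b - 2, by omega⟩
  set t := (m + 1) % b with ht
  have htb : t < b := Nat.mod_lt _ hbpos
  have hdm : b * (k + 2) + t = m + 1 := by
    rw [← hk]; exact Nat.div_add_mod _ _
  have hchn : chn (2 * a) k t = 2 * m := by
    unfold chn
    have h1 : (2 * a + 2) * (k + 2) + t = m + 1 := hdm
    have h2 : (k + 2) * (2 * (2 * a) + 2) + 2 * (k + 1) + 2 * t =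
        2 * ((2 * a + 2) * (k + 2) + t) - 2 := by
      have : (k + 2) * (2 * (2 * a) + 2) + 2 * (k + 1) + 2 * t + 2 =
        2 * ((2 * a + 2) * (k + 2) + t) := by ring
      omega
    rw [h2, h1]; omega
  have hQ := chain_Q ζ γ (2 * a) k t (by omega)
  rw [hchn, ← hc] at hQ
  have hKpos : (0 : ℝ) < Kn (2 * a) := by
    have : 0 < Kn (2 * a) := by unfold Kn; positivity
    exact_mod_cast this
  have hQm : 0 < Q (2 * m) ζ γ := by
    rcases (Q_nonneg (2 * m) ζ γ).lt_or_eq with h | h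
    · exact h
    · rw [← h, mul_zero] at hQ
      exact absurd hQ (not_le.2 (by positivity))
  refine ⟨hQm, ?_⟩
  have hlog := Real.log_le_log (by positivity) hQ
  rw [Real.log_mul (by positivity) hQm.ne', Real.log_mul (by positivity) (by positivity),
    Real.log_mul (by positivity) (by positivity), Real.log_pow, Real.log_pow, Real.log_exp] at hlog
  push_cast at hlog
  -- arithmetic
  have hm1 : (m : ℝ) + 1 = (2 * a + 2) * (k + 2) + t := by
    have := hdm
    rw [hb] at this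
    exact_mod_cast this.symm
  have ha1 : (0 : ℝ) < (a : ℝ) + 1 := by positivity
  have htb' : (t : ℝ) ≤ 2 * a + 2 := by
    have : t ≤ 2 * a + 2 := htb.le
    exact_mod_cast this
  have hmain : (m : ℝ) / (a + 1) * s = 2 * (k + 2) * s + ((t : ℝ) - 1) / (a + 1) * s := by
    have : (m : ℝ) = (2 * a + 2) * (k + 2) + t - 1 := by linarith
    rw [this]
    field_simp
    ring
  have hrem : ((t : ℝ) - 1) / (a + 1) * s ≤ 2 * |s| := by
    have h1 : |((t : ℝ) - 1) / (a + 1)| ≤ 2 := by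
      rw [abs_div, abs_of_pos ha1, div_le_iff₀ ha1, abs_le]
      have : (0 : ℝ) ≤ t := by positivity
      have : (1 : ℝ) ≤ a := by exact_mod_cast ha
      constructor <;> linarith
    calc ((t : ℝ) - 1) / (a + 1) * s ≤ |((t : ℝ) - 1) / (a + 1) * s| := le_abs_self _
      _ = |((t : ℝ) - 1) / (a + 1)| * |s| := abs_mul _ _
      _ ≤ 2 * |s| := by gcongr
  have h28 : 28 * c * (t : ℝ) ≤ 28 * c * (2 * a + 2) := by gcongr
  rw [hmain]
  have hs2 : 2 * ((k : ℝ) + 2) * s = 2 * (k + 2) * Real.log (Q (2 * a) ζ γ) -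
      2 * (k + 2) * Real.log (Kn (2 * a)) - 168 * c * (k + 2) := by rw [hs]; ring
  rw [hs2]
  nlinarith

end Poly

end Pool.Agent.Lib.MP_280b4e_pr
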