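import Pool.Agent.Lib.MP_280b4e_pr.PolyAnc
import Pool.Agent.Lib.MP_280b4e_pr.Graph

/-!
Gluing of anchored polygons.
-/

namespace Pool.Agent.Lib.MP_280b4e_pr
open scoped ENNReal
open Classical

namespace Poly

theorem e_apply (i j : Fin 3) : e i j = if j = i then 1 else 0 := rfl

/-- Straight lanes in direction one. -/
theorem exists_lane (d : ℕ) : ∀ x y : P, y = x + (d : ℤ) • e 1 →
    ∃ p : Lat.Walk x y, p.IsPath ∧ ∀ z, z ∈ p.support ↔ ∃ k : ℕ, k ≤ d ∧ z = x + (k : ℤ) • e 1 := by
  induction d with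
  | zero =>
    intro x y hy
    have : y = x := by rw [hy]; simp
    subst this
    refine ⟨SimpleGraph.Walk.nil, SimpleGraph.Walk.IsPath.nil, ?_⟩
    intro z
    simp
  | succ d ih =>
    intro x y hy
    obtain ⟨p, hp, hs⟩ := ih (x + e 1) y (by rw [hy]; push_cast; rw [add_smul, one_smul]; abel)
    refine ⟨SimpleGraph.Walk.cons (adj_e x 1) p, ?_, ?_⟩
    · rw [SimpleGraph.Walk.cons_isPath_iff]
      refine ⟨hp, ?_⟩
      rw [hs]
      rintro ⟨k, -, hk⟩
      have := congrFun hk 1
      simp [e_apply] at this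
      omega
    · intro z
      rw [SimpleGraph.Walk.support_cons, List.mem_cons, hs]
      constructor
      · rintro (rfl | ⟨k, hk, rfl⟩)
        · exact ⟨0, by omega, by simp⟩
        · exact ⟨k + 1, by omega, by push_cast; rw [add_smul, one_smul]; abel⟩
      · rintro ⟨k, hk, rfl⟩
        rcases Nat.eq_zero_or_pos k with rfl | hk0
        · left; simp
        · right
          obtain ⟨k', rfl⟩ := Nat.exists_eq_succ_of_ne_zero hk0.ne'
          exact ⟨k', by omega, by push_cast; rw [add_smul, one_smul]; abel⟩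

theorem tsum_mul_prod {α β : Type*} (A : Set α) (B : Set β) (f : α → ℝ≥0∞) (g : β → ℝ≥0∞) :
    (∑' a : A, f a.1) * (∑' b : B, g b.1) = ∑' z : (A ×ˢ B : Set (α × β)), f z.1.1 * g z.1.2 := by
  rw [← ENNReal.tsum_mul_right]
  simp only [← ENNReal.tsum_mul_left]
  rw [← ENNReal.tsum_prod (f := fun (a : A) (b : B) => f a.1 * g b.1)]
  exact ((Equiv.Set.prod A B).tsum_eq (fun z : A × B => f z.1.1 * g z.2.1)).symm

theorem lane_coord {x z : P} {k : ℤ} (h : z = x + k • e 1) : z 0 = x 0 ∧ z 1 = x 1 + k ∧ z 2 = x 2 := by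
  subst h
  refine ⟨?_, ?_, ?_⟩ <;> simp [e_apply]

/-- The shift of the second polygon. -/
def tau (u : P) (d : ℕ) : P := ![0, u 1 + d, u 2]

theorem tau_0 (u : P) (d : ℕ) : tau u d 0 = 0 := rfl
theorem tau_1 (u : P) (d : ℕ) : tau u d 1 = u 1 + d := rfl
theorem tau_2 (u : P) (d : ℕ) : tau u d 2 = u 2 := rfl

/-- The relation between the two parts and the result. -/
def GlueRel (u : P) (i' : Fin 3) (d : ℕ) (a : FG × FG) (b : FG) : Prop :=
  (∀ x y, a.1.G.Adj x y ↔ x 1 ≤ u 1 ∧ y 1 ≤ u 1 ∧ (b.G.Adj x y ∨ s(x, y) = s(u, u + e i'))) ∧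
  (∀ x y, a.2.G.Adj (x - tau u d) (y - tau u d) ↔ u 1 + d ≤ x 1 ∧ u 1 + d ≤ y 1 ∧
    (b.G.Adj x y ∨ s(x, y) = s(u + (d : ℤ) • e 1, u + e i' + (d : ℤ) • e 1)))

theorem GlueRel.uniq {u : P} {i' : Fin 3} {d : ℕ} {a a' : FG × FG} {b : FG}
    (h : GlueRel u i' d a b) (h' : GlueRel u i' d a' b) : a = a' := by
  apply Prod.ext
  · apply FG.ext'
    intro x y
    rw [h.1, h'.1]
  · apply FG.ext'
    intro x y
    have h1 := h.2 (x + tau u d) (y + tau u d)
    have h2 := h'.2 (x + tau u d) (y + tau u d)
    rw [add_sub_cancel_right, add_sub_cancel_right] at h1 h2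
    rw [h1, h2]

theorem ei_1 {i : Fin 3} (hi : i ≠ 1) : e i 1 = 0 := by
  have : (1 : Fin 3) ≠ i := fun h => hi h.symm
  simp [e_apply, this]

section glue

variable {M M' d : ℕ} {h : ℤ} {i i' i'' : Fin 3} {u u' : P} {F1 F2 : FG}

theorem glue_exists (par : Par) (hd : 2 ≤ d) (hi' : i' ≠ 1)
    (H1 : F1 ∈ Anc M h i u i') (H2 : F2 ∈ Anc M' (u 0) i' u' i'') (hi'' : i'' ≠ 1) :
    ∃ b ∈ Anc (M + M' + 2 * (d - 1)) h i (u' + tau u d) i'', GlueRel u i' d (F1, F2) b ∧
      W par F1 + W par F2 ≤ 2 * C0 par * (14 * (d + 1) : ℕ) + W par b := by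
  obtain ⟨a1, a2, a3, a4, a5, a6, a7, a8⟩ := H1
  obtain ⟨b1, b2, b3, b4, b5, b6, b7, b8⟩ := H2
  -- the translated second part
  set F := tr (trn (tau u d)) F2 (trn_half rfl) with hF
  have hFadj : ∀ x y, F.G.Adj x y ↔ F2.G.Adj (x - tau u d) (y - tau u d) := by
    intro x y; rw [hF, tr_adj, trn_symm, trn_symm]
  have hFmem : ∀ x, x ∈ F.V ↔ x - tau u d ∈ F2.V := by
    intro x; rw [hF, mem_tr, trn_symm]
  have hFcoord : ∀ x ∈ F.V, u 1 + d ≤ x 1 ∧ x 1 ≤ u 1 + d + u' 1 := by
    intro x hx
    have := b5 _ ((hFmem x).1 hx)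
    rw [Pi.sub_apply, tau_1] at this
    constructor <;> linarith [this.1, this.2]
  have hF1coord : ∀ x ∈ F1.V, 0 ≤ x 1 ∧ x 1 ≤ u 1 := a5
  have huV : u ∈ F1.V := FG.mem_V_left a7
  have hu'V : u + e i' ∈ F1.V := FG.mem_V_right a7
  have hu1 : 0 ≤ u 1 := (a5 _ huV).1
  have hd' : (2 : ℤ) ≤ d := by exact_mod_cast hd
  have hdisj : ∀ x, x ∈ F1.V → x ∉ F.V := by
    intro x hx hx'
    have := (hF1coord x hx).2
    have := (hFcoord x hx').1
    linarith
  -- marked edge of the second part
  set B0 : P := u + (d : ℤ) • e 1 with hB0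
  set B1 : P := u + e i' + (d : ℤ) • e 1 with hB1
  have hB0' : B0 - tau u d = pt (u 0) := by
    apply P_ext
    · simp [hB0, e_apply, tau_0]
    · simp [hB0, e_apply, tau_1]
    · simp [hB0, e_apply, tau_2]
  have hB1' : B1 - tau u d = pt (u 0) + e i' := by
    rw [← hB0', hB1, hB0]; abel
  have hFB : F.G.Adj B0 B1 := by
    rw [hFadj, hB0', hB1']; exact b6
  have hB0V : B0 ∈ F.V := FG.mem_V_left hFB
  have hB1V : B1 ∈ F.V := FG.mem_V_right hFB
  -- union
  set G : SimpleGraph P := F1.G ⊔ F.G with hG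
  have hGadj : ∀ x y, G.Adj x y ↔ F1.G.Adj x y ∨ F.G.Adj x y := fun x y => Iff.rfl
  have hGle : G ≤ Lat := sup_le F1.le F.le
  have hGsup : ∀ x, x ∈ G.support ↔ x ∈ F1.V ∨ x ∈ F.V := by
    intro x
    rw [SimpleGraph.mem_support, FG.mem_V, FG.mem_V]
    constructor
    · rintro ⟨y, hy | hy⟩
      · left; exact ⟨y, hy⟩
      · right; exact ⟨y, hy⟩
    · rintro (⟨y, hy⟩ | ⟨y, hy⟩)
      · exact ⟨y, Or.inl hy⟩
      · exact ⟨y, Or.inr hy⟩
  have hGfin : G.support.Finite := by
    apply (F1.V ∪ F.V).finite_toSet.subset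
    intro x hx
    rw [hGsup] at hx
    rw [Finset.mem_coe, Finset.mem_union]
    exact hx
  have hG1 : ∀ x ∈ F1.V, ∀ y, G.Adj x y ↔ F1.G.Adj x y := by
    intro x hx y
    rw [hGadj]
    constructor
    · rintro (h | h)
      · exact h
      · exact absurd (FG.mem_V_left h) (hdisj x hx)
    · exact Or.inl
  have hG2 : ∀ x, x ∉ F1.V → ∀ y, G.Adj x y ↔ F.G.Adj x y := by
    intro x hx y
    rw [hGadj]
    constructor
    · rintro (h | h)
      · exact absurd (FG.mem_V_left h) hx
      · exact h
    · exact Or.inr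
  have hFcl : ∀ x, deg F.G x = 0 ∨ deg F.G x = 2 := by
    intro x; rw [hF, deg_tr']; exact b2 _
  have hGcl : ∀ x, deg G x = 0 ∨ deg G x = 2 := by
    intro x
    by_cases hx : x ∈ F1.V
    · have : deg G x = deg F1.G x := by
        unfold deg
        congr 1
        ext dd
        simp only [Finset.mem_filter, Finset.mem_univ, true_and]
        exact hG1 x hx _
      rw [this]; exact a2 x
    · have : deg G x = deg F.G x := by
        unfold deg
        congr 1
        ext dd
        simp only [Finset.mem_filter, Finset.mem_univ, true_and]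
        exact hG2 x hx _
      rw [this]; exact hFcl x
  have hstay : ∀ x y, G.Reachable x y → x ∈ F1.V → y ∈ F1.V := by
    rintro x y ⟨w⟩ hx
    induction w with
    | nil => exact hx
    | @cons a b c hab q ih =>
      exact ih (FG.mem_V_right ((hG1 a hx b).1 hab))
  have hnr : ¬ G.Reachable u B0 := by
    intro hr
    exact hdisj _ (hstay _ _ hr huV) hB0V
  obtain ⟨p, hp, hps⟩ := exists_lane d u B0 rfl
  obtain ⟨q, hq, hqs⟩ := exists_lane d (u + e i') B1 rfl
  have hpc : ∀ z ∈ p.support, z 0 = u 0 ∧ z 2 = u 2 ∧ u 1 ≤ z 1 ∧ z 1 ≤ u 1 + d := by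
    intro z hz
    obtain ⟨k, hk, hz⟩ := (hps z).1 hz
    have := lane_coord hz
    have hk' : (k : ℤ) ≤ d := by exact_mod_cast hk
    refine ⟨this.1, this.2.2, ?_, ?_⟩ <;> linarith [this.2.1]
  have hqc : ∀ z ∈ q.support, z 0 = u 0 + e i' 0 ∧ z 2 = u 2 + e i' 2 ∧ u 1 ≤ z 1 ∧
      z 1 ≤ u 1 + d := by
    intro z hz
    obtain ⟨k, hk, hz⟩ := (hqs z).1 hz
    have := lane_coord hz
    have hk' : (k : ℤ) ≤ d := by exact_mod_cast hk
    simp only [Pi.add_apply, ei_1 hi'] at this
    refine ⟨this.1, this.2.2, ?_, ?_⟩ <;> linarith [this.2.1]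
  have hp1 : ∀ z ∈ p.support, z 1 ≤ u 1 → z = u := by
    intro z hz hz1
    have := hpc z hz
    exact P_ext this.1 (le_antisymm hz1 this.2.2.1) this.2.1
  have hp2 : ∀ z ∈ p.support, u 1 + d ≤ z 1 → z = B0 := by
    intro z hz hz1
    have := hpc z hz
    apply P_ext
    · rw [this.1]; simp [hB0, e_apply]
    · rw [le_antisymm this.2.2.2 hz1]; simp [hB0, e_apply]
    · rw [this.2.1]; simp [hB0, e_apply]
  have hq1 : ∀ z ∈ q.support, z 1 ≤ u 1 → z = u + e i' := by
    intro z hz hz1
    have := hqc z hz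
    apply P_ext
    · rw [this.1]; rfl
    · rw [Pi.add_apply, ei_1 hi', add_zero]; exact le_antisymm hz1 this.2.2.1
    · rw [this.2.1]; rfl
  have hq2 : ∀ z ∈ q.support, u 1 + d ≤ z 1 → z = B1 := by
    intro z hz hz1
    have := hqc z hz
    apply P_ext
    · rw [this.1]; simp [hB1, e_apply]
    · rw [le_antisymm this.2.2.2 hz1]; simp [hB1, ei_1 hi']; simp [e_apply]
    · rw [this.2.1]; simp [hB1, e_apply]
  have hpi : ∀ x ∈ p.support, x ≠ u → x ≠ B0 → x ∉ G.support := by
    intro x hx hx1 hx2 hxs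
    rcases (hGsup x).1 hxs with h' | h'
    · exact hx1 (hp1 x hx (hF1coord x h').2)
    · exact hx2 (hp2 x hx (hFcoord x h').1)
  have hqi : ∀ x ∈ q.support, x ≠ u + e i' → x ≠ B1 → x ∉ G.support := by
    intro x hx hx1 hx2 hxs
    rcases (hGsup x).1 hxs with h' | h'
    · exact hx1 (hq1 x hx (hF1coord x h').2)
    · exact hx2 (hq2 x hx (hFcoord x h').1)
  have hpe : ∀ x ∈ p.support, ∀ y ∈ p.support, ¬ G.Adj x y := by
    intro x hx y hy hxy
    rcases (hGadj x y).1 hxy with h' | h'
    · have e1 := hp1 x hx (hF1coord x (FG.mem_V_left h')).2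
      have e2 := hp1 y hy (hF1coord y (FG.mem_V_right h')).2
      rw [e1, e2] at h'
      exact F1.G.loopless.irrefl _ h'
    · have e1 := hp2 x hx (hFcoord x (FG.mem_V_left h')).1
      have e2 := hp2 y hy (hFcoord y (FG.mem_V_right h')).1
      rw [e1, e2] at h'
      exact F.G.loopless.irrefl _ h'
  have hqe : ∀ x ∈ q.support, ∀ y ∈ q.support, ¬ G.Adj x y := by
    intro x hx y hy hxy
    rcases (hGadj x y).1 hxy with h' | h'
    · have e1 := hq1 x hx (hF1coord x (FG.mem_V_left h')).2
      have e2 := hq1 y hy (hF1coord y (FG.mem_V_right h')).2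
      rw [e1, e2] at h'
      exact F1.G.loopless.irrefl _ h'
    · have e1 := hq2 x hx (hFcoord x (FG.mem_V_left h')).1
      have e2 := hq2 y hy (hFcoord y (FG.mem_V_right h')).1
      rw [e1, e2] at h'
      exact F.G.loopless.irrefl _ h'
  have hpq : ∀ x ∈ p.support, x ∉ q.support := by
    intro x hx hx'
    have c1 := hpc x hx
    have c2 := hqc x hx'
    rw [c1.1, c1.2.1] at c2
    fin_cases i'
    · have := c2.1; simp [e_apply] at this
    · exact hi' rfl
    · have := c2.2.1; simp [e_apply] at this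
  obtain ⟨r1, r2, r3, r4, r5, r6⟩ := rewire_spec G hGle hGfin hGcl
    (a := u) (b := B0) (a' := u + e i') (b' := B1) (Or.inl a7) (Or.inr hFB) hnr p q hp hq hpq
    hpi hqi hpe hqe
  set R := rewire G p q with hR
  have hRadj : ∀ x y, R.Adj x y ↔ (G.Adj x y ∧ s(x, y) ≠ s(u, u + e i') ∧ s(x, y) ≠ s(B0, B1)) ∨
    s(x, y) ∈ p.edges ∨ s(x, y) ∈ q.edges := fun x y => Iff.rfl
  have hRfin : R.support.Finite := by
    apply (((F1.V ∪ F.V) ∪ p.support.toFinset) ∪ q.support.toFinset).finite_toSet.subset
    intro x hx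
    rw [r3, hGsup] at hx
    simp only [Finset.mem_coe, Finset.mem_union, List.mem_toFinset]
    tauto
  have hRhalf : ∀ x ∈ R.support, 0 ≤ x 0 := by
    intro x hx
    rw [r3, hGsup] at hx
    rcases hx with (h' | h') | h' | h'
    · exact FG.nonneg h'
    · exact FG.nonneg h'
    · rw [(hpc x h').1]; exact FG.nonneg huV
    · rw [(hqc x h').1]; exact FG.nonneg hu'V
  let RF : FG := ⟨R, r1, hRfin, hRhalf⟩
  have hRV : ∀ x, x ∈ RF.V ↔ (x ∈ F1.V ∨ x ∈ F.V) ∨ x ∈ p.support ∨ x ∈ q.support := by
    intro x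
    rw [← hGsup, ← r3]
    exact (Set.Finite.mem_toFinset hRfin)
  -- new vertices
  have hpN : ∀ z, z ∈ p.support ↔ z = u ∨ z = B0 ∨
      z ∈ (Finset.range (d - 1)).image (fun k : ℕ => u + ((k + 1 : ℕ) : ℤ) • e 1) := by
    intro z
    rw [hps, Finset.mem_image]
    constructor
    · rintro ⟨k, hk, rfl⟩
      rcases Nat.eq_zero_or_pos k with rfl | hk0
      · left; simp
      · rcases eq_or_lt_of_le hk with rfl | hkd
        · right; left; rfl
        · right; right
          exact ⟨k - 1, Finset.mem_range.2 (by omega), by rw [Nat.sub_add_cancel hk0]⟩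
    · rintro (rfl | rfl | ⟨k, hk, rfl⟩)
      · exact ⟨0, by omega, by simp⟩
      · exact ⟨d, le_rfl, rfl⟩
      · rw [Finset.mem_range] at hk
        exact ⟨k + 1, by omega, rfl⟩
  have hqN : ∀ z, z ∈ q.support ↔ z = u + e i' ∨ z = B1 ∨
      z ∈ (Finset.range (d - 1)).image (fun k : ℕ => u + e i' + ((k + 1 : ℕ) : ℤ) • e 1) := by
    intro z
    rw [hqs, Finset.mem_image]
    constructor
    · rintro ⟨k, hk, rfl⟩
      rcases Nat.eq_zero_or_pos k with rfl | hk0
      · left; simp
      · rcases eq_or_lt_of_le hk with rfl | hkd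
        · right; left; rfl
        · right; right
          exact ⟨k - 1, Finset.mem_range.2 (by omega), by rw [Nat.sub_add_cancel hk0]⟩
    · rintro (rfl | rfl | ⟨k, hk, rfl⟩)
      · exact ⟨0, by omega, by simp⟩
      · exact ⟨d, le_rfl, rfl⟩
      · rw [Finset.mem_range] at hk
        exact ⟨k + 1, by omega, rfl⟩
  set N1 := (Finset.range (d - 1)).image (fun k : ℕ => u + ((k + 1 : ℕ) : ℤ) • e 1) with hN1
  set N2 := (Finset.range (d - 1)).image (fun k : ℕ => u + e i' + ((k + 1 : ℕ) : ℤ) • e 1) with hN2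
  have hinj : ∀ x : P, Function.Injective (fun k : ℕ => x + ((k + 1 : ℕ) : ℤ) • e 1) := by
    intro x k k' hk
    have := congrFun hk 1
    simp [e_apply] at this
    omega
  have cN1 : N1.card = d - 1 := by
    rw [hN1, Finset.card_image_of_injective _ (hinj u), Finset.card_range]
  have cN2 : N2.card = d - 1 := by
    rw [hN2, Finset.card_image_of_injective _ (hinj (u + e i')), Finset.card_range]
  have N1c : ∀ z ∈ N1, u 1 < z 1 ∧ z 1 < u 1 + d := by
    intro z hz
    obtain ⟨k, hk, hz⟩ := Finset.mem_image.1 hz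
    rw [Finset.mem_range] at hk
    have := (lane_coord hz.symm).2.1
    rw [this]
    constructor <;> push_cast <;> omega
  have N2c : ∀ z ∈ N2, u 1 < z 1 ∧ z 1 < u 1 + d := by
    intro z hz
    obtain ⟨k, hk, hz⟩ := Finset.mem_image.1 hz
    rw [Finset.mem_range] at hk
    have := (lane_coord hz.symm).2.1
    rw [this, Pi.add_apply, ei_1 hi']
    constructor <;> push_cast <;> omega
  have hRVset : RF.V = (F1.V ∪ F.V) ∪ (N1 ∪ N2) := by
    ext z
    rw [hRV, hpN, hqN]
    simp only [Finset.mem_union]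
    constructor
    · rintro ((h' | h') | (rfl | rfl | h') | (rfl | rfl | h'))
      · tauto
      · tauto
      · left; left; exact huV
      · left; right; exact hB0V
      · tauto
      · left; left; exact hu'V
      · left; right; exact hB1V
      · tauto
    · rintro ((h' | h') | (h' | h'))
      · tauto
      · tauto
      · tauto
      · tauto
  have hcard : RF.V.card = M + M' + 2 * (d - 1) := by
    rw [hRVset, Finset.card_union_of_disjoint, Finset.card_union_of_disjoint,
      Finset.card_union_of_disjoint, a1, cN1, cN2]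
    · have : F.V.card = M' := by rw [hF, card_tr, b1]
      rw [this]; ring
    · rw [Finset.disjoint_left]
      intro z hz hz'
      have e1 : z ∈ p.support := (hpN z).2 (Or.inr (Or.inr hz))
      have e2 : z ∈ q.support := (hqN z).2 (Or.inr (Or.inr hz'))
      exact hpq z e1 e2
    · rw [Finset.disjoint_left]
      intro z hz hz'
      exact hdisj z hz hz'
    · rw [Finset.disjoint_left]
      intro z hz hz'
      rw [Finset.mem_union] at hz hz'
      have e1 : u 1 < z 1 ∧ z 1 < u 1 + d := by
        rcases hz' with h' | h'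
        · exact N1c z h'
        · exact N2c z h'
      rcases hz with h' | h'
      · have := (hF1coord z h').2; linarith [e1.1]
      · have := (hFcoord z h').1; linarith [e1.2]
  -- connectivity
  have hreach : ∀ x ∈ RF.V, R.Reachable u x := by
    intro x hx
    have hxs : x ∈ R.support := (Set.Finite.mem_toFinset hRfin).1 hx
    rcases r6 x hxs with h' | h'
    · rcases (hGsup x).1 h' with h'' | h''
      · exact r4 _ _ ((a3 u huV x h'').mono le_sup_left)
      · have hFc : F.G.Reachable B0 x := by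
          rw [hF, reach_tr]
          exact b3 _ ((hFmem B0).1 hB0V) _ ((hFmem x).1 h'')
        exact r5.trans (r4 _ _ (hFc.mono le_sup_right))
    · exact h'
  have hu'V2 : u' ∈ F2.V := FG.mem_V_left b7
  have hu'1 : 0 ≤ u' 1 := (b5 _ hu'V2).1
  have hpV : pt h ∈ F1.V := FG.mem_V_left a6
  have hpV' : pt h + e i ∈ F1.V := FG.mem_V_right a6
  have hFtop : F.G.Adj (u' + tau u d) (u' + tau u d + e i'') := by
    rw [hFadj]
    have e1 : u' + tau u d - tau u d = u' := by abel
    have e2 : u' + tau u d + e i'' - tau u d = u' + e i'' := by abel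
    rw [e1, e2]; exact b7
  have hin : RF ∈ Anc (M + M' + 2 * (d - 1)) h i (u' + tau u d) i'' := by
    refine ⟨hcard, r2, ?_, ?_, ?_, ?_, ?_, ?_⟩
    · intro x hx y hy
      exact (hreach x hx).symm.trans (hreach y hy)
    · obtain ⟨x, hx, hx0⟩ := a4
      exact ⟨x, (hRV x).2 (Or.inl (Or.inl hx)), hx0⟩
    · intro x hx
      rw [Pi.add_apply, tau_1]
      rw [hRVset] at hx
      simp only [Finset.mem_union] at hx
      rcases hx with (h' | h') | (h' | h')
      · have := hF1coord x h'
        constructor <;> linarith [this.1, this.2]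
      · have := hFcoord x h'
        constructor <;> linarith [this.1, this.2]
      · have := N1c x h'
        constructor <;> linarith [this.1, this.2]
      · have := N2c x h'
        constructor <;> linarith [this.1, this.2]
    · refine (hRadj _ _).2 (Or.inl ⟨Or.inl a6, a8, ?_⟩)
      intro heq
      rw [Sym2.eq_iff] at heq
      rcases heq with ⟨h', -⟩ | ⟨h', -⟩
      · exact hdisj _ hpV (h' ▸ hB0V)
      · exact hdisj _ hpV (h' ▸ hB1V)
    · refine (hRadj _ _).2 (Or.inl ⟨Or.inr hFtop, ?_, ?_⟩)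
      · intro heq
        rw [Sym2.eq_iff] at heq
        rcases heq with ⟨h', -⟩ | ⟨h', -⟩
        · exact hdisj (u' + tau u d) (by rw [h']; exact huV) (FG.mem_V_left hFtop)
        · exact hdisj (u' + tau u d) (by rw [h']; exact hu'V) (FG.mem_V_left hFtop)
      · intro heq
        apply b8
        have e1 : B0 = pt (u 0) + tau u d := by rw [← hB0']; abel
        have e2 : B1 = pt (u 0) + e i' + tau u d := by rw [← hB1']; abel
        rw [e1, e2, Sym2.eq_iff] at heq
        rw [Sym2.eq_iff]
        have e3 : u' + tau u d + e i'' = u' + e i'' + tau u d := by abel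
        rw [e3] at heq
        rcases heq with ⟨h1, h2⟩ | ⟨h1, h2⟩
        · left; exact ⟨(add_right_cancel h1).symm, (add_right_cancel h2).symm⟩
        · right; exact ⟨(add_right_cancel h2).symm, (add_right_cancel h1).symm⟩
    · intro heq
      rw [Sym2.eq_iff] at heq
      rcases heq with ⟨h', -⟩ | ⟨h', -⟩
      · exact hdisj _ hpV (h' ▸ FG.mem_V_left hFtop)
      · exact hdisj _ hpV (h' ▸ FG.mem_V_right hFtop)
  -- recovery
  have hsym : ∀ {x y a b : P}, s(x, y) = s(a, b) → (x = a ∨ x = b) ∧ (y = a ∨ y = b) := by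
    intro x y a b h'
    rw [Sym2.eq_iff] at h'
    tauto
  have hpedge : ∀ {x y : P}, s(x, y) ∈ p.edges → x ∈ p.support ∧ y ∈ p.support := by
    intro x y h'
    exact ⟨p.fst_mem_support_of_mem_edges h', p.snd_mem_support_of_mem_edges h'⟩
  have hqedge : ∀ {x y : P}, s(x, y) ∈ q.edges → x ∈ q.support ∧ y ∈ q.support := by
    intro x y h'
    exact ⟨q.fst_mem_support_of_mem_edges h', q.snd_mem_support_of_mem_edges h'⟩
  have hrel : GlueRel u i' d (F1, F2) RF := by
    constructor
    · intro x y
      constructor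
      · intro hxy
        have hx := FG.mem_V_left hxy
        have hy := FG.mem_V_right hxy
        refine ⟨(hF1coord x hx).2, (hF1coord y hy).2, ?_⟩
        by_cases he : s(x, y) = s(u, u + e i')
        · exact Or.inr he
        · left
          refine (hRadj _ _).2 (Or.inl ⟨Or.inl hxy, he, ?_⟩)
          intro heq
          rcases (hsym heq).1 with h' | h'
          · exact hdisj _ hx (h' ▸ hB0V)
          · exact hdisj _ hx (h' ▸ hB1V)
      · rintro ⟨hx, hy, hxy | hxy⟩
        · rcases (hRadj _ _).1 hxy with ⟨h' | h', -, -⟩ | h' | h'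
          · exact h'
          · have := (hFcoord x (FG.mem_V_left h')).1
            linarith
          · have e1 := hp1 x (hpedge h').1 hx
            have e2 := hp1 y (hpedge h').2 hy
            have := hxy.ne
            exact absurd (e1.trans e2.symm) this
          · have e1 := hq1 x (hqedge h').1 hx
            have e2 := hq1 y (hqedge h').2 hy
            have := hxy.ne
            exact absurd (e1.trans e2.symm) this
        · exact adj_of_sym hxy a7
    · intro x y
      simp only
      rw [← hFadj]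
      constructor
      · intro hxy
        have hx := FG.mem_V_left hxy
        have hy := FG.mem_V_right hxy
        refine ⟨(hFcoord x hx).1, (hFcoord y hy).1, ?_⟩
        by_cases he : s(x, y) = s(B0, B1)
        · exact Or.inr he
        · left
          refine (hRadj _ _).2 (Or.inl ⟨Or.inr hxy, ?_, he⟩)
          intro heq
          rcases (hsym heq).1 with h' | h'
          · exact hdisj _ (h' ▸ huV : x ∈ F1.V) hx
          · exact hdisj _ (h' ▸ hu'V : x ∈ F1.V) hx
      · rintro ⟨hx, hy, hxy | hxy⟩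
        · rcases (hRadj _ _).1 hxy with ⟨h' | h', -, -⟩ | h' | h'
          · have := (hF1coord x (FG.mem_V_left h')).2
            linarith
          · exact h'
          · have e1 := hp2 x (hpedge h').1 hx
            have e2 := hp2 y (hpedge h').2 hy
            have := hxy.ne
            exact absurd (e1.trans e2.symm) this
          · have e1 := hq2 x (hqedge h').1 hx
            have e2 := hq2 y (hqedge h').2 hy
            have := hxy.ne
            exact absurd (e1.trans e2.symm) this
        · exact adj_of_sym hxy hFB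
  refine ⟨RF, hin, hrel, ?_⟩
  -- energies
  let UF : FG := ⟨G, hGle, hGfin, by
    intro x hx
    rcases (hGsup x).1 hx with h' | h'
    · exact FG.nonneg h'
    · exact FG.nonneg h'⟩
  have hUV : ∀ x, x ∈ UF.V ↔ x ∈ F1.V ∨ x ∈ F.V := by
    intro x
    rw [← hGsup]
    exact (Set.Finite.mem_toFinset hGfin)
  have hUVset : UF.V = F1.V ∪ F.V := by
    ext z; rw [hUV, Finset.mem_union]
  have hstep : ∀ (x : P) (dd : Dir), |(x + st dd) 1 - x 1| ≤ 1 := by
    intro x dd
    exact adj_step (adj_st x dd).symm 1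
  have hWU : W par UF = W par F1 + W par F2 := by
    have e1 : W par F2 = W par F := (W_trn par F2 rfl (trn_half rfl)).symm
    rw [e1]
    unfold W
    rw [hUVset, Finset.sum_union (by rw [Finset.disjoint_left]; exact fun z => hdisj z)]
    congr 1
    · apply Finset.sum_congr rfl
      intro x hx
      apply phi_congr' par Iff.rfl
      · intro dd
        rw [hUV]
        constructor
        · rintro (h' | h')
          · exact h'
          · have c1 := (hFcoord _ h').1
            have c2 := (hF1coord x hx).2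
            have c3 := (abs_le.1 (hstep x dd)).2
            linarith
        · exact Or.inl
      · intro dd; exact hG1 x hx _
    · apply Finset.sum_congr rfl
      intro x hx
      have hx1 : x ∉ F1.V := fun h' => hdisj x h' hx
      apply phi_congr' par Iff.rfl
      · intro dd
        rw [hUV]
        constructor
        · rintro (h' | h')
          · have c1 := (hFcoord _ hx).1
            have c2 := (hF1coord _ h').2
            have c3 := (abs_le.1 (hstep x dd)).1
            linarith
          · exact h'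
        · exact Or.inr
      · intro dd; exact hG2 x hx1 _
  set Ls : Finset P := p.support.toFinset ∪ q.support.toFinset with hLs
  set Nb : Finset P := Ls ∪ Ls.biUnion (fun z => Finset.univ.image (fun dd : Dir => z + st dd))
    with hNb
  have hmemLs : ∀ z, z ∈ Ls ↔ z ∈ p.support ∨ z ∈ q.support := by
    intro z; simp [hLs]
  have hLcard : Ls.card ≤ 2 * (d + 1) := by
    have c1 : p.support.toFinset ⊆ (Finset.range (d + 1)).image (fun k : ℕ => u + (k : ℤ) • e 1) := by
      intro z hz
      obtain ⟨k, hk, rfl⟩ := (hps z).1 (List.mem_toFinset.1 hz)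
      exact Finset.mem_image.2 ⟨k, Finset.mem_range.2 (by omega), rfl⟩
    have c2 : q.support.toFinset ⊆
        (Finset.range (d + 1)).image (fun k : ℕ => u + e i' + (k : ℤ) • e 1) := by
      intro z hz
      obtain ⟨k, hk, rfl⟩ := (hqs z).1 (List.mem_toFinset.1 hz)
      exact Finset.mem_image.2 ⟨k, Finset.mem_range.2 (by omega), rfl⟩
    have c3 := (Finset.card_le_card c1).trans Finset.card_image_le
    have c4 := (Finset.card_le_card c2).trans Finset.card_image_le
    rw [Finset.card_range] at c3 c4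
    have := Finset.card_union_le p.support.toFinset q.support.toFinset
    rw [hLs]
    omega
  have hNcard : Nb.card ≤ 14 * (d + 1) := by
    have c1 : (Ls.biUnion (fun z => Finset.univ.image (fun dd : Dir => z + st dd))).card ≤
        Ls.card * 6 := by
      apply Finset.card_biUnion_le_card_mul
      intro z _
      refine Finset.card_image_le.trans ?_
      simp
    have c2 := Finset.card_union_le Ls
      (Ls.biUnion (fun z => Finset.univ.image (fun dd : Dir => z + st dd)))
    rw [← hNb] at c2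
    omega
  have hNb1 : ∀ x, x ∉ Nb → x ∉ Ls := by
    intro x hx hx'
    exact hx (Finset.mem_union_left _ hx')
  have hNb2 : ∀ x, x ∉ Nb → ∀ dd : Dir, x + st dd ∉ Ls := by
    intro x hx dd hx'
    apply hx
    apply Finset.mem_union_right
    rw [Finset.mem_biUnion]
    refine ⟨x + st dd, hx', Finset.mem_image.2 ⟨opp dd, Finset.mem_univ _, ?_⟩⟩
    rw [st_opp]; abel
  have hcmp := W_compare par UF RF id Nb (14 * (d + 1)) (fun a _ b _ h' => h') ?_ ?_ hNcard ?_
  · rw [hWU] at hcmp
    have := (abs_le.1 hcmp).2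
    linarith
  · intro x hx
    rw [Finset.mem_sdiff, hUV] at hx
    exact (hRV x).2 (Or.inl hx.1)
  · intro x hx
    rw [Finset.mem_sdiff] at hx
    have n1 := hNb1 x hx.2
    rw [hmemLs] at n1
    push Not at n1
    apply phi_congr' par Iff.rfl
    · intro dd
      have n2 := hNb2 x hx.2 dd
      rw [hmemLs] at n2
      change x + st dd ∈ UF.V ↔ x + st dd ∈ RF.V
      rw [hUV, hRV]
      tauto
    · intro dd
      change G.Adj x (x + st dd) ↔ R.Adj x (x + st dd)
      rw [hRadj]
      constructor
      · intro h'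
        refine Or.inl ⟨h', ?_, ?_⟩
        · intro heq
          rcases (hsym heq).1 with h'' | h''
          · exact n1.1 (h'' ▸ (hpN u).2 (Or.inl rfl))
          · exact n1.2 (h'' ▸ (hqN _).2 (Or.inl rfl))
        · intro heq
          rcases (hsym heq).1 with h'' | h''
          · exact n1.1 (h'' ▸ (hpN B0).2 (Or.inr (Or.inl rfl)))
          · exact n1.2 (h'' ▸ (hqN B1).2 (Or.inr (Or.inl rfl)))
      · rintro (h' | h' | h')
        · exact h'.1
        · exact absurd (hpedge h').1 n1.1
        · exact absurd (hqedge h').1 n1.2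
  · refine (Finset.card_le_card ?_).trans hNcard
    intro x hx
    rw [Finset.image_id, Finset.mem_sdiff, Finset.mem_sdiff, hUV, hRV] at hx
    by_contra hxN
    apply hx.2
    refine ⟨?_, hxN⟩
    have n1 := hNb1 x hxN
    rw [hmemLs] at n1
    tauto

theorem glue_le (par : Par) (hd : 2 ≤ d) (hi' : i' ≠ 1) (hi'' : i'' ≠ 1) :
    Om par (Anc M h i u i') * Om par (Anc M' (u 0) i' u' i'') ≤
      ENNReal.ofReal (Real.exp (28 * C0 par * (d + 1))) *
        Om par (Anc (M + M' + 2 * (d - 1)) h i (u' + tau u d) i'') := by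
  have key : Om par (Anc M h i u i') * Om par (Anc M' (u 0) i' u' i'') =
      ∑' z : (Anc M h i u i' ×ˢ Anc M' (u 0) i' u' i'' : Set (FG × FG)),
        wt par z.1.1 * wt par z.1.2 :=
    tsum_mul_prod (Anc M h i u i') (Anc M' (u 0) i' u' i'') (wt par) (wt par)
  rw [key]
  have := tsum_transfer (Anc M h i u i' ×ˢ Anc M' (u 0) i' u' i'')
    (Anc (M + M' + 2 * (d - 1)) h i (u' + tau u d) i'') ({()} : Finset Unit)
    (fun z => wt par z.1 * wt par z.2) (wt par)
    (ENNReal.ofReal (Real.exp (28 * C0 par * (d + 1))))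
    (fun a _ b => GlueRel u i' d a b) ?_ ?_
  · rw [Finset.card_singleton, Nat.cast_one, one_mul] at this
    exact this
  · rintro ⟨F1, F2⟩ ⟨H1, H2⟩
    obtain ⟨b, hb, hr, hw⟩ := glue_exists par hd hi' H1 H2 hi''
    refine ⟨(), by simp, b, hb, hr, ?_⟩
    unfold wt
    rw [← ENNReal.ofReal_mul (Real.exp_pos _).le, ← ENNReal.ofReal_mul (Real.exp_pos _).le,
      ← Real.exp_add, ← Real.exp_add]
    apply ENNReal.ofReal_le_ofReal
    apply Real.exp_le_exp.2
    push_cast at hw
    linarith
  · rintro a - a' - - b h1 h2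
    exact GlueRel.uniq h1 h2

end glue

end Poly

end Pool.Agent.Lib.MP_280b4e_pr
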