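import Pool.Agent.Lib.MP_280b4e_pr.PolyShift
import Pool.Agent.Lib.MP_280b4e_pr.Bridge

/-!
Extreme layers of closed connected graphs; anchored classes; comparison with `PolF`.
-/

namespace Pool.Agent.Lib.MP_280b4e_pr
open scoped ENNReal
open Classical

namespace Poly

theorem adj_step {x y : P} (h : Lat.Adj x y) (j : Fin 3) : |x j - y j| ≤ 1 := by
  rw [adj_coord] at h
  fin_cases j
  · change |x 0 - y 0| ≤ 1
    rw [abs_le]; omega
  · change |x 1 - y 1| ≤ 1
    rw [abs_le]; omega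
  · change |x 2 - y 2| ≤ 1
    rw [abs_le]; omega

theorem walk_step {G : SimpleGraph P} (hG : G ≤ Lat) {x y : P} (p : G.Walk x y) (j : Fin 3) :
    |x j - y j| ≤ (p.length : ℤ) := by
  induction p with
  | nil => simp
  | @cons a b c h q ih =>
    have h1 := adj_step (hG h) j
    rw [SimpleGraph.Walk.length_cons]
    push_cast
    have h2 : |a j - c j| ≤ |a j - b j| + |b j - c j| := by
      have := abs_add_le (a j - b j) (b j - c j)
      simpa using this
    linarith

theorem support_sub (F : FG) {x y : P} (p : F.G.Walk x y) (hx : x ∈ F.V) :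
    ∀ z ∈ p.support, z ∈ F.V := by
  induction p with
  | nil =>
    intro z hz
    rw [SimpleGraph.Walk.support_nil, List.mem_singleton] at hz
    rw [hz]; exact hx
  | @cons a b c h q ih =>
    intro z hz
    rw [SimpleGraph.Walk.support_cons, List.mem_cons] at hz
    rcases hz with rfl | hz
    · exact hx
    · exact ih (FG.mem_V_right h) z hz

/-- Connected graphs are narrow. -/
theorem diam (F : FG) (hc : ∀ x ∈ F.V, ∀ y ∈ F.V, F.G.Reachable x y) {x y : P} (hx : x ∈ F.V)
    (hy : y ∈ F.V) (j : Fin 3) : |x j - y j| < (F.V.card : ℤ) := by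
  obtain ⟨p, hp⟩ := (hc x hx y hy).exists_isPath
  have h1 := walk_step F.le p j
  have h2 : p.support.toFinset ⊆ F.V := by
    intro z hz
    exact support_sub F p hx z (List.mem_toFinset.1 hz)
  have h3 := Finset.card_le_card h2
  rw [List.toFinset_card_of_nodup hp.support_nodup, SimpleGraph.Walk.length_support] at h3
  have h4 : (p.length : ℤ) + 1 ≤ F.V.card := by exact_mod_cast h3
  linarith

/-- Edge data of a direction: the edge `x, x + st d` in positive form. -/
def base (x : P) (d : Dir) : P := if d.2 then x else x + st d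

theorem base_spec (x : P) (d : Dir) : s(base x d, base x d + e d.1) = s(x, x + st d) := by
  obtain ⟨i, b⟩ := d
  cases b
  · simp only [base, Bool.false_eq_true, if_false, st_false]
    rw [Sym2.eq_swap]
    simp
  · simp [base, st_true]

theorem base_coord (x : P) (d : Dir) (j : Fin 3) (h : d.1 ≠ j) : base x d j = x j := by
  obtain ⟨i, b⟩ := d
  cases b
  · have : j ≠ i := fun h' => h h'.symm
    simp [base, st, this]
  · simp [base]

theorem adj_of_sym {G : SimpleGraph P} {a b c d : P} (h : s(a, b) = s(c, d)) (hG : G.Adj c d) :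
    G.Adj a b := by
  rw [← SimpleGraph.mem_edgeSet, h, SimpleGraph.mem_edgeSet]
  exact hG

/-- In an extreme layer there is an edge. -/
theorem layer_dir (F : FG) (j : Fin 3) {x : P} (hd : deg F.G x = 2)
    (hm : (∀ y ∈ F.V, x j ≤ y j) ∨ (∀ y ∈ F.V, y j ≤ x j)) :
    ∃ d : Dir, d.1 ≠ j ∧ F.G.Adj x (x + st d) := by
  by_contra hcon
  push Not at hcon
  rcases hm with hm | hm
  · have hsub : (Finset.univ.filter fun d : Dir => F.G.Adj x (x + st d)) ⊆ {(j, true)} := by
      rintro ⟨i, b⟩ hd'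
      rw [Finset.mem_filter] at hd'
      have h1 : i = j := by
        by_contra h1
        exact hcon (i, b) h1 hd'.2
      subst h1
      cases b
      · have := hm _ (FG.mem_V_right hd'.2)
        simp [st] at this
      · simp
    have := Finset.card_le_card hsub
    rw [Finset.card_singleton] at this
    unfold deg at hd
    omega
  · have hsub : (Finset.univ.filter fun d : Dir => F.G.Adj x (x + st d)) ⊆ {(j, false)} := by
      rintro ⟨i, b⟩ hd'
      rw [Finset.mem_filter] at hd'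
      have h1 : i = j := by
        by_contra h1
        exact hcon (i, b) h1 hd'.2
      subst h1
      cases b
      · simp
      · have := hm _ (FG.mem_V_right hd'.2)
        simp [st] at this
    have := Finset.card_le_card hsub
    rw [Finset.card_singleton] at this
    unfold deg at hd
    omega

theorem layer_edge (F : FG) (j : Fin 3) {x : P} (hd : deg F.G x = 2)
    (hm : (∀ y ∈ F.V, x j ≤ y j) ∨ (∀ y ∈ F.V, y j ≤ x j)) :
    ∃ (z : P) (i : Fin 3), i ≠ j ∧ z j = x j ∧ F.G.Adj z (z + e i) := by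
  obtain ⟨d, hdj, hadj⟩ := layer_dir F j hd hm
  exact ⟨base x d, d.1, hdj, base_coord x d j hdj, adj_of_sym (base_spec x d) hadj⟩

theorem deg_of_mem (F : FG) (hcl : ∀ x, deg F.G x = 0 ∨ deg F.G x = 2) {x : P} (hx : x ∈ F.V) :
    deg F.G x = 2 := by
  rcases hcl x with h | h
  · rw [deg_eq_zero F.le] at h
    obtain ⟨y, hy⟩ := FG.mem_V.1 hx
    exact absurd hy (h y)
  · exact h

/-- The two marked edges. -/
theorem two_edges (F : FG) (hne : F.V.Nonempty) (hcl : ∀ x, deg F.G x = 0 ∨ deg F.G x = 2)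
    (h0 : ∀ x ∈ F.V, 0 ≤ x 1) (h0' : ∃ x ∈ F.V, x 1 = 0) :
    ∃ (z : P) (i : Fin 3) (u : P) (i' : Fin 3), i ≠ 1 ∧ i' ≠ 1 ∧ z 1 = 0 ∧
      (∀ x ∈ F.V, x 1 ≤ u 1) ∧ F.G.Adj z (z + e i) ∧ F.G.Adj u (u + e i') ∧
      s(z, z + e i) ≠ s(u, u + e i') := by
  obtain ⟨m, hm, hmax⟩ := Finset.exists_max_image F.V (fun x => x 1) hne
  obtain ⟨b, hb, hb0⟩ := h0'
  by_cases hflat : m 1 = 0
  · -- flat case
    have hz : ∀ x ∈ F.V, x 1 = 0 := fun x hx => le_antisymm ((hmax x hx).trans hflat.le) (h0 x hx)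
    have hd := deg_of_mem F hcl hb
    unfold deg at hd
    rw [Finset.card_eq_two] at hd
    obtain ⟨d, d', hdd, hset⟩ := hd
    have hA : ∀ d'' : Dir, d'' = d ∨ d'' = d' → F.G.Adj b (b + st d'') := by
      intro d'' h
      have : d'' ∈ Finset.univ.filter fun d : Dir => F.G.Adj b (b + st d) := by
        rw [hset]; simpa using h
      exact (Finset.mem_filter.1 this).2
    have hne1 : ∀ d'' : Dir, d'' = d ∨ d'' = d' → d''.1 ≠ 1 := by
      intro d'' h h1
      have h2 := hz _ (FG.mem_V_right (hA d'' h))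
      obtain ⟨i, bb⟩ := d''
      simp only at h1
      subst h1
      cases bb <;> simp [st, hb0] at h2
    refine ⟨base b d, d.1, base b d', d'.1, hne1 d (Or.inl rfl), hne1 d' (Or.inr rfl), ?_, ?_,
      adj_of_sym (base_spec b d) (hA d (Or.inl rfl)),
      adj_of_sym (base_spec b d') (hA d' (Or.inr rfl)), ?_⟩
    · rw [base_coord b d 1 (hne1 d (Or.inl rfl)), hb0]
    · intro x hx
      rw [base_coord b d' 1 (hne1 d' (Or.inr rfl)), hb0, hz x hx]
    · rw [base_spec, base_spec]
      intro h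
      rw [Sym2.eq_iff] at h
      rcases h with ⟨-, h⟩ | ⟨h, -⟩
      · exact hdd (st_injective (add_left_cancel h))
      · have h3 := hA d' (Or.inr rfl)
        rw [← h] at h3
        exact F.G.loopless.irrefl _ h3
  · obtain ⟨z, i, hi, hz, hzA⟩ := layer_edge F 1 (deg_of_mem F hcl hb)
      (Or.inl fun y hy => by rw [hb0]; exact h0 y hy)
    obtain ⟨u, i', hi', hu, huA⟩ := layer_edge F 1 (deg_of_mem F hcl hm)
      (Or.inr fun y hy => hmax y hy)
    refine ⟨z, i, u, i', hi, hi', by rw [hz, hb0], fun x hx => by rw [hu]; exact hmax x hx,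
      hzA, huA, ?_⟩
    intro h
    rw [Sym2.eq_iff] at h
    rcases h with ⟨h, -⟩ | ⟨h, -⟩
    · apply hflat
      rw [← hu, ← h, hz, hb0]
    · have h2 := congrFun h 1
      have h3 : (u + e i') 1 = u 1 := by
        have : (1 : Fin 3) ≠ i' := fun h' => hi' h'.symm
        simp [e, this]
      apply hflat
      rw [← hu, ← h3, ← h2, hz, hb0]

/-- Points of the first axis. -/
def pt (h : ℤ) : P := ![h, 0, 0]

@[simp] theorem pt_0 (h : ℤ) : pt h 0 = h := rfl
@[simp] theorem pt_1 (h : ℤ) : pt h 1 = 0 := rfl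
@[simp] theorem pt_2 (h : ℤ) : pt h 2 = 0 := rfl

/-- Anchored closed connected graphs with two marked edges. -/
def Anc (M : ℕ) (h : ℤ) (i : Fin 3) (u : P) (i' : Fin 3) : Set FG :=
  {F | F.V.card = M ∧ (∀ x, deg F.G x = 0 ∨ deg F.G x = 2) ∧
    (∀ x ∈ F.V, ∀ y ∈ F.V, F.G.Reachable x y) ∧ (∃ x ∈ F.V, x 0 = 0) ∧
    (∀ x ∈ F.V, 0 ≤ x 1 ∧ x 1 ≤ u 1) ∧ F.G.Adj (pt h) (pt h + e i) ∧ F.G.Adj u (u + e i') ∧
    s(pt h, pt h + e i) ≠ s(u, u + e i')}

/-- Translation parallel to the wall keeps the half space. -/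
theorem trn_half {F : FG} {v : P} (hv : v 0 = 0) : ∀ x ∈ F.V, 0 ≤ ((trn v).f x) 0 := by
  intro x hx
  simp only [trn_f, Pi.add_apply, hv, add_zero]
  exact FG.nonneg hx

theorem W_trn (p : Par) (F : FG) {v : P} (hv : v 0 = 0)
    (hf : ∀ x ∈ F.V, 0 ≤ ((trn v).f x) 0) : W p (tr (trn v) F hf) = W p F := by
  apply W_tr
  intro x _
  simp [hv]

theorem mrr_half {F : FG} {c a : ℤ} : ∀ x ∈ F.V, 0 ≤ ((mrr c a).f x) 0 := by
  intro x hx
  rw [mrr_0]
  exact FG.nonneg hx

theorem mrr_add (c a : ℤ) (x : P) (i : Fin 3) (hi : i ≠ 1) :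
    (mrr c a).f (x + e i) = (mrr c a).f x + e i := by
  fin_cases i
  · apply P_ext <;> simp [e]
  · exact absurd rfl hi
  · apply P_ext <;> simp [e]; ring

/-- Mirror image of an anchored class. -/
theorem anc_mirror (p : Par) (M : ℕ) (h : ℤ) {i : Fin 3} (u : P) {i' : Fin 3} (hi : i ≠ 1)
    (hi' : i' ≠ 1) :
    Om p (Anc M h i u i') ≤ Om p (Anc M (u 0) i' ![h, u 1, -u 2] i) := by
  have := Om_transfer p (Anc M h i u i') (Anc M (u 0) i' ![h, u 1, -u 2] i)
    ({()} : Finset Unit) 0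
    (fun a _ b => b = tr (mrr (u 1) (-u 2)) a mrr_half) ?_ ?_
  · simpa using this
  · intro F hF
    obtain ⟨h1, h2, h3, h4, h5, h6, h7, h8⟩ := hF
    have hfu : (mrr (u 1) (-u 2)).f u = pt (u 0) := by
      apply P_ext <;> simp
    have hfh : (mrr (u 1) (-u 2)).f (pt h) = ![h, u 1, -u 2] := by
      apply P_ext <;> simp
    refine ⟨(), by simp, tr (mrr (u 1) (-u 2)) F mrr_half, ⟨?_, ?_, ?_, ?_, ?_, ?_, ?_, ?_⟩, rfl, ?_⟩
    · rw [card_tr, h1]
    · intro x; rw [deg_tr']; exact h2 _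
    · intro x hx y hy
      rw [reach_tr]
      exact h3 _ (mem_tr.1 hx) _ (mem_tr.1 hy)
    · obtain ⟨x, hx, hx0⟩ := h4
      exact ⟨_, mem_tr'.2 hx, by rw [mrr_0]; exact hx0⟩
    · intro x hx
      have := h5 _ (mem_tr.1 hx)
      rw [mrr_s1] at this
      simp only [Matrix.cons_val_one, Matrix.cons_val_zero]
      constructor <;> linarith [this.1, this.2]
    · rw [← hfu, ← mrr_add _ _ _ _ hi', tr_adj']; exact h7
    · rw [← hfh, ← mrr_add _ _ _ _ hi, tr_adj']; exact h6
    · rw [← hfu, ← mrr_add _ _ _ _ hi', ← hfh, ← mrr_add _ _ _ _ hi]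
      intro heq
      apply h8
      rw [Sym2.eq_iff] at heq ⊢
      rcases heq with ⟨ha, hb⟩ | ⟨ha, hb⟩
      · left; exact ⟨((mrr _ _).f.injective ha).symm, ((mrr _ _).f.injective hb).symm⟩
      · right; exact ⟨((mrr _ _).f.injective hb).symm, ((mrr _ _).f.injective ha).symm⟩
    · rw [W_tr p (fun x _ => by rw [mrr_0]), zero_add]
  · rintro a _ a' _ _ b rfl h
    exact tr_inj h

end Poly

end Pool.Agent.Lib.MP_280b4e_pr
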