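import Pool.Agent.Lib.MP_280b4e_pr.Basic

/-!
Symmetries of the lattice acting on finite graphs (translations and a mirror), for Poly.lean.
-/

namespace Pool.Agent.Lib.MP_280b4e_pr
open scoped ENNReal
open Classical

namespace Poly

/-- A lattice symmetry with the induced permutation of the directions. -/
structure Sy where
  f : P ≃ P
  π : Equiv.Perm Dir
  h : ∀ x d, f (x + st d) = f x + st (π d)

theorem Sy.lat (s : Sy) (x y : P) : Lat.Adj (s.f x) (s.f y) ↔ Lat.Adj x y := by
  rw [adj_iff_st, adj_iff_st]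
  constructor
  · rintro ⟨d, hd⟩
    refine ⟨s.π.symm d, ?_⟩
    apply s.f.injective
    rw [s.h, hd]; simp
  · rintro ⟨d, rfl⟩
    exact ⟨s.π d, s.h x d⟩

theorem Sy.lat_symm (s : Sy) (x y : P) : Lat.Adj (s.f.symm x) (s.f.symm y) ↔ Lat.Adj x y := by
  rw [← s.lat]; simp

/-- The image of a finite graph. -/
noncomputable def tr (s : Sy) (F : FG) (hf : ∀ x ∈ F.V, 0 ≤ (s.f x) 0) : FG where
  G := F.G.comap s.f.symm
  le := by
    intro x y hxy
    exact (s.lat_symm x y).1 (F.le hxy)
  fin := by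
    have : (F.G.comap s.f.symm).support ⊆ s.f '' F.G.support := by
      rintro x ⟨y, hy⟩
      exact ⟨s.f.symm x, ⟨_, hy⟩, by simp⟩
    exact (F.fin.image _).subset this
  half := by
    rintro x ⟨y, hy⟩
    have := hf (s.f.symm x) (FG.mem_V_left hy)
    simpa using this

variable {s : Sy} {F : FG} {hf : ∀ x ∈ F.V, 0 ≤ (s.f x) 0}

theorem tr_adj {x y : P} : (tr s F hf).G.Adj x y ↔ F.G.Adj (s.f.symm x) (s.f.symm y) := Iff.rfl

theorem tr_adj' {x y : P} : (tr s F hf).G.Adj (s.f x) (s.f y) ↔ F.G.Adj x y := by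
  rw [tr_adj]; simp

theorem mem_tr {x : P} : x ∈ (tr s F hf).V ↔ s.f.symm x ∈ F.V := by
  rw [FG.mem_V, FG.mem_V]
  constructor
  · rintro ⟨y, hy⟩; exact ⟨_, hy⟩
  · rintro ⟨y, hy⟩; exact ⟨s.f y, by rw [tr_adj]; simpa using hy⟩

theorem mem_tr' {x : P} : s.f x ∈ (tr s F hf).V ↔ x ∈ F.V := by
  rw [mem_tr]; simp

theorem V_tr : (tr s F hf).V = F.V.image s.f := by
  ext x
  rw [mem_tr, Finset.mem_image]
  constructor
  · intro h; exact ⟨_, h, by simp⟩
  · rintro ⟨y, hy, rfl⟩; simpa using hy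

theorem card_tr : (tr s F hf).V.card = F.V.card := by
  rw [V_tr, Finset.card_image_of_injective _ s.f.injective]

theorem deg_tr (x : P) : deg (tr s F hf).G (s.f x) = deg F.G x := by
  unfold deg
  symm
  refine Finset.card_bij (fun d _ => s.π d) ?_ ?_ ?_
  · intro d hd
    simp only [Finset.mem_filter, Finset.mem_univ, true_and] at hd ⊢
    rw [← s.h, tr_adj']
    exact hd
  · intro a _ b _ h; exact s.π.injective h
  · intro d hd
    simp only [Finset.mem_filter, Finset.mem_univ, true_and] at hd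
    refine ⟨s.π.symm d, ?_, by simp⟩
    simp only [Finset.mem_filter, Finset.mem_univ, true_and]
    have h1 : s.f x + st d = s.f (x + st (s.π.symm d)) := by rw [s.h]; simp
    rw [h1, tr_adj'] at hd
    exact hd

theorem deg_tr' (x : P) : deg (tr s F hf).G x = deg F.G (s.f.symm x) := by
  rw [← deg_tr (hf := hf)]; simp

theorem reach_tr {x y : P} :
    (tr s F hf).G.Reachable x y ↔ F.G.Reachable (s.f.symm x) (s.f.symm y) := by
  have := SimpleGraph.Iso.reachable_iff (φ := SimpleGraph.Iso.comap s.f.symm F.G) (u := x) (v := y)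
  exact this.symm

theorem W_tr (p : Par) (h0 : ∀ x ∈ F.V, (x 0 = 0 ↔ (s.f x) 0 = 0)) :
    W p (tr s F hf) = W p F := by
  unfold W
  rw [V_tr, Finset.sum_image (fun a _ b _ h => s.f.injective h)]
  apply Finset.sum_congr rfl
  intro x hx
  symm
  apply phi_congr p s.π (h0 x hx)
  · intro d; rw [← s.h, mem_tr']
  · intro d; rw [← s.h, tr_adj']

theorem tr_inj {s : Sy} {F F' : FG} {hf : ∀ x ∈ F.V, 0 ≤ (s.f x) 0}
    {hf' : ∀ x ∈ F'.V, 0 ≤ (s.f x) 0} (h : tr s F hf = tr s F' hf') : F = F' := by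
  apply FG.ext'
  intro x y
  rw [← tr_adj' (s := s) (hf := hf), ← tr_adj' (s := s) (hf := hf'), h]

/-- Translation. -/
def trn (v : P) : Sy where
  f := Equiv.addRight v
  π := Equiv.refl _
  h := fun x d => by simp only [Equiv.coe_addRight, Equiv.refl_apply]; abel

@[simp] theorem trn_f (v x : P) : (trn v).f x = x + v := rfl
@[simp] theorem trn_symm (v x : P) : (trn v).f.symm x = x - v := by
  simp [trn, sub_eq_add_neg]

/-- Mirror in the first coordinate and translation in the second one. -/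
def mrr (c a : ℤ) : Sy where
  f :=
    { toFun := fun x => ![x 0, c - x 1, x 2 + a]
      invFun := fun x => ![x 0, c - x 1, x 2 - a]
      left_inv := fun x => by
        funext j; fin_cases j <;> simp
      right_inv := fun x => by
        funext j; fin_cases j <;> simp }
  π :=
    { toFun := fun d => if d.1 = 1 then (d.1, !d.2) else d
      invFun := fun d => if d.1 = 1 then (d.1, !d.2) else d
      left_inv := fun d => by
        obtain ⟨i, b⟩ := d
        by_cases h : i = 1 <;> simp [h]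
      right_inv := fun d => by
        obtain ⟨i, b⟩ := d
        by_cases h : i = 1 <;> simp [h] }
  h := fun x d => by
    obtain ⟨i, b⟩ := d
    funext j
    fin_cases i <;> cases b <;> fin_cases j <;> simp [st] <;> ring

@[simp] theorem mrr_0 (c a : ℤ) (x : P) : (mrr c a).f x 0 = x 0 := rfl
@[simp] theorem mrr_1 (c a : ℤ) (x : P) : (mrr c a).f x 1 = c - x 1 := rfl
@[simp] theorem mrr_2 (c a : ℤ) (x : P) : (mrr c a).f x 2 = x 2 + a := rfl
@[simp] theorem mrr_s0 (c a : ℤ) (x : P) : (mrr c a).f.symm x 0 = x 0 := rfl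
@[simp] theorem mrr_s1 (c a : ℤ) (x : P) : (mrr c a).f.symm x 1 = c - x 1 := rfl
@[simp] theorem mrr_s2 (c a : ℤ) (x : P) : (mrr c a).f.symm x 2 = x 2 - a := rfl

end Poly

end Pool.Agent.Lib.MP_280b4e_pr
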