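import Pool.Agent.Lib.MP_280b4e_pr.Walks
import Pool.Agent.Lib.MP_280b4e_pr.Graph
import Pool.Agent.Lib.MP_280b4e_pr.Local
import Pool.Agent.Lib.MP_280b4e_pr.Growth

/-!
Connected closed finite graphs are subexponential above the polygon rate.
-/

namespace Pool.Agent.Lib.MP_280b4e_pr

open scoped ENNReal
open Classical

namespace PS

/-- Translation of a finite graph. -/
def tr (F : FG) (v : P) (hv : ∀ x ∈ F.V, v 0 ≤ x 0) : FG where
  G :=
    { Adj := fun x y => F.G.Adj (x + v) (y + v)
      symm := ⟨fun _ _ h => h.symm⟩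
      loopless := ⟨fun _ h => F.G.loopless.irrefl _ h⟩ }
  le := fun x y h => (Walks.lat_add v x y).1 (F.le h)
  fin := by
    refine (F.fin.preimage ((add_left_injective v).injOn)).subset ?_
    rintro x ⟨y, hy⟩
    exact ⟨y + v, hy⟩
  half := by
    rintro x ⟨y, hy⟩
    have h1 := hv (x + v) (FG.mem_V_left hy)
    rw [Pi.add_apply] at h1
    omega

variable {F : FG} {v : P} {hv : ∀ x ∈ F.V, v 0 ≤ x 0}

theorem tr_adj {x y : P} : (tr F v hv).G.Adj x y ↔ F.G.Adj (x + v) (y + v) := Iff.rfl

theorem mem_V_tr {x : P} : x ∈ (tr F v hv).V ↔ x + v ∈ F.V := by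
  rw [FG.mem_V, FG.mem_V]
  constructor
  · rintro ⟨y, hy⟩; exact ⟨y + v, hy⟩
  · rintro ⟨y, hy⟩
    refine ⟨y - v, ?_⟩
    rw [tr_adj, sub_add_cancel]; exact hy

theorem add_st_comm (x v : P) (d : Dir) : x + st d + v = x + v + st d := by abel

theorem deg_tr (x : P) : deg (tr F v hv).G x = deg F.G (x + v) := by
  unfold deg
  congr 1
  ext d
  simp only [Finset.mem_filter, Finset.mem_univ, true_and]
  rw [tr_adj, add_st_comm]

theorem V_tr_image : F.V = (tr F v hv).V.image (fun x => x + v) := by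
  ext x
  rw [Finset.mem_image]
  constructor
  · intro h
    refine ⟨x - v, ?_, by abel⟩
    rw [mem_V_tr, sub_add_cancel]; exact h
  · rintro ⟨y, hy, rfl⟩
    exact mem_V_tr.1 hy

theorem card_tr : (tr F v hv).V.card = F.V.card := by
  conv_rhs => rw [V_tr_image (hv := hv)]
  rw [Finset.card_image_of_injective _ (add_left_injective v)]

theorem W_tr (p : Par) (h0 : ∀ x, x + v ∈ F.V → (x 0 = 0 ↔ (x + v) 0 = 0)) :
    W p (tr F v hv) = W p F := by
  unfold W
  rw [V_tr_image (F := F) (hv := hv), Finset.sum_image (fun a _ b _ h => add_left_injective v h)]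
  refine Finset.sum_congr rfl fun x hx => ?_
  refine phi_congr' p (h0 x (mem_V_tr.1 hx)) ?_ ?_
  · intro d
    rw [mem_V_tr, add_st_comm]
  · intro d
    rw [tr_adj, add_st_comm]

theorem reach_tr {x y : P} (h : F.G.Reachable x y) :
    (tr F v hv).G.Reachable (x - v) (y - v) := by
  rw [SimpleGraph.reachable_iff_reflTransGen] at h
  induction h with
  | refl => exact SimpleGraph.Reachable.refl _
  | @tail b c _ hab ih =>
    refine ih.trans (SimpleGraph.Adj.reachable ?_)
    rw [tr_adj, sub_add_cancel, sub_add_cancel]; exact hab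

theorem reach_of_rooted {G : SimpleGraph P} (h : Rooted 1 G) {x y : P} (hx : x ∈ G.support)
    (hy : y ∈ G.support) : G.Reachable x y := by
  obtain ⟨ρ, h1, h2⟩ := h
  obtain ⟨r, hr, hrx⟩ := h2 x hx
  obtain ⟨s, hs, hsy⟩ := h2 y hy
  have : r = s := Finset.card_le_one.1 h1 r hr s hs
  subst this
  exact hrx.symm.trans hsy

theorem mem_support {F : FG} {x : P} : x ∈ F.G.support ↔ x ∈ F.V := by
  rw [FG.mem_V, SimpleGraph.mem_support]

/-- Touching members of the class. -/
def T (N : ℕ) : Set FG := {F | F ∈ Cls 1 N ∅ ∧ ∃ x ∈ F.V, x 0 = 0}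

/-- Members of the class away from the wall. -/
def U (N : ℕ) : Set FG := {F | F ∈ Cls 1 N ∅ ∧ F.V.Nonempty ∧ ∀ x ∈ F.V, x 0 ≠ 0}

theorem cls_cover (N : ℕ) : Cls 1 N ∅ ⊆ {F | F.V = ∅} ∪ (T N ∪ U N) := by
  intro F hF
  by_cases h1 : F.V = ∅
  · exact Or.inl h1
  · by_cases h2 : ∃ x ∈ F.V, x 0 = 0
    · exact Or.inr (Or.inl ⟨hF, h2⟩)
    · push Not at h2
      exact Or.inr (Or.inr ⟨hF, Finset.nonempty_iff_ne_empty.2 h1, h2⟩)

theorem Om_nil (p : Par) : Om p {F | F.V = ∅} ≤ 1 := by
  let F0 : FG :=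
    { G := ⊥
      le := bot_le
      fin := by simp
      half := by simp }
  have h0 : F0.V = ∅ := by
    ext x; rw [FG.mem_V]; simp [F0]
  have h1 : {F : FG | F.V = ∅} ⊆ {F0} := by
    intro F hF
    rw [Set.mem_singleton_iff]
    apply FG.ext'
    intro x y
    constructor
    · intro h
      have := FG.mem_V_left h
      rw [hF] at this
      simp at this
    · intro h
      exact absurd h (by simp [F0])
  refine (Om_mono p h1).trans ?_
  unfold Om
  rw [tsum_singleton F0 (wt p)]
  unfold wt W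
  rw [h0]
  simp

theorem Om_T_le (p : Par) (N : ℕ) :
    Om p (T N) ≤ (((2 * N + 1) ^ 3 : ℕ) : ℝ≥0∞) * ∑ M ∈ Finset.range (N + 1), Om p (PolF M) := by
  have key := Om_transfer p (T N) (⋃ M ∈ Finset.range (N + 1), PolF M) (cubeF N) 0
    (fun a v b => ∀ x y, b.G.Adj x y ↔ a.G.Adj (x + v) (y + v)) ?_ ?_
  · refine key.trans ?_
    rw [Real.exp_zero, ENNReal.ofReal_one, one_mul, card_cubeF]
    gcongr
    exact Om_biUnion_le p _ _
  · rintro F ⟨⟨h1, h2, -, h4, h5⟩, ⟨a, ha, ha0⟩⟩
    have hne : F.V.Nonempty := ⟨a, ha⟩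
    obtain ⟨b, hb, hb1⟩ := Finset.exists_min_image F.V (fun x => x 1) hne
    obtain ⟨c, hc, hc1⟩ := Finset.exists_min_image F.V (fun x => x 2) hne
    set v : P := ![0, b 1, c 2] with hvdef
    have v0 : v 0 = 0 := rfl
    have v1 : v 1 = b 1 := rfl
    have v2 : v 2 = c 2 := rfl
    have hv : ∀ x ∈ F.V, v 0 ≤ x 0 := fun x hx => by rw [v0]; exact FG.nonneg hx
    refine ⟨v, ?_, tr F v hv, ?_, fun x y => Iff.rfl, ?_⟩
    · rw [mem_cubeF]
      intro i
      fin_cases i
      · show |v 0| ≤ _
        rw [v0]; simp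
      · show |v 1| ≤ _
        rw [v1]; exact h2 b hb 1
      · show |v 2| ≤ _
        rw [v2]; exact h2 c hc 2
    · simp only [Set.mem_iUnion, Finset.mem_range]
      refine ⟨F.V.card, by omega, card_tr, ?_, ?_, ?_, ?_, ?_, ?_, ?_, ?_⟩
      · rw [← Finset.card_pos, card_tr, Finset.card_pos]; exact hne
      · intro x; rw [deg_tr]; exact h4 _ (by simp)
      · intro x hx y hy
        rw [mem_V_tr] at hx hy
        have h6 := reach_tr (hv := hv) (reach_of_rooted h5 (mem_support.2 hx) (mem_support.2 hy))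
        simpa using h6
      · refine ⟨a - v, ?_, ?_⟩
        · rw [mem_V_tr, sub_add_cancel]; exact ha
        · rw [Pi.sub_apply, ha0, v0]; rfl
      · intro x hx
        have := hb1 _ (mem_V_tr.1 hx)
        rw [Pi.add_apply, v1] at this
        omega
      · refine ⟨b - v, ?_, ?_⟩
        · rw [mem_V_tr, sub_add_cancel]; exact hb
        · rw [Pi.sub_apply, v1]; omega
      · intro x hx
        have := hc1 _ (mem_V_tr.1 hx)
        rw [Pi.add_apply, v2] at this
        omega
      · refine ⟨c - v, ?_, ?_⟩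
        · rw [mem_V_tr, sub_add_cancel]; exact hc
        · rw [Pi.sub_apply, v2]; omega
    · rw [zero_add, W_tr]
      intro x _
      rw [Pi.add_apply, v0, add_zero]
  · intro a _ a' _ v b h h'
    apply FG.ext'
    intro x y
    have e1 := h (x - v) (y - v)
    have e2 := h' (x - v) (y - v)
    rw [sub_add_cancel, sub_add_cancel] at e1 e2
    rw [← e1, e2]

/-- The path below an edge. -/
def dip (u : P) (i : Fin 3) (_hi : i ≠ 0) : Lat.Walk u (u + e i) :=
  .cons (v := u - e 0) (by
      have := (adj_e (u - e 0) 0).symm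
      rwa [sub_add_cancel] at this)
    (.cons (v := u - e 0 + e i) (adj_e (u - e 0) i)
      (.cons (v := u + e i) (by
          have := adj_e (u - e 0 + e i) 0
          have e1 : u - e 0 + e i + e 0 = u + e i := by abel
          rwa [e1] at this)
        .nil))

theorem dip_edges (u : P) (i : Fin 3) (hi : i ≠ 0) : (dip u i hi).edges =
    [s(u, u - e 0), s(u - e 0, u - e 0 + e i), s(u - e 0 + e i, u + e i)] := by
  simp [dip]

theorem dip_support (u : P) (i : Fin 3) (hi : i ≠ 0) : (dip u i hi).support =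
    [u, u - e 0, u - e 0 + e i, u + e i] := by
  simp [dip]

theorem e_self (i : Fin 3) : e i i = 1 := by simp [e]

theorem e_zero {i : Fin 3} (hi : i ≠ 0) : e i 0 = 0 := by simp [e, hi.symm]

theorem dip_isPath (u : P) (i : Fin 3) (hi : i ≠ 0) : (dip u i hi).IsPath := by
  have c0 : (e 0 : P) 0 = 1 := e_self 0
  have ci : (e i : P) 0 = 0 := e_zero hi
  have cii : (e i : P) i = 1 := e_self i
  have c0i : (e 0 : P) i = 0 := by simp [e, hi]
  rw [SimpleGraph.Walk.isPath_def, dip_support]
  simp only [List.nodup_cons, List.mem_cons, List.not_mem_nil, or_false, not_or,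
    not_false_eq_true, and_true, List.nodup_nil]
  refine ⟨⟨?_, ?_, ?_⟩, ⟨?_, ?_⟩, ?_⟩
  · intro h; have := congrFun h 0; simp only [Pi.sub_apply] at this; omega
  · intro h; have := congrFun h 0; simp only [Pi.sub_apply, Pi.add_apply] at this; omega
  · intro h; have := congrFun h i; simp only [Pi.add_apply] at this; omega
  · intro h; have := congrFun h i; simp only [Pi.sub_apply, Pi.add_apply] at this; omega
  · intro h; have := congrFun h 0; simp only [Pi.sub_apply, Pi.add_apply] at this; omega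
  · intro h; have := congrFun h 0; simp only [Pi.sub_apply, Pi.add_apply] at this; omega

theorem exists_low_edge (F : FG) (hcl : ∀ x, deg F.G x = 0 ∨ deg F.G x = 2) (hne : F.V.Nonempty) :
    ∃ u i, i ≠ 0 ∧ F.G.Adj u (u + e i) ∧ ∀ x ∈ F.V, u 0 ≤ x 0 := by
  obtain ⟨a, ha, hmin⟩ := Finset.exists_min_image F.V (fun x => x 0) hne
  have hd : deg F.G a = 2 := by
    rcases hcl a with h | h
    · obtain ⟨y, hy⟩ := FG.mem_V.1 ha
      exact absurd hy ((deg_eq_zero F.le).1 h y)
    · exact h
  obtain ⟨d, hd1, hd2⟩ := Finset.exists_mem_ne (show 1 < (Finset.univ.filter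
    fun d : Dir => F.G.Adj a (a + st d)).card by unfold deg at hd; omega) ((0, true) : Dir)
  simp only [Finset.mem_filter, Finset.mem_univ, true_and] at hd1
  obtain ⟨i, b⟩ := d
  have hi : i ≠ 0 := by
    rintro rfl
    cases b
    · have := hmin _ (FG.mem_V_right hd1)
      simp [st] at this
    · exact hd2 rfl
  cases b
  · refine ⟨a - e i, i, hi, ?_, ?_⟩
    · rw [sub_add_cancel]
      rw [st_false, ← sub_eq_add_neg] at hd1
      exact hd1.symm
    · intro x hx
      have := hmin x hx
      rw [Pi.sub_apply, e_zero hi, sub_zero]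
      exact this
  · refine ⟨a, i, hi, ?_, hmin⟩
    rw [st_true] at hd1
    exact hd1

/-- The result of adding the path below an edge. -/
def bump (F : FG) (u : P) (i : Fin 3) (hi : i ≠ 0) (hu : u 0 = 1) : FG where
  G := detour F.G (dip u i hi)
  le := by
    intro x y h
    rcases h with h | h
    · exact F.le h.1
    · exact (dip u i hi).adj_of_mem_edges h
  fin := by
    refine (F.fin.union (Set.finite_mem_finset (dip u i hi).support.toFinset)).subset ?_
    rintro x ⟨y, h | h⟩
    · exact Or.inl ⟨y, h.1⟩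
    · right
      have := (dip u i hi).fst_mem_support_of_mem_edges h
      simpa using this
  half := by
    rintro x ⟨y, h | h⟩
    · exact F.half x ⟨y, h.1⟩
    · have := (dip u i hi).fst_mem_support_of_mem_edges h
      have c0 : (e 0 : P) 0 = 1 := e_self 0
      have ci : (e i : P) 0 = 0 := e_zero hi
      rw [dip_support] at this
      simp only [List.mem_cons, List.not_mem_nil, or_false] at this
      rcases this with rfl | rfl | rfl | rfl <;>
        (try simp only [Pi.sub_apply, Pi.add_apply]) <;> omega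

theorem Om_U_le (p : Par) (N : ℕ) :
    Om p (U N) ≤ ENNReal.ofReal (Real.exp (56 * C0 p)) *
      (((((2 * (N + 2) + 1) ^ 3 * (3 * (2 * (N + 2) + 1) ^ 3) : ℕ)) : ℝ≥0∞) * Om p (T (N + 2))) := by
  have key := Om_transfer p (U N) (T (N + 2))
    (cubeF (N + 2) ×ˢ ((Finset.univ : Finset (Fin 3)) ×ˢ cubeF (N + 2))) (56 * C0 p)
    (fun a l b => (∀ x y, b.G.Adj x y ↔ (a.G.Adj (x + l.1) (y + l.1) ∧
        s(x, y) ≠ s(l.2.2, l.2.2 + e l.2.1)) ∨ s(x, y) = s(l.2.2, l.2.2 - e 0) ∨
        s(x, y) = s(l.2.2 - e 0, l.2.2 - e 0 + e l.2.1) ∨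
        s(x, y) = s(l.2.2 - e 0 + e l.2.1, l.2.2 + e l.2.1)) ∧
      a.G.Adj (l.2.2 + l.1) (l.2.2 + e l.2.1 + l.1) ∧ (∀ x ∈ a.V, l.1 0 + 1 ≤ x 0) ∧
      l.2.2 0 = 1 ∧ l.2.1 ≠ 0) ?_ ?_
  · refine key.trans (le_of_eq ?_)
    rw [Finset.card_product, Finset.card_product, card_cubeF]
    simp
  · rintro F ⟨⟨h1, h2, -, h4, h5⟩, hne, h0⟩
    have hcl : ∀ x, deg F.G x = 0 ∨ deg F.G x = 2 := fun x => h4 x (by simp)
    obtain ⟨u₀, i, hi, hadj, hmin⟩ := exists_low_edge F hcl hne
    have hu₀ := FG.mem_V_left hadj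
    have hu₀' := FG.mem_V_right hadj
    have hu1 : 1 ≤ u₀ 0 := by
      have := FG.nonneg hu₀
      have := h0 _ hu₀
      omega
    set v : P := ![u₀ 0 - 1, 0, 0] with hvdef
    have v0 : v 0 = u₀ 0 - 1 := rfl
    have v1 : v 1 = 0 := rfl
    have v2 : v 2 = 0 := rfl
    have hv : ∀ x ∈ F.V, v 0 ≤ x 0 := fun x hx => by
      have := hmin x hx
      omega
    set F' := tr F v hv with hF'
    set u : P := u₀ - v with hudef
    have uv : u + v = u₀ := by rw [hudef, sub_add_cancel]
    have u0 : u 0 = 1 := by rw [hudef, Pi.sub_apply, v0]; omega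
    have hN0 : u₀ 0 ≤ N := (abs_le.1 (h2 _ hu₀ 0)).2
    have hmin' : ∀ x ∈ F'.V, 1 ≤ x 0 := by
      intro x hx
      have := hmin _ (mem_V_tr.1 hx)
      rw [Pi.add_apply, v0] at this
      omega
    have hadj' : F'.G.Adj u (u + e i) := by
      rw [hF', tr_adj]
      have e1 : u + e i + v = u₀ + e i := by rw [hudef]; abel
      rw [e1, uv]; exact hadj
    have hcl' : ∀ x, deg F'.G x = 0 ∨ deg F'.G x = 2 := fun x => by rw [hF', deg_tr]; exact hcl _
    have c0 : (e 0 : P) 0 = 1 := e_self 0
    have ci : (e i : P) 0 = 0 := e_zero hi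
    have hn1 : u - e 0 ∉ F'.V := by
      intro h
      have := hmin' _ h
      rw [Pi.sub_apply] at this; omega
    have hn2 : u - e 0 + e i ∉ F'.V := by
      intro h
      have := hmin' _ h
      rw [Pi.add_apply, Pi.sub_apply] at this; omega
    obtain ⟨d1, d2, d3, d4, d5⟩ := detour_spec F'.G F'.le hcl' hadj' (dip u i hi)
      (dip_isPath u i hi)
      (by
        intro x hx hxa hxb
        rw [dip_support] at hx
        simp only [List.mem_cons, List.not_mem_nil, or_false] at hx
        rw [mem_support]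
        rcases hx with h | rfl | rfl | h
        · exact absurd h hxa
        · exact hn1
        · exact hn2
        · exact absurd h hxb)
      (by
        intro x _ y _ hxy hA
        have hx := hmin' x (FG.mem_V_left hA)
        have hy := hmin' y (FG.mem_V_right hA)
        rw [dip_edges] at hxy
        simp only [List.mem_cons, List.not_mem_nil, or_false] at hxy
        rcases hxy with h | h | h <;> rcases Sym2.eq_iff.1 h with ⟨rfl, rfl⟩ | ⟨rfl, rfl⟩ <;>
          simp only [Pi.sub_apply, Pi.add_apply] at hx hy <;> omega)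
    have hVb : ∀ x, x ∈ (bump F' u i hi u0).V ↔ x ∈ F'.V ∨ x ∈ (dip u i hi).support := by
      intro x
      rw [← mem_support, ← mem_support]
      exact d3 x
    have hVb' : (bump F' u i hi u0).V ⊆ F'.V ∪ {u - e 0, u - e 0 + e i} := by
      intro x hx
      rw [hVb, dip_support] at hx
      simp only [List.mem_cons, List.not_mem_nil, or_false] at hx
      simp only [Finset.mem_union, Finset.mem_insert, Finset.mem_singleton]
      rcases hx with h | rfl | h | h | rfl
      · exact Or.inl h
      · exact Or.inl (FG.mem_V_left hadj')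
      · exact Or.inr (Or.inl h)
      · exact Or.inr (Or.inr h)
      · exact Or.inl (FG.mem_V_right hadj')
    have hboxF' : ∀ x ∈ F'.V, InBox N x := by
      intro x hx j
      have h6 := h2 _ (mem_V_tr.1 hx) j
      have h7 := hmin' _ hx
      fin_cases j
      · have h8 : |(x + v) 0| ≤ (N : ℤ) := h6
        show |x 0| ≤ _
        rw [Pi.add_apply, v0] at h8
        rw [abs_le] at h8 ⊢
        omega
      · have h8 : |(x + v) 1| ≤ (N : ℤ) := h6
        show |x 1| ≤ _
        rwa [Pi.add_apply, v1, add_zero] at h8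
      · have h8 : |(x + v) 2| ≤ (N : ℤ) := h6
        show |x 2| ≤ _
        rwa [Pi.add_apply, v2, add_zero] at h8
    have hub : InBox N u := hboxF' u (FG.mem_V_left hadj')
    have hub' : InBox N (u + e i) := hboxF' _ (FG.mem_V_right hadj')
    refine ⟨(v, i, u), ?_, bump F' u i hi u0, ⟨⟨?_, ?_, ?_, ?_, ?_⟩, ?_⟩, ⟨?_, ?_, ?_, u0, hi⟩, ?_⟩
    · simp only [Finset.mem_product, Finset.mem_univ, true_and]
      refine ⟨mem_cubeF.2 ?_, mem_cubeF.2 ?_⟩
      · intro j
        fin_cases j
        · show |v 0| ≤ _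
          rw [v0, abs_le]; push_cast; omega
        · show |v 1| ≤ _
          rw [v1]; simp; omega
        · show |v 2| ≤ _
          rw [v2]; simp; omega
      · intro j
        have := hub j
        push_cast; omega
    · refine (Finset.card_le_card hVb').trans ((Finset.card_union_le _ _).trans ?_)
      have := Finset.card_le_two (a := u - e 0) (b := u - e 0 + e i)
      rw [hF', card_tr]
      omega
    · intro x hx j
      have hx' := hVb' hx
      simp only [Finset.mem_union, Finset.mem_insert, Finset.mem_singleton] at hx'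
      rcases hx' with h | rfl | rfl
      · have := hboxF' x h j
        push_cast; omega
      · have h6 := hub j
        have h7 : (e 0 : P) j = 0 ∨ (e 0 : P) j = 1 := by
          by_cases hj : j = 0
          · right; simp [e, hj]
          · left; simp [e, hj]
        rw [Pi.sub_apply]
        rw [abs_le] at h6 ⊢
        push_cast; omega
      · have h6 := hub' j
        have h7 : (e 0 : P) j = 0 ∨ (e 0 : P) j = 1 := by
          by_cases hj : j = 0
          · right; simp [e, hj]
          · left; simp [e, hj]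
        have e1 : (u - e 0 + e i) j = (u + e i) j - (e 0 : P) j := by
          simp only [Pi.sub_apply, Pi.add_apply]; ring
        rw [e1]
        rw [abs_le] at h6 ⊢
        push_cast; omega
    · intro x hx; simp at hx
    · intro x _; exact d2 x
    · refine ⟨{u}, by simp, ?_⟩
      intro x hx
      refine ⟨u, by simp, ?_⟩
      rcases d5 x hx with h | h
      · apply d4
        have h8 := reach_tr (hv := hv) (reach_of_rooted h5 (mem_support.2 hu₀)
          (mem_support.2 (mem_V_tr.1 (mem_support.1 h))))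
        rw [add_sub_cancel_right] at h8
        exact h8
      · exact h
    · refine ⟨u - e 0, ?_, ?_⟩
      · rw [hVb, dip_support]; simp
      · rw [Pi.sub_apply]; omega
    · intro x y
      show (detour F'.G (dip u i hi)).Adj x y ↔ _
      show (F'.G.Adj x y ∧ s(x, y) ≠ s(u, u + e i)) ∨ s(x, y) ∈ (dip u i hi).edges ↔ _
      rw [dip_edges]
      simp only [List.mem_cons, List.not_mem_nil, or_false]
      exact Iff.rfl
    · exact hadj'
    · intro x hx
      have := hmin x hx
      show v 0 + 1 ≤ x 0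
      omega
    · have h9 : W p F' = W p F := by
        rw [hF']
        apply W_tr
        intro x hx
        have h10 := hmin' x (mem_V_tr.2 hx)
        have h11 := h0 _ hx
        constructor
        · intro h; omega
        · intro h; exact absurd h h11
      have h10 := W_local p F' (bump F' u i hi u0) {u, u - e 0, u - e 0 + e i, u + e i} (by
        intro x y hxy
        show _ ↔ (F'.G.Adj x y ∧ s(x, y) ≠ s(u, u + e i)) ∨ s(x, y) ∈ (dip u i hi).edges
        constructor
        · intro hA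
          left
          refine ⟨hA, ?_⟩
          intro hs
          apply hxy
          rcases Sym2.eq_iff.1 hs with ⟨rfl, rfl⟩ | ⟨rfl, rfl⟩ <;> simp
        · rintro (h | h)
          · exact h.1
          · exfalso
            apply hxy
            have m1 := (dip u i hi).fst_mem_support_of_mem_edges h
            have m2 := (dip u i hi).snd_mem_support_of_mem_edges h
            rw [dip_support] at m1 m2
            simp only [List.mem_cons, List.not_mem_nil, or_false] at m1 m2
            simp only [Finset.mem_insert, Finset.mem_singleton]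
            exact ⟨m1, m2⟩)
      have h11 : (({u, u - e 0, u - e 0 + e i, u + e i} : Finset P).card : ℝ) ≤ 4 := by
        exact_mod_cast Finset.card_le_four
      have h12 := C0_nonneg p
      have h13 : 14 * C0 p * (({u, u - e 0, u - e 0 + e i, u + e i} : Finset P).card : ℝ)
          ≤ 56 * C0 p := by nlinarith
      have h14 := (abs_le.1 (h10.trans h13)).2
      rw [← h9]; linarith
  · rintro a _ a' _ ⟨v, i, u⟩ b ⟨r1, r2, r3, r4, r5⟩ ⟨s1, s2, s3, s4, s5⟩
    dsimp only at r1 r2 r3 r4 r5 s1 s2 s3 s4 s5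
    have c0 : (e 0 : P) 0 = 1 := e_self 0
    have ci : (e i : P) 0 = 0 := e_zero r5
    have main : ∀ (a a' : FG), (∀ x y, b.G.Adj x y ↔ (a.G.Adj (x + v) (y + v) ∧
        s(x, y) ≠ s(u, u + e i)) ∨ s(x, y) = s(u, u - e 0) ∨
        s(x, y) = s(u - e 0, u - e 0 + e i) ∨
        s(x, y) = s(u - e 0 + e i, u + e i)) →
        (∀ x y, b.G.Adj x y ↔ (a'.G.Adj (x + v) (y + v) ∧
        s(x, y) ≠ s(u, u + e i)) ∨ s(x, y) = s(u, u - e 0) ∨
        s(x, y) = s(u - e 0, u - e 0 + e i) ∨
        s(x, y) = s(u - e 0 + e i, u + e i)) →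
        (∀ x ∈ a.V, v 0 + 1 ≤ x 0) → a'.G.Adj (u + v) (u + e i + v) →
        ∀ x y, a.G.Adj (x + v) (y + v) → a'.G.Adj (x + v) (y + v) := by
      intro a a' g1 g2 g3 g4 x y h
      have hx := g3 _ (FG.mem_V_left h)
      have hy := g3 _ (FG.mem_V_right h)
      rw [Pi.add_apply] at hx hy
      by_cases hs : s(x, y) = s(u, u + e i)
      · rcases Sym2.eq_iff.1 hs with ⟨rfl, rfl⟩ | ⟨rfl, rfl⟩
        · exact g4
        · exact g4.symm
      · have hb := (g1 x y).2 (Or.inl ⟨h, hs⟩)
        rcases (g2 x y).1 hb with h | h | h | h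
        · exact h.1
        all_goals
          exfalso
          rcases Sym2.eq_iff.1 h with ⟨rfl, rfl⟩ | ⟨rfl, rfl⟩ <;>
            simp only [Pi.sub_apply, Pi.add_apply] at hx hy <;> omega
    apply FG.ext'
    intro x y
    have e1 := main a a' r1 s1 r3 s2 (x - v) (y - v)
    have e2 := main a' a s1 r1 s3 r2 (x - v) (y - v)
    rw [sub_add_cancel, sub_add_cancel] at e1 e2
    exact ⟨e1, e2⟩

theorem PolF_zero : PolF 0 = ∅ := by
  ext F
  simp only [Set.mem_empty_iff_false, iff_false]
  rintro ⟨h1, h2, -⟩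
  rw [Finset.card_eq_zero] at h1
  rw [h1] at h2
  exact Finset.not_nonempty_empty h2

theorem Om_PolF (ζ γ θ : ℝ) (n : ℕ) (hn : 1 ≤ n) :
    Om ⟨ζ, γ, θ⟩ (PolF n) = ENNReal.ofReal (Real.exp (-θ * n) * Q n ζ γ) := by
  rw [ENNReal.ofReal_mul (Real.exp_pos _).le, Q_eq n hn]
  unfold Om
  rw [← ENNReal.tsum_mul_left]
  refine tsum_congr fun F => ?_
  rw [wt_theta, F.2.1]

theorem Om_PolF_le (ζ γ κ θ : ℝ)
    (h : Filter.Tendsto (fun m : ℕ => Real.log (Q (2 * m) ζ γ) / (2 * m)) Filter.atTop (nhds κ))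
    (hθ : κ < θ) : ∃ K : ℝ, 0 ≤ K ∧ ∀ n, Om ⟨ζ, γ, θ⟩ (PolF n) ≤ ENNReal.ofReal K := by
  have h1 : ∀ᶠ m : ℕ in Filter.atTop, Real.log (Q (2 * m) ζ γ) / (2 * m) < θ :=
    h.eventually (gt_mem_nhds hθ)
  obtain ⟨m0, hm0⟩ := Filter.eventually_atTop.1 h1
  set K : ℝ := 1 + ∑ n ∈ Finset.range (2 * m0 + 1), Real.exp (-θ * n) * Q n ζ γ with hK
  have hterm : ∀ n : ℕ, 0 ≤ Real.exp (-θ * n) * Q n ζ γ := fun n =>
    mul_nonneg (Real.exp_pos _).le (Q_nonneg n ζ γ)
  have hsum : 0 ≤ ∑ n ∈ Finset.range (2 * m0 + 1), Real.exp (-θ * n) * Q n ζ γ :=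
    Finset.sum_nonneg fun n _ => hterm n
  refine ⟨K, by linarith, fun n => ?_⟩
  rcases Nat.eq_zero_or_pos n with rfl | hn
  · rw [PolF_zero]; simp
  rw [Om_PolF ζ γ θ n hn]
  apply ENNReal.ofReal_le_ofReal
  by_cases hsmall : n < 2 * m0 + 1
  · have := Finset.single_le_sum (f := fun n : ℕ => Real.exp (-θ * n) * Q n ζ γ)
      (fun n _ => hterm n) (Finset.mem_range.2 hsmall)
    linarith
  · rcases Nat.even_or_odd n with ⟨m, hm⟩ | hodd
    · have hm' : n = 2 * m := by omega
      subst hm'
      have h2 := hm0 m (by omega)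
      have h3 : Real.exp (-θ * ((2 * m : ℕ) : ℝ)) * Q (2 * m) ζ γ ≤ 1 := by
        rcases (Q_nonneg (2 * m) ζ γ).eq_or_lt with h4 | h4
        · rw [← h4]; simp
        · have h5 : (0 : ℝ) < 2 * m := by
            have : 0 < m := by omega
            positivity
          rw [div_lt_iff₀ h5] at h2
          have h6 : Q (2 * m) ζ γ ≤ Real.exp (θ * (2 * m)) := by
            rw [← Real.exp_log h4]
            exact Real.exp_le_exp.2 h2.le
          calc Real.exp (-θ * ((2 * m : ℕ) : ℝ)) * Q (2 * m) ζ γ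
              ≤ Real.exp (-θ * ((2 * m : ℕ) : ℝ)) * Real.exp (θ * (2 * m)) := by gcongr
            _ = 1 := by
                rw [← Real.exp_add]
                push_cast
                rw [show -θ * (2 * (m : ℝ)) + θ * (2 * m) = 0 by ring, Real.exp_zero]
      linarith
    · have h2 : Om ⟨ζ, γ, θ⟩ (PolF n) = 0 := by rw [PolF_odd n hodd]; simp
      rw [Om_PolF ζ γ θ n hn] at h2
      have h3 := ENNReal.ofReal_eq_zero.1 h2
      linarith

end PS

open PS in
/-- Connected closed finite graphs are subexponential above the polygon rate. -/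
theorem sub_of_limit (ζ γ κ : ℝ)
    (h : Filter.Tendsto (fun m : ℕ => Real.log (Q (2 * m) ζ γ) / (2 * m)) Filter.atTop (nhds κ)) :
    ∀ θ : ℝ, κ < θ → SubExp (fun N => Om ⟨ζ, γ, θ⟩ (Cls 1 N ∅)) := by
  intro θ hθ
  obtain ⟨K, hK, hbd⟩ := Om_PolF_le ζ γ κ θ h hθ
  set p : Par := ⟨ζ, γ, θ⟩ with hp
  have hT : ∀ N, Om p (T N) ≤
      (((2 * N + 1) ^ 3 : ℕ) : ℝ≥0∞) * (((1 * N + 1 : ℕ) : ℝ≥0∞) * ENNReal.ofReal K) := by
    intro N
    refine (Om_T_le p N).trans ?_
    gcongr
    refine (Finset.sum_le_sum fun n _ => hbd n).trans (le_of_eq ?_)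
    rw [Finset.sum_const, Finset.card_range, nsmul_eq_mul, one_mul]
  have hT' : SubExp (fun N => Om p (T N)) :=
    ((SubExp_poly 2 1 3).mul ((SubExp_lin 1 1).mul (SubExp_const K))).mono hT
  have hU : SubExp (fun N => Om p (U N)) := by
    refine ((SubExp_const (Real.exp (56 * C0 p))).mul
      (((SubExp_poly 2 5 3).mul ((SubExp_natConst 3).mul (SubExp_poly 2 5 3))).mul
        (hT'.comp 1 2))).mono ?_
    intro N
    refine (Om_U_le p N).trans (le_of_eq ?_)
    push_cast
    ring_nf
  refine ((SubExp_natConst 1).add (hT'.add hU)).mono fun N => ?_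
  refine (Om_mono p (cls_cover N)).trans ((Om_union_le p _ _).trans ?_)
  refine add_le_add ?_ (Om_union_le p _ _)
  simpa using Om_nil p

end Pool.Agent.Lib.MP_280b4e_pr
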