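import Pool.Agent.Lib.MP_280b4e_pr.PolyGlue
import Pool.Agent.Lib.MP_280b4e_pr.Walks

/-!
Closed connected graphs in a box are compared with polygons touching the wall.
-/

namespace Pool.Agent.Lib.MP_280b4e_pr
open scoped ENNReal
open Classical

namespace Poly

/-- Polygons with at most `N + 4` vertices. -/
def TT (N : ℕ) : Set FG := {F | F ∈ PolF F.V.card ∧ F.V.card < N + 5}

theorem TT_le (p : Par) (N : ℕ) : Om p (TT N) ≤ ∑ M ∈ Finset.range (N + 5), Om p (PolF M) := by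
  refine le_trans (Om_mono p ?_) (Om_biUnion_le p (Finset.range (N + 5)) PolF)
  intro F hF
  simp only [Set.mem_iUnion, Finset.mem_range]
  exact ⟨F.V.card, hF.2, hF.1⟩

theorem conn_of_rooted (F : FG) (h : Rooted 1 F.G) :
    ∀ x ∈ F.V, ∀ y ∈ F.V, F.G.Reachable x y := by
  obtain ⟨ρ, h1, h2⟩ := h
  intro x hx y hy
  have hx' : x ∈ F.G.support := by obtain ⟨z, hz⟩ := FG.mem_V.1 hx; exact ⟨z, hz⟩
  have hy' : y ∈ F.G.support := by obtain ⟨z, hz⟩ := FG.mem_V.1 hy; exact ⟨z, hz⟩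
  obtain ⟨r, hr, hrx⟩ := h2 x hx'
  obtain ⟨r', hr', hry⟩ := h2 y hy'
  have : r = r' := Finset.card_le_one.1 h1 r hr r' hr'
  subst this
  exact hrx.symm.trans hry

theorem inBox_coord {N : ℕ} {x : P} (h : InBox N x) (j : Fin 3) : -(N : ℤ) ≤ x j ∧ x j ≤ N :=
  abs_le.1 (h j)

theorem inBox_of {N : ℕ} {x : P} (h0 : -(N : ℤ) ≤ x 0 ∧ x 0 ≤ N) (h1 : -(N : ℤ) ≤ x 1 ∧ x 1 ≤ N)
    (h2 : -(N : ℤ) ≤ x 2 ∧ x 2 ≤ N) : InBox N x := by
  intro j
  fin_cases j
  · exact abs_le.2 h0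
  · exact abs_le.2 h1
  · exact abs_le.2 h2

theorem case_wall (p : Par) (N : ℕ) :
    Om p {F | F ∈ Cls 1 N ∅ ∧ ∃ x ∈ F.V, x 0 = 0} ≤
      ENNReal.ofReal (Real.exp 0) * ((boxF N).card * Om p (TT N)) := by
  apply Om_transfer p _ _ (boxF N) 0
    (fun a v b => ∀ x y, b.G.Adj x y ↔ a.G.Adj (x + v) (y + v))
  · rintro F ⟨⟨h1, h2, h3, h4, h5⟩, w, hw, hw0⟩
    obtain ⟨m1, hm1, hmin1⟩ := Finset.exists_min_image F.V (fun x => x 1) ⟨w, hw⟩
    obtain ⟨m2, hm2, hmin2⟩ := Finset.exists_min_image F.V (fun x => x 2) ⟨w, hw⟩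
    have hcl : ∀ x, deg F.G x = 0 ∨ deg F.G x = 2 := fun x => h4 x (Finset.notMem_empty x)
    have hconn := conn_of_rooted F h5
    set v : P := ![0, m1 1, m2 2] with hv
    have v0 : v 0 = 0 := rfl
    have v1 : v 1 = m1 1 := rfl
    have v2 : v 2 = m2 2 := rfl
    have hv0 : (-v) 0 = 0 := by rw [Pi.neg_apply, v0, neg_zero]
    refine ⟨v, ?_, tr (trn (-v)) F (trn_half hv0), ⟨⟨rfl, ?_, ?_, ?_, ?_, ?_, ?_, ?_, ?_⟩, ?_⟩, ?_, ?_⟩
    · rw [Walks.mem_boxF]
      exact inBox_of (by rw [v0]; omega) (by rw [v1]; exact inBox_coord (h2 _ hm1) 1)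
        (by rw [v2]; exact inBox_coord (h2 _ hm2) 2)
    · exact ⟨_, mem_tr'.2 hw⟩
    · intro x; rw [deg_tr']; exact hcl _
    · intro x hx y hy
      rw [reach_tr]
      exact hconn _ (mem_tr.1 hx) _ (mem_tr.1 hy)
    · refine ⟨_, mem_tr'.2 hw, ?_⟩
      rw [trn_f, Pi.add_apply, hv0, hw0, add_zero]
    · intro x hx
      have := hmin1 _ (mem_tr.1 hx)
      simp only [trn_symm, Pi.sub_apply, Pi.neg_apply, v1] at this
      linarith
    · refine ⟨_, mem_tr'.2 hm1, ?_⟩
      rw [trn_f, Pi.add_apply, Pi.neg_apply, v1]; ring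
    · intro x hx
      have := hmin2 _ (mem_tr.1 hx)
      simp only [trn_symm, Pi.sub_apply, Pi.neg_apply, v2] at this
      linarith
    · refine ⟨_, mem_tr'.2 hm2, ?_⟩
      rw [trn_f, Pi.add_apply, Pi.neg_apply, v2]; ring
    · rw [card_tr]; omega
    · intro x y
      rw [tr_adj, trn_symm, trn_symm, sub_neg_eq_add, sub_neg_eq_add]
    · rw [W_trn p F hv0, zero_add]
  · intro a _ a' _ v b hR hR'
    apply FG.ext'
    intro x y
    have h1 := hR (x - v) (y - v)
    have h2 := hR' (x - v) (y - v)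
    rw [sub_add_cancel, sub_add_cancel] at h1 h2
    exact h1.symm.trans h2

/-- A polygon whose lowest layer is `x 0 = 1` is pushed down to the wall. -/
theorem lower (par : Par) (F : FG) (hcl : ∀ x, deg F.G x = 0 ∨ deg F.G x = 2)
    (hc : ∀ x ∈ F.V, ∀ y ∈ F.V, F.G.Reachable x y) (h1 : ∀ x ∈ F.V, 1 ≤ x 0)
    (z : P) (i : Fin 3) (hi : i ≠ 0) (hz : z 0 = 1) (hA : F.G.Adj z (z + e i))
    (hm1 : ∀ x ∈ F.V, 0 ≤ x 1) (hm1' : ∃ x ∈ F.V, x 1 = 0)
    (hm2 : ∀ x ∈ F.V, 0 ≤ x 2) (hm2' : ∃ x ∈ F.V, x 2 = 0) :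
    ∃ F' : FG, F' ∈ PolF (F.V.card + 2) ∧ |W par F - W par F'| ≤ 2 * C0 par * (28 : ℕ) ∧
      ∀ x y, F.G.Adj x y ↔
        ((F'.G.Adj x y ∧ 1 ≤ x 0 ∧ 1 ≤ y 0) ∨ s(x, y) = s(z, z + e i)) := by
  have ei0 : e i 0 = 0 := by
    rw [e_apply, if_neg (fun h => hi h.symm)]
  have e00 : e 0 0 = 1 := by rw [e_apply, if_pos rfl]
  have e01 : e 0 1 = 0 := by rw [e_apply, if_neg (by decide)]
  have e02 : e 0 2 = 0 := by rw [e_apply, if_neg (by decide)]
  obtain ⟨b, hb⟩ : ∃ b : P, b = z - e 0 := ⟨_, rfl⟩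
  obtain ⟨c, hcc⟩ : ∃ c : P, c = z - e 0 + e i := ⟨_, rfl⟩
  obtain ⟨d, hdd⟩ : ∃ d : P, d = z + e i := ⟨_, rfl⟩
  have b0 : b 0 = 0 := by rw [hb, Pi.sub_apply, e00, hz]; norm_num
  have c0 : c 0 = 0 := by rw [hcc, Pi.add_apply, Pi.sub_apply, e00, hz, ei0]; norm_num
  have d0 : d 0 = 1 := by rw [hdd, Pi.add_apply, hz, ei0]; norm_num
  have b1 : b 1 = z 1 := by rw [hb, Pi.sub_apply, e01, sub_zero]
  have b2 : b 2 = z 2 := by rw [hb, Pi.sub_apply, e02, sub_zero]
  have c1 : c 1 = d 1 := by rw [hcc, hdd, Pi.add_apply, Pi.sub_apply, e01, sub_zero, Pi.add_apply]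
  have c2 : c 2 = d 2 := by rw [hcc, hdd, Pi.add_apply, Pi.sub_apply, e02, sub_zero, Pi.add_apply]
  have zb : Lat.Adj z b := by
    rw [adj_coord]; left; refine ⟨by rw [hz, b0]; norm_num, b1.symm, b2.symm⟩
  have bc : Lat.Adj b c := by rw [hcc, ← hb]; exact adj_e b i
  have cd : Lat.Adj c d := by
    rw [adj_coord]; right; left; refine ⟨by rw [c0, d0]; norm_num, c1, c2⟩
  have hA' : F.G.Adj z d := by rw [hdd]; exact hA
  let p : Lat.Walk z d := SimpleGraph.Walk.cons zb (SimpleGraph.Walk.cons bc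
    (SimpleGraph.Walk.cons cd SimpleGraph.Walk.nil))
  have psup : ∀ x, x ∈ p.support ↔ x = z ∨ x = b ∨ x = c ∨ x = d := by
    intro x
    simp [p]
  have pedg : ∀ f, f ∈ p.edges ↔ f = s(z, b) ∨ f = s(b, c) ∨ f = s(c, d) := by
    intro f
    simp [p]
  have hzF : z ∈ F.V := FG.mem_V_left hA'
  have hdF : d ∈ F.V := FG.mem_V_right hA'
  have hbF : b ∉ F.V := fun h => by have := h1 b h; omega
  have hcF : c ∉ F.V := fun h => by have := h1 c h; omega
  have hzb : z ≠ b := fun h => hbF (h ▸ hzF)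
  have hzc : z ≠ c := fun h => hcF (h ▸ hzF)
  have hdb : d ≠ b := fun h => hbF (h ▸ hdF)
  have hdc : d ≠ c := fun h => hcF (h ▸ hdF)
  have hbc : b ≠ c := bc.ne
  have hzd : z ≠ d := hA'.ne
  have hp : p.IsPath := by
    simp only [p, SimpleGraph.Walk.cons_isPath_iff, SimpleGraph.Walk.support_cons,
      SimpleGraph.Walk.support_nil, List.mem_cons, List.not_mem_nil, or_false, not_or]
    exact ⟨⟨⟨SimpleGraph.Walk.IsPath.nil, hdc.symm⟩, hbc, hdb.symm⟩, hzb, hzc, hzd⟩
  have hsupp : ∀ x, x ∈ F.G.support ↔ x ∈ F.V := fun x => by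
    rw [FG.mem_V]; exact Iff.rfl
  have hlow : ∀ x y, s(x, y) ∈ p.edges → (x 0 = 0 ∨ y 0 = 0) := by
    intro x y h
    rw [pedg] at h
    rcases h with h | h | h <;> rw [Sym2.eq_iff] at h <;> rcases h with ⟨rfl, rfl⟩ | ⟨rfl, rfl⟩ <;>
      simp [b0, c0]
  have spec := detour_spec F.G F.le hcl hA' p hp
    (by
      intro x hx h2 h3
      rw [psup] at hx
      rw [hsupp]
      rcases hx with h | h | h | h
      · exact absurd h h2
      · rw [h]; exact hbF
      · rw [h]; exact hcF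
      · exact absurd h h3)
    (by
      intro x _ y _ h3 h4
      have h5 := h1 x (FG.mem_V_left h4)
      have h6 := h1 y (FG.mem_V_right h4)
      rcases hlow x y h3 with h | h <;> omega)
  obtain ⟨s1, s2, s3, s4, s5⟩ := spec
  have s3' : ∀ x, x ∈ (detour F.G p).support ↔ x ∈ F.V ∨ x = b ∨ x = c := by
    intro x
    rw [s3, hsupp, psup]
    constructor
    · rintro (h | h | h | h | h)
      · exact Or.inl h
      · left; rw [h]; exact hzF
      · exact Or.inr (Or.inl h)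
      · exact Or.inr (Or.inr h)
      · left; rw [h]; exact hdF
    · rintro (h | h | h)
      · exact Or.inl h
      · exact Or.inr (Or.inr (Or.inl h))
      · exact Or.inr (Or.inr (Or.inr (Or.inl h)))
  have sfin : (detour F.G p).support.Finite := by
    apply (F.V ∪ {b, c}).finite_toSet.subset
    intro x hx
    rw [s3'] at hx
    simp only [Finset.coe_union, Finset.coe_insert, Finset.coe_singleton, Set.mem_union,
      Finset.mem_coe, Set.mem_insert_iff, Set.mem_singleton_iff]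
    exact hx
  have shalf : ∀ x ∈ (detour F.G p).support, 0 ≤ x 0 := by
    intro x hx
    rw [s3'] at hx
    rcases hx with h | h | h
    · exact FG.nonneg h
    · rw [h, b0]
    · rw [h, c0]
  obtain ⟨F', hF'G⟩ : ∃ F' : FG, F'.G = detour F.G p := ⟨⟨_, s1, sfin, shalf⟩, rfl⟩
  rw [← hF'G] at s2 s3' s4 s5
  have hadj : ∀ x y, F'.G.Adj x y ↔ (F.G.Adj x y ∧ s(x, y) ≠ s(z, d)) ∨ s(x, y) ∈ p.edges := by
    intro x y
    rw [hF'G]; exact Iff.rfl
  have hmem : ∀ x, x ∈ F'.V ↔ x ∈ F.V ∨ x = b ∨ x = c := by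
    intro x
    rw [← s3' x]
    exact FG.mem_V
  have hF'V : F'.V = F.V ∪ {b, c} := by
    ext x
    rw [hmem, Finset.mem_union, Finset.mem_insert, Finset.mem_singleton]
  have hbV' : b ∈ F'.V := (hmem b).2 (Or.inr (Or.inl rfl))
  have hreach : ∀ x ∈ F'.V, F'.G.Reachable z x := by
    intro x hx
    have hx' : x ∈ F'.G.support := FG.mem_V.1 hx
    rcases s5 x hx' with h | h
    · exact s4 _ _ (hc z hzF x ((hsupp x).1 h))
    · exact h
  refine ⟨F', ⟨?_, ⟨b, hbV'⟩, s2, ?_, ⟨b, hbV', b0⟩, ?_, ?_, ?_, ?_⟩, ?_, ?_⟩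
  · rw [hF'V, Finset.card_union_of_disjoint, Finset.card_pair hbc]
    rw [Finset.disjoint_right]
    intro x hx
    rw [Finset.mem_insert, Finset.mem_singleton] at hx
    rcases hx with rfl | rfl
    · exact hbF
    · exact hcF
  · intro x hx y hy
    exact (hreach x hx).symm.trans (hreach y hy)
  · intro x hx
    rcases (hmem x).1 hx with h | h | h
    · exact hm1 x h
    · rw [h, b1]; exact hm1 z hzF
    · rw [h, c1]; exact hm1 d hdF
  · obtain ⟨x, hx, hx1⟩ := hm1'
    exact ⟨x, (hmem x).2 (Or.inl hx), hx1⟩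
  · intro x hx
    rcases (hmem x).1 hx with h | h | h
    · exact hm2 x h
    · rw [h, b2]; exact hm2 z hzF
    · rw [h, c2]; exact hm2 d hdF
  · obtain ⟨x, hx, hx1⟩ := hm2'
    exact ⟨x, (hmem x).2 (Or.inl hx), hx1⟩
  · -- energies
    obtain ⟨B, hB⟩ : ∃ B : Finset P, B = ({z, b, c, d} : Finset P).biUnion
      (fun q => insert q (Finset.univ.image fun dd : Dir => q + st dd)) := ⟨_, rfl⟩
    have hB1 : ∀ q, (q = z ∨ q = b ∨ q = c ∨ q = d) → q ∈ B := by
      intro q hq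
      rw [hB, Finset.mem_biUnion]
      refine ⟨q, ?_, Finset.mem_insert_self _ _⟩
      simpa using hq
    have hB2 : ∀ q x (dd : Dir), (q = z ∨ q = b ∨ q = c ∨ q = d) → x + st dd = q → x ∈ B := by
      intro q x dd hq hx
      rw [hB, Finset.mem_biUnion]
      refine ⟨q, by simpa using hq, Finset.mem_insert_of_mem ?_⟩
      rw [Finset.mem_image]
      refine ⟨opp dd, Finset.mem_univ _, ?_⟩
      rw [st_opp, ← hx]; abel
    have hBc : B.card ≤ 28 := by
      have h := Finset.card_biUnion_le_card_mul ({z, b, c, d} : Finset P)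
        (fun q => insert q (Finset.univ.image fun dd : Dir => q + st dd)) 7 (by
          intro q _
          refine (Finset.card_insert_le _ _).trans ?_
          have : (Finset.univ.image fun dd : Dir => q + st dd).card ≤ 6 := by
            refine Finset.card_image_le.trans ?_
            simp
          omega)
      have h4 : ({z, b, c, d} : Finset P).card ≤ 4 := Finset.card_le_four
      rw [hB]
      refine h.trans ?_
      omega
    apply W_compare par F F' id B 28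
    · exact Set.injOn_id _
    · intro x hx
      rw [Finset.mem_sdiff] at hx
      exact (hmem x).2 (Or.inl hx.1)
    · intro x hx
      rw [Finset.mem_sdiff] at hx
      obtain ⟨hxF, hxB⟩ := hx
      have hn : ∀ q, (q = z ∨ q = b ∨ q = c ∨ q = d) → x ≠ q := fun q hq h => hxB (h ▸ hB1 q hq)
      have hn2 : ∀ q dd, (q = z ∨ q = b ∨ q = c ∨ q = d) → x + st dd ≠ q :=
        fun q dd hq h => hxB (hB2 q x dd hq h)
      apply phi_congr' par
      · exact Iff.rfl
      · intro dd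
        rw [id, hmem]
        have t1 := hn2 b dd (by simp)
        have t2 := hn2 c dd (by simp)
        tauto
      · intro dd
        rw [id, hadj, pedg]
        have t0 := hn z (by simp)
        have t1 := hn b (by simp)
        have t2 := hn c (by simp)
        have t3 := hn d (by simp)
        simp only [ne_eq, Sym2.eq_iff, t0, t1, t2, t3, false_and, or_false, not_false_eq_true,
          and_true]
    · exact hBc
    · refine le_trans (Finset.card_le_card ?_) hBc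
      intro x hx
      rw [Finset.mem_sdiff, Finset.image_id, Finset.mem_sdiff, hmem] at hx
      by_contra hxB
      rcases hx.1 with h | h | h
      · exact hx.2 ⟨h, hxB⟩
      · exact hxB (hB1 x (Or.inr (Or.inl h)))
      · exact hxB (hB1 x (Or.inr (Or.inr (Or.inl h))))
  · intro x y
    rw [← hdd, hadj]
    constructor
    · intro h
      by_cases h2 : s(x, y) = s(z, d)
      · exact Or.inr h2
      · exact Or.inl ⟨Or.inl ⟨h, h2⟩, h1 x (FG.mem_V_left h), h1 y (FG.mem_V_right h)⟩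
    · rintro (⟨h | h, h2, h3⟩ | h)
      · exact h.1
      · rcases hlow x y h with h4 | h4 <;> omega
      · exact adj_of_sym h hA'

theorem case_above (p : Par) (N : ℕ) :
    Om p {F | F ∈ Cls 1 N ∅ ∧ F.V.Nonempty ∧ ∀ x ∈ F.V, x 0 ≠ 0} ≤
      ENNReal.ofReal (Real.exp (2 * C0 p * (28 : ℕ))) *
        (((boxF N) ×ˢ ((boxF N) ×ˢ (Finset.univ : Finset (Fin 3)))).card * Om p (TT N)) := by
  apply Om_transfer p _ _ ((boxF N) ×ˢ ((boxF N) ×ˢ (Finset.univ : Finset (Fin 3)))) _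
    (fun a l b => ∀ x y, a.G.Adj x y ↔ ((b.G.Adj (x - l.1) (y - l.1) ∧ 1 ≤ (x - l.1) 0 ∧
      1 ≤ (y - l.1) 0) ∨ s(x, y) = s(l.2.1, l.2.1 + e l.2.2)))
  · rintro F ⟨⟨h1, h2, h3, h4, h5⟩, hne, h6⟩
    obtain ⟨m0, hm0, hmin0⟩ := Finset.exists_min_image F.V (fun x => x 0) hne
    obtain ⟨m1, hm1, hmin1⟩ := Finset.exists_min_image F.V (fun x => x 1) hne
    obtain ⟨m2, hm2, hmin2⟩ := Finset.exists_min_image F.V (fun x => x 2) hne
    have hcl : ∀ x, deg F.G x = 0 ∨ deg F.G x = 2 := fun x => h4 x (Finset.notMem_empty x)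
    have hconn := conn_of_rooted F h5
    obtain ⟨z, i, hi, hz, hzA⟩ := layer_edge F 0 (deg_of_mem F hcl hm0) (Or.inl hmin0)
    have hzF : z ∈ F.V := FG.mem_V_left hzA
    have hpos : 1 ≤ m0 0 := by
      have h7 := FG.nonneg hm0
      have h8 := h6 m0 hm0
      omega
    set v : P := ![m0 0 - 1, m1 1, m2 2] with hv
    have v0 : v 0 = m0 0 - 1 := rfl
    have v1 : v 1 = m1 1 := rfl
    have v2 : v 2 = m2 2 := rfl
    have hhalf : ∀ x ∈ F.V, 0 ≤ ((trn (-v)).f x) 0 := by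
      intro x hx
      have : m0 0 ≤ x 0 := hmin0 x hx
      rw [trn_f, Pi.add_apply, Pi.neg_apply, v0]
      omega
    have hW : W p (tr (trn (-v)) F hhalf) = W p F := by
      apply W_tr
      intro x hx
      have : m0 0 ≤ x 0 := hmin0 x hx
      rw [trn_f, Pi.add_apply, Pi.neg_apply, v0]
      constructor
      · intro h; exact absurd h (h6 x hx)
      · intro h; omega
    obtain ⟨F', hF', hE, hR⟩ := lower p (tr (trn (-v)) F hhalf)
      (fun x => by rw [deg_tr']; exact hcl _)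
      (fun x hx y hy => by
        rw [reach_tr]
        exact hconn _ (mem_tr.1 hx) _ (mem_tr.1 hy))
      (fun x hx => by
        have := hmin0 _ (mem_tr.1 hx)
        simp only [trn_symm, Pi.sub_apply, Pi.neg_apply, v0] at this
        omega)
      (z - v) i hi (by rw [Pi.sub_apply, v0, hz]; ring)
      (by
        rw [tr_adj, trn_symm, trn_symm]
        have e1 : z - v - -v = z := by abel
        have e2 : z - v + e i - -v = z + e i := by abel
        rw [e1, e2]; exact hzA)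
      (fun x hx => by
        have := hmin1 _ (mem_tr.1 hx)
        simp only [trn_symm, Pi.sub_apply, Pi.neg_apply, v1] at this
        omega)
      ⟨_, mem_tr'.2 hm1, by rw [trn_f, Pi.add_apply, Pi.neg_apply, v1]; ring⟩
      (fun x hx => by
        have := hmin2 _ (mem_tr.1 hx)
        simp only [trn_symm, Pi.sub_apply, Pi.neg_apply, v2] at this
        omega)
      ⟨_, mem_tr'.2 hm2, by rw [trn_f, Pi.add_apply, Pi.neg_apply, v2]; ring⟩
    rw [card_tr] at hF'
    rw [hW] at hE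
    refine ⟨(v, z, i), ?_, F', ⟨?_, ?_⟩, ?_, ?_⟩
    · rw [Finset.mem_product, Finset.mem_product]
      refine ⟨?_, ?_, Finset.mem_univ _⟩
      · rw [Walks.mem_boxF]
        change InBox N v
        refine inBox_of ?_ (by rw [v1]; exact inBox_coord (h2 _ hm1) 1)
          (by rw [v2]; exact inBox_coord (h2 _ hm2) 2)
        have := inBox_coord (h2 _ hm0) 0
        rw [v0]; omega
      · exact Walks.mem_boxF.2 (h2 _ hzF)
    · rw [hF'.1]; exact hF'
    · rw [hF'.1]; omega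
    · intro x y
      have h7 := hR (x - v) (y - v)
      rw [tr_adj, trn_symm, trn_symm] at h7
      have e1 : x - v - -v = x := by abel
      have e2 : y - v - -v = y := by abel
      rw [e1, e2] at h7
      rw [h7]
      have h8 : s(x - v, y - v) = s(z - v, z - v + e i) ↔ s(x, y) = s(z, z + e i) := by
        have e3 : z - v + e i = z + e i - v := by abel
        rw [e3, Sym2.eq_iff, Sym2.eq_iff]
        simp only [sub_left_inj]
      rw [h8]
    · have := (abs_le.1 hE).2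
      linarith
  · intro a _ a' _ l b hR hR'
    apply FG.ext'
    intro x y
    rw [hR, hR']

theorem case_empty (p : Par) (N : ℕ) :
    Om p {F | F ∈ Cls 1 N ∅ ∧ ¬ F.V.Nonempty} ≤ 1 := by
  have hsub : ∀ F F' : FG, ¬ F.V.Nonempty → ¬ F'.V.Nonempty → F = F' := by
    intro F F' h h'
    apply FG.ext'
    intro x y
    constructor
    · intro hxy; exact absurd ⟨x, FG.mem_V_left hxy⟩ h
    · intro hxy; exact absurd ⟨x, FG.mem_V_left hxy⟩ h'
  by_cases hne : ({F | F ∈ Cls 1 N ∅ ∧ ¬ F.V.Nonempty} : Set FG).Nonempty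
  · obtain ⟨F, hF⟩ := hne
    have hs : ({F | F ∈ Cls 1 N ∅ ∧ ¬ F.V.Nonempty} : Set FG) ⊆ {F} := by
      intro F' hF'
      rw [Set.mem_singleton_iff]
      exact hsub F' F hF'.2 hF.2
    refine (Om_mono p hs).trans ?_
    unfold Om
    rw [tsum_singleton F (wt p)]
    unfold wt W
    rw [Finset.not_nonempty_iff_eq_empty.1 hF.2]
    simp
  · rw [Set.not_nonempty_iff_eq_empty] at hne
    rw [hne, Om_empty]
    exact zero_le_one

theorem boxF_card (N : ℕ) : (boxF N).card = (2 * N + 1) ^ 3 := by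
  unfold boxF
  rw [Pi.card_Icc]
  simp only [Int.card_Icc, Finset.prod_const, Finset.card_univ, Fintype.card_fin]
  congr 1
  omega

theorem cls_le (p : Par) (N : ℕ) :
    Om p (Cls 1 N ∅) ≤ 1 + ENNReal.ofReal (Real.exp (56 * C0 p)) *
      (((4 * (2 * N + 1) ^ 6 : ℕ) : ℝ≥0∞) * Om p (TT N)) := by
  have hsub : Cls 1 N ∅ ⊆ {F | F ∈ Cls 1 N ∅ ∧ ¬ F.V.Nonempty} ∪
      ({F | F ∈ Cls 1 N ∅ ∧ ∃ x ∈ F.V, x 0 = 0} ∪
        {F | F ∈ Cls 1 N ∅ ∧ F.V.Nonempty ∧ ∀ x ∈ F.V, x 0 ≠ 0}) := by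
    intro F hF
    by_cases h1 : F.V.Nonempty
    · by_cases h2 : ∃ x ∈ F.V, x 0 = 0
      · exact Or.inr (Or.inl ⟨hF, h2⟩)
      · right; right
        refine ⟨hF, h1, ?_⟩
        intro x hx h3
        exact h2 ⟨x, hx, h3⟩
    · exact Or.inl ⟨hF, h1⟩
  refine (Om_mono p hsub).trans ?_
  refine (Om_union_le p _ _).trans ?_
  refine add_le_add (case_empty p N) ?_
  refine (Om_union_le p _ _).trans ?_
  have hC := C0_nonneg p
  have hw := case_wall p N
  have ha := case_above p N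
  rw [Finset.card_product, Finset.card_product, boxF_card, Finset.card_univ, Fintype.card_fin] at ha
  rw [boxF_card] at hw
  have he1 : ENNReal.ofReal (Real.exp 0) ≤ ENNReal.ofReal (Real.exp (56 * C0 p)) :=
    ENNReal.ofReal_le_ofReal (Real.exp_le_exp.2 (by positivity))
  have he2 : ENNReal.ofReal (Real.exp (2 * C0 p * (28 : ℕ))) =
      ENNReal.ofReal (Real.exp (56 * C0 p)) := by
    congr 2; push_cast; ring
  rw [he2] at ha
  have h3 : (2 * N + 1) ^ 3 ≤ (2 * N + 1) ^ 6 := Nat.pow_le_pow_right (by omega) (by norm_num)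
  calc _ ≤ ENNReal.ofReal (Real.exp (56 * C0 p)) * ((((2 * N + 1) ^ 3 : ℕ) : ℝ≥0∞) * Om p (TT N)) +
        ENNReal.ofReal (Real.exp (56 * C0 p)) *
          ((((2 * N + 1) ^ 3 * ((2 * N + 1) ^ 3 * 3) : ℕ) : ℝ≥0∞) * Om p (TT N)) := by
        refine add_le_add (hw.trans ?_) ha
        gcongr
    _ = ENNReal.ofReal (Real.exp (56 * C0 p)) *
        ((((2 * N + 1) ^ 3 + (2 * N + 1) ^ 3 * ((2 * N + 1) ^ 3 * 3) : ℕ) : ℝ≥0∞) *
          Om p (TT N)) := by
        rw [← mul_add, ← add_mul]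
        norm_cast
    _ ≤ _ := by
        gcongr
        nlinarith

end Poly

end Pool.Agent.Lib.MP_280b4e_pr
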