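import Pool.Agent.Lib.MP_280b4e_pr.Clear
import Pool.Agent.Lib.MP_280b4e_pr.Growth

/-!
Restriction of finite graphs to unions of components; dropping a small component.
-/

namespace Pool.Agent.Lib.MP_280b4e_pr

open scoped ENNReal
open Classical

namespace FG

/-- Restriction to a set of points. -/
def sub (F : FG) (S : Set P) : FG where
  G :=
    { Adj := fun x y => F.G.Adj x y ∧ x ∈ S ∧ y ∈ S
      symm := ⟨fun _ _ h => ⟨h.1.symm, h.2.2, h.2.1⟩⟩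
      loopless := ⟨fun _ h => F.G.loopless.irrefl _ h.1⟩ }
  le := fun _ _ h => F.le h.1
  fin := F.fin.subset (by rintro x ⟨y, h⟩; exact ⟨y, h.1⟩)
  half := by rintro x ⟨y, h⟩; exact F.half x ⟨y, h.1⟩

variable {F : FG} {S : Set P}

theorem sub_adj {x y : P} : (F.sub S).G.Adj x y ↔ F.G.Adj x y ∧ x ∈ S ∧ y ∈ S := Iff.rfl

theorem mem_V_sub (hS : ∀ x y, F.G.Adj x y → x ∈ S → y ∈ S) {x : P} :
    x ∈ (F.sub S).V ↔ x ∈ F.V ∧ x ∈ S := by
  rw [mem_V, mem_V]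
  constructor
  · rintro ⟨y, h1, h2, h3⟩; exact ⟨⟨y, h1⟩, h2⟩
  · rintro ⟨⟨y, h1⟩, h2⟩; exact ⟨y, h1, h2, hS x y h1 h2⟩

theorem V_sub_subset : (F.sub S).V ⊆ F.V := by
  intro x hx
  obtain ⟨y, hy⟩ := mem_V.1 hx
  exact mem_V.2 ⟨y, hy.1⟩

theorem deg_sub_in (hS : ∀ x y, F.G.Adj x y → x ∈ S → y ∈ S) {x : P} (hx : x ∈ S) :
    deg (F.sub S).G x = deg F.G x :=
  deg_congr fun y => ⟨fun h => h.1, fun h => ⟨h, hx, hS x y h hx⟩⟩

theorem deg_sub_out {x : P} (hx : x ∉ S) : deg (F.sub S).G x = 0 :=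
  (deg_eq_zero (F.sub S).le).2 fun _ h => hx h.2.1

theorem reach_sub (hS : ∀ x y, F.G.Adj x y → x ∈ S → y ∈ S) {x y : P} (hx : x ∈ S)
    (h : F.G.Reachable x y) : (F.sub S).G.Reachable x y ∧ y ∈ S := by
  rw [SimpleGraph.reachable_iff_reflTransGen] at h
  induction h with
  | refl => exact ⟨SimpleGraph.Reachable.refl _, hx⟩
  | @tail a b _ hab ih =>
    have hb := hS a b hab ih.2
    have hab' : (F.sub S).G.Adj a b := ⟨hab, ih.2, hb⟩
    exact ⟨ih.1.trans hab'.reachable, hb⟩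

theorem compl_closed (hS : ∀ x y, F.G.Adj x y → x ∈ S → y ∈ S) :
    ∀ x y, F.G.Adj x y → x ∈ Sᶜ → y ∈ Sᶜ := fun x y h hx hy => hx (hS y x h.symm hy)

/-- Component of a point. -/
def comp (F : FG) (w : P) : Set P := {x | F.G.Reachable w x}

theorem comp_closed (w : P) : ∀ x y, F.G.Adj x y → x ∈ F.comp w → y ∈ F.comp w :=
  fun _ _ h hx => SimpleGraph.Reachable.trans hx h.reachable

theorem phi_sub (p : Par) (hS : ∀ x y, F.G.Adj x y → x ∈ S → y ∈ S)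
    (hno : ∀ x ∈ F.V, ∀ y ∈ F.V, Lat.Adj x y → x ∈ S → y ∈ S) {x : P} (hx : x ∈ F.V)
    (hxS : x ∈ S) : phi p F x = phi p (F.sub S) x := by
  refine phi_congr' p Iff.rfl ?_ ?_
  · intro d
    rw [mem_V_sub hS]
    exact ⟨fun h => ⟨h, hno x hx _ h (adj_st x d) hxS⟩, fun h => h.1⟩
  · intro d
    exact ⟨fun h => ⟨h, hxS, hS _ _ h hxS⟩, fun h => h.1⟩

theorem W_sub_add (p : Par) (hS : ∀ x y, F.G.Adj x y → x ∈ S → y ∈ S)
    (hno : ∀ x ∈ F.V, ∀ y ∈ F.V, Lat.Adj x y → x ∈ S → y ∈ S) :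
    W p F = W p (F.sub S) + W p (F.sub Sᶜ) := by
  have h1 : (F.sub S).V = F.V.filter (· ∈ S) := by
    ext x; rw [mem_V_sub hS, Finset.mem_filter]
  have h2 : (F.sub Sᶜ).V = F.V.filter (¬ · ∈ S) := by
    ext x; rw [mem_V_sub (compl_closed hS), Finset.mem_filter]; rfl
  have hno' : ∀ x ∈ F.V, ∀ y ∈ F.V, Lat.Adj x y → x ∈ Sᶜ → y ∈ Sᶜ :=
    fun x hx y hy h hxS hyS => hxS (hno y hy x hx h.symm hyS)
  unfold W
  rw [h1, h2, ← Finset.sum_filter_add_sum_filter_not F.V (· ∈ S)]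
  congr 1
  · refine Finset.sum_congr rfl fun x hx => ?_
    rw [Finset.mem_filter] at hx
    exact phi_sub p hS hno hx.1 hx.2
  · refine Finset.sum_congr rfl fun x hx => ?_
    rw [Finset.mem_filter] at hx
    exact phi_sub p (compl_closed hS) hno' hx.1 hx.2

theorem eq_of_sub {A B : FG} {S S' : Set P} (hS : ∀ x y, A.G.Adj x y → x ∈ S → y ∈ S)
    (hS' : ∀ x y, B.G.Adj x y → x ∈ S' → y ∈ S') (h1 : A.sub S = B.sub S')
    (h2 : A.sub Sᶜ = B.sub S'ᶜ) : A = B := by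
  have key : ∀ (F : FG) (S : Set P), (∀ x y, F.G.Adj x y → x ∈ S → y ∈ S) → ∀ x y,
      F.G.Adj x y ↔ (F.sub S).G.Adj x y ∨ (F.sub Sᶜ).G.Adj x y := by
    intro F S hS x y
    constructor
    · intro h
      by_cases hx : x ∈ S
      · exact Or.inl ⟨h, hx, hS x y h hx⟩
      · exact Or.inr ⟨h, hx, compl_closed hS x y h hx⟩
    · rintro (h | h) <;> exact h.1
  apply ext'
  intro x y
  rw [key A S hS, key B S' hS', h1, h2]

/-- Restriction keeps closed classes. -/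
theorem cls_sub {c c' N : ℕ} (hF : F ∈ Cls c N ∅)
    (hS : ∀ x y, F.G.Adj x y → x ∈ S → y ∈ S) (hr : Rooted c' (F.sub S).G) :
    F.sub S ∈ Cls c' N ∅ := by
  obtain ⟨h1, h2, h3, h4, h5⟩ := hF
  refine ⟨(Finset.card_le_card V_sub_subset).trans h1, fun x hx => h2 x (V_sub_subset hx),
    by simp, ?_, hr⟩
  intro x _
  by_cases hx : x ∈ S
  · rw [deg_sub_in hS hx]; exact h4 x (by simp)
  · left; exact deg_sub_out hx

theorem cls_comp {c N : ℕ} (hF : F ∈ Cls c N ∅) (w : P) : F.sub (F.comp w) ∈ Cls 1 N ∅ := by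
  refine cls_sub hF (comp_closed w) ⟨{w}, by simp, ?_⟩
  rintro x ⟨y, hxy, hx, hy⟩
  exact ⟨w, by simp, (reach_sub (comp_closed w) (SimpleGraph.Reachable.refl w) hx).1⟩

theorem cls_comp_compl {c N : ℕ} (hF : F ∈ Cls (c + 1) N ∅) {w : P} (hw : w ∈ F.V) :
    F.sub (F.comp w)ᶜ ∈ Cls c N ∅ := by
  obtain ⟨h1, h2, h3, h4, ρ, hρ1, hρ2⟩ := id hF
  refine cls_sub hF (compl_closed (comp_closed w)) ?_
  obtain ⟨r, hr, hrw⟩ := hρ2 w (by obtain ⟨y, hy⟩ := mem_V.1 hw; exact ⟨y, hy⟩)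
  refine ⟨ρ.erase r, by rw [Finset.card_erase_of_mem hr]; omega, ?_⟩
  rintro x ⟨y, hxy, hx, hy⟩
  obtain ⟨s, hs, hsx⟩ := hρ2 x ⟨y, hxy⟩
  have hsr : s ≠ r := by
    rintro rfl
    exact hx (hrw.symm.trans hsx)
  refine ⟨s, Finset.mem_erase.2 ⟨hsr, hs⟩, ?_⟩
  have hsc : s ∈ (F.comp w)ᶜ := fun hh => hx (SimpleGraph.Reachable.trans hh hsx)
  exact (reach_sub (compl_closed (comp_closed w)) hsc hsx).1

end FG

theorem Om_prod_le (p : Par) (A A₁ A₂ : Set FG)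
    (h : ∀ F ∈ A, ∃ S : Set P, (∀ x y, F.G.Adj x y → x ∈ S → y ∈ S) ∧ F.sub S ∈ A₁ ∧
      F.sub Sᶜ ∈ A₂ ∧ W p F = W p (F.sub S) + W p (F.sub Sᶜ)) :
    Om p A ≤ Om p A₁ * Om p A₂ := by
  have key := tsum_transfer (α := FG) (β := FG × FG) A (A₁ ×ˢ A₂) ({()} : Finset Unit) (wt p)
    (fun z => wt p z.1 * wt p z.2) 1
    (fun a _ b => ∃ S : Set P, (∀ x y, a.G.Adj x y → x ∈ S → y ∈ S) ∧ a.sub S = b.1 ∧
      a.sub Sᶜ = b.2) ?_ ?_
  · unfold Om
    refine key.trans ?_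
    rw [one_mul, Finset.card_singleton, Nat.cast_one, one_mul]
    apply le_of_eq
    rw [← ENNReal.tsum_mul_right]
    have e1 : ∑' b : (A₁ ×ˢ A₂ : Set (FG × FG)), wt p b.1.1 * wt p b.1.2 =
        ∑' z : A₁ × A₂, wt p z.1.1 * wt p z.2.1 := by
      rw [← (Equiv.Set.prod A₁ A₂).symm.tsum_eq]
      rfl
    rw [e1, ENNReal.tsum_prod']
    refine tsum_congr fun a => ?_
    show ∑' b : A₂, wt p a.1 * wt p b.1 = wt p a.1 * ∑' F : A₂, wt p F.1
    exact ENNReal.tsum_mul_left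
  · intro a ha
    obtain ⟨S, h1, h2, h3, h4⟩ := h a ha
    refine ⟨(), by simp, (a.sub S, a.sub Sᶜ), ⟨h2, h3⟩, ⟨S, h1, rfl, rfl⟩, ?_⟩
    rw [one_mul]
    unfold wt
    rw [← ENNReal.ofReal_mul (Real.exp_pos _).le, ← Real.exp_add, h4]
  · rintro a - a' - - b ⟨S, h1, h2, h3⟩ ⟨S', h1', h2', h3'⟩
    exact FG.eq_of_sub h1 h1' (h2.trans h2'.symm) (h3.trans h3'.symm)

/-- Small components can be dropped at a polynomial cost. -/
theorem Om_drop_le (p : Par) (c N s : ℕ) :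
    Om p {F | F ∈ Cls (c + 1) N ∅ ∧ ∃ w ∈ F.V, ∀ x, F.G.Reachable w x → InBox s (x - w)} ≤
      ENNReal.ofReal (Real.exp (14 * C0 p * (2 * s + 1 : ℕ) ^ 3)) *
      (((2 * N + 1) ^ 3 * 2 ^ (((2 * s + 1) ^ 3) ^ 2) : ℕ) * Om p (Cls c N ∅)) := by
  have key := Om_transfer (ι := P × Finset (P × P)) p
    {F | F ∈ Cls (c + 1) N ∅ ∧ ∃ w ∈ F.V, ∀ x, F.G.Reachable w x → InBox s (x - w)}
    (Cls c N ∅) (cubeF N ×ˢ (cubeF s ×ˢ cubeF s).powerset) (14 * C0 p * (2 * s + 1 : ℕ) ^ 3)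
    (fun a l b => ∀ x y, a.G.Adj x y ↔ b.G.Adj x y ∨ (x - l.1, y - l.1) ∈ l.2) ?_ ?_
  · refine key.trans (le_of_eq ?_)
    rw [Finset.card_product, Finset.card_powerset, Finset.card_product, card_cubeF, card_cubeF,
      sq]
  · rintro F ⟨hF, w, hw, hs⟩
    refine ⟨(w, (cubeF s ×ˢ cubeF s).filter fun z => F.G.Adj (w + z.1) (w + z.2) ∧
      F.G.Reachable w (w + z.1)), ?_, F.sub (F.comp w)ᶜ, FG.cls_comp_compl hF hw, ?_, ?_⟩
    · exact Finset.mem_product.2 ⟨mem_cubeF.2 (hF.2.1 w hw), Finset.mem_powerset.2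
        (Finset.filter_subset _ _)⟩
    · intro x y
      simp only [Finset.mem_filter, Finset.mem_product, mem_cubeF, add_sub_cancel]
      constructor
      · intro h
        by_cases hx : F.G.Reachable w x
        · exact Or.inr ⟨⟨hs x hx, hs y (hx.trans h.reachable)⟩, h, hx⟩
        · exact Or.inl ⟨h, hx, fun hy => hx (SimpleGraph.Reachable.trans hy h.symm.reachable)⟩
      · rintro (h | h)
        · exact h.1
        · exact h.2.1
    · have h1 := W_local p F (F.sub (F.comp w)ᶜ) ((cubeF s).image fun x => w + x) ?_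
      · have h2 : (((cubeF s).image fun x => w + x).card : ℝ) ≤ (2 * s + 1 : ℕ) ^ 3 := by
          have : ((cubeF s).image fun x => w + x).card ≤ (2 * s + 1) ^ 3 := by
            rw [← card_cubeF]; exact Finset.card_image_le
          exact_mod_cast this
        have hC := C0_nonneg p
        have h3 : 14 * C0 p * (((cubeF s).image fun x => w + x).card : ℝ) ≤
            14 * C0 p * (2 * s + 1 : ℕ) ^ 3 := by gcongr
        have h4 := (abs_le.1 h1).2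
        linarith
      · intro x y hxy
        constructor
        · intro h
          have hnx : ¬ F.G.Reachable w x := by
            intro hx
            refine hxy ⟨?_, ?_⟩
            · exact Finset.mem_image.2 ⟨x - w, mem_cubeF.2 (hs x hx), by simp⟩
            · exact Finset.mem_image.2 ⟨y - w, mem_cubeF.2 (hs y (hx.trans h.reachable)), by simp⟩
          exact ⟨h, hnx, fun hy => hnx (SimpleGraph.Reachable.trans hy h.symm.reachable)⟩
        · intro h; exact h.1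
  · intro a _ a' _ l b h h'
    apply FG.ext'
    intro x y
    rw [h x y, h' x y]

end Pool.Agent.Lib.MP_280b4e_pr
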