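import Pool.Agent.Lib.MP_280b4e_pr.DStep

/-!
Graphs with two free ends grow subexponentially.
-/

namespace Pool.Agent.Lib.MP_280b4e_pr

open scoped ENNReal
open Classical

theorem all_pairs (p : Par) (hS : ∀ c, SubExp (fun N => Om p (Cls c N ∅))) (c : ℕ) (ε : ℝ)
    (hε : 0 < ε) : ∃ K : ℝ, 0 ≤ K ∧ ∀ (N : ℕ) (a b : P),
      Om p (Cls c N {a, b}) ≤ ENNReal.ofReal (K * Real.exp (ε * N)) := by
  have hC := C0_nonneg p
  have h2 := dstep p hS 2 (by decide) (14 * C0 p + 3) (by positivity)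
    (fun c ε hε => close_pair p hS 2 c ε hε)
  have h1 := dstep p hS 1 (by decide) 0 le_rfl (fun c ε hε => by
    obtain ⟨K, hK, h⟩ := h2 c ε hε
    refine ⟨K, hK, fun N b k _ => ?_⟩
    have := h N b (b + (k : ℤ) • e 1)
    have e1 : |b 2 - (b + (k : ℤ) • e 1) 2| = 0 := by simp [e]
    rw [e1] at this
    simpa using this)
  obtain ⟨K, hK, h⟩ := h1 c ε hε
  refine ⟨K, hK, fun N a b => ?_⟩
  simpa using h N a b

end Pool.Agent.Lib.MP_280b4e_pr
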